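import Mathlib

/-!
# Gluck twists of twist-roll spins and 4-moves: definitions

`ex x = exp (2πix)`.  Points of the spheres `S2`, `S3`, `S4` are written with complex coordinates
(`pS2`, `pS3`, `pS4`); on `S4` we use the coordinates `c1 z, c2 z` in `C` and `ht z` in `R`.

`PP = {z in S4 | fh z ≠ 0}` is the complement of the standard torus `|c1| = |c2|, ht = 0`; it is the
interior of the Montesinos twin, a neighbourhood of the two spheres `c1 = 0` and `c2 = 0`, which meet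
transversally in the two points `(0, 0, ±1)`.
-/

open scoped Manifold ContDiff
open Complex (I)

namespace Pool.Agent.RSG

/-- Euclidean spaces -/
abbrev E3 := EuclideanSpace ℝ (Fin 3)
abbrev E4 := EuclideanSpace ℝ (Fin 4)
abbrev E5 := EuclideanSpace ℝ (Fin 5)
/-- unit spheres -/
abbrev S2 := Metric.sphere (0 : E3) 1
abbrev S3 := Metric.sphere (0 : E4) 1
abbrev S4 := Metric.sphere (0 : E5) 1

/-- `ex x = exp (2πix)` -/
noncomputable def ex (x : ℝ) : ℂ := Complex.exp ((2 * Real.pi * x : ℝ) * I)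

/-- `cj 1` is the identity and `cj (-1)` the complex conjugation -/
noncomputable def cj (ε : ℝ) (v : ℂ) : ℂ := ⟨v.re, ε * v.im⟩

/-- radial projection to the unit sphere -/
noncomputable def toSph {E : Type*} [NormedAddCommGroup E] [NormedSpace ℝ E]
    (e : Metric.sphere (0 : E) 1) (v : E) : Metric.sphere (0 : E) 1 :=
  open Classical in
  if h : v = 0 then e else ⟨‖v‖⁻¹ • v, by simp [norm_smul, norm_ne_zero_iff.2 h]⟩

/-- the point `(a, h) / |(a, h)|` of `S2` -/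
noncomputable def pS2 (a : ℂ) (h : ℝ) : S2 :=
  toSph ⟨EuclideanSpace.single 0 1, by simp⟩ (WithLp.toLp 2 ![a.re, a.im, h])
/-- the point `(a, b) / |(a, b)|` of `S3` -/
noncomputable def pS3 (a b : ℂ) : S3 :=
  toSph ⟨EuclideanSpace.single 0 1, by simp⟩ (WithLp.toLp 2 ![a.re, a.im, b.re, b.im])
/-- the point `(a, b, h) / |(a, b, h)|` of `S4` -/
noncomputable def pS4 (a b : ℂ) (h : ℝ) : S4 :=
  toSph ⟨EuclideanSpace.single 0 1, by simp⟩ (WithLp.toLp 2 ![a.re, a.im, b.re, b.im, h])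

/-- complex coordinates of `S2`, `S4` -/
noncomputable def hz (y : S2) : ℂ := ⟨y.1 0, y.1 1⟩
noncomputable def ho (y : S2) : ℝ := y.1 2
noncomputable def c1 (z : S4) : ℂ := ⟨z.1 0, z.1 1⟩
noncomputable def c2 (z : S4) : ℂ := ⟨z.1 2, z.1 3⟩
noncomputable def ht (z : S4) : ℝ := z.1 4

/-- `fh z = (|c1|² - |c2|²) + i ht √(2 - ht²)`; we have `|fh z|² + (2 |c1| |c2|)² = 1`.
It vanishes exactly on the standard torus. -/
noncomputable def fh (z : S4) : ℂ :=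
  ⟨‖c1 z‖ ^ 2 - ‖c2 z‖ ^ 2, ht z * Real.sqrt (2 - ht z ^ 2)⟩

section knots
variable {N : Type*} [TopologicalSpace N] [ChartedSpace E3 N]

/-- A thick knot (a framed knot with an open tubular neighbourhood) in the 3-manifold `N`: `κ (l, v)`
with `l` in `R / Z` and `v` in the open unit disc.  The knot is `κ (l, 0)`. -/
structure Thick (κ : ℝ × ℂ → N) : Prop where
  per : ∀ (l : ℝ) (v : ℂ), κ (l + 1, v) = κ (l, v)
  loc : ∀ (l : ℝ) (v : ℂ), ‖v‖ < 1 → IsLocalDiffeomorphAt 𝓘(ℝ, ℝ × ℂ) (𝓡 3) ∞ κ (l, v)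
  inj : ∀ (l : ℝ) (v : ℂ) (l' : ℝ) (v' : ℂ), ‖v‖ < 1 → ‖v'‖ < 1 → κ (l, v) = κ (l', v') →
    v = v' ∧ ∃ m : ℤ, l' = l + m

/-- `x` is a point of the knot -/
def OnKnot (κ : ℝ × ℂ → N) (x : N) : Prop := ∃ l : ℝ, x = κ (l, 0)

/-- `turn s` is `1` for `s ≤ -1/2` and makes two full turns for `-1/2 ≤ s ≤ 1/2` -/
noncomputable def turn (s : ℝ) : ℂ := ex (2 * Real.smoothTransition (s + 1 / 2))

/-- In the coordinates `b` of a ball, the thick knot `κ` is near the parameter `l = 1/2 - δ/4`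
(`1/4` for `δ = 1`, `3/4` for `δ = -1`) the straight thick strand at the point `δ`, with
direction `ε = ±1`. -/
def Strand (κ : ℝ × ℂ → N) (b : ℂ × ℝ → N) (δ ε : ℝ) : Prop :=
  ∀ (l : ℝ) (v : ℂ), |l| < 1 / 16 → ‖v‖ < 1 →
    κ (1 / 2 - δ / 4 + l, v) = b (δ + cj ε v / 2, 16 * ε * l)

/-- The same after two full turns of the horizontal plane of the ball. -/
def TwistedStrand (κ : ℝ × ℂ → N) (b : ℂ × ℝ → N) (δ ε : ℝ) : Prop :=
  ∀ (l : ℝ) (v : ℂ), |l| < 1 / 16 → ‖v‖ < 1 →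
    κ (1 / 2 - δ / 4 + l, v) = b (turn (16 * ε * l) * (δ + cj ε v / 2), 16 * ε * l)

/-- `κ'` is obtained from the thick knot `κ` by a 4-move in the ball `b`: in the ball, `κ` consists
of two straight strands, which are replaced by the same strands with two full twists (four
crossings).  The signs `ε₁`, `ε₂` are the directions of the strands. -/
structure FourMoveVia (κ κ' : ℝ × ℂ → N) (b : ℂ × ℝ → N) (ε₁ ε₂ : ℝ) : Prop where
  thick : Thick κ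
  per' : ∀ (l : ℝ) (v : ℂ), κ' (l + 1, v) = κ' (l, v)
  sign₁ : ε₁ = 1 ∨ ε₁ = -1
  sign₂ : ε₂ = 1 ∨ ε₂ = -1
  ball_loc : ∀ (z : ℂ) (s : ℝ), ‖z‖ < 4 → |s| < 1 → IsLocalDiffeomorphAt 𝓘(ℝ, ℂ × ℝ) (𝓡 3) ∞ b (z, s)
  ball_inj : ∀ (z : ℂ) (s : ℝ) (z' : ℂ) (s' : ℝ), ‖z‖ < 4 → |s| < 1 → ‖z'‖ < 4 → |s'| < 1 →
    b (z, s) = b (z', s') → z = z' ∧ s = s'
  strand₁ : Strand κ b 1 ε₁
  strand₂ : Strand κ b (-1) ε₂
  strand₁' : TwistedStrand κ' b 1 ε₁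
  strand₂' : TwistedStrand κ' b (-1) ε₂
  rest : ∀ (l : ℝ) (v : ℂ), ‖v‖ < 1 →
    (∀ k : ℤ, 1 / 16 ≤ |l - 1 / 4 - k| ∧ 1 / 16 ≤ |l - 3 / 4 - k|) →
      κ' (l, v) = κ (l, v) ∧ ∀ (z : ℂ) (s : ℝ), ‖z‖ < 4 → |s| < 1 → κ (l, v) ≠ b (z, s)

/-- `κ'` is obtained from `κ` by a 4-move. -/
def FourMove (κ κ' : ℝ × ℂ → N) : Prop := ∃ (b : ℂ × ℝ → N) (ε₁ ε₂ : ℝ), FourMoveVia κ κ' b ε₁ ε₂

/-- The equivalence relation on thick knots generated by the 4-moves, by the diffeomorphisms of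
`N` and by changing a thick knot outside a neighbourhood of the knot (so that the size of the
tubular neighbourhood is irrelevant). -/
inductive FourMoveEquiv : (ℝ × ℂ → N) → (ℝ × ℂ → N) → Prop
  | move {κ κ' : ℝ × ℂ → N} : FourMove κ κ' → FourMoveEquiv κ κ'
  | diffeo (κ : ℝ × ℂ → N) (F : N ≃ₘ⟮𝓡 3, 𝓡 3⟯ N) : FourMoveEquiv κ (F ∘ κ)
  | germ {κ κ' : ℝ × ℂ → N} (η : ℝ) : 0 < η → Thick κ → Thick κ' →
      (∀ (l : ℝ) (v : ℂ), ‖v‖ < η → κ' (l, v) = κ (l, v)) → FourMoveEquiv κ κ'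
  | symm {κ κ' : ℝ × ℂ → N} : FourMoveEquiv κ κ' → FourMoveEquiv κ' κ
  | trans {κ κ' κ'' : ℝ × ℂ → N} :
      FourMoveEquiv κ κ' → FourMoveEquiv κ' κ'' → FourMoveEquiv κ κ''

end knots

/-- The unknot of `S3` with framing `k`. -/
noncomputable def std (k : ℤ) (q : ℝ × ℂ) : S3 :=
  pS3 (q.2 * ex (k * q.1)) (Real.sqrt (1 - ‖q.2‖ ^ 2) * ex q.1)

/-- The thick knot `κ` of `S3` can be unknotted by 4-moves. -/
def FourMoveTrivial (κ : ℝ × ℂ → S3) : Prop := ∃ k : ℤ, FourMoveEquiv κ (std k)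

section four
variable {N : Type*} [TopologicalSpace N] [ChartedSpace E3 N]

/-- `X` is the union of `(N - K) × S¹` (`K` the knot `κ (l, 0)`, the circle `R / Z` with coordinate
`t`; map `A`) and of the (open) twin `PP = {fh ≠ 0}` (map `Q`), glued as follows.  On
`(N - K) × S¹` near `K × S¹` we have the angles `m, l, t`: the point `(κ (l, r ex m), t)`,
`0 < r < 1`.  It is identified with the point `z` of the twin with `2 |c1 z| |c2 z| = r`,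
`arg (c1 z) = a₁ m + b₁ t`, `arg (c2 z) = a₂ m + b₂ t` and `arg (fh z) = l - n t`. -/
structure TwinData (κ : ℝ × ℂ → N) (a₁ b₁ a₂ b₂ n : ℤ) (X : Type*) [TopologicalSpace X]
    [ChartedSpace E4 X] where
  A : N × ℝ → X
  Q : S4 → X
  A_per : ∀ (x : N) (t : ℝ), A (x, t + 1) = A (x, t)
  A_loc : ∀ (x : N) (t : ℝ), ¬ OnKnot κ x → IsLocalDiffeomorphAt ((𝓡 3).prod 𝓘(ℝ, ℝ)) (𝓡 4) ∞ A (x, t)
  A_inj : ∀ (x x' : N) (t t' : ℝ), ¬ OnKnot κ x → ¬ OnKnot κ x' → A (x, t) = A (x', t') →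
    x = x' ∧ ∃ m : ℤ, t' = t + m
  Q_loc : ∀ z : S4, fh z ≠ 0 → IsLocalDiffeomorphAt (𝓡 4) (𝓡 4) ∞ Q z
  Q_inj : ∀ z z' : S4, fh z ≠ 0 → fh z' ≠ 0 → Q z = Q z' → z = z'
  glue : ∀ (z : S4) (l m t : ℝ), fh z ≠ 0 → c1 z ≠ 0 → c2 z ≠ 0 →
    c1 z = ‖c1 z‖ * ex (a₁ * m + b₁ * t) → c2 z = ‖c2 z‖ * ex (a₂ * m + b₂ * t) →
    fh z = ‖fh z‖ * ex (l - n * t) → Q z = A (κ (l, (2 * ‖c1 z‖ * ‖c2 z‖ : ℝ) * ex m), t)
  disj : ∀ (z : S4) (x : N) (t : ℝ), fh z ≠ 0 → c1 z = 0 ∨ c2 z = 0 → ¬ OnKnot κ x → Q z ≠ A (x, t)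
  cover : ∀ q : X, (∃ (x : N) (t : ℝ), ¬ OnKnot κ x ∧ q = A (x, t)) ∨ ∃ z : S4, fh z ≠ 0 ∧ q = Q z

/-- `X` is the `j`-twist `n`-roll spin of the knot `κ`: the meridians of the two spheres of the twin
are `t + n l + j m` (sphere `c1 = 0`) and `m` (sphere `c2 = 0`, the 2-knot).  For `N = S3` the
manifold is the 4-sphere. -/
abbrev RollSpin (κ : ℝ × ℂ → N) (n j : ℤ) (X : Type*) [TopologicalSpace X]
    [ChartedSpace E4 X] := TwinData κ 0 1 1 (-j) n X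

/-- `X` is the union of `(N - K) × S¹` and of a twin such that the meridians of the two spheres are
`e = t + n l + j m` and `m - e`. -/
abbrev RollGluck (κ : ℝ × ℂ → N) (n j : ℤ) (X : Type*) [TopologicalSpace X]
    [ChartedSpace E4 X] := TwinData κ 1 (1 - j) 1 (-j) n X

def IsRollGluck (κ : ℝ × ℂ → N) (n j : ℤ) (X : Type*) [TopologicalSpace X]
    [ChartedSpace E4 X] : Prop := Nonempty (RollGluck κ n j X)

/-- Tubular neighbourhood of the 2-knot `Q {c2 = 0}` of the `j`-twist `n`-roll spin. -/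
noncomputable def RollSpin.tube {κ : ℝ × ℂ → N} {n j : ℤ} {Y : Type*} [TopologicalSpace Y]
    [ChartedSpace E4 Y] (D : RollSpin κ n j Y) (q : S2 × ℂ) : Y :=
  D.Q (pS4 (Real.sqrt (1 - ‖q.2‖ ^ 2 / 4) * hz q.1) ((starRingEnd ℂ) q.2 / 2)
    (Real.sqrt (1 - ‖q.2‖ ^ 2 / 4) * ho q.1))

end four

/-- the rotation of `S2` by the unit complex number `u` -/
noncomputable def rotS (u : ℂ) (y : S2) : S2 := pS2 (u * hz y) (ho y)

/-- `X` is the result of the Gluck twist of `Y` along the 2-sphere `ι (S² × 0)` with the tubular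
neighbourhood `ι : S² × D² → Y`: the 2-sphere is removed and replaced by `S² × D²` (map `ι'`)
with `ι' (y, r e^{iθ}) = ι (rotation of y by θ, r e^{iθ})` for `0 < r < 1`. -/
structure GluckTwist {Y : Type*} [TopologicalSpace Y] [ChartedSpace E4 Y] (ι : S2 × ℂ → Y)
    (X : Type*) [TopologicalSpace X] [ChartedSpace E4 X] where
  G : Y → X
  ι' : S2 × ℂ → X
  G_loc : ∀ q, (∀ y, q ≠ ι (y, 0)) → IsLocalDiffeomorphAt (𝓡 4) (𝓡 4) ∞ G q
  G_inj : ∀ q q', (∀ y, q ≠ ι (y, 0)) → (∀ y, q' ≠ ι (y, 0)) → G q = G q' → q = q'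
  ι'_loc : ∀ y v, ‖v‖ < 1 → IsLocalDiffeomorphAt ((𝓡 2).prod 𝓘(ℝ, ℂ)) (𝓡 4) ∞ ι' (y, v)
  ι'_inj : ∀ y y' v v', ‖v‖ < 1 → ‖v'‖ < 1 → ι' (y, v) = ι' (y', v') → y = y' ∧ v = v'
  glue : ∀ y v, v ≠ 0 → ‖v‖ < 1 → ι' (y, v) = G (ι (rotS (v / ‖v‖) y, v))
  disj : ∀ y q, (∀ y', q ≠ ι (y', 0)) → ι' (y, 0) ≠ G q
  cover : ∀ p, (∃ q, (∀ y, q ≠ ι (y, 0)) ∧ p = G q) ∨ ∃ y, p = ι' (y, 0)

end Pool.Agent.RSG
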