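import Pool.Agent.CSG.LDa
import Pool.Agent.CSG.LDb
import Pool.Agent.CSG.XiB
import Pool.Agent.RSG.Defs

/-!
# RSG/LDc: local diffeomorphisms, general lemmas   (difficulty 2)

* `ld_two`: let `U ∋ x`, `V ∋ f x` be open, `f` smooth on `U` with `g (f y) = y` there, `g` smooth on
  `V` with `f (g z) = z` there.  Put `U' = U ∩ f⁻¹ V`, `V' = V ∩ g⁻¹ U'` (open).  `f : U' → V'` and
  `g : V' → U'` are inverse (`y ∈ U'`: `f y ∈ V`, `g (f y) = y ∈ U'`, so `f y ∈ V'`).  This is a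
  `PartialDiffeomorph`.
* `ld_prodMap`: the product of the two `PartialDiffeomorph`s (or `ld_two` with the local inverses).
* `ld_ball`: composition of `((z, s), t) ↦ (b (z, s), t)` (`ld_prodMap`), of `A`, and of the linear
  equivalence `C × R × R ≃ (C × R) × R`; `𝓘(ℝ, (C × R) × R) = 𝓘(ℝ, C × R).prod 𝓘(ℝ, R)` is
  `modelWithCornersSelf_prod`, `chartedSpaceSelf_prod` (see the CSG library, e.g. `CSG/XiB`,
  `CSG/Kappa`, for compositions of this kind).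
* `ld_left` is proved (it is `CSG.XiB_left`).
* `exists_diffeo`: `IsLocalDiffeomorph.diffeomorphOfBijective`.
* `glue_diffeo` (gluing): choose for every `q` in `X` a preimage under `f₁` or `f₂` and let `Φ q` be
  its image under `g₁` or `g₂`.  By the four `iff` hypotheses `Φ (f₁ x) = g₁ x` on `U₁`,
  `Φ (f₂ x) = g₂ x` on `U₂` and `Φ` is injective; by `covX`, `covY` it is bijective.  At `q = f₁ x`:
  `Φ ∘ f₁ = g₁` near `x` (`U₁` open), hence `Φ` is a local diffeomorphism at `q` by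
  `CSG.ld_of_comp_left`.  Then `exists_diffeo`.
-/

open scoped Manifold ContDiff Topology
open Set Filter

namespace Pool.Agent.RSG

section
variable {E : Type*} [NormedAddCommGroup E] [NormedSpace ℝ E]
  {F : Type*} [NormedAddCommGroup F] [NormedSpace ℝ F]
  {E' : Type*} [NormedAddCommGroup E'] [NormedSpace ℝ E']
  {F' : Type*} [NormedAddCommGroup F'] [NormedSpace ℝ F']
  {H : Type*} [TopologicalSpace H] {G : Type*} [TopologicalSpace G]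
  {H' : Type*} [TopologicalSpace H'] {G' : Type*} [TopologicalSpace G']
  {I : ModelWithCorners ℝ E H} {J : ModelWithCorners ℝ F G}
  {I' : ModelWithCorners ℝ E' H'} {J' : ModelWithCorners ℝ F' G'}
  {M : Type*} [TopologicalSpace M] [ChartedSpace H M]
  {N : Type*} [TopologicalSpace N] [ChartedSpace G N]
  {M' : Type*} [TopologicalSpace M'] [ChartedSpace H' M']
  {N' : Type*} [TopologicalSpace N'] [ChartedSpace G' N']

theorem ld_two {f : M → N} {g : N → M} {x : M}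
    (hf : ∀ᶠ y in 𝓝 x, ContMDiffAt I J ∞ f y) (hg : ∀ᶠ y in 𝓝 (f x), ContMDiffAt J I ∞ g y)
    (hgf : ∀ᶠ y in 𝓝 x, g (f y) = y) (hfg : ∀ᶠ y in 𝓝 (f x), f (g y) = y) :
    IsLocalDiffeomorphAt I J ∞ f x := by
  obtain ⟨U, hUs, hU, hxU⟩ := mem_nhds_iff.1 (hf.and hgf)
  obtain ⟨V, hVs, hV, hxV⟩ := mem_nhds_iff.1 (hg.and hfg)
  have hfc : ContinuousOn f U := fun y hy => (hUs hy).1.continuousAt.continuousWithinAt
  have hgc : ContinuousOn g V := fun y hy => (hVs hy).1.continuousAt.continuousWithinAt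
  refine ⟨{ toFun := f, invFun := g, source := U ∩ f ⁻¹' V, target := V ∩ g ⁻¹' U,
            map_source' := ?_, map_target' := ?_, left_inv' := ?_, right_inv' := ?_,
            open_source := hfc.isOpen_inter_preimage hU hV,
            open_target := hgc.isOpen_inter_preimage hV hU,
            contMDiffOn_toFun := ?_, contMDiffOn_invFun := ?_ }, ⟨hxU, hxV⟩, fun _ _ => rfl⟩
  · rintro y ⟨hy1, hy2⟩
    refine ⟨hy2, ?_⟩
    change g (f y) ∈ U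
    rw [(hUs hy1).2]
    exact hy1
  · rintro y ⟨hy1, hy2⟩
    refine ⟨hy2, ?_⟩
    change f (g y) ∈ V
    rw [(hVs hy1).2]
    exact hy1
  · rintro y ⟨hy1, hy2⟩
    exact (hUs hy1).2
  · rintro y ⟨hy1, hy2⟩
    exact (hVs hy1).2
  · rintro y ⟨hy1, hy2⟩
    exact (hUs hy1).1.contMDiffWithinAt
  · rintro y ⟨hy1, hy2⟩
    exact (hVs hy1).1.contMDiffWithinAt

theorem ld_prodMap {f : M → N} {g : M' → N'} {x : M} {y : M'}
    (hf : IsLocalDiffeomorphAt I J ∞ f x) (hg : IsLocalDiffeomorphAt I' J' ∞ g y) :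
    IsLocalDiffeomorphAt (I.prod I') (J.prod J') ∞ (Prod.map f g) (x, y) := by
  have h1 := hf.localInverse_isLocalDiffeomorphAt
  have h2 := hg.localInverse_isLocalDiffeomorphAt
  have hfx : ∀ᶠ z in 𝓝 (x, y), ContMDiffAt (I.prod I') (J.prod J') ∞ (Prod.map f g) z := by
    rw [nhds_prod_eq]
    filter_upwards [(CSG.ld_eventually hf).prod_mk (CSG.ld_eventually hg)] with z hz
    exact hz.1.contMDiffAt.prodMap hz.2.contMDiffAt
  have hgx : ∀ᶠ z in 𝓝 (f x, g y), ContMDiffAt (J.prod J') (I.prod I') ∞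
      (Prod.map hf.localInverse hg.localInverse) z := by
    rw [nhds_prod_eq]
    filter_upwards [(CSG.ld_eventually h1).prod_mk (CSG.ld_eventually h2)] with z hz
    exact hz.1.contMDiffAt.prodMap hz.2.contMDiffAt
  refine ld_two (g := Prod.map hf.localInverse hg.localInverse) hfx hgx ?_ ?_
  · rw [nhds_prod_eq]
    filter_upwards [hf.localInverse_eventuallyEq_left.prod_mk
      hg.localInverse_eventuallyEq_left] with z hz
    exact Prod.ext hz.1 hz.2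
  · change ∀ᶠ z in 𝓝 (f x, g y), _
    rw [nhds_prod_eq]
    filter_upwards [hf.localInverse_eventuallyEq_right.prod_mk
      hg.localInverse_eventuallyEq_right] with z hz
    exact Prod.ext hz.1 hz.2

theorem exists_diffeo {Φ : M → N} (h : ∀ x, IsLocalDiffeomorphAt I J ∞ Φ x)
    (hb : Function.Bijective Φ) : Nonempty (M ≃ₘ⟮I, J⟯ N) :=
  ⟨IsLocalDiffeomorph.diffeomorphOfBijective (f := Φ) (fun x => h x) hb⟩

/-- Two manifolds `X`, `Y` which are unions of the same two pieces `U₁`, `U₂`, glued in the same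
way, are diffeomorphic. -/
theorem glue_diffeo {X : Type*} [TopologicalSpace X] [ChartedSpace G X]
    {Y : Type*} [TopologicalSpace Y] [ChartedSpace G Y]
    {U₁ : Set M} {U₂ : Set M'} (hU₁ : IsOpen U₁) (hU₂ : IsOpen U₂)
    {f₁ : M → X} {f₂ : M' → X} {g₁ : M → Y} {g₂ : M' → Y}
    (hf₁ : ∀ x ∈ U₁, IsLocalDiffeomorphAt I J ∞ f₁ x)
    (hf₂ : ∀ x ∈ U₂, IsLocalDiffeomorphAt I' J ∞ f₂ x)
    (hg₁ : ∀ x ∈ U₁, IsLocalDiffeomorphAt I J ∞ g₁ x)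
    (hg₂ : ∀ x ∈ U₂, IsLocalDiffeomorphAt I' J ∞ g₂ x)
    (h11 : ∀ x ∈ U₁, ∀ y ∈ U₁, f₁ x = f₁ y ↔ g₁ x = g₁ y)
    (h12 : ∀ x ∈ U₁, ∀ y ∈ U₂, f₁ x = f₂ y ↔ g₁ x = g₂ y)
    (h22 : ∀ x ∈ U₂, ∀ y ∈ U₂, f₂ x = f₂ y ↔ g₂ x = g₂ y)
    (covX : ∀ q, (∃ x ∈ U₁, q = f₁ x) ∨ ∃ x ∈ U₂, q = f₂ x)
    (covY : ∀ q, (∃ x ∈ U₁, q = g₁ x) ∨ ∃ x ∈ U₂, q = g₂ x) :
    Nonempty (X ≃ₘ⟮J, J⟯ Y) := by
  classical
  have key : ∀ q, ∃ p : Y, (∃ x ∈ U₁, q = f₁ x ∧ p = g₁ x) ∨ ∃ x ∈ U₂, q = f₂ x ∧ p = g₂ x := by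
    intro q
    rcases covX q with ⟨x, hx, rfl⟩ | ⟨x, hx, rfl⟩
    · exact ⟨g₁ x, Or.inl ⟨x, hx, rfl, rfl⟩⟩
    · exact ⟨g₂ x, Or.inr ⟨x, hx, rfl, rfl⟩⟩
  choose Φ hΦ using key
  have hΦ1 : ∀ x ∈ U₁, Φ (f₁ x) = g₁ x := by
    intro x hx
    rcases hΦ (f₁ x) with ⟨y, hy, h1, h2⟩ | ⟨y, hy, h1, h2⟩
    · rw [h2]
      exact ((h11 x hx y hy).1 h1).symm
    · rw [h2]
      exact ((h12 x hx y hy).1 h1).symm
  have hΦ2 : ∀ x ∈ U₂, Φ (f₂ x) = g₂ x := by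
    intro x hx
    rcases hΦ (f₂ x) with ⟨y, hy, h1, h2⟩ | ⟨y, hy, h1, h2⟩
    · rw [h2]
      exact (h12 y hy x hx).1 h1.symm
    · rw [h2]
      exact ((h22 x hx y hy).1 h1).symm
  refine exists_diffeo (Φ := Φ) ?_ ⟨?_, ?_⟩
  · intro q
    rcases covX q with ⟨x, hx, rfl⟩ | ⟨x, hx, rfl⟩
    · refine CSG.ld_of_comp_left (f := f₁) ?_ (hf₁ x hx)
      refine CSG.ld_congr (hg₁ x hx) ?_
      filter_upwards [hU₁.mem_nhds hx] with y hy
      exact hΦ1 y hy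
    · refine CSG.ld_of_comp_left (f := f₂) ?_ (hf₂ x hx)
      refine CSG.ld_congr (hg₂ x hx) ?_
      filter_upwards [hU₂.mem_nhds hx] with y hy
      exact hΦ2 y hy
  · intro q q' h
    rcases covX q with ⟨x, hx, rfl⟩ | ⟨x, hx, rfl⟩ <;>
      rcases covX q' with ⟨y, hy, rfl⟩ | ⟨y, hy, rfl⟩
    · rw [hΦ1 x hx, hΦ1 y hy] at h
      exact (h11 x hx y hy).2 h
    · rw [hΦ1 x hx, hΦ2 y hy] at h
      exact (h12 x hx y hy).2 h
    · rw [hΦ2 x hx, hΦ1 y hy] at h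
      exact ((h12 y hy x hx).2 h.symm).symm
    · rw [hΦ2 x hx, hΦ2 y hy] at h
      exact (h22 x hx y hy).2 h
  · intro q
    rcases covY q with ⟨x, hx, rfl⟩ | ⟨x, hx, rfl⟩
    · exact ⟨f₁ x, hΦ1 x hx⟩
    · exact ⟨f₂ x, hΦ2 x hx⟩

end

/-- a smooth map between vector spaces of the same dimension with a differentiable left inverse is
a local diffeomorphism (proved) -/
theorem ld_left {V : Type*} [NormedAddCommGroup V] [NormedSpace ℝ V] [FiniteDimensional ℝ V]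
    {W : Type*} [NormedAddCommGroup W] [NormedSpace ℝ W] [FiniteDimensional ℝ W]
    {f : V → W} {g : W → V} {x : V} (hf : ∀ᶠ y in 𝓝 x, ContDiffAt ℝ ∞ f y)
    (hdim : Module.finrank ℝ V = Module.finrank ℝ W)
    (hg : DifferentiableAt ℝ g (f x)) (hgf : ∀ᶠ y in 𝓝 x, g (f y) = y) :
    IsLocalDiffeomorphAt 𝓘(ℝ, V) 𝓘(ℝ, W) ∞ f x :=
  Pool.Agent.CSG.XiB_left hf hdim hg hgf

theorem ld_ball {N : Type*} [TopologicalSpace N] [ChartedSpace E3 N]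
    {X : Type*} [TopologicalSpace X] [ChartedSpace E4 X] {b : ℂ × ℝ → N} {A : N × ℝ → X}
    {z : ℂ} {s t : ℝ} (hb : IsLocalDiffeomorphAt 𝓘(ℝ, ℂ × ℝ) (𝓡 3) ∞ b (z, s))
    (hA : IsLocalDiffeomorphAt ((𝓡 3).prod 𝓘(ℝ, ℝ)) (𝓡 4) ∞ A (b (z, s), t)) :
    IsLocalDiffeomorphAt 𝓘(ℝ, ℂ × ℝ × ℝ) (𝓡 4) ∞
      (fun q : ℂ × ℝ × ℝ => A (b (q.1, q.2.1), q.2.2)) (z, s, t) := by
  have h1 : IsLocalDiffeomorphAt (𝓘(ℝ, ℂ × ℝ).prod 𝓘(ℝ, ℝ)) ((𝓡 3).prod 𝓘(ℝ, ℝ)) ∞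
      (Prod.map b (id : ℝ → ℝ)) ((z, s), t) :=
    ld_prodMap hb (CSG.ld_id t)
  have h2 : IsLocalDiffeomorphAt 𝓘(ℝ, ℂ × ℝ × ℝ) (𝓘(ℝ, ℂ × ℝ).prod 𝓘(ℝ, ℝ)) ∞
      (fun q : ℂ × ℝ × ℝ => ((q.1, q.2.1), q.2.2)) (z, s, t) := by
    rw [← modelWithCornersSelf_prod, chartedSpaceSelf_prod]
    refine CSG.ld_of_perm (f := (Equiv.prodAssoc ℂ ℝ ℝ).symm) ?_ ?_ (z, s, t)
    · exact (contDiff_fst.prodMk contDiff_snd.fst).prodMk contDiff_snd.snd
    · exact contDiff_fst.fst.prodMk (contDiff_fst.snd.prodMk contDiff_snd)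
  have h3 := IsLocalDiffeomorphAt.comp (hf := h2) (g := Prod.map b (id : ℝ → ℝ)) (hg := h1)
  exact IsLocalDiffeomorphAt.comp (hf := h3) (g := A) (hg := hA)

end Pool.Agent.RSG
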