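import Pool.Agent.RSG.Defs

/-!
# RSG/ExM: the function `ex` and `cj`   (difficulty 1)

`ex x = exp (2πix)`.  `ex_arg`: `Complex.norm_mul_exp_arg_mul_I`.  `ex_eq_iff`:
`Complex.exp_eq_exp_iff_exists_int`.  `ex_log`: `(log (r ex x)).im = arg (r ex x) = 2π x` for
`|x| < 1/2`, `r > 0` (`Complex.arg_mul_cos_add_sin_mul_I` or `Complex.arg_real_mul`,
`Complex.log_im`, `Complex.arg_exp_mul_I`).
-/

open scoped Manifold ContDiff Topology
open Set Filter
open Complex (I)

namespace Pool.Agent.RSG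

theorem ex_add (x y : ℝ) : ex (x + y) = ex x * ex y := by
  unfold ex
  rw [← Complex.exp_add]
  congr 1
  push_cast
  ring

theorem ex_int (m : ℤ) : ex m = 1 := by
  unfold ex
  rw [Complex.exp_eq_one_iff]
  refine ⟨m, ?_⟩
  push_cast
  ring

theorem ex_add_int (x : ℝ) (m : ℤ) : ex (x + m) = ex x := by
  rw [ex_add, ex_int, mul_one]

theorem ex_zero : ex 0 = 1 := by
  unfold ex
  simp

theorem ex_norm (x : ℝ) : ‖ex x‖ = 1 := by
  unfold ex
  exact Complex.norm_exp_ofReal_mul_I _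

theorem ex_ne (x : ℝ) : ex x ≠ 0 := Complex.exp_ne_zero _

theorem ex_neg (x : ℝ) : ex (-x) = (starRingEnd ℂ) (ex x) := by
  unfold ex
  rw [← Complex.exp_conj]
  congr 1
  rw [map_mul, Complex.conj_ofReal, Complex.conj_I]
  push_cast
  ring

theorem ex_eq_iff {x y : ℝ} : ex x = ex y ↔ ∃ m : ℤ, y = x + m := by
  constructor
  · intro h
    unfold ex at h
    rw [Complex.exp_eq_exp_iff_exists_int] at h
    obtain ⟨m, hm⟩ := h
    refine ⟨-m, ?_⟩
    have h2 := congrArg Complex.im hm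
    have hpi : Real.pi ≠ 0 := Real.pi_ne_zero
    have e1 : (((2 * Real.pi * x : ℝ) : ℂ) * I).im = 2 * Real.pi * x := by
      rw [Complex.im_ofReal_mul, Complex.I_im, mul_one]
    have e2 : (((2 * Real.pi * y : ℝ) : ℂ) * I + (m : ℂ) * (2 * Real.pi * I)).im =
        2 * Real.pi * y + m * (2 * Real.pi) := by
      have e3 : ((2 * Real.pi * y : ℝ) : ℂ) * I + (m : ℂ) * (2 * Real.pi * I) =
          ((2 * Real.pi * y + m * (2 * Real.pi) : ℝ) : ℂ) * I := by
        push_cast
        ring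
      rw [e3, Complex.im_ofReal_mul, Complex.I_im, mul_one]
    rw [e1, e2] at h2
    push_cast
    have h3 : (2 * Real.pi) * x = (2 * Real.pi) * (y + m) := by linarith
    have h4 := mul_left_cancel₀ (by positivity) h3
    linarith
  · rintro ⟨m, rfl⟩
    rw [ex_add_int]

theorem ex_arg {p : ℂ} : (‖p‖ : ℂ) * ex (Complex.arg p / (2 * Real.pi)) = p := by
  unfold ex
  have hpi : Real.pi ≠ 0 := Real.pi_ne_zero
  rw [show 2 * Real.pi * (Complex.arg p / (2 * Real.pi)) = Complex.arg p by field_simp]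
  exact Complex.norm_mul_exp_arg_mul_I p

theorem ex_half : ex (1 / 2) = -1 := by
  unfold ex
  rw [show 2 * Real.pi * (1 / 2) = Real.pi by ring, Complex.exp_pi_mul_I]

theorem ex_quarter : ex (1 / 4) = I := by
  unfold ex
  rw [show 2 * Real.pi * (1 / 4) = Real.pi / 2 by ring]
  push_cast
  exact Complex.exp_pi_div_two_mul_I

theorem ex_smooth : ContDiff ℝ ∞ ex := by
  unfold ex
  apply Complex.contDiff_exp.comp
  apply ContDiff.mul _ contDiff_const
  have h : ContDiff ℝ ∞ (fun x : ℝ => 2 * Real.pi * x) := by fun_prop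
  exact Complex.ofRealCLM.contDiff.comp h

theorem ex_mul_conj (x : ℝ) : ex x * (starRingEnd ℂ) (ex x) = 1 := by
  rw [← ex_neg, ← ex_add, add_neg_cancel, ex_zero]

theorem ex_re (x : ℝ) : (ex x).re = Real.cos (2 * Real.pi * x) := by
  unfold ex
  exact Complex.exp_ofReal_mul_I_re _

theorem ex_im (x : ℝ) : (ex x).im = Real.sin (2 * Real.pi * x) := by
  unfold ex
  exact Complex.exp_ofReal_mul_I_im _

theorem ex_log {r x : ℝ} (hr : 0 < r) (h1 : -(1 / 2) < x) (h2 : x < 1 / 2) :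
    (Complex.log ((r : ℂ) * ex x)).im = 2 * Real.pi * x := by
  have hpi := Real.pi_pos
  rw [Complex.log_im, Complex.arg_real_mul _ hr]
  unfold ex
  rw [Complex.arg_exp_mul_I, toIocMod_eq_self]
  constructor
  · nlinarith
  · nlinarith

/-- if `r ex x = r' ex x'` with `r, r' > 0` then `r = r'` and `x' - x` is an integer -/
theorem ex_polar {r r' x x' : ℝ} (h : 0 < r) (h' : 0 < r') (he : (r : ℂ) * ex x = r' * ex x') :
    r = r' ∧ ∃ m : ℤ, x' = x + m := by
  have h1 := congrArg norm he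
  rw [norm_mul, norm_mul, ex_norm, ex_norm, mul_one, mul_one, Complex.norm_real,
    Complex.norm_real, Real.norm_of_nonneg h.le, Real.norm_of_nonneg h'.le] at h1
  refine ⟨h1, ?_⟩
  rw [h1] at he
  exact ex_eq_iff.1 (mul_left_cancel₀ (by exact_mod_cast h'.ne') he)

/-- unit complex numbers -/
theorem ex_surj {u : ℂ} (h : ‖u‖ = 1) : ∃ x, u = ex x := by
  refine ⟨Complex.arg u / (2 * Real.pi), ?_⟩
  have h1 := ex_arg (p := u)
  rw [h, Complex.ofReal_one, one_mul] at h1
  exact h1.symm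

theorem cj_norm {ε : ℝ} (hε : ε = 1 ∨ ε = -1) (v : ℂ) : ‖cj ε v‖ = ‖v‖ := by
  have h : ε ^ 2 = 1 := by rcases hε with rfl | rfl <;> norm_num
  have h1 : ‖cj ε v‖ ^ 2 = ‖v‖ ^ 2 := by
    rw [Complex.sq_norm, Complex.sq_norm, Complex.normSq_apply, Complex.normSq_apply]
    simp only [cj]
    linear_combination (v.im ^ 2) * h
  exact (pow_left_inj₀ (norm_nonneg _) (norm_nonneg _) two_ne_zero).1 h1

theorem cj_cj {ε : ℝ} (hε : ε = 1 ∨ ε = -1) (v : ℂ) : cj ε (cj ε v) = v := by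
  have h : ε * ε = 1 := by rcases hε with rfl | rfl <;> norm_num
  apply Complex.ext
  · rfl
  · show ε * (ε * v.im) = v.im
    rw [← mul_assoc, h, one_mul]

theorem cj_smooth (ε : ℝ) : ContDiff ℝ ∞ (cj ε) := by
  have e : cj ε = fun v : ℂ => ((v.re : ℝ) : ℂ) + ((ε * v.im : ℝ) : ℂ) * I := by
    funext v
    apply Complex.ext
    · simp [cj]
    · simp [cj]
  rw [e]
  have h1 : ContDiff ℝ ∞ (fun v : ℂ => v.re) := Complex.reCLM.contDiff
  have h2 : ContDiff ℝ ∞ (fun v : ℂ => v.im) := Complex.imCLM.contDiff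
  exact (Complex.ofRealCLM.contDiff.comp h1).add
    ((Complex.ofRealCLM.contDiff.comp (contDiff_const.mul h2)).mul contDiff_const)

theorem cj_zero (ε : ℝ) : cj ε 0 = 0 := by
  apply Complex.ext <;> simp [cj]

theorem cj_conj (ε : ℝ) (v : ℂ) : cj ε ((starRingEnd ℂ) v) = (starRingEnd ℂ) (cj ε v) := by
  apply Complex.ext <;> simp [cj]

theorem cj_real_mul (ε r : ℝ) (v : ℂ) : cj ε ((r : ℂ) * v) = r * cj ε v := by
  apply Complex.ext
  · simp [cj]
  · simp [cj]
    ring

theorem turn_norm (s : ℝ) : ‖turn s‖ = 1 := ex_norm _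

theorem turn_smooth : ContDiff ℝ ∞ turn := by
  unfold turn
  apply ex_smooth.comp
  apply contDiff_const.mul
  exact Real.smoothTransition.contDiff.comp (by fun_prop)

end Pool.Agent.RSG
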