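import Pool.Agent.RSG.WfM

/-!
# RSG/FKn: the twist carries `κ'` to `κ`   (difficulty 3)

Data: `h : FourMoveVia κ κ' b ε₁ ε₂`, `hF : IsTwist b F`.
* `strand_all` (reduction): for every `l` either there are `δ ∈ {1, -1}`, an integer `k` and `l'`,
  `|l'| < 1/16`, with `l = 1/2 - δ/4 + l' + k`, or for all integers `k`
  `|l - 1/4 - k| ≥ 1/16` and `|l - 3/4 - k| ≥ 1/16`.  (Immediate from the definitions.)
* `F_kappa`: `F (κ' (l, v)) = κ (l, v)` for `‖v‖ < 1`.  By periodicity (`h.per'`, `h.thick.per`, for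
  all integers by induction) in the first case of `strand_all`
  `κ' (l, v) = b (turn s * (δ + cj ε v / 2), s)`, `κ (l, v) = b (δ + cj ε v / 2, s)`, `s = 16 ε l'`,
  `|s| < 1`; `‖δ + cj ε v / 2‖ ≤ 3/2 < 2`, (`‖cj ε v‖ = ‖v‖`), `Fm_turn`, `hF.ball` (the point
  is in `Bal`, not in `Circ` since its norm is `≤ 3/2`).  In the second case `κ' (l, v) = κ (l, v)` is
  outside the ball: `hF.out`.
* `kappa_circ`: `κ (l, v) ∉ b '' Circ` (`‖v‖ < 1`): same cases, injectivity of `b`.  Same for `κ'`.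
* `thick'`: `Thick κ'`.  Periodic: `h.per'`.  `κ' = F⁻¹ ∘ κ` on `‖v‖ < 1`, so injective.  Local
  diffeomorphism: near `(l, v)`, `F ∘ κ' = κ` is a local diffeomorphism, `F` is one at `κ' (l, v)`
  (`hF.loc`, `kappa_circ`), and `κ'` is continuous at `(l, v)`: conclude with
  `CSG.ld_of_comp_right`.  Continuity: `κ' = F.symm ∘ κ` near `(l, v)` (`F.symm (κ q) = κ' q`), and
  `F.symm` is continuous at `κ (l, v)`: `F` is open at `κ' (l, v)`: for every neighbourhood `U` of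
  `κ' (l,v)`, `F '' U` is a neighbourhood of `κ (l, v)` (`CSG.ld_image_nhds`).
* `ball_knot`: if `b q` (`q ∈ Bal`) is on the knot `κ`, then `q.1 = 1` or `q.1 = -1`: `b q = κ (l, 0)`;
  by `h.rest` the second case of `strand_all` is impossible; in the first `κ (l, 0) = b (δ, s)`, and
  `b` is injective.
* `F_knot`: `OnKnot κ (F x) ↔ OnKnot κ' x` (`F (κ' (l, 0)) = κ (l, 0)` and `F` is injective).
-/

open scoped Manifold ContDiff Topology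
open Set Filter
open Complex (I)

namespace Pool.Agent.RSG

section
variable {N : Type*} [TopologicalSpace N] [ChartedSpace E3 N]
  {κ κ' : ℝ × ℂ → N} {b : ℂ × ℝ → N} {ε₁ ε₂ : ℝ} {F : Equiv.Perm N}

theorem strand_all (l : ℝ) :
    (∃ (δ l' : ℝ) (k : ℤ), (δ = 1 ∨ δ = -1) ∧ |l'| < 1 / 16 ∧ l = 1 / 2 - δ / 4 + l' + k) ∨
      ∀ k : ℤ, 1 / 16 ≤ |l - 1 / 4 - k| ∧ 1 / 16 ≤ |l - 3 / 4 - k| := by
  by_cases h : ∀ k : ℤ, 1 / 16 ≤ |l - 1 / 4 - k| ∧ 1 / 16 ≤ |l - 3 / 4 - k|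
  · exact Or.inr h
  · left
    push Not at h
    obtain ⟨k, hk⟩ := h
    by_cases h1 : 1 / 16 ≤ |l - 1 / 4 - k|
    · exact ⟨-1, l - 3 / 4 - k, k, Or.inr rfl, hk h1, by ring⟩
    · exact ⟨1, l - 1 / 4 - k, k, Or.inl rfl, not_le.1 h1, by ring⟩

theorem per_int (h : ∀ l v, κ (l + 1, v) = κ (l, v)) (l : ℝ) (v : ℂ) (k : ℤ) :
    κ (l + k, v) = κ (l, v) := by
  have hn : ∀ (n : ℕ) (x : ℝ), κ (x + n, v) = κ (x, v) := by
    intro n
    induction n with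
    | zero => intro x; simp
    | succ n ih =>
      intro x
      rw [Nat.cast_succ, ← add_assoc, h, ih]
  obtain ⟨n, rfl | rfl⟩ := k.eq_nat_or_neg
  · exact_mod_cast hn n l
  · have := hn n (l + ((-(n : ℤ) : ℤ) : ℝ))
    rw [← this]
    congr 2
    push_cast
    ring

/-- the two cases -/
theorem FKn_cases (h : FourMoveVia κ κ' b ε₁ ε₂) (l : ℝ) {v : ℂ} (hv : ‖v‖ < 1) :
    (∃ δ ε s : ℝ, (δ = 1 ∨ δ = -1) ∧ (ε = 1 ∨ ε = -1) ∧ |s| < 1 ∧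
      κ (l, v) = b (δ + cj ε v / 2, s) ∧ κ' (l, v) = b (turn s * (δ + cj ε v / 2), s)) ∨
    (κ' (l, v) = κ (l, v) ∧ ∀ z s, ‖z‖ < 4 → |s| < 1 → κ (l, v) ≠ b (z, s)) := by
  rcases strand_all l with ⟨δ, l', k, hδ, hl', rfl⟩ | h2
  · left
    have key : ∀ ε : ℝ, (ε = 1 ∨ ε = -1) → Strand κ b δ ε → TwistedStrand κ' b δ ε →
        ∃ δ' ε s : ℝ, (δ' = 1 ∨ δ' = -1) ∧ (ε = 1 ∨ ε = -1) ∧ |s| < 1 ∧
          κ (1 / 2 - δ / 4 + l' + k, v) = b (δ' + cj ε v / 2, s) ∧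
            κ' (1 / 2 - δ / 4 + l' + k, v) = b (turn s * (δ' + cj ε v / 2), s) := by
      intro ε hε h1 h2
      refine ⟨δ, ε, 16 * ε * l', hδ, hε, ?_, ?_, ?_⟩
      · have hε' : |ε| = 1 := by rcases hε with rfl | rfl <;> simp
        rw [abs_mul, abs_mul, hε', abs_of_pos (by norm_num : (0 : ℝ) < 16)]
        linarith
      · rw [per_int h.thick.per]
        exact h1 l' v hl' hv
      · rw [per_int h.per']
        exact h2 l' v hl' hv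
    rcases hδ with hδ | hδ
    · subst hδ
      exact key ε₁ h.sign₁ h.strand₁ h.strand₁'
    · subst hδ
      exact key ε₂ h.sign₂ h.strand₂ h.strand₂'
  · exact Or.inr (h.rest l v hv h2)

theorem FKn_norm {δ ε : ℝ} {v : ℂ} (hδ : δ = 1 ∨ δ = -1) (hε : ε = 1 ∨ ε = -1) (hv : ‖v‖ < 1) :
    ‖(δ : ℂ) + cj ε v / 2‖ < 3 / 2 := by
  have h1 : ‖(δ : ℂ)‖ = 1 := by rcases hδ with rfl | rfl <;> simp
  have h2 : ‖cj ε v / 2‖ = ‖v‖ / 2 := by
    rw [norm_div, cj_norm hε]; simp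
  have := norm_add_le (δ : ℂ) (cj ε v / 2)
  rw [h1, h2] at this
  linarith

theorem F_kappa (h : FourMoveVia κ κ' b ε₁ ε₂) (hF : IsTwist b F) {l : ℝ} {v : ℂ}
    (hv : ‖v‖ < 1) : F (κ' (l, v)) = κ (l, v) := by
  rcases FKn_cases h l hv with ⟨δ, ε, s, hδ, hε, hs, h1, h2⟩ | ⟨h1, h2⟩
  · have hn := FKn_norm hδ hε hv
    have hn' : ‖turn s * ((δ : ℂ) + cj ε v / 2)‖ < 3 / 2 := by
      rw [norm_mul, turn_norm, one_mul]; exact hn
    rw [h1, h2, hF.ball _ ⟨by show ‖turn s * ((δ : ℂ) + cj ε v / 2)‖ < 4; linarith, hs⟩]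
    · rw [Fm_turn (by linarith)]
    · rintro ⟨h3, -⟩
      have h3' : ‖turn s * ((δ : ℂ) + cj ε v / 2)‖ = 3 := h3
      linarith
  · rw [h1]
    apply hF.out
    rintro ⟨q, hq, hq'⟩
    exact h2 q.1 q.2 hq.1 hq.2 hq'.symm

theorem kappa_circ (h : FourMoveVia κ κ' b ε₁ ε₂) {l : ℝ} {v : ℂ} (hv : ‖v‖ < 1) :
    κ (l, v) ∉ b '' Circ := by
  rintro ⟨q, ⟨hq1, hq2⟩, hq'⟩
  have hq4 : ‖q.1‖ < 4 := by rw [hq1]; norm_num
  have hq5 : |q.2| < 1 := by rw [hq2]; norm_num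
  rcases FKn_cases h l hv with ⟨δ, ε, s, hδ, hε, hs, h1, h2⟩ | ⟨h1, h2⟩
  · have hn := FKn_norm hδ hε hv
    have h3 : b (q.1, q.2) = b ((δ : ℂ) + cj ε v / 2, s) := hq'.trans h1
    have := (h.ball_inj _ _ _ _ hq4 hq5 (by linarith) hs h3).1
    rw [← this, hq1] at hn
    norm_num at hn
  · exact h2 q.1 q.2 hq4 hq5 hq'.symm

theorem kappa'_circ (h : FourMoveVia κ κ' b ε₁ ε₂) {l : ℝ} {v : ℂ} (hv : ‖v‖ < 1) :
    κ' (l, v) ∉ b '' Circ := by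
  rintro ⟨q, ⟨hq1, hq2⟩, hq'⟩
  have hq4 : ‖q.1‖ < 4 := by rw [hq1]; norm_num
  have hq5 : |q.2| < 1 := by rw [hq2]; norm_num
  rcases FKn_cases h l hv with ⟨δ, ε, s, hδ, hε, hs, h1, h2⟩ | ⟨h1, h2⟩
  · have hn := FKn_norm hδ hε hv
    have hn' : ‖turn s * ((δ : ℂ) + cj ε v / 2)‖ < 3 / 2 := by
      rw [norm_mul, turn_norm, one_mul]; exact hn
    have h3 : b (q.1, q.2) = b (turn s * ((δ : ℂ) + cj ε v / 2), s) := hq'.trans h2
    have := (h.ball_inj _ _ _ _ hq4 hq5 (by linarith) hs h3).1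
    rw [← this, hq1] at hn'
    norm_num at hn'
  · exact h2 q.1 q.2 hq4 hq5 (h1 ▸ hq'.symm)

theorem thick' (h : FourMoveVia κ κ' b ε₁ ε₂) (hF : IsTwist b F) : Thick κ' := by
  refine ⟨h.per', ?_, ?_⟩
  · intro l v hv
    have hev : ∀ᶠ q : ℝ × ℂ in 𝓝 (l, v), F (κ' q) = κ q := by
      have h1 : IsOpen {q : ℝ × ℂ | ‖q.2‖ < 1} := isOpen_lt (by fun_prop) continuous_const
      filter_upwards [h1.mem_nhds (show (l, v) ∈ {q : ℝ × ℂ | ‖q.2‖ < 1} from hv)] with q hq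
      exact F_kappa h hF hq
    have hFl := hF.loc _ (kappa'_circ h (l := l) hv)
    have hFk : F (κ' (l, v)) = κ (l, v) := F_kappa h hF hv
    refine Pool.Agent.CSG.ld_of_comp_right (g := F) ?_ hFl ?_
    · exact Pool.Agent.CSG.ld_congr (h.thick.loc l v hv) hev
    · -- continuity
      intro U hU
      have h1 : F '' U ∈ 𝓝 (F (κ' (l, v))) := Pool.Agent.CSG.ld_image_nhds hFl hU
      rw [hFk] at h1
      have h2 : ContinuousAt κ (l, v) :=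
        Pool.Agent.CSG.ld_continuousAt (h.thick.loc l v hv)
      have h3 := h2 h1
      show ∀ᶠ q in 𝓝 (l, v), κ' q ∈ U
      have h3' : ∀ᶠ q in 𝓝 (l, v), κ q ∈ F '' U := h3
      filter_upwards [hev, h3'] with q hq1 hq2
      rw [← hq1] at hq2
      obtain ⟨y, hy, hy'⟩ := hq2
      rw [← F.injective hy']
      exact hy
  · intro l v l' v' hv hv' he
    refine h.thick.inj l v l' v' hv hv' ?_
    rw [← F_kappa h hF hv, ← F_kappa h hF hv', he]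

theorem ball_knot (h : FourMoveVia κ κ' b ε₁ ε₂) {q : ℂ × ℝ} (hq : q ∈ Bal)
    (hk : OnKnot κ (b q)) : q.1 = 1 ∨ q.1 = -1 := by
  obtain ⟨l, hl⟩ := hk
  rcases FKn_cases h l (v := 0) (by simp) with ⟨δ, ε, s, hδ, hε, hs, h1, h2⟩ | ⟨h1, h2⟩
  · have hn := FKn_norm (v := 0) hδ hε (by simp)
    have h3 : b (q.1, q.2) = b ((δ : ℂ) + cj ε 0 / 2, s) := hl.trans h1
    have := (h.ball_inj _ _ _ _ hq.1 hq.2 (by linarith) hs h3).1
    rw [this, cj_zero]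
    rcases hδ with rfl | rfl <;> simp
  · exact absurd hl.symm (h2 q.1 q.2 hq.1 hq.2)

theorem F_knot (h : FourMoveVia κ κ' b ε₁ ε₂) (hF : IsTwist b F) (x : N) :
    OnKnot κ (F x) ↔ OnKnot κ' x := by
  constructor
  · rintro ⟨l, hl⟩
    refine ⟨l, F.injective ?_⟩
    rw [hl, F_kappa h hF (by simp)]
  · rintro ⟨l, rfl⟩
    exact ⟨l, F_kappa h hF (by simp)⟩

end

end Pool.Agent.RSG
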