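import Pool.Agent.RSG.PGm
import Pool.Agent.RSG.ExM
import Pool.Agent.RSG.LDc

/-!
# RSG/GcM: the chart `Gc` of the twin   (difficulty 2)
-/

open scoped Manifold ContDiff Topology
open Set Filter
open Complex (I)

namespace Pool.Agent.RSG

theorem GcM_norm {v : ℂ} (h0 : v ≠ 0) (x : ℝ) : ‖v / (‖v‖ : ℂ) * ex x‖ = 1 := by
  have hv : ‖v‖ ≠ 0 := norm_ne_zero_iff.2 h0
  rw [norm_mul, ex_norm, norm_div, Complex.norm_real, norm_norm, div_self hv, mul_one]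

theorem GcM_sqrt_pos {v : ℂ} (h1 : ‖v‖ < 1) : 0 < Real.sqrt (1 - ‖v‖ ^ 2) := by
  apply Real.sqrt_pos.2
  have := norm_nonneg v
  nlinarith

theorem GcM_sqrt_lt {v : ℂ} (h0 : v ≠ 0) : Real.sqrt (1 - ‖v‖ ^ 2) < 1 := by
  have hv : 0 < ‖v‖ := norm_pos_iff.2 h0
  rw [Real.sqrt_lt' one_pos]
  nlinarith

theorem GcM_nf (x : ℝ) {v : ℂ} :
    ‖(Real.sqrt (1 - ‖v‖ ^ 2) : ℂ) * ex x‖ = Real.sqrt (1 - ‖v‖ ^ 2) := by
  rw [norm_mul, ex_norm, mul_one, Complex.norm_real, Real.norm_of_nonneg (Real.sqrt_nonneg _)]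

theorem Gc_spec (n j : ℤ) {l t : ℝ} {v : ℂ} (h0 : v ≠ 0) (h1 : ‖v‖ < 1) :
    let z := Gc n j (l, v, t)
    fh z ≠ 0 ∧ c1 z ≠ 0 ∧ c2 z ≠ 0 ∧ 2 * ‖c1 z‖ * ‖c2 z‖ = ‖v‖ ∧
    c1 z = ‖c1 z‖ * (v / ‖v‖ * ex ((1 - j) * t)) ∧ c2 z = ‖c2 z‖ * (v / ‖v‖ * ex (-j * t)) ∧
    fh z = ‖fh z‖ * ex (l - n * t) := by
  intro z
  have n1 := GcM_norm h0 ((1 - j) * t)
  have n2 := GcM_norm h0 (-j * t)
  have nf : ‖(Real.sqrt (1 - ‖v‖ ^ 2) : ℂ) * ex (l - n * t)‖ < 1 := by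
    rw [GcM_nf]; exact GcM_sqrt_lt h0
  have hf : fh z = (Real.sqrt (1 - ‖v‖ ^ 2) : ℂ) * ex (l - n * t) := pG_fh n1 n2 nf
  have hd := pG_dir n1 n2 nf
  have hpos := GcM_sqrt_pos h1
  have hnf : ‖fh z‖ = Real.sqrt (1 - ‖v‖ ^ 2) := by rw [hf, GcM_nf]
  refine ⟨?_, hd.1, hd.2.1, ?_, hd.2.2.1, hd.2.2.2.1, ?_⟩
  · rw [← norm_pos_iff, hnf]; exact hpos
  · have h := hd.2.2.2.2
    rw [GcM_nf] at h
    have e : (1 : ℝ) - Real.sqrt (1 - ‖v‖ ^ 2) ^ 2 = ‖v‖ ^ 2 := by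
      rw [Real.sq_sqrt (by nlinarith [norm_nonneg v])]; ring
    rw [e, Real.sqrt_sq (norm_nonneg v)] at h
    exact h
  · rw [hnf, hf]

theorem Gc_eq (n j : ℤ) {z : S4} {l m t : ℝ} (h : fh z ≠ 0) (h1 : c1 z ≠ 0) (h2 : c2 z ≠ 0)
    (e1 : c1 z = ‖c1 z‖ * ex (((1 : ℤ) : ℝ) * m + ((1 - j : ℤ) : ℝ) * t))
    (e2 : c2 z = ‖c2 z‖ * ex (((1 : ℤ) : ℝ) * m + ((-j : ℤ) : ℝ) * t))
    (e3 : fh z = ‖fh z‖ * ex (l - n * t)) :
    z = Gc n j (l, (2 * ‖c1 z‖ * ‖c2 z‖ : ℝ) * ex m, t) := by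
  have p1 : 0 < ‖c1 z‖ := norm_pos_iff.2 h1
  have p2 : 0 < ‖c2 z‖ := norm_pos_iff.2 h2
  set r : ℝ := 2 * ‖c1 z‖ * ‖c2 z‖ with hr
  have hr0 : 0 < r := by positivity
  have hn : ‖(r : ℂ) * ex m‖ = r := by
    rw [norm_mul, ex_norm, mul_one, Complex.norm_real, Real.norm_of_nonneg hr0.le]
  have hdir : (r : ℂ) * ex m / (‖(r : ℂ) * ex m‖ : ℂ) = ex m := by
    rw [hn]
    have : (r : ℂ) ≠ 0 := by exact_mod_cast hr0.ne'
    field_simp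
  have hs : Real.sqrt (1 - ‖(r : ℂ) * ex m‖ ^ 2) = ‖fh z‖ := by
    rw [hn]
    have := fh_sq z
    rw [← hr] at this
    have e : 1 - r ^ 2 = ‖fh z‖ ^ 2 := by linarith
    rw [e, Real.sqrt_sq (norm_nonneg _)]
  have u1 : c1 z / ‖c1 z‖ = ex m * ex ((1 - j) * t) := by
    have hc : (‖c1 z‖ : ℂ) ≠ 0 := by exact_mod_cast p1.ne'
    rw [← ex_add, div_eq_iff hc, mul_comm]
    have : m + (1 - j) * t = ((1 : ℤ) : ℝ) * m + ((1 - j : ℤ) : ℝ) * t := by push_cast; ring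
    rw [this]; exact e1
  have u2 : c2 z / ‖c2 z‖ = ex m * ex (-j * t) := by
    have hc : (‖c2 z‖ : ℂ) ≠ 0 := by exact_mod_cast p2.ne'
    rw [← ex_add, div_eq_iff hc, mul_comm]
    have : m + (-j) * t = ((1 : ℤ) : ℝ) * m + ((-j : ℤ) : ℝ) * t := by push_cast; ring
    rw [this]; exact e2
  show z = pG (_ * _) (_ * _) (_ * _)
  simp only [Gc, hdir, hs]
  rw [← u1, ← u2, ← e3]
  exact (pG_self h1 h2).symm

/-! ### the local inverse -/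

/-- auxiliary function on `ℂ³` -/
noncomputable def GcM_tau (t₀ : ℝ) (q₀ : ℂ) (q : ℂ × ℂ × ℂ) : ℝ :=
  t₀ + (Complex.log (q.1 * (starRingEnd ℂ) q.2.1 / q₀)).im / (2 * Real.pi)

noncomputable def GcM_Phi (n j : ℤ) (l₀ t₀ : ℝ) (q₀ f₀ : ℂ) (q : ℂ × ℂ × ℂ) : ℝ × ℂ × ℝ :=
  (l₀ + n * (GcM_tau t₀ q₀ q - t₀) + (Complex.log (q.2.2 / f₀)).im / (2 * Real.pi),
    ((2 * ‖q.1‖ * ‖q.2.1‖ : ℝ) : ℂ) * (q.2.1 / ‖q.2.1‖ * ex (j * GcM_tau t₀ q₀ q)),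
    GcM_tau t₀ q₀ q)

theorem GcM_conj_smooth : ContDiff ℝ ∞ (fun z : ℂ => (starRingEnd ℂ) z) :=
  (Complex.conjCLE : ℂ ≃L[ℝ] ℂ).contDiff

theorem GcM_norm_smooth {V : Type*} [NormedAddCommGroup V] [NormedSpace ℝ V] {f : V → ℂ} {x : V}
    (hf : ContDiffAt ℝ ∞ f x) (h0 : f x ≠ 0) :
    ContDiffAt ℝ ∞ (fun y => ((‖f y‖ : ℝ) : ℂ)) x :=
  Complex.ofRealCLM.contDiff.contDiffAt.comp x (hf.norm ℝ h0)

theorem GcM_log_smooth {V : Type*} [NormedAddCommGroup V] [NormedSpace ℝ V] {f : V → ℂ} {x : V}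
    (hf : ContDiffAt ℝ ∞ f x) (h0 : f x ∈ Complex.slitPlane) :
    ContDiffAt ℝ ∞ (fun y => (Complex.log (f y)).im) x := by
  have h1 : ContDiffAt ℝ ∞ Complex.log (f x) := (Complex.contDiffAt_log h0).restrict_scalars ℝ
  exact Complex.imCLM.contDiff.contDiffAt.comp x (h1.comp x hf)

theorem GcM_tau_smooth (t₀ : ℝ) (q₀ : ℂ) {q : ℂ × ℂ × ℂ}
    (h : q.1 * (starRingEnd ℂ) q.2.1 / q₀ ∈ Complex.slitPlane) :
    ContDiffAt ℝ ∞ (GcM_tau t₀ q₀) q := by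
  have h1 : ContDiffAt ℝ ∞ (fun q : ℂ × ℂ × ℂ => q.1 * (starRingEnd ℂ) q.2.1 / q₀) q := by
    have a1 : ContDiffAt ℝ ∞ (fun q : ℂ × ℂ × ℂ => q.1) q := contDiffAt_fst
    have a2 : ContDiffAt ℝ ∞ (fun q : ℂ × ℂ × ℂ => (starRingEnd ℂ) q.2.1) q :=
      GcM_conj_smooth.contDiffAt.comp q (contDiff_snd.fst.contDiffAt)
    simpa [div_eq_mul_inv] using (a1.mul a2).mul (contDiffAt_const (c := q₀⁻¹))
  exact contDiffAt_const.add ((GcM_log_smooth h1 h).div_const _)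

theorem GcM_Phi_smooth (n j : ℤ) (l₀ t₀ : ℝ) (q₀ f₀ : ℂ) {q : ℂ × ℂ × ℂ} (h1 : q.1 ≠ 0)
    (h2 : q.2.1 ≠ 0) (h : q.1 * (starRingEnd ℂ) q.2.1 / q₀ ∈ Complex.slitPlane)
    (h' : q.2.2 / f₀ ∈ Complex.slitPlane) :
    ContDiffAt ℝ ∞ (GcM_Phi n j l₀ t₀ q₀ f₀) q := by
  have ht := GcM_tau_smooth t₀ q₀ h
  have a1 : ContDiffAt ℝ ∞ (fun q : ℂ × ℂ × ℂ => q.1) q := contDiffAt_fst
  have a2 : ContDiffAt ℝ ∞ (fun q : ℂ × ℂ × ℂ => q.2.1) q := contDiff_snd.fst.contDiffAt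
  have a3 : ContDiffAt ℝ ∞ (fun q : ℂ × ℂ × ℂ => q.2.2 / f₀) q := by
    simpa [div_eq_mul_inv] using
      (contDiff_snd.snd.contDiffAt (x := q)).mul (contDiffAt_const (c := f₀⁻¹))
  have b1 := GcM_norm_smooth a1 h1
  have b2 := GcM_norm_smooth a2 h2
  have hl : ContDiffAt ℝ ∞ (fun q : ℂ × ℂ × ℂ => l₀ + n * (GcM_tau t₀ q₀ q - t₀) +
      (Complex.log (q.2.2 / f₀)).im / (2 * Real.pi)) q :=
    (contDiffAt_const.add (contDiffAt_const.mul (ht.sub contDiffAt_const))).add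
      ((GcM_log_smooth a3 h').div_const _)
  have he : ContDiffAt ℝ ∞ (fun q : ℂ × ℂ × ℂ => ex (j * GcM_tau t₀ q₀ q)) q :=
    ex_smooth.contDiffAt.comp q (contDiffAt_const.mul ht)
  have hm : ContDiffAt ℝ ∞ (fun q : ℂ × ℂ × ℂ => ((2 * ‖q.1‖ * ‖q.2.1‖ : ℝ) : ℂ) *
      (q.2.1 / ‖q.2.1‖ * ex (j * GcM_tau t₀ q₀ q))) q := by
    have c0 : ContDiffAt ℝ ∞ (fun q : ℂ × ℂ × ℂ => ((2 * ‖q.1‖ * ‖q.2.1‖ : ℝ) : ℂ)) q := by
      have := ((contDiffAt_const (c := (2 : ℂ))).mul b1).mul b2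
      refine this.congr_of_eventuallyEq (Eventually.of_forall fun y => ?_)
      push_cast; rfl
    have c1 : ContDiffAt ℝ ∞ (fun q : ℂ × ℂ × ℂ => q.2.1 / (‖q.2.1‖ : ℂ)) q := by
      have hne : ((‖q.2.1‖ : ℝ) : ℂ) ≠ 0 := by simpa using h2
      have := a2.mul (b2.inv hne)
      exact this
    exact c0.mul (c1.mul he)
  exact hl.prodMk (hm.prodMk ht)

theorem GcM_smooth (n j : ℤ) {a : ℝ × ℂ × ℝ} (h0 : a.2.1 ≠ 0) (h1 : ‖a.2.1‖ < 1) :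
    ContMDiffAt 𝓘(ℝ, ℝ × ℂ × ℝ) (𝓡 4) ∞ (Gc n j) a := by
  have a1 : ContDiffAt ℝ ∞ (fun a : ℝ × ℂ × ℝ => a.1) a := contDiffAt_fst
  have a2 : ContDiffAt ℝ ∞ (fun a : ℝ × ℂ × ℝ => a.2.1) a := contDiff_snd.fst.contDiffAt
  have a3 : ContDiffAt ℝ ∞ (fun a : ℝ × ℂ × ℝ => a.2.2) a := contDiff_snd.snd.contDiffAt
  have b2 := GcM_norm_smooth a2 h0
  have c1 : ContDiffAt ℝ ∞ (fun a : ℝ × ℂ × ℝ => a.2.1 / (‖a.2.1‖ : ℂ)) a := by
    have hne : ((‖a.2.1‖ : ℝ) : ℂ) ≠ 0 := by simpa using h0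
    exact a2.mul (b2.inv hne)
  have d1 : ContDiffAt ℝ ∞ (fun a : ℝ × ℂ × ℝ =>
      a.2.1 / (‖a.2.1‖ : ℂ) * ex ((1 - j) * a.2.2)) a :=
    c1.mul (ex_smooth.contDiffAt.comp a (contDiffAt_const.mul a3))
  have d2 : ContDiffAt ℝ ∞ (fun a : ℝ × ℂ × ℝ =>
      a.2.1 / (‖a.2.1‖ : ℂ) * ex (-j * a.2.2)) a :=
    c1.mul (ex_smooth.contDiffAt.comp a (contDiffAt_const.mul a3))
  have d3 : ContDiffAt ℝ ∞ (fun a : ℝ × ℂ × ℝ =>
      (Real.sqrt (1 - ‖a.2.1‖ ^ 2) : ℂ) * ex (a.1 - n * a.2.2)) a := by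
    have hs : ContDiffAt ℝ ∞ (fun a : ℝ × ℂ × ℝ => Real.sqrt (1 - ‖a.2.1‖ ^ 2)) a := by
      apply ContDiffAt.sqrt
      · exact contDiffAt_const.sub ((a2.norm ℝ h0).pow 2)
      · have := norm_nonneg a.2.1
        nlinarith
    exact (Complex.ofRealCLM.contDiff.contDiffAt.comp a hs).mul
      (ex_smooth.contDiffAt.comp a (a1.sub (contDiffAt_const.mul a3)))
  refine pG_smooth d1.contMDiffAt d2.contMDiffAt d3.contMDiffAt ?_ ?_ ?_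
  · exact GcM_norm h0 _
  · exact GcM_norm h0 _
  · rw [GcM_nf]; exact GcM_sqrt_lt h0

/-- `c1 z * conj (c2 z)` has the phase `t` -/
theorem GcM_prod {z : S4} {u : ℂ} (hu : ‖u‖ = 1) {x y : ℝ}
    (e1 : c1 z = ‖c1 z‖ * (u * ex x)) (e2 : c2 z = ‖c2 z‖ * (u * ex y)) :
    c1 z * (starRingEnd ℂ) (c2 z) = ((‖c1 z‖ * ‖c2 z‖ : ℝ) : ℂ) * ex (x - y) := by
  have hu' : u * (starRingEnd ℂ) u = 1 := by
    rw [Complex.mul_conj, Complex.normSq_eq_norm_sq, hu]; simp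
  have hx : ex (x - y) = ex x * (starRingEnd ℂ) (ex y) := by
    rw [sub_eq_add_neg, ex_add, ex_neg]
  rw [e1, e2]
  simp only [map_mul, Complex.conj_ofReal]
  have n1 : ‖((‖c1 z‖ : ℝ) : ℂ) * (u * ex x)‖ = ‖c1 z‖ := by
    rw [norm_mul, norm_mul, ex_norm, hu]; simp
  have n2 : ‖((‖c2 z‖ : ℝ) : ℂ) * (u * ex y)‖ = ‖c2 z‖ := by
    rw [norm_mul, norm_mul, ex_norm, hu]; simp
  rw [n1, n2, hx]
  push_cast
  linear_combination (‖c1 z‖ : ℂ) * ‖c2 z‖ * ex x * (starRingEnd ℂ) (ex y) * hu'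

theorem Gc_ld (n j : ℤ) {l t : ℝ} {v : ℂ} (h0 : v ≠ 0) (h1 : ‖v‖ < 1) :
    IsLocalDiffeomorphAt 𝓘(ℝ, ℝ × ℂ × ℝ) (𝓡 4) ∞ (Gc n j) (l, v, t) := by
  obtain ⟨hf0, hc1, hc2, hr, e1, e2, e3⟩ := Gc_spec n j (l := l) (t := t) h0 h1
  set z₀ : S4 := Gc n j (l, v, t) with hz₀
  have hv : 0 < ‖v‖ := norm_pos_iff.2 h0
  have hu : ‖v / (‖v‖ : ℂ)‖ = 1 := by
    rw [norm_div, Complex.norm_real, norm_norm, div_self hv.ne']
  have P0 := GcM_prod hu e1 e2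
  have p1 : 0 < ‖c1 z₀‖ := norm_pos_iff.2 hc1
  have p2 : 0 < ‖c2 z₀‖ := norm_pos_iff.2 hc2
  have pf : 0 < ‖fh z₀‖ := norm_pos_iff.2 hf0
  have ht0 : (1 - (j : ℝ)) * t - -(j : ℝ) * t = t := by ring
  rw [ht0] at P0
  set q₀ : ℂ := c1 z₀ * (starRingEnd ℂ) (c2 z₀) with hq₀
  have hq0 : q₀ ≠ 0 := mul_ne_zero hc1 ((map_ne_zero _).2 hc2)
  set f₀ : ℂ := fh z₀ with hf₀
  have cc1 := c1_smooth.continuous
  have cc2 := c2_smooth.continuous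
  have cf := fh_smooth.continuous
  have cq : Continuous fun z : S4 => c1 z * (starRingEnd ℂ) (c2 z) / q₀ :=
    (cc1.mul (Complex.continuous_conj.comp cc2)).div_const _
  have cf' : Continuous fun z : S4 => fh z / f₀ := cf.div_const _
  let g : S4 → ℝ × ℂ × ℝ := fun z => GcM_Phi n j l t q₀ f₀ (c1 z, c2 z, fh z)
  -- open conditions near `z₀`
  have N1 : ∀ᶠ z in 𝓝 z₀, c1 z ≠ 0 := cc1.continuousAt.eventually_ne hc1
  have N2 : ∀ᶠ z in 𝓝 z₀, c2 z ≠ 0 := cc2.continuousAt.eventually_ne hc2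
  have N3 : ∀ᶠ z in 𝓝 z₀, fh z ≠ 0 := cf.continuousAt.eventually_ne hf0
  have N4 : ∀ᶠ z in 𝓝 z₀, c1 z * (starRingEnd ℂ) (c2 z) / q₀ ∈ Complex.slitPlane := by
    apply cq.continuousAt.eventually_mem
    apply Complex.isOpen_slitPlane.mem_nhds
    show c1 z₀ * (starRingEnd ℂ) (c2 z₀) / q₀ ∈ _
    rw [← hq₀, div_self hq0]; exact Complex.one_mem_slitPlane
  have N5 : ∀ᶠ z in 𝓝 z₀, fh z / f₀ ∈ Complex.slitPlane := by
    apply cf'.continuousAt.eventually_mem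
    apply Complex.isOpen_slitPlane.mem_nhds
    show fh z₀ / f₀ ∈ _
    rw [← hf₀, div_self hf0]; exact Complex.one_mem_slitPlane
  have A1 : ∀ᶠ a : ℝ × ℂ × ℝ in 𝓝 (l, v, t), a.2.1 ≠ 0 :=
    (continuous_snd.fst).continuousAt.eventually_ne h0
  have A2 : ∀ᶠ a : ℝ × ℂ × ℝ in 𝓝 (l, v, t), ‖a.2.1‖ < 1 :=
    (continuous_snd.fst.norm).continuousAt.eventually_lt continuousAt_const h1
  have A3 : ∀ᶠ a : ℝ × ℂ × ℝ in 𝓝 (l, v, t), |a.2.2 - t| < 1 / 2 := by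
    have c : Continuous fun a : ℝ × ℂ × ℝ => |a.2.2 - t| := by fun_prop
    apply c.continuousAt.eventually_lt continuousAt_const
    simp
  have A4 : ∀ᶠ a : ℝ × ℂ × ℝ in 𝓝 (l, v, t), |(a.1 - n * a.2.2) - (l - n * t)| < 1 / 2 := by
    have c : Continuous fun a : ℝ × ℂ × ℝ => |(a.1 - n * a.2.2) - (l - n * t)| := by fun_prop
    apply c.continuousAt.eventually_lt continuousAt_const
    simp
  have hpi : (2 * Real.pi) ≠ 0 := by positivity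
  refine ld_two (g := g) ?_ ?_ ?_ ?_
  · filter_upwards [A1, A2] with a ha1 ha2 using GcM_smooth n j ha1 ha2
  · filter_upwards [N1, N2, N4, N5] with z z1 z2 z4 z5
    have hΦ := (GcM_Phi_smooth n j l t q₀ f₀ (q := (c1 z, c2 z, fh z)) z1 z2 z4 z5).contMDiffAt
    exact hΦ.comp z ((c1_smooth z).prodMk_space ((c2_smooth z).prodMk_space (fh_smooth z)))
  · filter_upwards [A1, A2, A3, A4] with a ha1 ha2 ha3 ha4
    obtain ⟨l', v', t'⟩ := a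
    simp only at ha1 ha2 ha3 ha4
    obtain ⟨hf0', hc1', hc2', hr', e1', e2', e3'⟩ := Gc_spec n j (l := l') (t := t') ha1 ha2
    set z : S4 := Gc n j (l', v', t') with hz
    have hv' : 0 < ‖v'‖ := norm_pos_iff.2 ha1
    have hu' : ‖v' / (‖v'‖ : ℂ)‖ = 1 := by
      rw [norm_div, Complex.norm_real, norm_norm, div_self hv'.ne']
    have P1 := GcM_prod hu' e1' e2'
    have ht0' : (1 - (j : ℝ)) * t' - -(j : ℝ) * t' = t' := by ring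
    rw [ht0'] at P1
    have p1' : 0 < ‖c1 z‖ := norm_pos_iff.2 hc1'
    have p2' : 0 < ‖c2 z‖ := norm_pos_iff.2 hc2'
    have pf' : 0 < ‖fh z‖ := norm_pos_iff.2 hf0'
    have hτ : GcM_tau t q₀ (c1 z, c2 z, fh z) = t' := by
      have : c1 z * (starRingEnd ℂ) (c2 z) / q₀ =
          ((‖c1 z‖ * ‖c2 z‖ / (‖c1 z₀‖ * ‖c2 z₀‖) : ℝ) : ℂ) * ex (t' - t) := by
        rw [P1, P0, sub_eq_add_neg, ex_add, ex_neg]
        have hne : ((‖c1 z₀‖ * ‖c2 z₀‖ : ℝ) : ℂ) ≠ 0 := by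
          exact_mod_cast (mul_pos p1 p2).ne'
        have hx := ex_ne t
        have hm := ex_mul_conj t
        rw [div_eq_iff (mul_ne_zero hne hx), Complex.ofReal_div]
        have hB : ((‖c1 z‖ * ‖c2 z‖ : ℝ) : ℂ) / ((‖c1 z₀‖ * ‖c2 z₀‖ : ℝ) : ℂ) *
            ((‖c1 z₀‖ * ‖c2 z₀‖ : ℝ) : ℂ) = ((‖c1 z‖ * ‖c2 z‖ : ℝ) : ℂ) :=
          div_mul_cancel₀ _ hne
        linear_combination (-((‖c1 z‖ * ‖c2 z‖ : ℝ) : ℂ) * ex t') * hm -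
          ex t' * ex t * (starRingEnd ℂ) (ex t) * hB
      show t + (Complex.log (c1 z * (starRingEnd ℂ) (c2 z) / q₀)).im / (2 * Real.pi) = t'
      rw [this, ex_log (by positivity) (by have := (abs_lt.1 ha3).1; linarith)
        (by have := (abs_lt.1 ha3).2; linarith)]
      field_simp; ring
    have hlf : (Complex.log (fh z / f₀)).im = 2 * Real.pi * ((l' - n * t') - (l - n * t)) := by
      have : fh z / f₀ = ((‖fh z‖ / ‖f₀‖ : ℝ) : ℂ) * ex ((l' - n * t') - (l - n * t)) := by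
        rw [sub_eq_add_neg (l' - n * t'), ex_add, ex_neg]
        have hne : ((‖f₀‖ : ℝ) : ℂ) ≠ 0 := by exact_mod_cast pf.ne'
        have hm := ex_mul_conj (l - n * t)
        rw [div_eq_iff hf0]
        calc fh z = ‖fh z‖ * ex (l' - n * t') := e3'
          _ = ((‖fh z‖ / ‖f₀‖ : ℝ) : ℂ) * (ex (l' - n * t') *
              (starRingEnd ℂ) (ex (l - n * t))) * (‖f₀‖ * ex (l - n * t)) := by
            push_cast
            field_simp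
            linear_combination (-(‖fh z‖ : ℂ) * ex (l' - n * t')) * hm
          _ = _ := by rw [← e3]
      rw [this, ex_log (by positivity) (by have := (abs_lt.1 ha4).1; linarith)
        (by have := (abs_lt.1 ha4).2; linarith)]
    show GcM_Phi n j l t q₀ f₀ (c1 z, c2 z, fh z) = (l', v', t')
    unfold GcM_Phi
    rw [hτ]
    simp only [hlf]
    refine Prod.ext ?_ (Prod.ext ?_ rfl)
    · show l + n * (t' - t) + 2 * Real.pi * ((l' - n * t') - (l - n * t)) / (2 * Real.pi) = l'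
      field_simp; ring
    · show ((2 * ‖c1 z‖ * ‖c2 z‖ : ℝ) : ℂ) * (c2 z / ‖c2 z‖ * ex (j * t')) = v'
      have hc : (‖c2 z‖ : ℂ) ≠ 0 := by exact_mod_cast p2'.ne'
      have hd : c2 z / ‖c2 z‖ = v' / ‖v'‖ * ex (-j * t') := by
        rw [div_eq_iff hc, mul_comm]; exact e2'
      rw [hd, hr', mul_assoc, ← ex_add]
      have : (-(j : ℝ) * t' + j * t') = 0 := by ring
      rw [this, ex_zero, mul_one]
      have : ((‖v'‖ : ℝ) : ℂ) ≠ 0 := by exact_mod_cast hv'.ne'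
      field_simp
  · filter_upwards [N1, N2, N3] with z z1 z2 z3
    have p1' : 0 < ‖c1 z‖ := norm_pos_iff.2 z1
    have p2' : 0 < ‖c2 z‖ := norm_pos_iff.2 z2
    have pf' : 0 < ‖fh z‖ := norm_pos_iff.2 z3
    have hc1' : (‖c1 z‖ : ℂ) ≠ 0 := by exact_mod_cast p1'.ne'
    have hc2' : (‖c2 z‖ : ℂ) ≠ 0 := by exact_mod_cast p2'.ne'
    set τ := GcM_tau t q₀ (c1 z, c2 z, fh z) with hτ
    set L := l + n * (τ - t) + (Complex.log (fh z / f₀)).im / (2 * Real.pi) with hL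
    -- the phase of `c1 * conj c2`
    have hρ : ∀ ρ : ℂ, ρ = ‖ρ‖ * ex ((Complex.log ρ).im / (2 * Real.pi)) := by
      intro ρ
      rw [Complex.log_im]; exact ex_arg.symm
    have Q1 : c1 z * (starRingEnd ℂ) (c2 z) = ((‖c1 z‖ * ‖c2 z‖ : ℝ) : ℂ) * ex τ := by
      set ρ := c1 z * (starRingEnd ℂ) (c2 z) / q₀ with hρd
      have h2 : c1 z * (starRingEnd ℂ) (c2 z) = ρ * q₀ := by
        rw [hρd, div_mul_cancel₀ _ hq0]
      have h3 : c1 z * (starRingEnd ℂ) (c2 z) =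
          ((‖ρ‖ * (‖c1 z₀‖ * ‖c2 z₀‖) : ℝ) : ℂ) * ex τ := by
        rw [h2, hρ ρ, P0]
        have : τ = t + (Complex.log ρ).im / (2 * Real.pi) := rfl
        rw [this, ex_add]
        rw [show ‖((‖ρ‖ : ℝ) : ℂ) * ex ((Complex.log ρ).im / (2 * Real.pi))‖ = ‖ρ‖ from by
          rw [← hρ ρ]]
        push_cast; ring
      have h4 : ‖ρ‖ * (‖c1 z₀‖ * ‖c2 z₀‖) = ‖c1 z‖ * ‖c2 z‖ := by
        have := congrArg norm h3
        rw [norm_mul, norm_mul, ex_norm, mul_one, Complex.norm_real, RCLike.norm_conj,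
          Real.norm_of_nonneg (by positivity)] at this
        exact this.symm
      rw [h3, h4]
    obtain ⟨m, hm⟩ := ex_surj (u := c2 z / ‖c2 z‖ * ex (j * τ)) (by
      rw [norm_mul, ex_norm, norm_div, Complex.norm_real, norm_norm, div_self p2'.ne', mul_one])
    have E2 : c2 z = ‖c2 z‖ * ex (((1 : ℤ) : ℝ) * m + ((-j : ℤ) : ℝ) * τ) := by
      have : ((1 : ℤ) : ℝ) * m + ((-j : ℤ) : ℝ) * τ = m + -(j * τ) := by push_cast; ring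
      rw [this, ex_add, ← hm, mul_assoc, ← ex_add]
      have : (j : ℝ) * τ + -(j * τ) = 0 := by ring
      rw [this, ex_zero, mul_one]
      field_simp
    have E1 : c1 z = ‖c1 z‖ * ex (((1 : ℤ) : ℝ) * m + ((1 - j : ℤ) : ℝ) * τ) := by
      have h5 : (starRingEnd ℂ) (c2 z) =
          ‖c2 z‖ * (starRingEnd ℂ) (ex (((1 : ℤ) : ℝ) * m + ((-j : ℤ) : ℝ) * τ)) := by
        conv_lhs => rw [E2]
        rw [map_mul, Complex.conj_ofReal]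
      have h6 := ex_mul_conj (((1 : ℤ) : ℝ) * m + ((-j : ℤ) : ℝ) * τ)
      have h7 : ((1 : ℤ) : ℝ) * m + ((1 - j : ℤ) : ℝ) * τ =
          (((1 : ℤ) : ℝ) * m + ((-j : ℤ) : ℝ) * τ) + τ := by push_cast; ring
      rw [h7, ex_add]
      set w := ex (((1 : ℤ) : ℝ) * m + ((-j : ℤ) : ℝ) * τ) with hw
      rw [h5] at Q1
      have h8 : (‖c2 z‖ : ℂ) * (c1 z * (starRingEnd ℂ) w) = ‖c2 z‖ * (‖c1 z‖ * ex τ) := by
        push_cast at Q1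
        linear_combination Q1
      have h9 := mul_left_cancel₀ hc2' h8
      calc c1 z = c1 z * (w * (starRingEnd ℂ) w) := by rw [h6, mul_one]
        _ = (c1 z * (starRingEnd ℂ) w) * w := by ring
        _ = _ := by rw [h9]; ring
    have E3 : fh z = ‖fh z‖ * ex (L - n * τ) := by
      set ρ := fh z / f₀ with hρd
      have h2 : fh z = ρ * f₀ := by rw [hρd, div_mul_cancel₀ _ hf0]
      have h3 : fh z = ((‖ρ‖ * ‖f₀‖ : ℝ) : ℂ) * ex (L - n * τ) := by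
        have : L - n * τ = (Complex.log ρ).im / (2 * Real.pi) + (l - n * t) := by
          rw [hL]; ring
        rw [this, ex_add]
        calc fh z = ρ * f₀ := h2
          _ = (‖ρ‖ * ex ((Complex.log ρ).im / (2 * Real.pi))) * (‖f₀‖ * ex (l - n * t)) := by
            rw [← hρ ρ, ← e3]
          _ = _ := by push_cast; ring
      have h4 : ‖ρ‖ * ‖f₀‖ = ‖fh z‖ := by
        rw [← norm_mul, ← h2]
      rw [← h4]; exact h3
    have := Gc_eq n j z3 z1 z2 E1 E2 E3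
    rw [← hm] at this
    exact this.symm

theorem Gc_per (n j : ℤ) (l t : ℝ) (v : ℂ) (a c : ℤ) :
    Gc n j (l + a, v, t + c) = Gc n j (l, v, t) := by
  have h1 : ex ((1 - j) * (t + c)) = ex ((1 - j) * t) := by
    have : (1 - (j : ℝ)) * (t + c) = (1 - j) * t + (((1 - j) * c : ℤ) : ℝ) := by push_cast; ring
    rw [this, ex_add_int]
  have h2 : ex (-j * (t + c)) = ex (-j * t) := by
    have : (-(j : ℝ)) * (t + c) = (-j) * t + ((-j * c : ℤ) : ℝ) := by push_cast; ring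
    rw [this, ex_add_int]
  have h3 : ex (l + a - n * (t + c)) = ex (l - n * t) := by
    have : l + a - n * (t + c) = l - n * t + ((a - n * c : ℤ) : ℝ) := by push_cast; ring
    rw [this, ex_add_int]
  simp only [Gc, h1, h2, h3]

end Pool.Agent.RSG
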