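import Pool.Agent.RSG.PGm
import Pool.Agent.RSG.LDc
import Pool.Agent.RSG.ExM

/-!
# RSG/BaQ: the unknot, the map `bQ`   (difficulty 2)

`ω = fh z / |fh z|`, `|ω| = 1` for `fh z ≠ 0`; `bQ k z = pS4 (c1 ω^k) (c2 ω^k) ht` (norm one, `pS4_c`).
* `bQ_spec`: `|ω^k| = 1`; `fh` depends only on `|c1|, |c2|, ht`.
* `bQ_comp`: `bQ (-k) (bQ k z) = z` for `fh z ≠ 0` (`ω (bQ k z) = ω z`, `ω^k ω^(-k) = 1`, `pS4_self`).
* `bQ_ld`: smooth on the open set `fh ≠ 0` (`pS4_smooth`; `z ↦ ω` is smooth, `zpow` of a nonzero smooth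
  function is smooth: for `k ≥ 0` a power, for `k < 0` the power of the inverse), inverse `bQ (-k)`:
  `ld_two`.
-/

open scoped Manifold ContDiff Topology
open Set Filter
open Complex (I)

namespace Pool.Agent.RSG

theorem BaQ_norm (k : ℤ) {f : ℂ} (h : f ≠ 0) : ‖(f / ‖f‖) ^ k‖ = 1 := by
  rw [norm_zpow, norm_div, Complex.norm_real, norm_norm, div_self (norm_ne_zero_iff.2 h), one_zpow]

theorem bQ_spec (k : ℤ) {z : S4} (h : fh z ≠ 0) :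
    c1 (bQ k z) = c1 z * (fh z / ‖fh z‖) ^ k ∧ c2 (bQ k z) = c2 z * (fh z / ‖fh z‖) ^ k ∧
    ht (bQ k z) = ht z ∧ ‖c1 (bQ k z)‖ = ‖c1 z‖ ∧ ‖c2 (bQ k z)‖ = ‖c2 z‖ ∧
    fh (bQ k z) = fh z := by
  have hn := BaQ_norm k h
  have H : ‖c1 z * (fh z / ‖fh z‖) ^ k‖ ^ 2 + ‖c2 z * (fh z / ‖fh z‖) ^ k‖ ^ 2 + ht z ^ 2 = 1 := by
    rw [norm_mul, norm_mul, hn, mul_one, mul_one]
    exact S4_sq z
  obtain ⟨e1, e2, e3⟩ := pS4_c H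
  have n1 : ‖c1 (bQ k z)‖ = ‖c1 z‖ := by
    unfold bQ
    rw [e1, norm_mul, hn, mul_one]
  have n2 : ‖c2 (bQ k z)‖ = ‖c2 z‖ := by
    unfold bQ
    rw [e2, norm_mul, hn, mul_one]
  refine ⟨e1, e2, e3, n1, n2, ?_⟩
  have e3' : ht (bQ k z) = ht z := e3
  show (⟨‖c1 (bQ k z)‖ ^ 2 - ‖c2 (bQ k z)‖ ^ 2, ht (bQ k z) * Real.sqrt (2 - ht (bQ k z) ^ 2)⟩ : ℂ) = _
  rw [n1, n2, e3']
  rfl

theorem bQ_comp (k : ℤ) {z : S4} (h : fh z ≠ 0) : bQ (-k) (bQ k z) = z := by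
  obtain ⟨e1, e2, e3, _, _, e6⟩ := bQ_spec k h
  have hw : (fh z / ‖fh z‖ : ℂ) ≠ 0 :=
    div_ne_zero h (Complex.ofReal_ne_zero.2 (norm_ne_zero_iff.2 h))
  have h1 : (fh z / ‖fh z‖ : ℂ) ^ k * (fh z / ‖fh z‖ : ℂ) ^ (-k) = 1 := by
    rw [← zpow_add₀ hw, add_neg_cancel, zpow_zero]
  show pS4 (c1 (bQ k z) * (fh (bQ k z) / ‖fh (bQ k z)‖) ^ (-k))
    (c2 (bQ k z) * (fh (bQ k z) / ‖fh (bQ k z)‖) ^ (-k)) (ht (bQ k z)) = z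
  rw [e6, e1, e2, e3, mul_assoc, mul_assoc, h1, mul_one, mul_one, pS4_self]

theorem BaQ_cd (k : ℤ) {p : ℂ × ℂ} (h : p.2 ≠ 0) :
    ContDiffAt ℝ ∞ (fun p : ℂ × ℂ => p.1 * (p.2 / ‖p.2‖) ^ k) p := by
  have hn : (‖p.2‖ : ℂ) ≠ 0 := Complex.ofReal_ne_zero.2 (norm_ne_zero_iff.2 h)
  have h2 : ContDiffAt ℝ ∞ (fun p : ℂ × ℂ => (‖p.2‖ : ℂ)) p := by
    refine Complex.ofRealCLM.contDiff.contDiffAt.comp p ?_
    exact contDiffAt_snd.norm ℝ h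
  have h3 : ContDiffAt ℝ ∞ (fun p : ℂ × ℂ => p.2 / (‖p.2‖ : ℂ)) p := by
    have : ContDiffAt ℝ ∞ (fun p : ℂ × ℂ => p.2 * (‖p.2‖ : ℂ)⁻¹) p :=
      contDiffAt_snd.mul (h2.inv hn)
    exact this
  have h4 : ContDiffAt ℝ ∞ (fun p : ℂ × ℂ => (p.2 / (‖p.2‖ : ℂ)) ^ k) p := by
    cases k with
    | ofNat n =>
      simp only [Int.ofNat_eq_natCast, zpow_natCast]
      exact h3.pow n
    | negSucc n =>
      simp only [zpow_negSucc]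
      exact (h3.pow (n + 1)).inv (pow_ne_zero _ (div_ne_zero h hn))
  exact contDiffAt_fst.mul h4

theorem BaQ_smooth (k : ℤ) {z : S4} (h : fh z ≠ 0) : ContMDiffAt (𝓡 4) (𝓡 4) ∞ (bQ k) z := by
  have hn := BaQ_norm k h
  have g1 : ContMDiffAt (𝓡 4) 𝓘(ℝ, ℂ) ∞ (fun z : S4 => c1 z * (fh z / ‖fh z‖) ^ k) z :=
    (BaQ_cd k (p := (c1 z, fh z)) h).contMDiffAt.comp z
      (c1_smooth.contMDiffAt.prodMk_space fh_smooth.contMDiffAt)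
  have g2 : ContMDiffAt (𝓡 4) 𝓘(ℝ, ℂ) ∞ (fun z : S4 => c2 z * (fh z / ‖fh z‖) ^ k) z :=
    (BaQ_cd k (p := (c2 z, fh z)) h).contMDiffAt.comp z
      (c2_smooth.contMDiffAt.prodMk_space fh_smooth.contMDiffAt)
  refine pS4_smooth g1 g2 ht_smooth.contMDiffAt ?_
  rw [norm_mul, norm_mul, hn, mul_one, mul_one, S4_sq z]
  exact one_pos

theorem bQ_ld (k : ℤ) {z : S4} (h : fh z ≠ 0) :
    IsLocalDiffeomorphAt (𝓡 4) (𝓡 4) ∞ (bQ k) z := by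
  have ho : IsOpen {y : S4 | fh y ≠ 0} := isOpen_ne_fun fh_smooth.continuous continuous_const
  have h6 : fh (bQ k z) ≠ 0 := by
    rw [(bQ_spec k h).2.2.2.2.2]; exact h
  refine ld_two (g := bQ (-k)) ?_ ?_ ?_ ?_
  · exact Filter.mem_of_superset (ho.mem_nhds h) fun y hy => BaQ_smooth k hy
  · exact Filter.mem_of_superset (ho.mem_nhds h6) fun y hy => BaQ_smooth (-k) hy
  · exact Filter.mem_of_superset (ho.mem_nhds h) fun y hy => bQ_comp k hy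
  · refine Filter.mem_of_superset (ho.mem_nhds h6) fun y hy => ?_
    have := bQ_comp (-k) (z := y) hy
    rwa [neg_neg] at this

end Pool.Agent.RSG
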