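import Pool.Agent.RSG.Sph
import Pool.Agent.RSG.LDc
import Pool.Agent.RSG.ExM

/-!
# RSG/StdM: the standard thick unknots   (difficulty 2)

`std k (l, v) = pS3 (v ex(kl)) (√(1 - |v|²) ex l)`.  Write `w₁, w₂` for the complex coordinates of
`w` in `S3`.  For `|v| < 1`: `w₁ = v ex(kl)`, `w₂ = √(1 - |v|²) ex l ≠ 0` (`pS3_c`).
* periodic: `ex (x + 1) = ex x`, `ex (k (l + 1)) = ex (k l)`.
* injective: `|w₂| = √(1 - |v|²)` gives `ex l = ex l'` so `l' = l + m`, and then `v ex(kl) = v' ex(kl')`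
  gives `v = v'`.
* local diffeomorphism at `(l₀, v₀)`: smooth (`pS3_smooth`, `√` at a positive number); smooth local
  inverse near the image `w ↦ (λ, w₁ ex (-k λ))`, `λ = l₀ + (log (w₂ / ex l₀)).im / 2π`
  (slit plane: `w₂ / ex l₀` is near a positive real); both compositions are the identity near the
  points (`std k (λ, w₁ ex(-kλ)) = w`: `√(1 - |w₁|²) = |w₂|`, `|w₂| ex λ = w₂`, `pS3_self`).  `ld_two`.
* `std_knot`: `OnKnot (std k) w ↔ w₁ = 0` (if `w₁ = 0`, `|w₂| = 1`, `w₂ = ex l`).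
-/

open scoped Manifold ContDiff Topology
open Set Filter
open Complex (I)

namespace Pool.Agent.RSG

/-- first complex coordinate of `S3` -/
noncomputable def StdM_w1 (w : S3) : ℂ := ⟨w.1 0, w.1 1⟩
/-- second complex coordinate of `S3` -/
noncomputable def StdM_w2 (w : S3) : ℂ := ⟨w.1 2, w.1 3⟩

theorem StdM_pos {v : ℂ} (hv : ‖v‖ < 1) : 0 < 1 - ‖v‖ ^ 2 := by
  nlinarith [norm_nonneg v]

theorem StdM_H (k : ℤ) (l : ℝ) {v : ℂ} (hv : ‖v‖ < 1) :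
    ‖v * ex (k * l)‖ ^ 2 + ‖((Real.sqrt (1 - ‖v‖ ^ 2) : ℝ) : ℂ) * ex l‖ ^ 2 = 1 := by
  rw [norm_mul, norm_mul, ex_norm, ex_norm, Complex.norm_real, Real.norm_eq_abs,
    abs_of_nonneg (Real.sqrt_nonneg _), mul_one, mul_one, Real.sq_sqrt (StdM_pos hv).le]
  ring

theorem StdM_c (k : ℤ) (l : ℝ) {v : ℂ} (hv : ‖v‖ < 1) :
    StdM_w1 (std k (l, v)) = v * ex (k * l) ∧
      StdM_w2 (std k (l, v)) = ((Real.sqrt (1 - ‖v‖ ^ 2) : ℝ) : ℂ) * ex l :=
  pS3_c (StdM_H k l hv)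

theorem StdM_per (k : ℤ) (l : ℝ) (v : ℂ) : std k (l + 1, v) = std k (l, v) := by
  have h1 : ex (l + 1) = ex l := by
    have := ex_add_int l 1
    simpa using this
  have h2 : ex (k * (l + 1)) = ex (k * l) := by
    rw [mul_add, mul_one]
    exact ex_add_int _ k
  simp only [std, h1, h2]

theorem StdM_sm (k : ℤ) {q : ℝ × ℂ} (hq : ‖q.2‖ < 1) :
    ContMDiffAt 𝓘(ℝ, ℝ × ℂ) (𝓡 3) ∞ (std k) q := by
  have h1 : ContDiffAt ℝ ∞ (fun q : ℝ × ℂ => q.2 * ex (k * q.1)) q := by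
    refine contDiffAt_snd.mul ?_
    exact ex_smooth.contDiffAt.comp q (contDiffAt_const.mul contDiffAt_fst)
  have h2 : ContDiffAt ℝ ∞ (fun q : ℝ × ℂ => ((Real.sqrt (1 - ‖q.2‖ ^ 2) : ℝ) : ℂ) * ex q.1) q := by
    refine ContDiffAt.mul ?_ (ex_smooth.contDiffAt.comp q contDiffAt_fst)
    have h3 : ContDiffAt ℝ ∞ (fun q : ℝ × ℂ => Real.sqrt (1 - ‖q.2‖ ^ 2)) q := by
      refine ContDiffAt.sqrt ?_ (StdM_pos hq).ne'
      exact contDiffAt_const.sub (contDiffAt_snd.norm_sq ℝ)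
    exact Complex.ofRealCLM.contDiff.contDiffAt.comp q h3
  refine pS3_smooth h1.contMDiffAt h2.contMDiffAt ?_
  have := StdM_H k q.1 hq
  rw [this]
  norm_num

/-- the local inverse -/
noncomputable def StdM_g (k : ℤ) (l₀ : ℝ) (w : S3) : ℝ × ℂ :=
  (l₀ + (Complex.log (StdM_w2 w / ex l₀)).im / (2 * Real.pi),
    StdM_w1 w * ex (-(k * (l₀ + (Complex.log (StdM_w2 w / ex l₀)).im / (2 * Real.pi)))))

theorem StdM_gs (k : ℤ) (l₀ : ℝ) {w : S3} (hw : StdM_w2 w / ex l₀ ∈ Complex.slitPlane) :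
    ContMDiffAt (𝓡 3) 𝓘(ℝ, ℝ × ℂ) ∞ (StdM_g k l₀) w := by
  have hc := S3c_smooth
  -- the map on `ℂ × ℂ`
  let G : ℂ × ℂ → ℝ × ℂ := fun q =>
    (l₀ + (Complex.log (q.2 / ex l₀)).im / (2 * Real.pi),
    q.1 * ex (-(k * (l₀ + (Complex.log (q.2 / ex l₀)).im / (2 * Real.pi)))))
  have h1 : ContDiffAt ℝ ∞ (fun q : ℂ × ℂ => l₀ + (Complex.log (q.2 / ex l₀)).im / (2 * Real.pi))
      (StdM_w1 w, StdM_w2 w) := by
    refine contDiffAt_const.add (ContDiffAt.div_const ?_ _)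
    have h2 : ContDiffAt ℝ ∞ (fun q : ℂ × ℂ => Complex.log (q.2 / ex l₀))
        (StdM_w1 w, StdM_w2 w) := by
      have h3 : ContDiffAt ℂ ∞ (fun q : ℂ × ℂ => Complex.log (q.2 / ex l₀))
        (StdM_w1 w, StdM_w2 w) := by
        exact (Complex.contDiffAt_log hw).comp (StdM_w1 w, StdM_w2 w)
          (f := fun q : ℂ × ℂ => q.2 / ex l₀) (contDiffAt_snd.div_const _)
      exact h3.restrict_scalars ℝ
    exact Complex.imCLM.contDiff.contDiffAt.comp _ h2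
  have hG : ContDiffAt ℝ ∞ G (StdM_w1 w, StdM_w2 w) := by
    refine h1.prodMk ?_
    refine contDiffAt_fst.mul ?_
    exact ex_smooth.contDiffAt.comp _ (contDiffAt_const.mul h1).neg
  have h4 : ContMDiffAt (𝓡 3) 𝓘(ℝ, ℂ × ℂ) ∞ (fun w : S3 => (StdM_w1 w, StdM_w2 w)) w :=
    (hc.1.contMDiffAt).prodMk_space hc.2.contMDiffAt
  exact ContMDiffAt.comp (x := w) (f := fun w : S3 => (StdM_w1 w, StdM_w2 w)) (g := G) 
    hG.contMDiffAt h4

theorem StdM_fst (l₀ l : ℝ) {v : ℂ} (k : ℤ) (hv : ‖v‖ < 1) (h1 : -(1 / 2) < l - l₀)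
    (h2 : l - l₀ < 1 / 2) :
    l₀ + (Complex.log (StdM_w2 (std k (l, v)) / ex l₀)).im / (2 * Real.pi) = l := by
  have h3 : StdM_w2 (std k (l, v)) / ex l₀ = ((Real.sqrt (1 - ‖v‖ ^ 2) : ℝ) : ℂ) * ex (l - l₀) := by
    rw [(StdM_c k l hv).2, div_eq_iff (ex_ne l₀), mul_assoc, ← ex_add, sub_add_cancel]
  rw [h3, ex_log (Real.sqrt_pos.2 (StdM_pos hv)) h1 h2]
  field_simp
  ring

theorem StdM_gf (k : ℤ) (l₀ l : ℝ) {v : ℂ} (hv : ‖v‖ < 1) (h1 : -(1 / 2) < l - l₀)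
    (h2 : l - l₀ < 1 / 2) : StdM_g k l₀ (std k (l, v)) = (l, v) := by
  unfold StdM_g
  rw [StdM_fst l₀ l k hv h1 h2, (StdM_c k l hv).1, mul_assoc, ← ex_add, add_neg_cancel, ex_zero,
    mul_one]

theorem StdM_fg (k : ℤ) (l₀ : ℝ) (w : S3) : std k (StdM_g k l₀ w) = w := by
  have hsq := S3_sq w
  change ‖StdM_w1 w‖ ^ 2 + ‖StdM_w2 w‖ ^ 2 = 1 at hsq
  set L : ℝ := l₀ + (Complex.log (StdM_w2 w / ex l₀)).im / (2 * Real.pi) with hL
  have h1 : StdM_g k l₀ w = (L, StdM_w1 w * ex (-(k * L))) := rfl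
  have h2 : ‖StdM_w1 w * ex (-(k * L))‖ = ‖StdM_w1 w‖ := by
    rw [norm_mul, ex_norm, mul_one]
  have h3 : Real.sqrt (1 - ‖StdM_w1 w‖ ^ 2) = ‖StdM_w2 w‖ := by
    rw [show 1 - ‖StdM_w1 w‖ ^ 2 = ‖StdM_w2 w‖ ^ 2 by linarith, Real.sqrt_sq (norm_nonneg _)]
  have h4 : ((‖StdM_w2 w‖ : ℝ) : ℂ) * ex L = StdM_w2 w := by
    have h5 := @ex_arg (StdM_w2 w / ex l₀)
    rw [norm_div, ex_norm, div_one] at h5
    rw [hL, ex_add, Complex.log_im]
    calc ((‖StdM_w2 w‖ : ℝ) : ℂ) * (ex l₀ * ex (Complex.arg (StdM_w2 w / ex l₀) / (2 * Real.pi)))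
        = ex l₀ * (((‖StdM_w2 w‖ : ℝ) : ℂ) *
            ex (Complex.arg (StdM_w2 w / ex l₀) / (2 * Real.pi))) := by ring
      _ = ex l₀ * (StdM_w2 w / ex l₀) := by rw [h5]
      _ = StdM_w2 w := mul_div_cancel₀ _ (ex_ne l₀)
  have h6 : StdM_w1 w * ex (-(k * L)) * ex (k * L) = StdM_w1 w := by
    rw [mul_assoc, ← ex_add, neg_add_cancel, ex_zero, mul_one]
  rw [h1]
  change pS3 (StdM_w1 w * ex (-(k * L)) * ex (k * L))
    (((Real.sqrt (1 - ‖StdM_w1 w * ex (-(k * L))‖ ^ 2) : ℝ) : ℂ) * ex L) = w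
  rw [h2, h3, h4, h6]
  exact pS3_self w

theorem std_thick (k : ℤ) : Thick (std k) := by
  refine ⟨StdM_per k, ?_, ?_⟩
  · intro l v hv
    have e1 : ∀ᶠ y : ℝ × ℂ in 𝓝 (l, v), ‖y.2‖ < 1 :=
      (continuous_snd.norm.continuousAt (x := (l, v))).eventually (gt_mem_nhds (by simpa using hv))
    have e2 : ∀ᶠ y : ℝ × ℂ in 𝓝 (l, v), -(1 / 2) < y.1 - l := by
      have h := (continuous_fst.sub continuous_const : Continuous fun y : ℝ × ℂ => y.1 - l).continuousAt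
        (x := (l, v))
      exact h.eventually (lt_mem_nhds (by norm_num))
    have e3 : ∀ᶠ y : ℝ × ℂ in 𝓝 (l, v), y.1 - l < 1 / 2 := by
      have h := (continuous_fst.sub continuous_const : Continuous fun y : ℝ × ℂ => y.1 - l).continuousAt
        (x := (l, v))
      exact h.eventually (gt_mem_nhds (by norm_num))
    have e4 : ∀ᶠ w : S3 in 𝓝 (std k (l, v)), StdM_w2 w / ex l ∈ Complex.slitPlane := by
      have hc : ContinuousAt (fun w : S3 => StdM_w2 w / ex l) (std k (l, v)) :=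
        (S3c_smooth.2.continuous.continuousAt).div_const _
      refine hc.eventually (Complex.isOpen_slitPlane.mem_nhds ?_)
      change StdM_w2 (std k (l, v)) / ex l ∈ Complex.slitPlane
      rw [(StdM_c k l hv).2, mul_div_cancel_right₀ _ (ex_ne l)]
      exact Complex.ofReal_mem_slitPlane.2 (Real.sqrt_pos.2 (StdM_pos hv))
    refine ld_two (g := StdM_g k l) ?_ ?_ ?_ ?_
    · filter_upwards [e1] with y hy using StdM_sm k hy
    · filter_upwards [e4] with w hw using StdM_gs k l hw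
    · filter_upwards [e1, e2, e3] with y h1 h2 h3
      exact StdM_gf k l y.1 h1 h2 h3
    · exact Eventually.of_forall fun w => StdM_fg k l w
  · intro l v l' v' hv hv' h
    have h1 := (StdM_c k l hv).1
    have h2 := (StdM_c k l hv).2
    rw [h] at h1 h2
    rw [(StdM_c k l' hv').1] at h1
    rw [(StdM_c k l' hv').2] at h2
    obtain ⟨-, m, hm⟩ := ex_polar (Real.sqrt_pos.2 (StdM_pos hv)) (Real.sqrt_pos.2 (StdM_pos hv'))
      h2.symm
    refine ⟨?_, m, hm⟩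
    have h3 : ex (k * l') = ex (k * l) := by
      rw [hm, mul_add]
      have := ex_add_int (k * l) (k * m)
      push_cast at this
      exact this
    rw [h3] at h1
    exact (mul_right_cancel₀ (ex_ne _) h1).symm

theorem std_knot (k : ℤ) (w : S3) : OnKnot (std k) w ↔ (⟨w.1 0, w.1 1⟩ : ℂ) = 0 := by
  change OnKnot (std k) w ↔ StdM_w1 w = 0
  constructor
  · rintro ⟨l, rfl⟩
    rw [(StdM_c k l (by simp : ‖(0 : ℂ)‖ < 1)).1, zero_mul]
  · intro h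
    have hsq := S3_sq w
    change ‖StdM_w1 w‖ ^ 2 + ‖StdM_w2 w‖ ^ 2 = 1 at hsq
    rw [h] at hsq
    have h1 : ‖StdM_w2 w‖ = 1 := by
      have h2 : ‖StdM_w2 w‖ ^ 2 = 1 := by simpa using hsq
      have h3 := norm_nonneg (StdM_w2 w)
      nlinarith
    obtain ⟨l, hl⟩ := ex_surj h1
    refine ⟨l, ?_⟩
    have h4 := pS3_self w
    change pS3 (StdM_w1 w) (StdM_w2 w) = w at h4
    rw [← h4, h, hl]
    simp [std]

end Pool.Agent.RSG
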