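import Pool.Agent.RSG.Defs

/-!
# RSG/SphA: coordinates on the spheres, smoothness   (difficulty 2)

* `toSph_smooth`: on the open submanifold `{v ≠ 0}` of `E` the map `v ↦ ‖v‖⁻¹ • v` is smooth with
  values in the sphere: `ContMDiff.codRestrict_sphere`; then `contMDiffAt_subtype_iff` (or compose
  with a smooth map `E → E` without zeros which is the identity near the given point).
* coordinates: composition of `contMDiff_coe_sphere` and of continuous linear maps; `fh`: `√(2 - h²)`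
  is smooth for `|h| ≤ 1`.
* `pS4_smooth`: `toSph_smooth` composed with the smooth map `x ↦ toLp 2 ![..]`, nonzero at `x`.
* `pS4_self`, `c1_pS4` ...: `‖toLp 2 ![a.re, a.im, b.re, b.im, h]‖² = ‖a‖² + ‖b‖² + h²`.
* `fh_sq`: with `A = ‖c1‖²`, `B = ‖c2‖²`, `h² = 1 - A - B`: `(A - B)² + h² (2 - h²) + 4 A B =
  (A + B)² + (1 - A - B)(1 + A + B) = 1`.
-/

open scoped Manifold ContDiff Topology
open Set Filter
open Complex (I)

namespace Pool.Agent.RSG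

section
variable {E : Type*} [NormedAddCommGroup E] [InnerProductSpace ℝ E] {n : ℕ}
  [Fact (Module.finrank ℝ E = n + 1)]

omit [Fact (Module.finrank ℝ E = n + 1)] in
theorem toSph_coe (e : Metric.sphere (0 : E) 1) {v : E} (hv : v ≠ 0) :
    (toSph e v : E) = ‖v‖⁻¹ • v := by
  unfold toSph
  rw [dif_neg hv]

omit [Fact (Module.finrank ℝ E = n + 1)] in
theorem toSph_self (e z : Metric.sphere (0 : E) 1) : toSph e (z : E) = z := by
  have hz : ‖(z : E)‖ = 1 := norm_eq_of_mem_sphere z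
  have h0 : (z : E) ≠ 0 := by
    intro h
    rw [h, norm_zero] at hz
    exact zero_ne_one hz
  apply Subtype.ext
  rw [toSph_coe e h0, hz, inv_one, one_smul]

theorem toSph_smooth (e : Metric.sphere (0 : E) 1) {v : E} (hv : v ≠ 0) :
    ContMDiffAt 𝓘(ℝ, E) (𝓡 n) ∞ (toSph e) v := by
  have hv' : 0 < ‖v‖ := norm_pos_iff.2 hv
  let f : ContDiffBump v := ⟨‖v‖ / 4, ‖v‖ / 2, by linarith, by linarith⟩
  set g : E → E := fun x => v + f x • (x - v) with hg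
  have hgs : ContDiff ℝ ∞ g := contDiff_const.add (f.contDiff.smul (contDiff_id.sub contDiff_const))
  have hg0 : ∀ x, g x ≠ 0 := by
    intro x hx
    have h1 : f x • (x - v) = -v := by
      have : v + f x • (x - v) = 0 := hx
      exact eq_neg_of_add_eq_zero_right this
    have h2 : |f x| * ‖x - v‖ = ‖v‖ := by
      rw [← Real.norm_eq_abs, ← norm_smul, h1, norm_neg]
    by_cases hd : dist x v < ‖v‖ / 2
    · have h3 : |f x| ≤ 1 := by
        rw [abs_of_nonneg f.nonneg]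
        exact f.le_one
      rw [dist_eq_norm] at hd
      have h4 : |f x| * ‖x - v‖ ≤ 1 * ‖x - v‖ := mul_le_mul_of_nonneg_right h3 (norm_nonneg _)
      linarith
    · have h3 : f x = 0 := f.zero_of_le_dist (not_lt.1 hd)
      rw [h3, abs_zero, zero_mul] at h2
      linarith
  have hF : ContDiff ℝ ∞ fun x => ‖g x‖⁻¹ • g x := by
    have h3 : ContDiff ℝ ∞ fun x => ‖g x‖ := hgs.norm ℝ hg0
    exact (h3.inv fun x => norm_ne_zero_iff.2 (hg0 x)).smul hgs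
  have hm : ∀ x, (fun x => ‖g x‖⁻¹ • g x) x ∈ Metric.sphere (0 : E) 1 := by
    intro x
    rw [mem_sphere_zero_iff_norm]
    change ‖‖g x‖⁻¹ • g x‖ = 1
    rw [norm_smul, norm_inv, norm_norm, inv_mul_cancel₀ (norm_ne_zero_iff.2 (hg0 x))]
  have h1 := ContMDiff.codRestrict_sphere (n := n) hF.contMDiff hm
  refine (h1 v).congr_of_eventuallyEq ?_
  have hball : Metric.ball v (‖v‖ / 4) ∈ 𝓝 v := Metric.ball_mem_nhds v (by linarith)
  filter_upwards [hball] with x hx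
  have hfx : f x = 1 := f.one_of_mem_closedBall (Metric.ball_subset_closedBall hx)
  have hgx : g x = x := by
    rw [hg]
    change v + f x • (x - v) = x
    rw [hfx, one_smul, add_sub_cancel]
  have hx0 : x ≠ 0 := by
    rw [← hgx]
    exact hg0 x
  apply Subtype.ext
  rw [toSph_coe e hx0]
  change _ = ‖g x‖⁻¹ • g x
  rw [hgx]

end

section
variable {V : Type*} [NormedAddCommGroup V] [NormedSpace ℝ V] {H : Type*} [TopologicalSpace H]
  {J : ModelWithCorners ℝ V H} {M : Type*} [TopologicalSpace M] [ChartedSpace H M]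

theorem SphA_c {f : M → ℂ} {x : M} (hf : ContMDiffAt J 𝓘(ℝ, ℂ) ∞ f x) :
    ContMDiffAt J 𝓘(ℝ, ℝ) ∞ (fun x => (f x).re) x ∧
    ContMDiffAt J 𝓘(ℝ, ℝ) ∞ (fun x => (f x).im) x :=
  ⟨(Complex.reCLM.contMDiff (f x)).comp x hf, (Complex.imCLM.contMDiff (f x)).comp x hf⟩

theorem pS2_smooth {a : M → ℂ} {h : M → ℝ} {x : M} (ha : ContMDiffAt J 𝓘(ℝ, ℂ) ∞ a x)
    (hh : ContMDiffAt J 𝓘(ℝ, ℝ) ∞ h x) (h0 : 0 < ‖a x‖ ^ 2 + h x ^ 2) :
    ContMDiffAt J (𝓡 2) ∞ (fun x => pS2 (a x) (h x)) x := by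
  have hne : (WithLp.toLp 2 ![(a x).re, (a x).im, h x] : E3) ≠ 0 := by
    intro h1
    have e0 := congrArg (fun v : E3 => v 0) h1
    have e1 := congrArg (fun v : E3 => v 1) h1
    have e2 := congrArg (fun v : E3 => v 2) h1
    simp at e0 e1 e2
    have : a x = 0 := Complex.ext e0 e1
    rw [this, e2] at h0
    simp at h0
  have hs : ContMDiffAt J 𝓘(ℝ, E3) ∞
      (fun x => (WithLp.toLp 2 ![(a x).re, (a x).im, h x] : E3)) x := by
    have h1 : ContMDiffAt J 𝓘(ℝ, Fin 3 → ℝ) ∞ (fun x => ![(a x).re, (a x).im, h x]) x := by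
      rw [contMDiffAt_pi_space]
      intro i
      fin_cases i
      · exact (SphA_c ha).1
      · exact (SphA_c ha).2
      · exact hh
    exact ((PiLp.continuousLinearEquiv 2 ℝ (fun _ : Fin 3 => ℝ)).symm.contDiff.contMDiff.contMDiffAt).comp x h1
  have := Fact.mk (@finrank_euclideanSpace_fin ℝ _ (2 + 1))
  exact (toSph_smooth (E := E3) (n := 2) _ hne).comp x hs

theorem pS3_smooth {a b : M → ℂ} {x : M} (ha : ContMDiffAt J 𝓘(ℝ, ℂ) ∞ a x)
    (hb : ContMDiffAt J 𝓘(ℝ, ℂ) ∞ b x) (h0 : 0 < ‖a x‖ ^ 2 + ‖b x‖ ^ 2) :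
    ContMDiffAt J (𝓡 3) ∞ (fun x => pS3 (a x) (b x)) x := by
  have hne : (WithLp.toLp 2 ![(a x).re, (a x).im, (b x).re, (b x).im] : E4) ≠ 0 := by
    intro h1
    have e0 := congrArg (fun v : E4 => v 0) h1
    have e1 := congrArg (fun v : E4 => v 1) h1
    have e2 := congrArg (fun v : E4 => v 2) h1
    have e3 := congrArg (fun v : E4 => v 3) h1
    simp at e0 e1 e2 e3
    have h2 : a x = 0 := Complex.ext e0 e1
    have h3 : b x = 0 := Complex.ext e2 e3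
    rw [h2, h3] at h0
    simp at h0
  have hs : ContMDiffAt J 𝓘(ℝ, E4) ∞
      (fun x => (WithLp.toLp 2 ![(a x).re, (a x).im, (b x).re, (b x).im] : E4)) x := by
    have h1 : ContMDiffAt J 𝓘(ℝ, Fin 4 → ℝ) ∞
        (fun x => ![(a x).re, (a x).im, (b x).re, (b x).im]) x := by
      rw [contMDiffAt_pi_space]
      intro i
      fin_cases i
      · exact (SphA_c ha).1
      · exact (SphA_c ha).2
      · exact (SphA_c hb).1
      · exact (SphA_c hb).2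
    exact ((PiLp.continuousLinearEquiv 2 ℝ
      (fun _ : Fin 4 => ℝ)).symm.contDiff.contMDiff.contMDiffAt).comp x h1
  have := Fact.mk (@finrank_euclideanSpace_fin ℝ _ (3 + 1))
  exact (toSph_smooth (E := E4) (n := 3) _ hne).comp x hs

theorem pS4_smooth {a b : M → ℂ} {h : M → ℝ} {x : M} (ha : ContMDiffAt J 𝓘(ℝ, ℂ) ∞ a x)
    (hb : ContMDiffAt J 𝓘(ℝ, ℂ) ∞ b x) (hh : ContMDiffAt J 𝓘(ℝ, ℝ) ∞ h x)
    (h0 : 0 < ‖a x‖ ^ 2 + ‖b x‖ ^ 2 + h x ^ 2) :
    ContMDiffAt J (𝓡 4) ∞ (fun x => pS4 (a x) (b x) (h x)) x := by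
  have hne : (WithLp.toLp 2 ![(a x).re, (a x).im, (b x).re, (b x).im, h x] : E5) ≠ 0 := by
    intro h1
    have e0 := congrArg (fun v : E5 => v 0) h1
    have e1 := congrArg (fun v : E5 => v 1) h1
    have e2 := congrArg (fun v : E5 => v 2) h1
    have e3 := congrArg (fun v : E5 => v 3) h1
    have e4 := congrArg (fun v : E5 => v 4) h1
    simp at e0 e1 e2 e3 e4
    have h2 : a x = 0 := Complex.ext e0 e1
    have h3 : b x = 0 := Complex.ext e2 e3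
    rw [h2, h3, e4] at h0
    simp at h0
  have hs : ContMDiffAt J 𝓘(ℝ, E5) ∞
      (fun x => (WithLp.toLp 2 ![(a x).re, (a x).im, (b x).re, (b x).im, h x] : E5)) x := by
    have h1 : ContMDiffAt J 𝓘(ℝ, Fin 5 → ℝ) ∞
        (fun x => ![(a x).re, (a x).im, (b x).re, (b x).im, h x]) x := by
      rw [contMDiffAt_pi_space]
      intro i
      fin_cases i
      · exact (SphA_c ha).1
      · exact (SphA_c ha).2
      · exact (SphA_c hb).1
      · exact (SphA_c hb).2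
      · exact hh
    exact ((PiLp.continuousLinearEquiv 2 ℝ
      (fun _ : Fin 5 => ℝ)).symm.contDiff.contMDiff.contMDiffAt).comp x h1
  have := Fact.mk (@finrank_euclideanSpace_fin ℝ _ (4 + 1))
  exact (toSph_smooth (E := E5) (n := 4) _ hne).comp x hs

end

theorem SphA_coord {n : ℕ} (i : Fin (n + 1)) :
    ContMDiff (𝓡 n) 𝓘(ℝ, ℝ) ∞
      (fun y : Metric.sphere (0 : EuclideanSpace ℝ (Fin (n + 1))) 1 => y.1 i) := by
  have := Fact.mk (@finrank_euclideanSpace_fin ℝ _ (n + 1))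
  have h0 : ContMDiff (𝓡 n) 𝓘(ℝ, EuclideanSpace ℝ (Fin (n + 1))) ∞
      (Subtype.val : Metric.sphere (0 : EuclideanSpace ℝ (Fin (n + 1))) 1 →
        EuclideanSpace ℝ (Fin (n + 1))) := contMDiff_coe_sphere (n := n)
  have h1 : ContDiff ℝ ∞ fun z : EuclideanSpace ℝ (Fin (n + 1)) => z i :=
    (EuclideanSpace.proj (𝕜 := ℝ) i).contDiff
  exact h1.contMDiff.comp h0

theorem SphA_mk {V : Type*} [NormedAddCommGroup V] [NormedSpace ℝ V] {H : Type*}
    [TopologicalSpace H] {J : ModelWithCorners ℝ V H} {M : Type*} [TopologicalSpace M]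
    [ChartedSpace H M] {f g : M → ℝ} (hf : ContMDiff J 𝓘(ℝ, ℝ) ∞ f)
    (hg : ContMDiff J 𝓘(ℝ, ℝ) ∞ g) : ContMDiff J 𝓘(ℝ, ℂ) ∞ (fun x => (⟨f x, g x⟩ : ℂ)) := by
  have h1 : ContDiff ℝ ∞ fun z : ℝ × ℝ => (⟨z.1, z.2⟩ : ℂ) :=
    Complex.equivRealProdCLM.symm.contDiff
  exact h1.contMDiff.comp (hf.prodMk_space hg)

theorem hz_smooth : ContMDiff (𝓡 2) 𝓘(ℝ, ℂ) ∞ hz := SphA_mk (SphA_coord 0) (SphA_coord 1)
theorem ho_smooth : ContMDiff (𝓡 2) 𝓘(ℝ, ℝ) ∞ ho := SphA_coord (n := 2) 2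
theorem c1_smooth : ContMDiff (𝓡 4) 𝓘(ℝ, ℂ) ∞ c1 := SphA_mk (SphA_coord 0) (SphA_coord 1)
theorem c2_smooth : ContMDiff (𝓡 4) 𝓘(ℝ, ℂ) ∞ c2 := SphA_mk (SphA_coord 2) (SphA_coord 3)
theorem ht_smooth : ContMDiff (𝓡 4) 𝓘(ℝ, ℝ) ∞ ht := SphA_coord (n := 4) 4
theorem fh_smooth : ContMDiff (𝓡 4) 𝓘(ℝ, ℂ) ∞ fh := by
  have hn : ContDiff ℝ ∞ fun z : ℂ => ‖z‖ ^ 2 := contDiff_norm_sq ℝ
  have h1 : ContMDiff (𝓡 4) 𝓘(ℝ, ℝ) ∞ (fun z : S4 => ‖c1 z‖ ^ 2 - ‖c2 z‖ ^ 2) :=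
    (hn.contMDiff.comp c1_smooth).sub (hn.contMDiff.comp c2_smooth)
  have h2 : ContMDiff (𝓡 4) 𝓘(ℝ, ℝ) ∞ (fun z : S4 => ht z * Real.sqrt (2 - ht z ^ 2)) := by
    refine ht_smooth.mul ?_
    intro z
    have hz1 : ht z ^ 2 ≤ 1 := by
      have h3 : ‖(z : E5)‖ = 1 := norm_eq_of_mem_sphere z
      have h4 := EuclideanSpace.norm_sq_eq (z : E5)
      rw [h3] at h4
      have h5 : ‖(z : E5) 4‖ ^ 2 ≤ ∑ i, ‖(z : E5) i‖ ^ 2 :=
        Finset.single_le_sum (f := fun i => ‖(z : E5) i‖ ^ 2) (fun i _ => sq_nonneg _)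
          (Finset.mem_univ 4)
      rw [Real.norm_eq_abs, sq_abs] at h5
      have h6 : ht z = (z : E5) 4 := rfl
      rw [h6]
      linarith
    have h3 : ContDiffAt ℝ ∞ (fun h : ℝ => Real.sqrt (2 - h ^ 2)) (ht z) :=
      (contDiffAt_const.sub (contDiffAt_id.pow 2)).sqrt (by
        change (2 : ℝ) - ht z ^ 2 ≠ 0
        linarith)
    exact h3.contMDiffAt.comp z (ht_smooth z)
  exact SphA_mk h1 h2
/-- coordinates of `S3` -/
theorem S3c_smooth : ContMDiff (𝓡 3) 𝓘(ℝ, ℂ) ∞ (fun w : S3 => (⟨w.1 0, w.1 1⟩ : ℂ)) ∧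
    ContMDiff (𝓡 3) 𝓘(ℝ, ℂ) ∞ (fun w : S3 => (⟨w.1 2, w.1 3⟩ : ℂ)) :=
  ⟨SphA_mk (SphA_coord 0) (SphA_coord 1), SphA_mk (SphA_coord 2) (SphA_coord 3)⟩

end Pool.Agent.RSG
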