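import Pool.Agent.RSG.SphA
import Pool.Agent.RSG.ExM

/-!
# RSG/SphB: coordinates on the spheres, algebra   (difficulty 1)

* `S2_sq`, ...: `‖y‖ = 1` (`EuclideanSpace.norm_eq`, `Fin.sum_univ_succ`), `Complex.sq_norm`,
  `Complex.normSq_apply`.
* `pS4_self`, `pS4_c` ...: `‖toLp 2 ![a.re, a.im, b.re, b.im, h]‖² = ‖a‖² + ‖b‖² + h²`, so `pS4 a b h` is
  the vector itself if this is `1` (`toSph_coe`, `toSph_self`).
* `fh_sq`: with `A = ‖c1‖²`, `B = ‖c2‖²`, `h² = 1 - A - B`: `(A - B)² + h² (2 - h²) + 4 A B =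
  (A + B)² + (1 - A - B)(1 + A + B) = 1`  (`2 - h² ≥ 0`).
* `fh_ne_iff`, `glue_norm`: from `fh_sq`, `ex_norm`.
-/

open scoped Manifold ContDiff Topology
open Set Filter
open Complex (I)

namespace Pool.Agent.RSG

theorem SphB_cx (a b : ℝ) : ‖(⟨a, b⟩ : ℂ)‖ ^ 2 = a ^ 2 + b ^ 2 := by
  rw [Complex.sq_norm, Complex.normSq_apply]; ring

theorem SphB_cx' (a : ℂ) : a.re ^ 2 + a.im ^ 2 = ‖a‖ ^ 2 := by
  rw [Complex.sq_norm, Complex.normSq_apply]; ring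

theorem SphB_norm {n : ℕ} (y : EuclideanSpace ℝ (Fin n)) : ‖y‖ ^ 2 = ∑ i, y i ^ 2 := by
  rw [EuclideanSpace.norm_eq, Real.sq_sqrt (Finset.sum_nonneg fun i _ => sq_nonneg _)]
  exact Finset.sum_congr rfl fun i _ => by rw [Real.norm_eq_abs, sq_abs]

theorem SphB_sph {n : ℕ} (y : Metric.sphere (0 : EuclideanSpace ℝ (Fin n)) 1) :
    ∑ i, y.1 i ^ 2 = 1 := by
  rw [← SphB_norm, norm_eq_of_mem_sphere, one_pow]

theorem S2_sq (y : S2) : ‖hz y‖ ^ 2 + ho y ^ 2 = 1 := by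
  have h := SphB_sph y
  rw [Fin.sum_univ_three] at h
  unfold hz ho
  rw [SphB_cx]; linarith

theorem S4_sq (z : S4) : ‖c1 z‖ ^ 2 + ‖c2 z‖ ^ 2 + ht z ^ 2 = 1 := by
  have h := SphB_sph z
  rw [Fin.sum_univ_five] at h
  unfold c1 c2 ht
  rw [SphB_cx, SphB_cx]; linarith

theorem S3_sq (w : S3) : ‖(⟨w.1 0, w.1 1⟩ : ℂ)‖ ^ 2 + ‖(⟨w.1 2, w.1 3⟩ : ℂ)‖ ^ 2 = 1 := by
  have h := SphB_sph w
  rw [Fin.sum_univ_four] at h
  rw [SphB_cx, SphB_cx]; linarith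

theorem pS2_self (y : S2) : pS2 (hz y) (ho y) = y := by
  have e : (WithLp.toLp 2 ![(hz y).re, (hz y).im, ho y] : E3) = y.1 := by
    ext i; fin_cases i <;> rfl
  unfold pS2
  rw [e]; exact toSph_self _ _

theorem pS4_self (z : S4) : pS4 (c1 z) (c2 z) (ht z) = z := by
  have e : (WithLp.toLp 2 ![(c1 z).re, (c1 z).im, (c2 z).re, (c2 z).im, ht z] : E5) = z.1 := by
    ext i; fin_cases i <;> rfl
  unfold pS4
  rw [e]; exact toSph_self _ _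

theorem pS3_self (w : S3) : pS3 ⟨w.1 0, w.1 1⟩ ⟨w.1 2, w.1 3⟩ = w := by
  have e : (WithLp.toLp 2 ![(⟨w.1 0, w.1 1⟩ : ℂ).re, (⟨w.1 0, w.1 1⟩ : ℂ).im,
      (⟨w.1 2, w.1 3⟩ : ℂ).re, (⟨w.1 2, w.1 3⟩ : ℂ).im] : E4) = w.1 := by
    ext i; fin_cases i <;> rfl
  unfold pS3
  rw [e]; exact toSph_self _ _

theorem SphB_one {E : Type*} [NormedAddCommGroup E] {v : E} (h : ‖v‖ ^ 2 = 1) : ‖v‖ = 1 := by
  have := norm_nonneg v
  nlinarith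

/-- the value of `toSph` at a unit vector -/
theorem SphB_unit {E : Type*} [NormedAddCommGroup E] [InnerProductSpace ℝ E]
    (e : Metric.sphere (0 : E) 1) {v : E} (hv : ‖v‖ = 1) : (toSph e v : E) = v := by
  have h0 : v ≠ 0 := by
    intro h; rw [h, norm_zero] at hv; exact zero_ne_one hv
  rw [toSph_coe e h0, hv, inv_one, one_smul]

theorem pS2_c {a : ℂ} {h : ℝ} (H : ‖a‖ ^ 2 + h ^ 2 = 1) :
    hz (pS2 a h) = a ∧ ho (pS2 a h) = h := by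
  have n1 : ‖(WithLp.toLp 2 ![a.re, a.im, h] : E3)‖ = 1 := by
    have : ‖(WithLp.toLp 2 ![a.re, a.im, h] : E3)‖ ^ 2 = 1 := by
      rw [SphB_norm, Fin.sum_univ_three, ← H, ← SphB_cx']
      rfl
    exact SphB_one this
  have e : (pS2 a h : E3) = WithLp.toLp 2 ![a.re, a.im, h] := SphB_unit _ n1
  refine ⟨?_, ?_⟩
  · unfold hz; rw [e]; rfl
  · unfold ho; rw [e]; rfl

theorem pS4_c {a b : ℂ} {h : ℝ} (H : ‖a‖ ^ 2 + ‖b‖ ^ 2 + h ^ 2 = 1) :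
    c1 (pS4 a b h) = a ∧ c2 (pS4 a b h) = b ∧ ht (pS4 a b h) = h := by
  have n1 : ‖(WithLp.toLp 2 ![a.re, a.im, b.re, b.im, h] : E5)‖ = 1 := by
    have : ‖(WithLp.toLp 2 ![a.re, a.im, b.re, b.im, h] : E5)‖ ^ 2 = 1 := by
      rw [SphB_norm, Fin.sum_univ_five, ← H, ← SphB_cx', ← SphB_cx' b, ← add_assoc]
      rfl
    exact SphB_one this
  have e : (pS4 a b h : E5) = WithLp.toLp 2 ![a.re, a.im, b.re, b.im, h] := SphB_unit _ n1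
  refine ⟨?_, ?_, ?_⟩
  · unfold c1; rw [e]; rfl
  · unfold c2; rw [e]; rfl
  · unfold ht; rw [e]; rfl

theorem pS3_c {a b : ℂ} (H : ‖a‖ ^ 2 + ‖b‖ ^ 2 = 1) :
    (⟨(pS3 a b).1 0, (pS3 a b).1 1⟩ : ℂ) = a ∧ (⟨(pS3 a b).1 2, (pS3 a b).1 3⟩ : ℂ) = b := by
  have n1 : ‖(WithLp.toLp 2 ![a.re, a.im, b.re, b.im] : E4)‖ = 1 := by
    have : ‖(WithLp.toLp 2 ![a.re, a.im, b.re, b.im] : E4)‖ ^ 2 = 1 := by
      rw [SphB_norm, Fin.sum_univ_four, ← H, ← SphB_cx', ← SphB_cx' b, ← add_assoc]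
      rfl
    exact SphB_one this
  have e : (pS3 a b : E4) = WithLp.toLp 2 ![a.re, a.im, b.re, b.im] := SphB_unit _ n1
  refine ⟨?_, ?_⟩
  · rw [e]; rfl
  · rw [e]; rfl

theorem S2_ext {y y' : S2} (h1 : hz y = hz y') (h2 : ho y = ho y') : y = y' := by
  rw [← pS2_self y, ← pS2_self y', h1, h2]

theorem S4_ext {z z' : S4} (h1 : c1 z = c1 z') (h2 : c2 z = c2 z') (h3 : ht z = ht z') :
    z = z' := by
  rw [← pS4_self z, ← pS4_self z', h1, h2, h3]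

theorem fh_sq (z : S4) : ‖fh z‖ ^ 2 + (2 * ‖c1 z‖ * ‖c2 z‖) ^ 2 = 1 := by
  have h := S4_sq z
  have h2 : 0 ≤ 2 - ht z ^ 2 := by nlinarith [sq_nonneg ‖c1 z‖, sq_nonneg ‖c2 z‖]
  unfold fh
  rw [SphB_cx, mul_pow, Real.sq_sqrt h2]
  have e : ht z ^ 2 = 1 - ‖c1 z‖ ^ 2 - ‖c2 z‖ ^ 2 := by linarith
  rw [e]; ring

theorem fh_ne_iff (z : S4) : fh z ≠ 0 ↔ 2 * ‖c1 z‖ * ‖c2 z‖ < 1 := by
  have h := fh_sq z
  have h0 : 0 ≤ 2 * ‖c1 z‖ * ‖c2 z‖ := by positivity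
  constructor
  · intro hne
    have hp : 0 < ‖fh z‖ ^ 2 := by
      have := norm_pos_iff.2 hne; positivity
    by_contra hc
    push Not at hc
    nlinarith
  · intro hlt h1
    rw [h1, norm_zero] at h
    nlinarith

/-- a unit complex number times its norm -/
theorem glue_norm {z : S4} (h : fh z ≠ 0) (m : ℝ) :
    ‖((2 * ‖c1 z‖ * ‖c2 z‖ : ℝ) : ℂ) * ex m‖ < 1 := by
  rw [norm_mul, ex_norm, mul_one, Complex.norm_real, Real.norm_eq_abs,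
    abs_of_nonneg (by positivity)]
  exact (fh_ne_iff z).1 h

end Pool.Agent.RSG
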