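import Pool.Agent.RSG.WfM
import Pool.Agent.CSG.GamAbs

/-!
# RSG/FNe: the twist `F` of the 3-manifold `N`   (difficulty 3)

Apply `CSG.exists_gamma` with `Z = C × R`, `X = N`, `e = b`, `D = Bal ∖ Circ`, `T = b '' Circ`,
`C = {q ∈ Bal : |z|² ≤ 12, s² ≤ 9/16} ∖ Circ`, `L = Fm`, `L' = Fm'`.
* `D` open (`isClosed_Circ`), `b` a local diffeomorphism and injective on `Bal`; so `b q ∉ T` for
  `q ∈ D`; `hcomp`, `hcomp'` follow from injectivity.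
* `L` maps `D` to `D` (`Fm_norm`, `Fm_mem`, second coordinate unchanged), `Fm_left`, `Fm_right`.
* `Fm q = q` for `q ∈ D ∖ C`: `Fm_out` (and the same for `C`: if `q ∉ C`, `q ∈ D` then `|z|² > 12` or
  `s² > 9/16`).
* `b '' C ∪ T = b '' {|z|² ≤ 12, s² ≤ 9/16}` is compact (`|z| ≤ √12 < 4`, `|s| ≤ 3/4 < 1`, so this
  set is a compact subset of `Bal`, where `b` is continuous), so closed.
`IsTwist.ball`: `F (b q) = b (Fm q)` on `D`.  `IsTwist.out`: `x ∉ b '' D` if `x ∉ b '' Bal`.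
-/

open scoped Manifold ContDiff Topology
open Set Filter
open Complex (I)

namespace Pool.Agent.RSG

/-- the closed support of the twist -/
def FNe_K : Set (ℂ × ℝ) := {q | ‖q.1‖ ^ 2 ≤ 12 ∧ q.2 ^ 2 ≤ 9 / 16}

theorem FNe_K_sub : FNe_K ⊆ Bal := by
  rintro ⟨z, s⟩ ⟨h1, h2⟩
  refine ⟨?_, ?_⟩
  · show ‖z‖ < 4
    have h1' : ‖z‖ ^ 2 ≤ 12 := h1
    nlinarith [norm_nonneg z]
  · show |s| < 1
    have h2' : s ^ 2 ≤ 9 / 16 := h2
    rw [abs_lt]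
    constructor <;> nlinarith

theorem FNe_Circ_sub : Circ ⊆ FNe_K := by
  rintro ⟨z, s⟩ ⟨h1, h2⟩
  have h1' : ‖z‖ = 3 := h1
  have h2' : s = 0 := h2
  refine ⟨?_, ?_⟩
  · show ‖z‖ ^ 2 ≤ 12
    rw [h1']; norm_num
  · show s ^ 2 ≤ 9 / 16
    rw [h2']; norm_num

theorem FNe_K_compact : IsCompact FNe_K := by
  refine Metric.isCompact_of_isClosed_isBounded ?_ ?_
  · have h1 : IsClosed {q : ℂ × ℝ | ‖q.1‖ ^ 2 ≤ 12} :=
      isClosed_le (by fun_prop) continuous_const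
    have h2 : IsClosed {q : ℂ × ℝ | q.2 ^ 2 ≤ 9 / 16} :=
      isClosed_le (by fun_prop) continuous_const
    exact h1.inter h2
  · refine (Metric.isBounded_closedBall (x := (0 : ℂ × ℝ)) (r := 4)).subset ?_
    intro q hq
    have := FNe_K_sub hq
    rw [mem_closedBall_zero_iff, Prod.norm_def]
    refine max_le this.1.le ?_
    rw [Real.norm_eq_abs]
    linarith [this.2]

theorem FNe_Bal_open : IsOpen Bal := by
  have h1 : IsOpen {q : ℂ × ℝ | ‖q.1‖ < 4} := isOpen_lt (by fun_prop) continuous_const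
  have h2 : IsOpen {q : ℂ × ℝ | |q.2| < 1} := isOpen_lt (by fun_prop) continuous_const
  exact h1.inter h2

theorem exists_twist {N : Type*} [TopologicalSpace N] [ChartedSpace E3 N] [T2Space N]
    {b : ℂ × ℝ → N}
    (hl : ∀ z s, ‖z‖ < 4 → |s| < 1 → IsLocalDiffeomorphAt 𝓘(ℝ, ℂ × ℝ) (𝓡 3) ∞ b (z, s))
    (hi : ∀ z s z' s', ‖z‖ < 4 → |s| < 1 → ‖z'‖ < 4 → |s'| < 1 →
      b (z, s) = b (z', s') → z = z' ∧ s = s') :
    ∃ F : Equiv.Perm N, IsTwist b F := by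
  have hinj : ∀ q ∈ Bal, ∀ q' ∈ Bal, b q = b q' → q = q' := by
    intro q hq q' hq' h
    obtain ⟨h1, h2⟩ := hi q.1 q.2 q'.1 q'.2 hq.1 hq.2 hq'.1 hq'.2 h
    exact Prod.ext h1 h2
  have hCB : Circ ⊆ Bal := FNe_Circ_sub.trans FNe_K_sub
  have hFB : ∀ q ∈ Bal \ Circ, Fm q ∈ Bal \ Circ := by
    intro q hq
    refine ⟨⟨?_, hq.1.2⟩, Fm_mem hq.2⟩
    rw [Fm_norm q hq.2]
    exact hq.1.1
  have hFB' : ∀ q ∈ Bal \ Circ, Fm' q ∈ Bal \ Circ := by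
    intro q hq
    refine ⟨⟨?_, hq.1.2⟩, Fm'_mem hq.2⟩
    rw [Fm'_norm q hq.2]
    exact hq.1.1
  have hcl : IsClosed (b '' (FNe_K \ Circ) ∪ b '' Circ) := by
    rw [← image_union, sdiff_union_of_subset FNe_Circ_sub]
    refine (FNe_K_compact.image_of_continuousOn ?_).isClosed
    intro q hq
    have hq' := FNe_K_sub hq
    exact (hl q.1 q.2 hq'.1 hq'.2).contMDiffAt.continuousAt.continuousWithinAt
  obtain ⟨F, h1, h2, h3, h4⟩ := Pool.Agent.CSG.exists_gamma b (Bal \ Circ) (FNe_K \ Circ)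
    (b '' Circ) Fm Fm' (FNe_Bal_open.sdiff isClosed_Circ)
    (fun q hq => hl q.1 q.2 hq.1.1 hq.1.2)
    (by
      rintro q hq ⟨q', hq', h⟩
      have := hinj q' (hCB hq') q hq.1 h
      exact hq.2 (this ▸ hq'))
    (fun q hq => Fm_loc hq.2) (fun q hq => Fm_right q hq.2) (fun q hq => Fm_left q hq.2)
    hFB hFB'
    (fun q hq q' hq' h => by rw [hinj q hq.1 q' hq'.1 h])
    (fun q hq q' hq' h => by rw [hinj q hq.1 q' hq'.1 h])
    (by
      rintro ⟨z, s⟩ hq hC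
      refine Fm_out ?_
      by_contra hcon
      push Not at hcon
      exact hC ⟨⟨hcon.1.le, hcon.2.le⟩, hq.2⟩)
    hcl (sdiff_subset_sdiff_left FNe_K_sub)
  refine ⟨F, ⟨h1, fun q hq hc => h2 q ⟨hq, hc⟩, fun x hx => h3 x ?_, h4⟩⟩
  rintro ⟨q, hq, rfl⟩
  exact hx ⟨q, hq.1, rfl⟩

end Pool.Agent.RSG
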