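import Pool.Agent.RSG.GamM
import Pool.Agent.RSG.FNe
import Pool.Agent.RSG.FKn
import Pool.Agent.RSG.Sph

/-!
# RSG/NewS: the new structure   (difficulty 3)

`h : FourMoveVia κ κ' b ε₁ ε₂`, `F` the twist (`exists_twist`), `Γ` (`exists_isGam`).  Put
`A' (x, t) = Γ (D.A (F x, t))`, `Q' z = Γ (D.Q z)`.
* `exists_phase`: for `z` with `c1 z, c2 z ≠ 0` put `t = (arg c1 - arg c2)/2π`,
  `m = arg c2 / 2π + j t`, `l = arg (fh z)/2π + n t` (`ex_arg`).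
* `D.Q z`, `fh z ≠ 0`, is not on the torus `{D.A (b q, t) : q ∈ Circ}` (`Q_notT`): if
  `c1 z = 0` or `c2 z = 0`: `D.disj` (`b q` is not on the knot: `ball_knot`).  Otherwise
  `D.Q z = D.A (κ (l, v), t)` with `0 < ‖v‖ < 1` (`exists_phase`, `D.glue`, `glue_norm`), `κ (l, v)` is
  not on the knot (`h.thick.inj`, `v ≠ 0`), so `D.A_inj` gives `κ (l, v) = b q`, against
  `kappa_circ`.
* A_per: `D.A_per`.
* A_loc, `x` not on `κ'`.  `F x` is not on `κ` (`F_knot`).  If `x ∉ b '' Circ`: `F × id` (`ld_prodMap`,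
  `CSG.ld_id`), `D.A` at `(F x, t)`, `Γ` at `D.A (F x, t)`: this is not on the torus: if
  `D.A (F x, t) = D.A (b q, t')`, `q ∈ Circ`, then `F x = b q = F (b q)`, `x = b q`, contradiction.
  If `x = b q`, `q ∈ Circ`: for `x'` in `b '' NearC ρ`, a neighbourhood of `x` (`NearC ρ ⊆ Bal` is
  open, `CSG.ld_image_nhds`), `A' (x', t') = D.A (x', t')` (`IsGam.near`, `IsTwist.ball`; and for `x'`
  in `b '' Circ`: `F x' = x'`, `IsGam.circ`).  So `A' = D.A` near `(x, t)`; `x` is not on `κ`.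
* A_inj: `Γ` injective, `D.A_inj` (`F_knot`), `F` injective.
* Q_loc: `Γ` is a local diffeomorphism at `D.Q z` (`Q_notT`).  Q_inj clear.
* glue: `Γ (D.Q z) = Γ (D.A (κ (l, v), t))`, `κ (l, v) = F (κ' (l, v))` (`F_kappa`, `glue_norm`).
* disj: `D.disj` at `F x`.  cover: `D.cover (Γ⁻¹ q)`; `x = F (F⁻¹ x)`.
-/

open scoped Manifold ContDiff Topology
open Set Filter
open Complex (I)

namespace Pool.Agent.RSG

theorem exists_phase (n j : ℤ) (z : S4) : ∃ l m t : ℝ,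
    c1 z = ‖c1 z‖ * ex (((1 : ℤ) : ℝ) * m + ((1 - j : ℤ) : ℝ) * t) ∧
    c2 z = ‖c2 z‖ * ex (((1 : ℤ) : ℝ) * m + ((-j : ℤ) : ℝ) * t) ∧
    fh z = ‖fh z‖ * ex (l - n * t) := by
  refine ⟨Complex.arg (fh z) / (2 * Real.pi) + n * (Complex.arg (c1 z) / (2 * Real.pi) -
    Complex.arg (c2 z) / (2 * Real.pi)), Complex.arg (c2 z) / (2 * Real.pi) +
    j * (Complex.arg (c1 z) / (2 * Real.pi) - Complex.arg (c2 z) / (2 * Real.pi)),
    Complex.arg (c1 z) / (2 * Real.pi) - Complex.arg (c2 z) / (2 * Real.pi), ?_, ?_, ?_⟩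
  · have h : ∀ a c : ℝ, ((1 : ℤ) : ℝ) * (c + j * (a - c)) + ((1 - j : ℤ) : ℝ) * (a - c) = a := by
      intro a c; push_cast; ring
    rw [h, ex_arg]
  · have h : ∀ a c : ℝ, ((1 : ℤ) : ℝ) * (c + j * (a - c)) + ((-j : ℤ) : ℝ) * (a - c) = c := by
      intro a c; push_cast; ring
    rw [h, ex_arg]
  · rw [add_sub_cancel_right, ex_arg]

section
variable {N : Type*} [TopologicalSpace N] [ChartedSpace E3 N]
  {X : Type*} [TopologicalSpace X] [ChartedSpace E4 X] {κ κ' : ℝ × ℂ → N} {n j : ℤ}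
  {b : ℂ × ℝ → N} {ε₁ ε₂ : ℝ}

theorem NewS_circ_bal {q : ℂ × ℝ} (hq : q ∈ Circ) : q ∈ Bal := by
  obtain ⟨h1, h2⟩ := hq
  refine ⟨by rw [h1]; norm_num, by rw [h2]; norm_num⟩

theorem NewS_circ_knot (h : FourMoveVia κ κ' b ε₁ ε₂) {q : ℂ × ℝ} (hq : q ∈ Circ) :
    ¬ OnKnot κ (b q) := by
  intro hk
  have h1 := hq.1
  rcases ball_knot h (NewS_circ_bal hq) hk with h2 | h2
  · rw [h2, norm_one] at h1; norm_num at h1
  · rw [h2, norm_neg, norm_one] at h1; norm_num at h1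

theorem NewS_thick_knot (h : Thick κ) {l : ℝ} {v : ℂ} (hv : v ≠ 0) (hv1 : ‖v‖ < 1) :
    ¬ OnKnot κ (κ (l, v)) := by
  rintro ⟨l', hl'⟩
  exact hv (h.inj l v l' 0 hv1 (by simp) hl').1

theorem Q_notT (D : RollGluck κ n j X) (h : FourMoveVia κ κ' b ε₁ ε₂) {z : S4} (hz : fh z ≠ 0)
    {q : ℂ × ℝ} (hq : q ∈ Circ) (t : ℝ) : D.Q z ≠ D.A (b q, t) := by
  intro he
  have hk := NewS_circ_knot h hq
  by_cases hc : c1 z = 0 ∨ c2 z = 0
  · exact D.disj z _ t hz hc hk he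
  · rw [not_or] at hc
    obtain ⟨l, m, t', e1, e2, e3⟩ := exists_phase n j z
    have hg := D.glue z l m t' hz hc.1 hc.2 e1 e2 e3
    have hv1 := glue_norm hz m
    have hv0 : ((2 * ‖c1 z‖ * ‖c2 z‖ : ℝ) : ℂ) * ex m ≠ 0 := by
      apply mul_ne_zero _ (ex_ne m)
      have := norm_pos_iff.2 hc.1
      have := norm_pos_iff.2 hc.2
      exact_mod_cast (by positivity : (2 * ‖c1 z‖ * ‖c2 z‖ : ℝ) ≠ 0)
    rw [hg] at he
    have h3 := (D.A_inj _ _ _ _ (NewS_thick_knot h.thick hv0 hv1) hk he).1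
    exact kappa_circ h hv1 ⟨q, hq, h3.symm⟩

theorem NewS_near_bal {ρ : ℝ} (h0 : 0 < ρ) (h1 : ρ < 1 / 4) : NearC ρ ⊆ Bal := by
  rintro ⟨z, s⟩ hq
  have hq : ((9 - ‖z‖ ^ 2) / 6) ^ 2 + s ^ 2 < ρ ^ 2 := hq
  have h2 : ρ ^ 2 < (1 / 4) ^ 2 := by gcongr
  refine ⟨?_, ?_⟩
  · show ‖z‖ < 4
    by_contra hc
    rw [not_lt] at hc
    have : (4 : ℝ) ^ 2 ≤ ‖z‖ ^ 2 := by gcongr
    nlinarith [sq_nonneg s]
  · show |s| < 1
    rw [← sq_lt_one_iff_abs_lt_one]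
    nlinarith [sq_nonneg ((9 - ‖z‖ ^ 2) / 6)]

theorem NewS_near_open (ρ : ℝ) : IsOpen (NearC ρ) :=
  isOpen_lt (by fun_prop) (by fun_prop)

theorem NewS_circ_near {ρ : ℝ} (h0 : 0 < ρ) {q : ℂ × ℝ} (hq : q ∈ Circ) : q ∈ NearC ρ := by
  obtain ⟨h1, h2⟩ := hq
  show ((9 - ‖q.1‖ ^ 2) / 6) ^ 2 + q.2 ^ 2 < ρ ^ 2
  rw [h1, h2]
  norm_num
  positivity

/-- A 4-move does not change the manifold. -/
theorem four_move [T2Space N] [T2Space X] (D : RollGluck κ n j X)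
    (h : FourMoveVia κ κ' b ε₁ ε₂) : IsRollGluck κ' n j X := by
  obtain ⟨F, hF⟩ := exists_twist h.ball_loc h.ball_inj
  obtain ⟨ρ, Γ, hΓ⟩ := exists_isGam D h
  have hnear : ∀ q ∈ NearC ρ, ∀ t, Γ (D.A (F (b q), t)) = D.A (b q, t) := by
    intro q hq t
    by_cases hc : q ∈ Circ
    · rw [hF.circ _ ⟨q, hc, rfl⟩, hΓ.circ q hc]
    · rw [hF.ball q (NewS_near_bal hΓ.pos hΓ.lt hq) hc, hΓ.near q hq hc]
  refine ⟨{
    A := fun a => Γ (D.A (F a.1, a.2))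
    Q := fun z => Γ (D.Q z)
    A_per := ?_
    A_loc := ?_
    A_inj := ?_
    Q_loc := ?_
    Q_inj := ?_
    glue := ?_
    disj := ?_
    cover := ?_ }⟩
  · intro x t
    simp only [D.A_per]
  · intro x t hx
    have hFx : ¬ OnKnot κ (F x) := fun hc => hx ((F_knot h hF x).1 hc)
    by_cases hc : x ∈ b '' Circ
    · obtain ⟨q, hq, rfl⟩ := hc
      have hbl := h.ball_loc q.1 q.2 (NewS_circ_bal hq).1 (NewS_circ_bal hq).2
      have h1 : b '' NearC ρ ∈ 𝓝 (b q) :=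
        Pool.Agent.CSG.ld_image_nhds hbl ((NewS_near_open ρ).mem_nhds (NewS_circ_near hΓ.pos hq))
      have h2 : IsLocalDiffeomorphAt ((𝓡 3).prod 𝓘(ℝ, ℝ)) (𝓡 4) ∞ D.A (b q, t) :=
        D.A_loc _ t (NewS_circ_knot h hq)
      refine Pool.Agent.CSG.ld_congr h2 ?_
      have h3 : (b '' NearC ρ) ×ˢ (univ : Set ℝ) ∈ 𝓝 (b q, t) := prod_mem_nhds h1 univ_mem
      filter_upwards [h3] with a ha
      obtain ⟨⟨q', hq', hq2⟩, -⟩ := ha
      show Γ (D.A (F a.1, a.2)) = D.A a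
      rw [← hq2, hnear q' hq' a.2, hq2]
    · have h1 : IsLocalDiffeomorphAt ((𝓡 3).prod 𝓘(ℝ, ℝ)) ((𝓡 3).prod 𝓘(ℝ, ℝ)) ∞
          (Prod.map F id) (x, t) := ld_prodMap (hF.loc x hc) (Pool.Agent.CSG.ld_id t)
      have h2 : IsLocalDiffeomorphAt ((𝓡 3).prod 𝓘(ℝ, ℝ)) (𝓡 4) ∞ D.A (Prod.map F id (x, t)) :=
        D.A_loc (F x) t hFx
      have h3 : IsLocalDiffeomorphAt (𝓡 4) (𝓡 4) ∞ Γ (D.A (Prod.map F id (x, t))) := by
        apply hΓ.loc
        intro q hq t' he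
        have h4 := (D.A_inj _ _ _ _ hFx (NewS_circ_knot h hq) he).1
        apply hc
        refine ⟨q, hq, ?_⟩
        apply F.injective
        rw [h4, hF.circ _ ⟨q, hq, rfl⟩]
      have h4 := IsLocalDiffeomorphAt.comp (hf := h1) (hg := h2)
      exact IsLocalDiffeomorphAt.comp (hf := h4) (hg := h3)
  · intro x x' t t' hx hx' he
    have hFx : ¬ OnKnot κ (F x) := fun hc => hx ((F_knot h hF x).1 hc)
    have hFx' : ¬ OnKnot κ (F x') := fun hc => hx' ((F_knot h hF x').1 hc)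
    obtain ⟨h1, h2⟩ := D.A_inj _ _ _ _ hFx hFx' (Γ.injective he)
    exact ⟨F.injective h1, h2⟩
  · intro z hz
    have h3 : IsLocalDiffeomorphAt (𝓡 4) (𝓡 4) ∞ Γ (D.Q z) :=
      hΓ.loc _ fun q hq t => Q_notT D h hz hq t
    exact IsLocalDiffeomorphAt.comp (hf := D.Q_loc z hz) (hg := h3)
  · intro z z' hz hz' he
    exact D.Q_inj z z' hz hz' (Γ.injective he)
  · intro z l m t hz hc1 hc2 e1 e2 e3
    show Γ (D.Q z) = Γ (D.A (F (κ' (l, _)), t))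
    rw [F_kappa h hF (glue_norm hz m), D.glue z l m t hz hc1 hc2 e1 e2 e3]
  · intro z x t hz hc hx he
    have hFx : ¬ OnKnot κ (F x) := fun hc => hx ((F_knot h hF x).1 hc)
    exact D.disj z (F x) t hz hc hFx (Γ.injective he)
  · intro q
    rcases D.cover (Γ.symm q) with ⟨x, t, hx, hq⟩ | ⟨z, hz, hq⟩
    · left
      refine ⟨F.symm x, t, ?_, ?_⟩
      · intro hc
        apply hx
        have := (F_knot h hF (F.symm x)).2 hc
        rwa [Equiv.apply_symm_apply] at this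
      · show q = Γ (D.A (F (F.symm x), t))
        rw [Equiv.apply_symm_apply, ← hq, Equiv.apply_symm_apply]
    · right
      refine ⟨z, hz, ?_⟩
      show q = Γ (D.Q z)
      rw [← hq, Equiv.apply_symm_apply]

end

end Pool.Agent.RSG
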