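import Pool.Agent.RSG.GcM
import Pool.Agent.RSG.NewS

/-!
# RSG/GerM: only the germ of the thick knot matters   (difficulty 3)
-/

open scoped Manifold ContDiff Topology
open Set Filter
open Complex (I)

namespace Pool.Agent.RSG

theorem GerM_per {α : Type*} {f : ℝ → α} (h : ∀ x, f (x + 1) = f x) (x : ℝ) (k : ℤ) :
    f (x + k) = f x := by
  induction k using Int.induction_on with
  | zero => simp
  | succ i ih =>
    have : x + (((i : ℤ) + 1 : ℤ) : ℝ) = (x + ((i : ℤ) : ℝ)) + 1 := by push_cast; ring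
    rw [this, h, ih]
  | pred i ih =>
    have : x + ((-(i : ℤ) : ℤ) : ℝ) = (x + ((-(i : ℤ) - 1 : ℤ) : ℝ)) + 1 := by push_cast; ring
    rw [this, h] at ih
    exact ih

/-- two systems of phases -/
theorem GerM_phases (n j : ℤ) {z : S4} {l m t l' m' t' : ℝ} (h : fh z ≠ 0) (h1 : c1 z ≠ 0)
    (h2 : c2 z ≠ 0)
    (e1 : c1 z = ‖c1 z‖ * ex (((1 : ℤ) : ℝ) * m + ((1 - j : ℤ) : ℝ) * t))
    (e2 : c2 z = ‖c2 z‖ * ex (((1 : ℤ) : ℝ) * m + ((-j : ℤ) : ℝ) * t))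
    (e3 : fh z = ‖fh z‖ * ex (l - n * t))
    (e1' : c1 z = ‖c1 z‖ * ex (((1 : ℤ) : ℝ) * m' + ((1 - j : ℤ) : ℝ) * t'))
    (e2' : c2 z = ‖c2 z‖ * ex (((1 : ℤ) : ℝ) * m' + ((-j : ℤ) : ℝ) * t'))
    (e3' : fh z = ‖fh z‖ * ex (l' - n * t')) :
    ex m' = ex m ∧ (∃ a : ℤ, t' = t + a) ∧ ∃ c : ℤ, l' = l + c := by
  have p1 : (‖c1 z‖ : ℂ) ≠ 0 := by exact_mod_cast (norm_pos_iff.2 h1).ne'
  have p2 : (‖c2 z‖ : ℂ) ≠ 0 := by exact_mod_cast (norm_pos_iff.2 h2).ne'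
  have p3 : (‖fh z‖ : ℂ) ≠ 0 := by exact_mod_cast (norm_pos_iff.2 h).ne'
  obtain ⟨x, hx⟩ := ex_eq_iff.1 (mul_left_cancel₀ p1 (e1.symm.trans e1'))
  obtain ⟨y, hy⟩ := ex_eq_iff.1 (mul_left_cancel₀ p2 (e2.symm.trans e2'))
  obtain ⟨w, hw⟩ := ex_eq_iff.1 (mul_left_cancel₀ p3 (e3.symm.trans e3'))
  push_cast at hx hy
  have ht : t' = t + ((x - y : ℤ) : ℝ) := by push_cast; linarith
  refine ⟨?_, ⟨x - y, ht⟩, ⟨w + n * (x - y), ?_⟩⟩
  · have hm : m' = m + ((y + j * (x - y) : ℤ) : ℝ) := by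
      push_cast at ht ⊢
      rw [ht] at hy
      linarith
    rw [hm, ex_add_int]
  · push_cast at ht ⊢
    rw [ht] at hw
    linarith

theorem GerM_ld {N : Type*} [TopologicalSpace N] [ChartedSpace E3 N]
    {X : Type*} [TopologicalSpace X] [ChartedSpace E4 X] {κ : ℝ × ℂ → N} {A : N × ℝ → X}
    {l t : ℝ} {v : ℂ} (hκ : IsLocalDiffeomorphAt 𝓘(ℝ, ℝ × ℂ) (𝓡 3) ∞ κ (l, v))
    (hA : IsLocalDiffeomorphAt ((𝓡 3).prod 𝓘(ℝ, ℝ)) (𝓡 4) ∞ A (κ (l, v), t)) :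
    IsLocalDiffeomorphAt 𝓘(ℝ, ℝ × ℂ × ℝ) (𝓡 4) ∞
      (fun q : ℝ × ℂ × ℝ => A (κ (q.1, q.2.1), q.2.2)) (l, v, t) := by
  have s1 : IsLocalDiffeomorphAt 𝓘(ℝ, ℂ × ℝ) 𝓘(ℝ, ℝ × ℂ) ∞ (Prod.swap : ℂ × ℝ → ℝ × ℂ)
      (v, l) :=
    Pool.Agent.CSG.ld_of_perm (f := Equiv.prodComm ℂ ℝ) (contDiff_snd.prodMk contDiff_fst)
      (contDiff_snd.prodMk contDiff_fst) (v, l)
  have hb : IsLocalDiffeomorphAt 𝓘(ℝ, ℂ × ℝ) (𝓡 3) ∞ (fun q : ℂ × ℝ => κ (q.2, q.1)) (v, l) :=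
    IsLocalDiffeomorphAt.comp (hf := s1) (hg := hκ) ..
  have h1 := ld_ball (b := fun q : ℂ × ℝ => κ (q.2, q.1)) (A := A) (z := v) (s := l) (t := t)
    hb hA
  let e : (ℝ × ℂ × ℝ) ≃ (ℂ × ℝ × ℝ) :=
    { toFun := fun q => (q.2.1, q.1, q.2.2)
      invFun := fun q => (q.2.1, q.1, q.2.2)
      left_inv := fun _ => rfl
      right_inv := fun _ => rfl }
  have he : ContDiff ℝ ∞ e :=
    contDiff_snd.fst.prodMk (contDiff_fst.prodMk contDiff_snd.snd)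
  have he' : ContDiff ℝ ∞ e.symm :=
    contDiff_snd.fst.prodMk (contDiff_fst.prodMk contDiff_snd.snd)
  have s2 := Pool.Agent.CSG.ld_of_perm (f := e) he he' (l, v, t)
  exact IsLocalDiffeomorphAt.comp (hf := s2) (hg := h1) ..

theorem germ_data {N : Type*} [TopologicalSpace N] [ChartedSpace E3 N]
    {X : Type*} [TopologicalSpace X] [ChartedSpace E4 X] {κ κ' : ℝ × ℂ → N} {n j : ℤ} {η : ℝ}
    (hη : 0 < η) (h : Thick κ) (h' : Thick κ') (he : ∀ l v, ‖v‖ < η → κ' (l, v) = κ (l, v))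
    (D : RollGluck κ n j X) : IsRollGluck κ' n j X := by
  classical
  let r : S4 → ℝ := fun z => 2 * ‖c1 z‖ * ‖c2 z‖
  have hrc : Continuous r :=
    (continuous_const.mul c1_smooth.continuous.norm).mul c2_smooth.continuous.norm
  have hr0 : ∀ z, 0 ≤ r z := fun z => by positivity
  -- the knots agree
  have hK : ∀ x, OnKnot κ' x ↔ OnKnot κ x := by
    intro x
    have h0 : ∀ l, κ' (l, 0) = κ (l, 0) := fun l => he l 0 (by simpa using hη)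
    constructor
    · rintro ⟨l, hl⟩; exact ⟨l, by rw [hl, h0]⟩
    · rintro ⟨l, hl⟩; exact ⟨l, by rw [hl, h0]⟩
  have notK : ∀ l v, v ≠ 0 → ‖v‖ < 1 → ¬ OnKnot κ (κ' (l, v)) := by
    intro l v hv hv1 hk
    obtain ⟨l', hl'⟩ := (hK _).2 hk
    exact hv (h'.inj l v l' 0 hv1 (by simp) hl').1
  have notK' : ∀ l v, v ≠ 0 → ‖v‖ < 1 → ¬ OnKnot κ (κ (l, v)) := by
    rintro l v hv hv1 ⟨l', hl'⟩
    exact hv (h.inj l v l' 0 hv1 (by simp) hl').1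
  have hrpos : ∀ z, c1 z ≠ 0 → c2 z ≠ 0 → 0 < r z := by
    intro z h1 h2
    have := norm_pos_iff.2 h1
    have := norm_pos_iff.2 h2
    show 0 < 2 * ‖c1 z‖ * ‖c2 z‖
    positivity
  have hrNZ : ∀ z, 0 < r z → c1 z ≠ 0 ∧ c2 z ≠ 0 := by
    intro z hz
    constructor
    · intro h0
      have : r z = 0 := by show 2 * ‖c1 z‖ * ‖c2 z‖ = 0; rw [h0]; simp
      linarith
    · intro h0
      have : r z = 0 := by show 2 * ‖c1 z‖ * ‖c2 z‖ = 0; rw [h0]; simp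
      linarith
  have hvne : ∀ z, c1 z ≠ 0 → c2 z ≠ 0 → ∀ m, ((r z : ℝ) : ℂ) * ex m ≠ 0 := by
    intro z h1 h2 m
    exact mul_ne_zero (by exact_mod_cast (hrpos z h1 h2).ne') (ex_ne m)
  have hvn : ∀ z m, ‖((r z : ℝ) : ℂ) * ex m‖ = r z := by
    intro z m
    rw [norm_mul, ex_norm, mul_one, Complex.norm_real, Real.norm_of_nonneg (hr0 z)]
  choose L M T P1 P2 P3 using exists_phase n j
  let Q' : S4 → X := fun z => if r z < η then D.Q z
    else D.A (κ' (L z, ((r z : ℝ) : ℂ) * ex (M z)), T z)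
  have hQlt : ∀ z, r z < η → Q' z = D.Q z := fun z hz => if_pos hz
  have hQge : ∀ z, ¬ r z < η → Q' z = D.A (κ' (L z, ((r z : ℝ) : ℂ) * ex (M z)), T z) :=
    fun z hz => if_neg hz
  -- (*)
  have star : ∀ (z : S4) (l m t : ℝ), fh z ≠ 0 → c1 z ≠ 0 → c2 z ≠ 0 →
      c1 z = ‖c1 z‖ * ex (((1 : ℤ) : ℝ) * m + ((1 - j : ℤ) : ℝ) * t) →
      c2 z = ‖c2 z‖ * ex (((1 : ℤ) : ℝ) * m + ((-j : ℤ) : ℝ) * t) →
      fh z = ‖fh z‖ * ex (l - n * t) →
      Q' z = D.A (κ' (l, ((r z : ℝ) : ℂ) * ex m), t) := by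
    intro z l m t hf h1 h2 e1 e2 e3
    by_cases hz : r z < η
    · rw [hQlt z hz, D.glue z l m t hf h1 h2 e1 e2 e3]
      have : κ' (l, ((r z : ℝ) : ℂ) * ex m) = κ (l, ((r z : ℝ) : ℂ) * ex m) :=
        he _ _ (by rw [hvn]; exact hz)
      rw [this]
    · rw [hQge z hz]
      obtain ⟨hm, ⟨a, ha⟩, ⟨c, hc⟩⟩ := GerM_phases n j hf h1 h2 e1 e2 e3 (P1 z) (P2 z) (P3 z)
      rw [hm, ha, hc]
      have k1 := GerM_per (f := fun x => κ' (x, ((r z : ℝ) : ℂ) * ex m)) (fun x => h'.per _ _) l c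
      have k2 := fun x => GerM_per (f := fun s => D.A (x, s)) (fun s => D.A_per _ _) t a
      rw [k1, k2]
  -- (**)
  have star2 : ∀ (l t : ℝ) (v : ℂ), v ≠ 0 → ‖v‖ < 1 → Q' (Gc n j (l, v, t)) =
      D.A (κ' (l, v), t) := by
    intro l t v hv hv1
    obtain ⟨hf, h1, h2, hr, e1, e2, e3⟩ := Gc_spec n j (l := l) (t := t) hv hv1
    set z := Gc n j (l, v, t) with hz
    have hvp : 0 < ‖v‖ := norm_pos_iff.2 hv
    obtain ⟨m, hm⟩ := ex_surj (u := v / ‖v‖) (by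
      rw [norm_div, Complex.norm_real, norm_norm, div_self hvp.ne'])
    have hv' : ((r z : ℝ) : ℂ) * ex m = v := by
      have : r z = ‖v‖ := hr
      rw [this, ← hm]
      have : ((‖v‖ : ℝ) : ℂ) ≠ 0 := by exact_mod_cast hvp.ne'
      field_simp
    rw [hm] at e1 e2
    have := star z l m t hf h1 h2 (by
        rw [← ex_add] at e1
        rw [show ((1 : ℤ) : ℝ) * m + ((1 - j : ℤ) : ℝ) * t = m + (1 - j) * t by push_cast; ring]
        exact e1) (by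
        rw [← ex_add] at e2
        rw [show ((1 : ℤ) : ℝ) * m + ((-j : ℤ) : ℝ) * t = m + -j * t by push_cast; ring]
        exact e2) e3
    rw [this, hv']
  have hGeq : ∀ z, fh z ≠ 0 → c1 z ≠ 0 → c2 z ≠ 0 →
      z = Gc n j (L z, ((r z : ℝ) : ℂ) * ex (M z), T z) := fun z hf h1 h2 =>
    Gc_eq n j hf h1 h2 (P1 z) (P2 z) (P3 z)
  have hvlt : ∀ z, fh z ≠ 0 → ∀ m, ‖((r z : ℝ) : ℂ) * ex m‖ < 1 := fun z hf m =>
    glue_norm hf m
  have hNZinj : ∀ z z', fh z ≠ 0 → fh z' ≠ 0 → c1 z ≠ 0 → c2 z ≠ 0 → c1 z' ≠ 0 → c2 z' ≠ 0 →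
      Q' z = Q' z' → z = z' := by
    intro z z' hf hf' h1 h2 h1' h2' hq
    rw [star z _ _ _ hf h1 h2 (P1 z) (P2 z) (P3 z),
      star z' _ _ _ hf' h1' h2' (P1 z') (P2 z') (P3 z')] at hq
    obtain ⟨hx, a, ha⟩ := D.A_inj _ _ _ _
      (notK _ _ (hvne z h1 h2 _) (hvlt z hf _)) (notK _ _ (hvne z' h1' h2' _) (hvlt z' hf' _)) hq
    obtain ⟨hv, c, hc⟩ := h'.inj _ _ _ _ (hvlt z hf _) (hvlt z' hf' _) hx
    rw [hGeq z hf h1 h2, hGeq z' hf' h1' h2', ha, hc, ← hv, Gc_per]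
  have hNZQ : ∀ z z', fh z ≠ 0 → fh z' ≠ 0 → (c1 z = 0 ∨ c2 z = 0) → c1 z' ≠ 0 → c2 z' ≠ 0 →
      Q' z ≠ Q' z' := by
    intro z z' hf hf' hz h1' h2' hq
    have hr : r z < η := by
      by_contra hcon
      have := hrNZ z (lt_of_lt_of_le hη (not_lt.1 hcon))
      rcases hz with hz | hz
      · exact this.1 hz
      · exact this.2 hz
    rw [hQlt z hr, star z' _ _ _ hf' h1' h2' (P1 z') (P2 z') (P3 z')] at hq
    exact D.disj z _ _ hf hz (notK _ _ (hvne z' h1' h2' _) (hvlt z' hf' _)) hq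
  refine ⟨{ A := D.A, Q := Q', A_per := D.A_per, A_loc := ?_, A_inj := ?_, Q_loc := ?_,
            Q_inj := ?_, glue := ?_, disj := ?_, cover := ?_ }⟩
  · intro x t hx
    exact D.A_loc x t (fun hk => hx ((hK x).2 hk))
  · intro x x' t t' hx hx' heq
    exact D.A_inj x x' t t' (fun hk => hx ((hK x).2 hk)) (fun hk => hx' ((hK x').2 hk)) heq
  · intro z hf
    by_cases hz : r z < η
    · refine Pool.Agent.CSG.ld_congr (D.Q_loc z hf) ?_
      have : ∀ᶠ y in 𝓝 z, r y < η := hrc.continuousAt.eventually_lt continuousAt_const hz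
      filter_upwards [this] with y hy using hQlt y hy
    · have hrz : 0 < r z := lt_of_lt_of_le hη (not_lt.1 hz)
      obtain ⟨h1, h2⟩ := hrNZ z hrz
      have hzG := hGeq z hf h1 h2
      set v : ℂ := ((r z : ℝ) : ℂ) * ex (M z) with hvdef
      have hv0 : v ≠ 0 := hvne z h1 h2 _
      have hv1 : ‖v‖ < 1 := hvlt z hf _
      have hG := Gc_ld n j (l := L z) (t := T z) hv0 hv1
      have hcomp : IsLocalDiffeomorphAt 𝓘(ℝ, ℝ × ℂ × ℝ) (𝓡 4) ∞ (Q' ∘ Gc n j)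
          (L z, v, T z) := by
        refine Pool.Agent.CSG.ld_congr
          (GerM_ld (h'.loc (L z) v hv1) (D.A_loc _ (T z) (notK _ _ hv0 hv1))) ?_
        have A1 : ∀ᶠ a : ℝ × ℂ × ℝ in 𝓝 (L z, v, T z), a.2.1 ≠ 0 :=
          (continuous_snd.fst).continuousAt.eventually_ne hv0
        have A2 : ∀ᶠ a : ℝ × ℂ × ℝ in 𝓝 (L z, v, T z), ‖a.2.1‖ < 1 :=
          (continuous_snd.fst.norm).continuousAt.eventually_lt continuousAt_const hv1
        filter_upwards [A1, A2] with a ha1 ha2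
        exact star2 a.1 a.2.2 a.2.1 ha1 ha2
      have := Pool.Agent.CSG.ld_of_comp_left hcomp hG
      rw [← hzG] at this
      exact this
  · intro z z' hf hf' hq
    by_cases hz : c1 z ≠ 0 ∧ c2 z ≠ 0
    · by_cases hz' : c1 z' ≠ 0 ∧ c2 z' ≠ 0
      · exact hNZinj z z' hf hf' hz.1 hz.2 hz'.1 hz'.2 hq
      · exact absurd hq.symm (hNZQ z' z hf' hf (by tauto) hz.1 hz.2)
    · by_cases hz' : c1 z' ≠ 0 ∧ c2 z' ≠ 0
      · exact absurd hq (hNZQ z z' hf hf' (by tauto) hz'.1 hz'.2)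
      · have hr : r z < η := by
          by_contra hcon
          exact hz (hrNZ z (lt_of_lt_of_le hη (not_lt.1 hcon)))
        have hr' : r z' < η := by
          by_contra hcon
          exact hz' (hrNZ z' (lt_of_lt_of_le hη (not_lt.1 hcon)))
        rw [hQlt z hr, hQlt z' hr'] at hq
        exact D.Q_inj z z' hf hf' hq
  · intro z l m t hf h1 h2 e1 e2 e3
    exact star z l m t hf h1 h2 e1 e2 e3
  · intro z x t hf hz hx
    have hr : r z < η := by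
      by_contra hcon
      have := hrNZ z (lt_of_lt_of_le hη (not_lt.1 hcon))
      rcases hz with hz | hz
      · exact this.1 hz
      · exact this.2 hz
    rw [hQlt z hr]
    exact D.disj z x t hf hz (fun hk => hx ((hK x).2 hk))
  · intro q
    rcases D.cover q with ⟨x, t, hx, hq⟩ | ⟨z, hf, hq⟩
    · exact Or.inl ⟨x, t, fun hk => hx ((hK x).1 hk), hq⟩
    · by_cases hz : r z < η
      · exact Or.inr ⟨z, hf, by rw [hQlt z hz]; exact hq⟩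
      · obtain ⟨h1, h2⟩ := hrNZ z (lt_of_lt_of_le hη (not_lt.1 hz))
        left
        refine ⟨κ (L z, ((r z : ℝ) : ℂ) * ex (M z)), T z, ?_, ?_⟩
        · intro hk
          exact notK' _ _ (hvne z h1 h2 _) (hvlt z hf _) ((hK _).1 hk)
        · rw [hq]
          exact D.glue z _ _ _ hf h1 h2 (P1 z) (P2 z) (P3 z)

end Pool.Agent.RSG
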