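import Pool.Agent.RSG.PGm
import Pool.Agent.RSG.LDc
import Pool.Agent.RSG.ExM

/-!
# RSG/BaA: the unknot, the map `bA`   (difficulty 3)

`w` in `S3` has complex coordinates `w₁, w₂`; `w₁ ≠ 0`; `u = w₁ / |w₁|`, `j' = j + k n`;
`bA k n j (w, t) = pG (u · ex((1 - j') t)) (u · ex(-j' t)) (w₂ ex (-n t))`, `|w₂ ex (-nt)| = |w₂| < 1`
(`S3_sq`): `pG_dir`, `pG_fh`.
* `bA_spec`: `pG_dir`, `pG_fh`, `√(1 - |w₂|²) = |w₁|`.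
* `bA_per`: `ex` of integers (`ex_add_int`; `(1 - j') (t + 1) = (1 - j') t + (1 - j')`).
* `bA_inj`: let `z = bA (w, t)`: `c1 z = |c1 z| u ex((1 - j')t)`, `c2 z = |c2 z| u ex(-j't)`, so
  `c1 z conj (c2 z)` is a positive multiple of `ex t`: `t' = t + m` (`ex_polar`); then `u = u'`
  (from `c2`), `w₂ = w₂'` (from `fh`), `|w₁|² = 1 - |w₂|²`, so `w = w'`.
* `bA_ld`: smooth near `(w₀, t₀)` (`pG_smooth`; `w ↦ w₁ / |w₁|` is smooth for `w₁ ≠ 0`;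
  `S3c_smooth`), with local inverse near `z₀ = bA (w₀, t₀)`:
  `z ↦ (pS3 (2 |c1||c2| u) (fh z ex (n τ)), τ)`, `u = (c2/|c2|) ex (j' τ)`,
  `τ = t₀ + (log (c1 z conj(c2 z) / (c1 z₀ conj (c2 z₀)))).im / 2π`.
  `ld_two` (the compositions: `ex_log`, `pG_self`, `pS3_self`, `(2|c1||c2|)² = 1 - |fh|²`, `fh_sq`).
-/

open scoped Manifold ContDiff Topology
open Set Filter
open Complex (I)

namespace Pool.Agent.RSG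

theorem BaA_unit {v : ℂ} (h : v ≠ 0) : ‖v / ‖v‖‖ = 1 := by
  rw [norm_div, Complex.norm_real, norm_norm, div_self (norm_ne_zero_iff.2 h)]

theorem BaA_conj_unit {u : ℂ} (h : ‖u‖ = 1) : u * (starRingEnd ℂ) u = 1 := by
  rw [Complex.mul_conj, Complex.normSq_eq_norm_sq, h]; simp

theorem BaA_w2 {w : S3} (h : (⟨w.1 0, w.1 1⟩ : ℂ) ≠ 0) : ‖(⟨w.1 2, w.1 3⟩ : ℂ)‖ < 1 := by
  have := S3_sq w
  have h1 : 0 < ‖(⟨w.1 0, w.1 1⟩ : ℂ)‖ := norm_pos_iff.2 h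
  nlinarith [norm_nonneg (⟨w.1 2, w.1 3⟩ : ℂ)]

theorem bA_spec (k n j : ℤ) {w : S3} (t : ℝ) (h : (⟨w.1 0, w.1 1⟩ : ℂ) ≠ 0) :
    let z := bA k n j (w, t)
    let w₁ : ℂ := ⟨w.1 0, w.1 1⟩
    c1 z ≠ 0 ∧ c2 z ≠ 0 ∧ c1 z = ‖c1 z‖ * (w₁ / ‖w₁‖ * ex ((1 - (j + k * n)) * t)) ∧
    c2 z = ‖c2 z‖ * (w₁ / ‖w₁‖ * ex (-(j + k * n) * t)) ∧
    fh z = ⟨w.1 2, w.1 3⟩ * ex (-n * t) ∧ 2 * ‖c1 z‖ * ‖c2 z‖ = ‖w₁‖ := by
  intro z w₁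
  have hu1 : ‖w₁ / ‖w₁‖ * ex ((1 - (j + k * n)) * t)‖ = 1 := by
    rw [norm_mul, BaA_unit h, ex_norm, one_mul]
  have hu2 : ‖w₁ / ‖w₁‖ * ex (-(j + k * n) * t)‖ = 1 := by
    rw [norm_mul, BaA_unit h, ex_norm, one_mul]
  have hf0 : ‖(⟨w.1 2, w.1 3⟩ : ℂ) * ex (-n * t)‖ = ‖(⟨w.1 2, w.1 3⟩ : ℂ)‖ := by
    rw [norm_mul, ex_norm, mul_one]
  have hf : ‖(⟨w.1 2, w.1 3⟩ : ℂ) * ex (-n * t)‖ < 1 := by rw [hf0]; exact BaA_w2 h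
  obtain ⟨a1, a2, a3, a4, a5⟩ := pG_dir hu1 hu2 hf
  have a6 := pG_fh hu1 hu2 hf
  refine ⟨a1, a2, a3, a4, a6, ?_⟩
  have a7 : 2 * ‖c1 z‖ * ‖c2 z‖ = Real.sqrt (1 - ‖(⟨w.1 2, w.1 3⟩ : ℂ) * ex (-n * t)‖ ^ 2) := a5
  rw [a7, hf0]
  have := S3_sq w
  have e : 1 - ‖(⟨w.1 2, w.1 3⟩ : ℂ)‖ ^ 2 = ‖w₁‖ ^ 2 := by
    show 1 - ‖(⟨w.1 2, w.1 3⟩ : ℂ)‖ ^ 2 = ‖(⟨w.1 0, w.1 1⟩ : ℂ)‖ ^ 2
    linarith
  rw [e, Real.sqrt_sq (norm_nonneg _)]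

theorem bA_per (k n j : ℤ) (w : S3) (t : ℝ) : bA k n j (w, t + 1) = bA k n j (w, t) := by
  unfold bA
  have e1 : ex ((1 - ((j : ℝ) + k * n)) * (t + 1)) = ex ((1 - ((j : ℝ) + k * n)) * t) := by
    rw [← ex_add_int ((1 - ((j : ℝ) + k * n)) * t) (1 - (j + k * n))]
    congr 1
    push_cast
    ring
  have e2 : ex (-((j : ℝ) + k * n) * (t + 1)) = ex (-((j : ℝ) + k * n) * t) := by
    rw [← ex_add_int (-((j : ℝ) + k * n) * t) (-(j + k * n))]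
    congr 1
    push_cast
    ring
  have e3 : ex (-(n : ℝ) * (t + 1)) = ex (-(n : ℝ) * t) := by
    rw [← ex_add_int (-(n : ℝ) * t) (-n)]
    congr 1
    push_cast
    ring
  simp only [e1, e2, e3]

/-- the product `c1 conj c2` -/
theorem BaA_prod (k n j : ℤ) {w : S3} (t : ℝ) (h : (⟨w.1 0, w.1 1⟩ : ℂ) ≠ 0) :
    c1 (bA k n j (w, t)) * (starRingEnd ℂ) (c2 (bA k n j (w, t))) =
      ((‖c1 (bA k n j (w, t))‖ * ‖c2 (bA k n j (w, t))‖ : ℝ) : ℂ) * ex t := by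
  obtain ⟨_, _, a3, a4, _, _⟩ := bA_spec k n j t h
  set z := bA k n j (w, t)
  conv_lhs => rw [a3, a4]
  have hu := BaA_conj_unit (BaA_unit h)
  have e : ex t = ex ((1 - (j + k * n)) * t) * (starRingEnd ℂ) (ex (-(j + k * n) * t)) := by
    rw [← ex_neg, ← ex_add]
    congr 1
    ring
  rw [e]
  simp only [map_mul, Complex.conj_ofReal]
  push_cast
  linear_combination (‖c1 z‖ : ℂ) * ‖c2 z‖ * ex ((1 - (j + k * n)) * t) *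
    (starRingEnd ℂ) (ex (-(j + k * n) * t)) * hu

theorem BaA_ext {w w' : S3} (h1 : (⟨w.1 0, w.1 1⟩ : ℂ) = ⟨w'.1 0, w'.1 1⟩)
    (h2 : (⟨w.1 2, w.1 3⟩ : ℂ) = ⟨w'.1 2, w'.1 3⟩) : w = w' := by
  rw [← pS3_self w, ← pS3_self w', h1, h2]

theorem bA_inj (k n j : ℤ) {w w' : S3} {t t' : ℝ} (h : (⟨w.1 0, w.1 1⟩ : ℂ) ≠ 0)
    (h' : (⟨w'.1 0, w'.1 1⟩ : ℂ) ≠ 0) (he : bA k n j (w, t) = bA k n j (w', t')) :
    w = w' ∧ ∃ m : ℤ, t' = t + m := by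
  obtain ⟨a1, a2, a3, a4, a5, a6⟩ := bA_spec k n j t h
  obtain ⟨b1, b2, b3, b4, b5, b6⟩ := bA_spec k n j t' h'
  have p1 := BaA_prod k n j t h
  have p2 := BaA_prod k n j t' h'
  have hpos : 0 < ‖c1 (bA k n j (w, t))‖ * ‖c2 (bA k n j (w, t))‖ :=
    mul_pos (norm_pos_iff.2 a1) (norm_pos_iff.2 a2)
  rw [← he] at b1 b2 b3 b4 b5 b6 p2
  obtain ⟨_, m, hm⟩ := ex_polar hpos hpos (p1.symm.trans p2)
  refine ⟨?_, m, hm⟩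
  have e2 : ex (-((j : ℝ) + k * n) * t') = ex (-((j : ℝ) + k * n) * t) := by
    rw [← ex_add_int (-((j : ℝ) + k * n) * t) (-(j + k * n) * m), hm]
    congr 1
    push_cast
    ring
  have e3 : ex (-(n : ℝ) * t') = ex (-(n : ℝ) * t) := by
    rw [← ex_add_int (-(n : ℝ) * t) (-n * m), hm]
    congr 1
    push_cast
    ring
  rw [e2] at b4
  rw [e3] at b5
  apply BaA_ext
  · have hn : ‖(⟨w.1 0, w.1 1⟩ : ℂ)‖ = ‖(⟨w'.1 0, w'.1 1⟩ : ℂ)‖ := a6.symm.trans b6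
    have hc2 : (‖c2 (bA k n j (w, t))‖ : ℂ) ≠ 0 := by
      exact_mod_cast (norm_pos_iff.2 a2).ne'
    have q1 := mul_left_cancel₀ hc2 (a4.symm.trans b4)
    have q2 := mul_right_cancel₀ (ex_ne _) q1
    rw [← hn] at q2
    have hw : ((‖(⟨w.1 0, w.1 1⟩ : ℂ)‖ : ℝ) : ℂ) ≠ 0 := by
      exact_mod_cast (norm_pos_iff.2 h).ne'
    exact (div_left_inj' hw).1 q2
  · exact mul_right_cancel₀ (ex_ne _) (a5.symm.trans b5)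

section
variable {V : Type*} [NormedAddCommGroup V] [NormedSpace ℝ V] {H : Type*}
  [TopologicalSpace H] {J : ModelWithCorners ℝ V H} {M : Type*} [TopologicalSpace M]
  [ChartedSpace H M] {x : M}

theorem BaA_mul {a b : M → ℂ} (ha : ContMDiffAt J 𝓘(ℝ, ℂ) ∞ a x)
    (hb : ContMDiffAt J 𝓘(ℝ, ℂ) ∞ b x) : ContMDiffAt J 𝓘(ℝ, ℂ) ∞ (fun y => a y * b y) x := by
  have h : ContDiff ℝ ∞ (fun q : ℂ × ℂ => q.1 * q.2) := contDiff_fst.mul contDiff_snd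
  exact h.contDiffAt.contMDiffAt.comp x (ha.prodMk_space hb)

theorem BaA_comp {F G : Type*} [NormedAddCommGroup F] [NormedSpace ℝ F] [NormedAddCommGroup G]
    [NormedSpace ℝ G] {a : M → F} {f : F → G} (ha : ContMDiffAt J 𝓘(ℝ, F) ∞ a x)
    (hf : ContDiffAt ℝ ∞ f (a x)) : ContMDiffAt J 𝓘(ℝ, G) ∞ (fun y => f (a y)) x :=
  hf.contMDiffAt.comp x ha

theorem BaA_exm {a : M → ℝ} (ha : ContMDiffAt J 𝓘(ℝ, ℝ) ∞ a x) (c : ℝ) :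
    ContMDiffAt J 𝓘(ℝ, ℂ) ∞ (fun y => ex (c * a y)) x := by
  have : ContDiff ℝ ∞ (fun t : ℝ => ex (c * t)) := ex_smooth.comp (contDiff_const.mul contDiff_id)
  exact BaA_comp (f := fun t : ℝ => ex (c * t)) ha this.contDiffAt

theorem BaA_dir {a : M → ℂ} (ha : ContMDiffAt J 𝓘(ℝ, ℂ) ∞ a x) (h0 : a x ≠ 0) :
    ContMDiffAt J 𝓘(ℝ, ℂ) ∞ (fun y => a y / ‖a y‖) x := by
  have : ContDiffAt ℝ ∞ (fun v : ℂ => v / ‖v‖) (a x) := by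
    have h1 : ContDiffAt ℝ ∞ (fun v : ℂ => ((‖v‖ : ℝ) : ℂ)) (a x) :=
      Complex.ofRealCLM.contDiff.contDiffAt.comp _ (contDiffAt_norm ℝ h0)
    simp only [div_eq_mul_inv]
    exact contDiffAt_id.mul (h1.inv (by exact_mod_cast (norm_pos_iff.2 h0).ne'))
  exact BaA_comp (f := fun v : ℂ => v / ‖v‖) ha this

theorem BaA_nrm {a : M → ℂ} (ha : ContMDiffAt J 𝓘(ℝ, ℂ) ∞ a x) (h0 : a x ≠ 0) :
    ContMDiffAt J 𝓘(ℝ, ℂ) ∞ (fun y => ((‖a y‖ : ℝ) : ℂ)) x := by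
  have h1 : ContDiffAt ℝ ∞ (fun v : ℂ => ((‖v‖ : ℝ) : ℂ)) (a x) :=
    Complex.ofRealCLM.contDiff.contDiffAt.comp _ (contDiffAt_norm ℝ h0)
  exact BaA_comp (f := fun v : ℂ => ((‖v‖ : ℝ) : ℂ)) ha h1

end

/-- the time coordinate of the local inverse -/
noncomputable def BaA_tau (z₀ : S4) (t₀ : ℝ) (z : S4) : ℝ :=
  t₀ + (Complex.log (c1 z * (starRingEnd ℂ) (c2 z) / (c1 z₀ * (starRingEnd ℂ) (c2 z₀)))).im /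
    (2 * Real.pi)

noncomputable def BaA_inv (k n j : ℤ) (z₀ : S4) (t₀ : ℝ) (z : S4) : S3 × ℝ :=
  (pS3 (((2 : ℝ) : ℂ) * ‖c1 z‖ * ‖c2 z‖ * (c2 z / ‖c2 z‖ * ex (((j : ℝ) + k * n) * BaA_tau z₀ t₀ z)))
    (fh z * ex ((n : ℝ) * BaA_tau z₀ t₀ z)), BaA_tau z₀ t₀ z)

theorem BaA_tau_smooth {z₀ z : S4} (t₀ : ℝ)
    (h : c1 z * (starRingEnd ℂ) (c2 z) / (c1 z₀ * (starRingEnd ℂ) (c2 z₀)) ∈ Complex.slitPlane) :
    ContMDiffAt (𝓡 4) 𝓘(ℝ, ℝ) ∞ (BaA_tau z₀ t₀) z := by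
  have h1 : ContMDiffAt (𝓡 4) 𝓘(ℝ, ℂ) ∞ (fun z => (starRingEnd ℂ) (c2 z)) z :=
    BaA_comp c2_smooth.contMDiffAt Complex.conjCLE.contDiff.contDiffAt
  have h2 := BaA_mul c1_smooth.contMDiffAt h1
  have h3 : ContDiffAt ℝ ∞ (fun q : ℂ => t₀ +
      (Complex.log (q / (c1 z₀ * (starRingEnd ℂ) (c2 z₀)))).im / (2 * Real.pi))
      (c1 z * (starRingEnd ℂ) (c2 z)) := by
    have h4 : ContDiffAt ℝ ∞ (fun q : ℂ => Complex.log (q / (c1 z₀ * (starRingEnd ℂ) (c2 z₀))))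
        (c1 z * (starRingEnd ℂ) (c2 z)) := by
      have h5 : ContDiffAt ℝ ∞ Complex.log
          (c1 z * (starRingEnd ℂ) (c2 z) / (c1 z₀ * (starRingEnd ℂ) (c2 z₀))) :=
        (Complex.contDiffAt_log h).restrict_scalars ℝ
      exact ContDiffAt.comp (f := fun q : ℂ => q / (c1 z₀ * (starRingEnd ℂ) (c2 z₀)))
        (c1 z * (starRingEnd ℂ) (c2 z)) h5 (contDiffAt_id.div_const _)
    exact contDiffAt_const.add ((Complex.imCLM.contDiff.contDiffAt.comp _ h4).div_const _)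
  exact BaA_comp (f := fun q : ℂ => t₀ +
      (Complex.log (q / (c1 z₀ * (starRingEnd ℂ) (c2 z₀)))).im / (2 * Real.pi)) h2 h3

theorem BaA_inv_smooth (k n j : ℤ) {z₀ z : S4} (t₀ : ℝ) (h1 : c1 z ≠ 0) (h2 : c2 z ≠ 0)
    (h : c1 z * (starRingEnd ℂ) (c2 z) / (c1 z₀ * (starRingEnd ℂ) (c2 z₀)) ∈ Complex.slitPlane) :
    ContMDiffAt (𝓡 4) ((𝓡 3).prod 𝓘(ℝ, ℝ)) ∞ (BaA_inv k n j z₀ t₀) z := by
  have ht := BaA_tau_smooth t₀ h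
  have m1 := c1_smooth.contMDiffAt (x := z)
  have m2 := c2_smooth.contMDiffAt (x := z)
  have mf := fh_smooth.contMDiffAt (x := z)
  have ha := BaA_mul (BaA_mul (BaA_mul (contMDiffAt_const (c := ((2 : ℝ) : ℂ)))
    (BaA_nrm m1 h1)) (BaA_nrm m2 h2)) (BaA_mul (BaA_dir m2 h2) (BaA_exm ht ((j : ℝ) + k * n)))
  have hb := BaA_mul mf (BaA_exm ht (n : ℝ))
  refine ContMDiffAt.prodMk (pS3_smooth ha hb ?_) ht
  have h3 : ((2 : ℝ) : ℂ) * ‖c1 z‖ * ‖c2 z‖ *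
      (c2 z / ‖c2 z‖ * ex (((j : ℝ) + k * n) * BaA_tau z₀ t₀ z)) ≠ 0 := by
    have a1 : (‖c1 z‖ : ℂ) ≠ 0 := by exact_mod_cast (norm_pos_iff.2 h1).ne'
    have a2 : (‖c2 z‖ : ℂ) ≠ 0 := by exact_mod_cast (norm_pos_iff.2 h2).ne'
    have a3 := ex_ne (((j : ℝ) + k * n) * BaA_tau z₀ t₀ z)
    have a4 : ((2 : ℝ) : ℂ) ≠ 0 := by norm_num
    exact mul_ne_zero (mul_ne_zero (mul_ne_zero a4 a1) a2) (mul_ne_zero (div_ne_zero h2 a2) a3)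
  have := norm_pos_iff.2 h3
  positivity

theorem BaA_smooth (k n j : ℤ) {w : S3} (t : ℝ) (h : (⟨w.1 0, w.1 1⟩ : ℂ) ≠ 0) :
    ContMDiffAt ((𝓡 3).prod 𝓘(ℝ, ℝ)) (𝓡 4) ∞ (bA k n j) (w, t) := by
  have s1 : ContMDiffAt ((𝓡 3).prod 𝓘(ℝ, ℝ)) 𝓘(ℝ, ℂ) ∞
      (fun q : S3 × ℝ => (⟨q.1.1 0, q.1.1 1⟩ : ℂ)) (w, t) :=
    S3c_smooth.1.contMDiffAt.comp (w, t) contMDiffAt_fst
  have s2 : ContMDiffAt ((𝓡 3).prod 𝓘(ℝ, ℝ)) 𝓘(ℝ, ℂ) ∞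
      (fun q : S3 × ℝ => (⟨q.1.1 2, q.1.1 3⟩ : ℂ)) (w, t) :=
    S3c_smooth.2.contMDiffAt.comp (w, t) contMDiffAt_fst
  have s3 : ContMDiffAt ((𝓡 3).prod 𝓘(ℝ, ℝ)) 𝓘(ℝ, ℝ) ∞
      (fun q : S3 × ℝ => q.2) (w, t) := contMDiffAt_snd
  refine pG_smooth (BaA_mul (BaA_dir s1 h) (BaA_exm s3 _)) (BaA_mul (BaA_dir s1 h) (BaA_exm s3 _))
    (BaA_mul s2 (BaA_exm s3 _)) ?_ ?_ ?_
  · rw [norm_mul, BaA_unit h, ex_norm, one_mul]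
  · rw [norm_mul, BaA_unit h, ex_norm, one_mul]
  · rw [norm_mul, ex_norm, mul_one]; exact BaA_w2 h

theorem BaA_left (k n j : ℤ) {w₀ w : S3} {t₀ t : ℝ} (h0 : (⟨w₀.1 0, w₀.1 1⟩ : ℂ) ≠ 0)
    (h : (⟨w.1 0, w.1 1⟩ : ℂ) ≠ 0) (h1 : |t - t₀| < 1 / 2) :
    BaA_inv k n j (bA k n j (w₀, t₀)) t₀ (bA k n j (w, t)) = (w, t) := by
  obtain ⟨a1, a2, a3, a4, a5, a6⟩ := bA_spec k n j t h
  obtain ⟨b1, b2, b3, b4, b5, b6⟩ := bA_spec k n j t₀ h0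
  have p1 := BaA_prod k n j t h
  have p2 := BaA_prod k n j t₀ h0
  set z := bA k n j (w, t)
  set z₀ := bA k n j (w₀, t₀)
  have n1 : 0 < ‖c1 z‖ := norm_pos_iff.2 a1
  have n2 : 0 < ‖c2 z‖ := norm_pos_iff.2 a2
  have n3 : 0 < ‖c1 z₀‖ := norm_pos_iff.2 b1
  have n4 : 0 < ‖c2 z₀‖ := norm_pos_iff.2 b2
  have hτ : BaA_tau z₀ t₀ z = t := by
    unfold BaA_tau
    rw [p1, p2]
    have e : ((‖c1 z‖ * ‖c2 z‖ : ℝ) : ℂ) * ex t / (((‖c1 z₀‖ * ‖c2 z₀‖ : ℝ) : ℂ) * ex t₀) =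
        ((‖c1 z‖ * ‖c2 z‖ / (‖c1 z₀‖ * ‖c2 z₀‖) : ℝ) : ℂ) * ex (t - t₀) := by
      have : ex t = ex (t - t₀) * ex t₀ := by rw [← ex_add]; congr 1; ring
      rw [this]
      have hn : ((‖c1 z₀‖ * ‖c2 z₀‖ : ℝ) : ℂ) ≠ 0 := by
        exact_mod_cast (mul_pos n3 n4).ne'
      have he := ex_ne t₀
      push_cast at hn ⊢
      field_simp
    rw [e, ex_log (by positivity) (by linarith [(abs_lt.1 h1).1]) (abs_lt.1 h1).2]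
    have := Real.pi_pos
    field_simp
    ring
  have m2 : (‖c2 z‖ : ℂ) ≠ 0 := by exact_mod_cast n2.ne'
  have hdir : c2 z / ‖c2 z‖ = (⟨w.1 0, w.1 1⟩ : ℂ) / ‖(⟨w.1 0, w.1 1⟩ : ℂ)‖ *
      ex (-((j : ℝ) + k * n) * t) := by
    rw [div_eq_iff m2]
    conv_lhs => rw [a4]
    ring
  unfold BaA_inv
  rw [hτ, hdir, a5]
  have e1 : ex (-((j : ℝ) + k * n) * t) * ex (((j : ℝ) + k * n) * t) = 1 := by
    rw [← ex_add, show -((j : ℝ) + k * n) * t + ((j : ℝ) + k * n) * t = 0 by ring, ex_zero]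
  have e2 : ex (-(n : ℝ) * t) * ex ((n : ℝ) * t) = 1 := by
    rw [← ex_add, show -(n : ℝ) * t + (n : ℝ) * t = 0 by ring, ex_zero]
  have hw : ((‖(⟨w.1 0, w.1 1⟩ : ℂ)‖ : ℝ) : ℂ) ≠ 0 := by
    exact_mod_cast (norm_pos_iff.2 h).ne'
  have f1 : ((2 : ℝ) : ℂ) * ‖c1 z‖ * ‖c2 z‖ * ((⟨w.1 0, w.1 1⟩ : ℂ) / ‖(⟨w.1 0, w.1 1⟩ : ℂ)‖ *
      ex (-((j : ℝ) + k * n) * t) * ex (((j : ℝ) + k * n) * t)) = (⟨w.1 0, w.1 1⟩ : ℂ) := by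
    have : ((2 : ℝ) : ℂ) * ‖c1 z‖ * ‖c2 z‖ = ((‖(⟨w.1 0, w.1 1⟩ : ℂ)‖ : ℝ) : ℂ) := by
      rw [← a6]; push_cast; ring
    rw [this, mul_assoc, e1, mul_one, mul_div_assoc']
    rw [mul_comm, mul_div_assoc, div_self hw, mul_one]
  have f2 : (⟨w.1 2, w.1 3⟩ : ℂ) * ex (-(n : ℝ) * t) * ex ((n : ℝ) * t) = ⟨w.1 2, w.1 3⟩ := by
    rw [mul_assoc, e2, mul_one]
  rw [f1, f2, pS3_self]

theorem BaA_right (k n j : ℤ) {z₀ z : S4} {t₀ : ℝ} {w₀ : S3}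
    (h0 : (⟨w₀.1 0, w₀.1 1⟩ : ℂ) ≠ 0) (hz : z₀ = bA k n j (w₀, t₀))
    (h1 : c1 z ≠ 0) (h2 : c2 z ≠ 0) :
    bA k n j (BaA_inv k n j z₀ t₀ z) = z := by
  obtain ⟨b1, b2, b3, b4, b5, b6⟩ := bA_spec k n j t₀ h0
  have p2 := BaA_prod k n j t₀ h0
  rw [← hz] at b1 b2 p2
  set τ := BaA_tau z₀ t₀ z with hτ
  have n1 : 0 < ‖c1 z‖ := norm_pos_iff.2 h1
  have n2 : 0 < ‖c2 z‖ := norm_pos_iff.2 h2
  have n3 : 0 < ‖c1 z₀‖ := norm_pos_iff.2 b1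
  have n4 : 0 < ‖c2 z₀‖ := norm_pos_iff.2 b2
  have m1 : (‖c1 z‖ : ℂ) ≠ 0 := by exact_mod_cast n1.ne'
  have m2 : (‖c2 z‖ : ℂ) ≠ 0 := by exact_mod_cast n2.ne'
  have m3 : (‖c1 z₀‖ : ℂ) ≠ 0 := by exact_mod_cast n3.ne'
  have m4 : (‖c2 z₀‖ : ℂ) ≠ 0 := by exact_mod_cast n4.ne'
  -- the direction of `c1 conj c2`
  have hρ : c1 z * (starRingEnd ℂ) (c2 z) = ((‖c1 z‖ * ‖c2 z‖ : ℝ) : ℂ) * ex τ := by
    set ρ := c1 z * (starRingEnd ℂ) (c2 z) / (c1 z₀ * (starRingEnd ℂ) (c2 z₀)) with hρ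
    have q1 : (‖ρ‖ : ℂ) * ex (Complex.arg ρ / (2 * Real.pi)) = ρ := ex_arg
    have q2 : ‖ρ‖ = ‖c1 z‖ * ‖c2 z‖ / (‖c1 z₀‖ * ‖c2 z₀‖) := by
      rw [hρ]; simp
    have q3 : ex τ = ex t₀ * ex (Complex.arg ρ / (2 * Real.pi)) := by
      rw [← ex_add, hτ]
      unfold BaA_tau
      rw [Complex.log_im]
    have q4 : c1 z₀ * (starRingEnd ℂ) (c2 z₀) ≠ 0 := by
      rw [p2]
      exact mul_ne_zero (by exact_mod_cast (mul_pos n3 n4).ne') (ex_ne _)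
    have q5 : c1 z * (starRingEnd ℂ) (c2 z) = ρ * (c1 z₀ * (starRingEnd ℂ) (c2 z₀)) := by
      rw [hρ, div_mul_cancel₀ _ q4]
    rw [q5, ← q1, q2, p2, q3]
    push_cast
    field_simp
  have hc2c : c2 z * (starRingEnd ℂ) (c2 z) = ((‖c2 z‖ ^ 2 : ℝ) : ℂ) := by
    rw [Complex.mul_conj, Complex.normSq_eq_norm_sq]
  have hdir : c1 z / ‖c1 z‖ = c2 z / ‖c2 z‖ * ex τ := by
    have hcc : (starRingEnd ℂ) (c2 z) ≠ 0 := by rwa [Ne, map_eq_zero]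
    apply mul_right_cancel₀ hcc
    rw [div_mul_eq_mul_div, hρ]
    have : c2 z / ‖c2 z‖ * ex τ * (starRingEnd ℂ) (c2 z) =
        (c2 z * (starRingEnd ℂ) (c2 z)) / ‖c2 z‖ * ex τ := by ring
    rw [this, hc2c]
    push_cast
    field_simp
  have hu : ‖c2 z / ‖c2 z‖ * ex (((j : ℝ) + k * n) * τ)‖ = 1 := by
    rw [norm_mul, BaA_unit h2, ex_norm, one_mul]
  set a : ℂ := ((2 : ℝ) : ℂ) * ‖c1 z‖ * ‖c2 z‖ * (c2 z / ‖c2 z‖ * ex (((j : ℝ) + k * n) * τ)) with ha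
  set b : ℂ := fh z * ex ((n : ℝ) * τ) with hb
  have na : ‖a‖ = 2 * ‖c1 z‖ * ‖c2 z‖ := by
    rw [ha, norm_mul, hu, mul_one]
    simp
  have nb : ‖b‖ = ‖fh z‖ := by rw [hb, norm_mul, ex_norm, mul_one]
  have hsum : ‖a‖ ^ 2 + ‖b‖ ^ 2 = 1 := by
    rw [na, nb]
    have := fh_sq z
    linarith
  obtain ⟨s1, s2⟩ := pS3_c hsum
  have hinv : BaA_inv k n j z₀ t₀ z = (pS3 a b, τ) := rfl
  rw [hinv]
  unfold bA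
  simp only
  rw [s1, s2]
  have e0 : a / ‖a‖ = c2 z / ‖c2 z‖ * ex (((j : ℝ) + k * n) * τ) := by
    have hna : ((‖a‖ : ℝ) : ℂ) ≠ 0 := by
      rw [na]
      exact_mod_cast (by positivity : 2 * ‖c1 z‖ * ‖c2 z‖ ≠ 0)
    rw [div_eq_iff hna, na, ha]
    push_cast
    ring
  have e1 : a / ‖a‖ * ex ((1 - ((j : ℝ) + k * n)) * τ) = c1 z / ‖c1 z‖ := by
    rw [e0, mul_assoc, ← ex_add, hdir]
    congr 2
    ring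
  have e2 : a / ‖a‖ * ex (-((j : ℝ) + k * n) * τ) = c2 z / ‖c2 z‖ := by
    rw [e0, mul_assoc, ← ex_add,
      show ((j : ℝ) + k * n) * τ + -((j : ℝ) + k * n) * τ = 0 by ring, ex_zero, mul_one]
  have e3 : b * ex (-(n : ℝ) * τ) = fh z := by
    rw [hb, mul_assoc, ← ex_add, show (n : ℝ) * τ + -(n : ℝ) * τ = 0 by ring, ex_zero, mul_one]
  rw [e1, e2, e3]
  exact pG_self h1 h2

theorem bA_ld (k n j : ℤ) {w : S3} (t : ℝ) (h : (⟨w.1 0, w.1 1⟩ : ℂ) ≠ 0) :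
    IsLocalDiffeomorphAt ((𝓡 3).prod 𝓘(ℝ, ℝ)) (𝓡 4) ∞ (bA k n j) (w, t) := by
  obtain ⟨b1, b2, b3, b4, b5, b6⟩ := bA_spec k n j t h
  set z₀ := bA k n j (w, t) with hz₀
  have o1 : ∀ᶠ q : S3 × ℝ in 𝓝 (w, t), (⟨q.1.1 0, q.1.1 1⟩ : ℂ) ≠ 0 := by
    have : ContinuousAt (fun q : S3 × ℝ => (⟨q.1.1 0, q.1.1 1⟩ : ℂ)) (w, t) :=
      (S3c_smooth.1.continuous.comp continuous_fst).continuousAt
    exact this.eventually_ne h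
  have o2 : ∀ᶠ q : S3 × ℝ in 𝓝 (w, t), |q.2 - t| < 1 / 2 := by
    have : ContinuousAt (fun q : S3 × ℝ => |q.2 - t|) (w, t) := by fun_prop
    exact this.eventually_lt continuousAt_const (by simp)
  have o3 : ∀ᶠ z : S4 in 𝓝 z₀, c1 z ≠ 0 := c1_smooth.continuous.continuousAt.eventually_ne b1
  have o4 : ∀ᶠ z : S4 in 𝓝 z₀, c2 z ≠ 0 := c2_smooth.continuous.continuousAt.eventually_ne b2
  have o5 : ∀ᶠ z : S4 in 𝓝 z₀, c1 z * (starRingEnd ℂ) (c2 z) /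
      (c1 z₀ * (starRingEnd ℂ) (c2 z₀)) ∈ Complex.slitPlane := by
    have hc : ContinuousAt (fun z : S4 => c1 z * (starRingEnd ℂ) (c2 z) /
        (c1 z₀ * (starRingEnd ℂ) (c2 z₀))) z₀ := by
      apply Continuous.continuousAt
      exact (c1_smooth.continuous.mul (Complex.continuous_conj.comp c2_smooth.continuous)).div_const _
    apply hc.eventually_mem
    apply Complex.isOpen_slitPlane.mem_nhds
    have hne : c1 z₀ * (starRingEnd ℂ) (c2 z₀) ≠ 0 :=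
      mul_ne_zero b1 (by rwa [Ne, map_eq_zero])
    rw [div_self hne]
    exact Complex.one_mem_slitPlane
  refine ld_two (g := BaA_inv k n j z₀ t) ?_ ?_ ?_ ?_
  · filter_upwards [o1] with q hq using BaA_smooth k n j q.2 hq
  · filter_upwards [o3, o4, o5] with z h3 h4 h5 using BaA_inv_smooth k n j t h3 h4 h5
  · filter_upwards [o1, o2] with q hq1 hq2 using BaA_left k n j h hq1 hq2
  · filter_upwards [o3, o4] with z h3 h4 using BaA_right k n j h rfl h3 h4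

end Pool.Agent.RSG
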