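import Pool.Agent.RSG.StdM
import Pool.Agent.RSG.BaA
import Pool.Agent.RSG.BaQ

/-!
# RSG/Base: the unknot   (difficulty 2)

`A = bA k n j`, `Q = bQ k`; not on the knot means `w₁ ≠ 0` (`std_knot`).  `j' = j + k n`.
* A_per, A_loc, A_inj: `bA_per`, `bA_ld`, `bA_inj`.  Q_loc: `bQ_ld`; Q_inj: `bQ_comp`.
* glue: `z` with `c1 = |c1| ex(m + (1-j) t)`, `c2 = |c2| ex(m - j t)`, `fh z = |fh z| ex (l - n t)`:
  `w = std k (l, r ex m)`, `r = 2|c1||c2|`: `w₁ = r ex(m + kl)`, `w₂ = √(1 - r²) ex l` (`pS3_c`),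
  `√(1 - r²) = |fh z|` (`fh_sq`), so `w₂ ex(-nt) = fh z`, `w₁/|w₁| = ex (m + kl)` and
  `A (w, t) = pG (ex(m + kl + (1 - j')t)) (ex(m + kl - j't)) (fh z)`.  On the other side
  `z' = Q z` has `|c_i z'| = |c_i z|`, `fh z' = fh z`, `ω = ex (l - n t)`,
  `c1 z' = |c1| ex (m + (1 - j) t + k l - k n t)`, `c2 z' = |c2| ex(m - jt + kl - knt)`; as
  `j' = j + k n`, `pG_self` for `z'` gives `z' = A (w, t)`.
* disj: `A (w, t)` has `c1, c2 ≠ 0` (`bA_spec`) and `|c_i (Q z)| = |c_i z|` (`bQ_spec`).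
* cover: if `fh z ≠ 0`, `z = Q (bQ (-k) z)` (`bQ_comp`).  If `fh z = 0` then `2|c1||c2| = 1`
  (`fh_sq`), `c1, c2 ≠ 0`: `z = A (w, t)`, `w = pS3 ((c2/|c2|) ex (j' t)) 0` (`w₂ = 0`),
  `t = (arg c1 - arg c2)/2π` (`pG_self`).
-/

open scoped Manifold ContDiff Topology
open Set Filter
open Complex (I)

namespace Pool.Agent.RSG

theorem Base_zpow (x : ℝ) (k : ℤ) : ex x ^ k = ex (k * x) := by
  unfold ex
  rw [← Complex.exp_int_mul]
  congr 1
  push_cast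
  ring

/-- a positive multiple of a unit complex number divided by its norm -/
theorem Base_dir {r : ℝ} {u : ℂ} (hr : 0 < r) (hu : ‖u‖ = 1) :
    (r : ℂ) * u / (‖(r : ℂ) * u‖ : ℂ) = u := by
  have h1 : ‖(r : ℂ) * u‖ = r := by
    rw [norm_mul, hu, mul_one, Complex.norm_real, Real.norm_of_nonneg hr.le]
  have h2 : (r : ℂ) ≠ 0 := by exact_mod_cast hr.ne'
  rw [h1, mul_div_cancel_left₀ _ h2]

theorem Base_bA (k n j : ℤ) (w : S3) (t : ℝ) {w₁ w₂ : ℂ} (h1 : (⟨w.1 0, w.1 1⟩ : ℂ) = w₁)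
    (h2 : (⟨w.1 2, w.1 3⟩ : ℂ) = w₂) : bA k n j (w, t) =
      pG (w₁ / ‖w₁‖ * ex ((1 - (j + k * n)) * t)) (w₁ / ‖w₁‖ * ex (-(j + k * n) * t))
        (w₂ * ex (-n * t)) := by
  subst h1 h2
  rfl

theorem Base_glue (k n j : ℤ) (z : S4) (l m t : ℝ) (hf : fh z ≠ 0) (h1 : c1 z ≠ 0)
    (h2 : c2 z ≠ 0) (e1 : c1 z = ‖c1 z‖ * ex (m + (1 - j) * t))
    (e2 : c2 z = ‖c2 z‖ * ex (m + -j * t)) (e3 : fh z = ‖fh z‖ * ex (l - n * t)) :
    bQ k z = bA k n j (std k (l, (2 * ‖c1 z‖ * ‖c2 z‖ : ℝ) * ex m), t) := by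
  have p1 : 0 < ‖c1 z‖ := norm_pos_iff.2 h1
  have p2 : 0 < ‖c2 z‖ := norm_pos_iff.2 h2
  have p3 : 0 < ‖fh z‖ := norm_pos_iff.2 hf
  set r : ℝ := 2 * ‖c1 z‖ * ‖c2 z‖ with hr
  have hr0 : 0 < r := by positivity
  have hsq : ‖fh z‖ ^ 2 + r ^ 2 = 1 := fh_sq z
  have hn : ‖(r : ℂ) * ex m‖ = r := by
    rw [norm_mul, ex_norm, mul_one, Complex.norm_real, Real.norm_of_nonneg hr0.le]
  have hq : Real.sqrt (1 - ‖(r : ℂ) * ex m‖ ^ 2) = ‖fh z‖ := by
    rw [hn, show 1 - r ^ 2 = ‖fh z‖ ^ 2 by linarith, Real.sqrt_sq p3.le]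
  have hw : std k (l, (r : ℂ) * ex m) =
      pS3 ((r : ℂ) * ex (m + k * l)) ((‖fh z‖ : ℂ) * ex l) := by
    unfold std
    dsimp only
    rw [hq, mul_assoc, ← ex_add]
  have hH : ‖(r : ℂ) * ex (m + k * l)‖ ^ 2 + ‖(‖fh z‖ : ℂ) * ex l‖ ^ 2 = 1 := by
    rw [norm_mul, norm_mul, ex_norm, ex_norm, mul_one, mul_one, Complex.norm_real,
      Complex.norm_real, Real.norm_of_nonneg hr0.le, norm_norm]
    linarith
  obtain ⟨w1, w2⟩ := pS3_c hH
  rw [hw, Base_bA k n j _ t w1 w2, Base_dir hr0 (ex_norm _)]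
  -- the left side
  obtain ⟨b1, b2, b3, b4, b5, b6⟩ := bQ_spec k hf
  have hω : fh z / ‖fh z‖ = ex (l - n * t) := by
    have h3 : (‖fh z‖ : ℂ) ≠ 0 := by exact_mod_cast p3.ne'
    rw [div_eq_iff h3]
    exact e3.trans (mul_comm _ _)
  have d1 : c1 (bQ k z) = (‖c1 z‖ : ℂ) * ex (m + (1 - j) * t + k * (l - n * t)) := by
    rw [b1, hω, Base_zpow, ex_add (m + (1 - j) * t), ← mul_assoc, ← e1]
  have d2 : c2 (bQ k z) = (‖c2 z‖ : ℂ) * ex (m + -j * t + k * (l - n * t)) := by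
    rw [b2, hω, Base_zpow, ex_add (m + -j * t), ← mul_assoc, ← e2]
  have g1 : c1 (bQ k z) ≠ 0 := by
    rw [← norm_pos_iff, b4]; exact p1
  have g2 : c2 (bQ k z) ≠ 0 := by
    rw [← norm_pos_iff, b5]; exact p2
  have key := pG_self g1 g2
  have q1 : c1 (bQ k z) / (‖c1 (bQ k z)‖ : ℂ) = ex (m + (1 - j) * t + k * (l - n * t)) := by
    rw [d1]
    exact Base_dir p1 (ex_norm _)
  have q2 : c2 (bQ k z) / (‖c2 (bQ k z)‖ : ℂ) = ex (m + -j * t + k * (l - n * t)) := by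
    rw [d2]
    exact Base_dir p2 (ex_norm _)
  rw [q1, q2, b6, e3] at key
  rw [← ex_add, ← ex_add, mul_assoc (‖fh z‖ : ℂ), ← ex_add, ← key]
  have r1 : m + k * l + (1 - (j + k * n)) * t = m + (1 - j) * t + k * (l - n * t) := by ring
  have r2 : m + k * l + -(j + k * n) * t = m + -j * t + k * (l - n * t) := by ring
  have r3 : l + -(n : ℝ) * t = l - n * t := by ring
  have r3' : l + -n * t = l - n * t := by ring
  rw [r1, r2, r3']

theorem base_unknot (k n j : ℤ) : IsRollGluck (std k) n j S4 := by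
  refine ⟨{ A := bA k n j, Q := bQ k, A_per := bA_per k n j, A_loc := ?_, A_inj := ?_,
            Q_loc := fun z h => bQ_ld k h, Q_inj := ?_, glue := ?_, disj := ?_, cover := ?_ }⟩
  · intro x t hx
    exact bA_ld k n j t fun h => hx ((std_knot k x).2 h)
  · intro x x' t t' hx hx' he
    exact bA_inj k n j (fun h => hx ((std_knot k x).2 h)) (fun h => hx' ((std_knot k x').2 h)) he
  · intro z z' h h' he
    rw [← bQ_comp k h, ← bQ_comp k h', he]
  · intro z l m t hf h1 h2 e1 e2 e3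
    refine Base_glue k n j z l m t hf h1 h2 ?_ ?_ e3
    · rw [Int.cast_one, one_mul, Int.cast_sub, Int.cast_one] at e1
      exact e1
    · rw [Int.cast_one, one_mul, Int.cast_neg] at e2
      exact e2
  · intro z x t hf hc hx he
    obtain ⟨b1, b2, _, b4, b5, _⟩ := bQ_spec k hf
    obtain ⟨a1, a2, _⟩ := bA_spec k n j (w := x) t fun h => hx ((std_knot k x).2 h)
    rcases hc with h | h
    · rw [← he, ← norm_pos_iff, b4, h, norm_zero] at a1
      exact lt_irrefl _ a1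
    · rw [← he, ← norm_pos_iff, b5, h, norm_zero] at a2
      exact lt_irrefl _ a2
  · intro q
    by_cases hf : fh q = 0
    · left
      have hsq := fh_sq q
      rw [hf, norm_zero] at hsq
      have h1 : c1 q ≠ 0 := by
        intro h; rw [h, norm_zero] at hsq; norm_num at hsq
      have h2 : c2 q ≠ 0 := by
        intro h; rw [h, norm_zero] at hsq; norm_num at hsq
      have p1 : 0 < ‖c1 q‖ := norm_pos_iff.2 h1
      have p2 : 0 < ‖c2 q‖ := norm_pos_iff.2 h2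
      have n1 : ‖c1 q / (‖c1 q‖ : ℂ)‖ = 1 := by
        rw [norm_div, Complex.norm_real, norm_norm, div_self p1.ne']
      have n2 : ‖c2 q / (‖c2 q‖ : ℂ)‖ = 1 := by
        rw [norm_div, Complex.norm_real, norm_norm, div_self p2.ne']
      obtain ⟨x1, hx1⟩ := ex_surj n1
      obtain ⟨x2, hx2⟩ := ex_surj n2
      set t := x1 - x2 with ht
      have hH : ‖ex (x2 + (j + k * n) * t)‖ ^ 2 + ‖(0 : ℂ)‖ ^ 2 = 1 := by
        rw [ex_norm, norm_zero]; norm_num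
      obtain ⟨w1, w2⟩ := pS3_c hH
      refine ⟨pS3 (ex (x2 + (j + k * n) * t)) 0, t, ?_, ?_⟩
      · rw [std_knot, w1]
        exact ex_ne _
      · have key := pG_self h1 h2
        rw [hx1, hx2, hf] at key
        rw [Base_bA k n j _ t w1 w2, ← key, ex_norm, Complex.ofReal_one, div_one, ← ex_add,
          ← ex_add, zero_mul]
        congr 2
        · rw [ht]; ring
        · rw [ht]; ring
    · right
      obtain ⟨_, _, _, _, _, b6⟩ := bQ_spec (-k) hf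
      refine ⟨bQ (-k) q, by rw [b6]; exact hf, ?_⟩
      have h3 := bQ_comp (-k) hf
      rw [neg_neg] at h3
      exact h3.symm

end Pool.Agent.RSG
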