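import Pool.Agent.RSG.Defs
import Pool.Agent.CSG.EDef
import Pool.Agent.CSG.FunBasic

/-!
# RSG/Fn: auxiliary functions

`CSG.stp a b` is the smooth step from `0` (at `x ≤ a`) to `1` (at `x ≥ b`).

* the twist `Fm` of `C × R` minus the circle `cc = {|z| = 3, s = 0}`;
* the vertex charts `Vx δ` of `S4`, `δ = ±1` (near the point `(0, 0, δ)`);
* `Fi`: the same region in the ball coordinates;
* `XW`: `(p, ν) ↦ (x, w)`;
* `BB`: ball coordinates of the chart `EE` of a neighbourhood of the disc.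

`ε₁` is the sign of the strand `δ = 1`, `ε₂` the sign of the strand `δ = -1`.
-/

open scoped Manifold ContDiff
open Complex (I)
open Pool.Agent.CSG (stp)

namespace Pool.Agent.RSG

/-! ## the twist of the ball -/

noncomputable def win (s : ℝ) : ℂ := ex (Real.smoothTransition (s + 1 / 2) - 1 / 2)

/-- `1` for `|z| ≤ 2`, `0` for `|z| ≥ 5/2` -/
noncomputable def thi (q : ℂ × ℝ) : ℝ := 1 - stp 4 (25 / 4) (‖q.1‖ ^ 2)

/-- `1` for `|z|² ≤ 21/2` and `|s| ≤ 1/2`, `0` for `|z|² ≥ 12` or `|s| ≥ 3/4` -/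
noncomputable def tho (q : ℂ × ℝ) : ℝ :=
  (1 - stp (21 / 2) 12 (‖q.1‖ ^ 2)) * (1 - stp (1 / 4) (9 / 16) (q.2 ^ 2))

/-- smooth function whose only zeros are the points of the circle `|z| = 3`, `s = 0` -/
noncomputable def wf (q : ℂ × ℝ) : ℂ :=
  thi q * win q.2 + (1 - thi q : ℝ) *
    (tho q * (((9 - ‖q.1‖ ^ 2) / 6 : ℝ) + q.2 * I) - (1 - tho q : ℝ))

/-- the twist and its inverse -/
noncomputable def Fm (q : ℂ × ℝ) : ℂ × ℝ := ((starRingEnd ℂ) (wf q) / wf q * q.1, q.2)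
noncomputable def Fm' (q : ℂ × ℝ) : ℂ × ℝ := (wf q / (starRingEnd ℂ) (wf q) * q.1, q.2)

/-- the ball, and the ball without the circle -/
def Bal : Set (ℂ × ℝ) := {q | ‖q.1‖ < 4 ∧ |q.2| < 1}
def Circ : Set (ℂ × ℝ) := {q | ‖q.1‖ = 3 ∧ q.2 = 0}

/-- neighbourhoods of the circle -/
def NearC (ρ : ℝ) : Set (ℂ × ℝ) := {q | ((9 - ‖q.1‖ ^ 2) / 6) ^ 2 + q.2 ^ 2 < ρ ^ 2}

/-- The permutation `F` of `N` is the twist in the ball `b`, the identity outside. -/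
structure IsTwist {N : Type*} [TopologicalSpace N] [ChartedSpace E3 N] (b : ℂ × ℝ → N)
    (F : Equiv.Perm N) : Prop where
  loc : ∀ x, x ∉ b '' Circ → IsLocalDiffeomorphAt (𝓡 3) (𝓡 3) ∞ F x
  ball : ∀ q ∈ Bal, q ∉ Circ → F (b q) = b (Fm q)
  out : ∀ x, x ∉ b '' Bal → F x = x
  circ : ∀ x ∈ b '' Circ, F x = x

/-! ## the chart near a vertex of the twin -/

/-- the coordinates are `q = (x, w)` -/
noncomputable def SV (q : ℂ × ℂ) : ℝ := 2 * ‖q.1‖ ^ 2 + ‖q.2‖ ^ 2 / 2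

noncomputable def Vx (δ : ℝ) (q : ℂ × ℂ) : S4 :=
  pS4 (q.1 + q.2 / 2) (q.1 - q.2 / 2) (δ * Real.sqrt (1 - SV q))

noncomputable def tV (q : ℂ × ℂ) : ℝ :=
  (Complex.log ((q.1 + q.2 / 2) / (q.1 - q.2 / 2))).im / (2 * Real.pi)

noncomputable def uV (q : ℂ × ℂ) : ℝ := 2 * ((starRingEnd ℂ) q.1 * q.2).re

noncomputable def lV (δ : ℝ) (n : ℤ) (q : ℂ × ℂ) : ℝ :=
  (Complex.log ((Real.sqrt (1 - SV q ^ 2) : ℝ) - (δ * uV q : ℝ) * I)).im / (2 * Real.pi) +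
    n * tV q

noncomputable def vV (j : ℤ) (q : ℂ × ℂ) : ℂ :=
  (2 * ‖q.1 + q.2 / 2‖ : ℝ) * (q.1 - q.2 / 2) * ex (j * tV q)

/-- ball coordinates `(z, s, t)` of the point `Vx δ q` -/
noncomputable def Fi (δ ε : ℝ) (n j : ℤ) (q : ℂ × ℂ) : ℂ × ℝ × ℝ :=
  (δ + cj ε (vV j q) / 2, 16 * ε * lV δ n q, tV q)

/-! ## the chart of the disc, in the coordinates `q = (p, ν)` -/

noncomputable def om (δ : ℝ) (p : ℂ) : ℂ := (1 / 2) / cj δ (p + 4 * δ)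

/-- `(p, ν) ↦ (x, w)` -/
noncomputable def XW (δ ε : ℝ) (q : ℂ × ℂ) : ℂ × ℂ :=
  (cj ε (q.1 - 4 * δ) / 2, ⟨-(δ * ε) * (q.2 * om δ q.1).re, (q.2 * om δ q.1).im⟩)

noncomputable def HH (p : ℂ) : ℂ := 1 / ((starRingEnd ℂ) (p - 4) * (p + 4))

noncomputable def outB (q : ℂ × ℂ) : ℂ × ℝ × ℝ :=
  (q.1 / 4, (q.2 * HH q.1).re, (q.2 * HH q.1).im)

noncomputable def farB (q : ℂ × ℂ) : ℂ × ℝ × ℝ :=
  (q.1 / ‖q.1‖ * Real.sqrt (9 - 30 / ‖q.1‖ * Real.cos (2 * Real.pi * q.2.re)),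
    5 / ‖q.1‖ * Real.sin (2 * Real.pi * q.2.re), q.2.im)

noncomputable def mix (c : ℝ) (a b : ℂ × ℝ × ℝ) : ℂ × ℝ × ℝ := (1 - c) • a + c • b

/-- near the strand `δ` -/
noncomputable def BBi (δ ε : ℝ) (n j : ℤ) (q : ℂ × ℂ) : ℂ × ℝ × ℝ :=
  mix (stp (1 / 16) (1 / 4) (‖q.1 - 4 * δ‖ ^ 2)) (Fi δ ε n j (XW δ ε q)) (outB q)

/-- far from the strands -/
noncomputable def BBo (q : ℂ × ℂ) : ℂ × ℝ × ℝ :=
  mix (stp 64 81 (‖q.1‖ ^ 2)) (outB q) (farB q)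

open Classical in
/-- ball coordinates `(z, s, t)` of the chart `EE` -/
noncomputable def BB (ε₁ ε₂ : ℝ) (n j : ℤ) (q : ℂ × ℂ) : ℂ × ℝ × ℝ :=
  if ‖q.1 - 4‖ < 1 then BBi 1 ε₁ n j q
  else if ‖q.1 + 4‖ < 1 then BBi (-1) ε₂ n j q
  else BBo q

/-- the position of the disc in the ball: `BB (p, 0) = (gg p, 0, 0)`. -/
noncomputable def ggi (δ : ℝ) (p : ℂ) : ℂ :=
  δ + (((1 - stp (1 / 16) (1 / 4) (‖p - 4 * δ‖ ^ 2)) * Real.sqrt (‖p - 4 * δ‖ ^ 2) +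
    stp (1 / 16) (1 / 4) (‖p - 4 * δ‖ ^ 2)) / 4 : ℝ) * (p - 4 * δ)
noncomputable def ggo (p : ℂ) : ℂ :=
  ((1 - stp 64 81 (‖p‖ ^ 2)) / 4 + stp 64 81 (‖p‖ ^ 2) *
    (Real.sqrt (9 - 30 / Real.sqrt (‖p‖ ^ 2)) / Real.sqrt (‖p‖ ^ 2)) : ℝ) * p
open Classical in
noncomputable def gg (p : ℂ) : ℂ :=
  if ‖p - 4‖ < 1 then ggi 1 p else if ‖p + 4‖ < 1 then ggi (-1) p else ggo p

section
variable {N : Type*} [TopologicalSpace N] [ChartedSpace E3 N]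
variable {X : Type*} [TopologicalSpace X] [ChartedSpace E4 X] {κ : ℝ × ℂ → N} {n j : ℤ}

/-- the point of `X` with ball coordinates `(z, s, t)` -/
def PB (D : RollGluck κ n j X) (b : ℂ × ℝ → N) (a : ℂ × ℝ × ℝ) : X :=
  D.A (b (a.1, a.2.1), a.2.2)

open Classical in
/-- chart of a neighbourhood of the disc -/
noncomputable def EE (D : RollGluck κ n j X) (b : ℂ × ℝ → N) (ε₁ ε₂ : ℝ) (q : ℂ × ℂ) : X :=
  if ‖q.1 - 4‖ < 1 / 4 then D.Q (Vx 1 (XW 1 ε₁ q))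
  else if ‖q.1 + 4‖ < 1 / 4 then D.Q (Vx (-1) (XW (-1) ε₂ q))
  else PB D b (BB ε₁ ε₂ n j q)

/-- chart of a neighbourhood of the torus `circle × S¹` -/
noncomputable def Th (D : RollGluck κ n j X) (b : ℂ × ℝ → N) (a : ℝ × ℝ × ℂ) : X :=
  PB D b (ex a.2.1 * Real.sqrt (9 - 6 * a.2.2.re), -a.2.2.im, a.1)

/-- The permutation `Γ` of `X` is a diffeomorphism of the complement of the torus, and is the
inverse of the twist near the torus. -/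
structure IsGam (D : RollGluck κ n j X) (b : ℂ × ℝ → N) (ρ : ℝ) (Γ : Equiv.Perm X) : Prop where
  pos : 0 < ρ
  lt : ρ < 1 / 4
  loc : ∀ x, (∀ q ∈ Circ, ∀ t, x ≠ D.A (b q, t)) → IsLocalDiffeomorphAt (𝓡 4) (𝓡 4) ∞ Γ x
  near : ∀ q ∈ NearC ρ, q ∉ Circ → ∀ t, Γ (D.A (b (Fm q), t)) = D.A (b q, t)
  circ : ∀ q ∈ Circ, ∀ t, Γ (D.A (b q, t)) = D.A (b q, t)

end

/-! ## explicit points of `S4` -/

/-- the point of `S4` with `fh = f`, `|f| < 1`, and with `c1`, `c2` in the directions of the unit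
complex numbers `u₁`, `u₂` -/
noncomputable def pG (u₁ u₂ f : ℂ) : S4 :=
  pS4 (Real.sqrt ((Real.sqrt (1 - f.im ^ 2) + f.re) / 2) * u₁)
    (Real.sqrt ((Real.sqrt (1 - f.im ^ 2) - f.re) / 2) * u₂)
    (f.im / Real.sqrt (1 + Real.sqrt (1 - f.im ^ 2)))

/-- the point of the twin which is glued to `(κ (l, v), t)`; the variable is `(l, v, t)`. -/
noncomputable def Gc (n j : ℤ) (a : ℝ × ℂ × ℝ) : S4 :=
  pG (a.2.1 / ‖a.2.1‖ * ex ((1 - j) * a.2.2)) (a.2.1 / ‖a.2.1‖ * ex (-j * a.2.2))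
    (Real.sqrt (1 - ‖a.2.1‖ ^ 2) * ex (a.1 - n * a.2.2))

/-- structure of the unknot `std k`: the maps `A` and `Q`; `j' = j + k n` -/
noncomputable def bA (k n j : ℤ) (a : S3 × ℝ) : S4 :=
  let w₁ : ℂ := ⟨a.1.1 0, a.1.1 1⟩
  pG (w₁ / ‖w₁‖ * ex ((1 - (j + k * n)) * a.2)) (w₁ / ‖w₁‖ * ex (-(j + k * n) * a.2))
    (⟨a.1.1 2, a.1.1 3⟩ * ex (-n * a.2))
noncomputable def bQ (k : ℤ) (z : S4) : S4 :=
  pS4 (c1 z * (fh z / ‖fh z‖) ^ k) (c2 z * (fh z / ‖fh z‖) ^ k) (ht z)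

/-- the mirror image -/
def mir {N : Type*} (κ : ℝ × ℂ → N) (q : ℝ × ℂ) : N := κ (q.1, (starRingEnd ℂ) q.2)

end Pool.Agent.RSG
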