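import Pool.Agent.RSG.Sph
import Pool.Agent.RSG.LDc
import Pool.Agent.RSG.ExM
import Pool.Agent.RSG.Fn

/-!
# RSG/MirM: mirror images, diffeomorphisms of `N`   (difficulty 2)

* `mirror_data`: `A' (x, t) = A (x, -t)`, `Q' z = Q (conj4 z)`, `conj4 z = pS4 (conj c1) (conj c2) ht`
  (a smooth involution of `S4` with `fh (conj4 z) = fh z`, so a local diffeomorphism: `ld_two`;
  `c1 (conj4 z) = conj (c1 z)` etc. by `pS4_c`, `S4_sq`).  `OnKnot (mir κ) x ↔ OnKnot κ x` (`conj 0 = 0`).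
  glue for `(z, l, m, t)` and `mir κ`, `-n`: apply `D.glue` to `conj4 z`, `l`, `-m`, `-t`:
  `conj (ex x) = ex (-x)`, `fh (conj4 z) = fh z = |fh z| ex (l - (-n) t) = |fh| ex (l - n (-t))`;
  `κ (l, r ex (-m)) = mir κ (l, r ex m)`, `A (.., -t) = A' (.., t)`.
  `A'` periodic: `A (x, -(t + 1)) = A (x, -t)`.
  Local diffeomorphism: composition with `id × (t ↦ -t)` (`ld_prodMap`).
* `diffeo_data`: `A' (x, t) = A (F⁻¹ x, t)`, `Q' = Q`, for a diffeomorphism `F` of `N`;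
  `OnKnot (F ∘ κ) x ↔ OnKnot κ (F⁻¹ x)`.
* `mir_mir`: `conj (conj v) = v`.
-/

open scoped Manifold ContDiff Topology
open Set Filter
open Complex (I)

namespace Pool.Agent.RSG

section
variable {N : Type*} [TopologicalSpace N] [ChartedSpace E3 N]
  {X : Type*} [TopologicalSpace X] [ChartedSpace E4 X] {κ : ℝ × ℂ → N} {n j : ℤ}

omit [TopologicalSpace N] [ChartedSpace E3 N] in
theorem mir_mir (κ : ℝ × ℂ → N) : mir (mir κ) = κ := by
  funext q
  simp [mir]

omit [TopologicalSpace N] [ChartedSpace E3 N] in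
theorem MirM_onKnot (κ : ℝ × ℂ → N) (x : N) : OnKnot (mir κ) x ↔ OnKnot κ x := by
  unfold OnKnot mir
  simp

noncomputable def MirM_conj4 (z : S4) : S4 :=
  pS4 ((starRingEnd ℂ) (c1 z)) ((starRingEnd ℂ) (c2 z)) (ht z)

theorem MirM_coord (z : S4) : c1 (MirM_conj4 z) = (starRingEnd ℂ) (c1 z) ∧
    c2 (MirM_conj4 z) = (starRingEnd ℂ) (c2 z) ∧ ht (MirM_conj4 z) = ht z := by
  refine pS4_c ?_
  rw [RCLike.norm_conj, RCLike.norm_conj]
  exact S4_sq z

theorem MirM_fh (z : S4) : fh (MirM_conj4 z) = fh z := by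
  obtain ⟨h1, h2, h3⟩ := MirM_coord z
  unfold fh
  rw [h1, h2, h3, RCLike.norm_conj, RCLike.norm_conj]

theorem MirM_inv (z : S4) : MirM_conj4 (MirM_conj4 z) = z := by
  obtain ⟨h1, h2, h3⟩ := MirM_coord z
  obtain ⟨h4, h5, h6⟩ := MirM_coord (MirM_conj4 z)
  refine S4_ext ?_ ?_ ?_
  · rw [h4, h1, Complex.conj_conj]
  · rw [h5, h2, Complex.conj_conj]
  · rw [h6, h3]

theorem MirM_smooth (z : S4) : ContMDiffAt (𝓡 4) (𝓡 4) ∞ MirM_conj4 z := by
  have hc : ContMDiff 𝓘(ℝ, ℂ) 𝓘(ℝ, ℂ) ∞ (fun w : ℂ => (starRingEnd ℂ) w) :=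
    contMDiff_iff_contDiff.2 Complex.conjCLE.contDiff
  refine pS4_smooth (hc.contMDiffAt.comp z (c1_smooth z)) (hc.contMDiffAt.comp z (c2_smooth z))
    (ht_smooth z) ?_
  rw [RCLike.norm_conj, RCLike.norm_conj, S4_sq]
  exact one_pos

theorem MirM_ld (z : S4) : IsLocalDiffeomorphAt (𝓡 4) (𝓡 4) ∞ MirM_conj4 z :=
  ld_two (g := MirM_conj4) (Eventually.of_forall MirM_smooth) (Eventually.of_forall MirM_smooth)
    (Eventually.of_forall MirM_inv) (Eventually.of_forall MirM_inv)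

theorem MirM_neg (t : ℝ) : IsLocalDiffeomorphAt 𝓘(ℝ, ℝ) 𝓘(ℝ, ℝ) ∞ (fun t : ℝ => -t) t :=
  ld_two (g := fun t : ℝ => -t)
    (Eventually.of_forall fun _ => contMDiffAt_iff_contDiffAt.2 contDiff_neg.contDiffAt)
    (Eventually.of_forall fun _ => contMDiffAt_iff_contDiffAt.2 contDiff_neg.contDiffAt)
    (Eventually.of_forall neg_neg) (Eventually.of_forall neg_neg)

theorem MirM_conj_ex {c : ℂ} {r x : ℝ} (h : c = r * ex x) :
    (starRingEnd ℂ) c = r * ex (-x) := by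
  rw [h, map_mul, Complex.conj_ofReal, ex_neg]

theorem mirror_data (D : RollGluck κ n j X) : IsRollGluck (mir κ) (-n) j X := by
  refine ⟨{ A := fun p => D.A (p.1, -p.2)
            Q := fun z => D.Q (MirM_conj4 z)
            A_per := ?_
            A_loc := ?_
            A_inj := ?_
            Q_loc := ?_
            Q_inj := ?_
            glue := ?_
            disj := ?_
            cover := ?_ }⟩
  · intro x t
    have h := D.A_per x (-(t + 1))
    show D.A (x, -(t + 1)) = D.A (x, -t)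
    rw [← h]
    congr 2
    ring
  · intro x t hx
    rw [MirM_onKnot] at hx
    have h1 : IsLocalDiffeomorphAt ((𝓡 3).prod 𝓘(ℝ, ℝ)) ((𝓡 3).prod 𝓘(ℝ, ℝ)) ∞
        (Prod.map (id : N → N) (fun t : ℝ => -t)) (x, t) :=
      ld_prodMap (Pool.Agent.CSG.ld_id x) (MirM_neg t)
    have h2 := D.A_loc x (-t) hx
    exact IsLocalDiffeomorphAt.comp (hf := h1) (g := D.A) (hg := h2)
  · intro x x' t t' hx hx' h
    rw [MirM_onKnot] at hx hx'
    obtain ⟨h1, m, hm⟩ := D.A_inj x x' (-t) (-t') hx hx' h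
    refine ⟨h1, -m, ?_⟩
    push_cast
    linarith
  · intro z hz
    have h2 := D.Q_loc (MirM_conj4 z) (by rw [MirM_fh]; exact hz)
    exact IsLocalDiffeomorphAt.comp (hf := MirM_ld z) (g := D.Q) (hg := h2)
  · intro z z' hz hz' h
    have h1 := D.Q_inj _ _ (by rw [MirM_fh]; exact hz) (by rw [MirM_fh]; exact hz') h
    rw [← MirM_inv z, h1, MirM_inv]
  · intro z l m t hz h1 h2 h3 h4 h5
    obtain ⟨e1, e2, e3⟩ := MirM_coord z
    have n1 : ‖c1 (MirM_conj4 z)‖ = ‖c1 z‖ := by rw [e1, RCLike.norm_conj]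
    have n2 : ‖c2 (MirM_conj4 z)‖ = ‖c2 z‖ := by rw [e2, RCLike.norm_conj]
    have := D.glue (MirM_conj4 z) l (-m) (-t) (by rw [MirM_fh]; exact hz)
      (by rw [e1]; exact (map_ne_zero _).2 h1) (by rw [e2]; exact (map_ne_zero _).2 h2)
      (by
        rw [n1, e1, MirM_conj_ex h3]
        congr 2
        ring)
      (by
        rw [n2, e2, MirM_conj_ex h4]
        congr 2
        ring)
      (by
        rw [MirM_fh, h5, Complex.norm_mul, ex_norm, mul_one, Complex.norm_real, norm_norm]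
        congr 2
        push_cast
        ring)
    show D.Q (MirM_conj4 z) = D.A (mir κ (l, ((2 * ‖c1 z‖ * ‖c2 z‖ : ℝ) : ℂ) * ex m), -t)
    rw [this, n1, n2]
    unfold mir
    simp only [map_mul, Complex.conj_ofReal, ex_neg]
  · intro z x t hz hc hx
    rw [MirM_onKnot] at hx
    obtain ⟨e1, e2, e3⟩ := MirM_coord z
    refine D.disj (MirM_conj4 z) x (-t) (by rw [MirM_fh]; exact hz) ?_ hx
    rw [e1, e2]
    exact hc.imp (fun h => by rw [h, map_zero]) (fun h => by rw [h, map_zero])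
  · intro q
    rcases D.cover q with ⟨x, t, hx, rfl⟩ | ⟨z, hz, rfl⟩
    · left
      refine ⟨x, -t, ?_, ?_⟩
      · rw [MirM_onKnot]; exact hx
      · show D.A (x, t) = D.A (x, - -t)
        rw [neg_neg]
    · right
      refine ⟨MirM_conj4 z, ?_, ?_⟩
      · rw [MirM_fh]; exact hz
      · rw [MirM_inv]

theorem MirM_onKnot' (κ : ℝ × ℂ → N) (F : N ≃ₘ⟮𝓡 3, 𝓡 3⟯ N) (x : N) :
    OnKnot (F ∘ κ) x ↔ OnKnot κ (F.symm x) := by
  unfold OnKnot
  constructor
  · rintro ⟨l, hl⟩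
    refine ⟨l, ?_⟩
    rw [hl]
    exact F.symm_apply_apply _
  · rintro ⟨l, hl⟩
    refine ⟨l, ?_⟩
    show x = F (κ (l, 0))
    rw [← hl]
    exact (F.apply_symm_apply x).symm

theorem diffeo_data (D : RollGluck κ n j X) (F : N ≃ₘ⟮𝓡 3, 𝓡 3⟯ N) :
    IsRollGluck (F ∘ κ) n j X := by
  refine ⟨{ A := fun p => D.A (F.symm p.1, p.2)
            Q := D.Q
            A_per := fun x t => D.A_per _ t
            A_loc := ?_
            A_inj := ?_
            Q_loc := D.Q_loc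
            Q_inj := D.Q_inj
            glue := ?_
            disj := ?_
            cover := ?_ }⟩
  · intro x t hx
    rw [MirM_onKnot'] at hx
    have h1 : IsLocalDiffeomorphAt ((𝓡 3).prod 𝓘(ℝ, ℝ)) ((𝓡 3).prod 𝓘(ℝ, ℝ)) ∞
        (Prod.map (F.symm : N → N) (id : ℝ → ℝ)) (x, t) :=
      ld_prodMap (F.symm.isLocalDiffeomorph x) (Pool.Agent.CSG.ld_id t)
    exact IsLocalDiffeomorphAt.comp (hf := h1) (g := D.A) (hg := D.A_loc (F.symm x) t hx)
  · intro x x' t t' hx hx' h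
    rw [MirM_onKnot'] at hx hx'
    obtain ⟨h1, h2⟩ := D.A_inj _ _ t t' hx hx' h
    exact ⟨F.symm.injective h1, h2⟩
  · intro z l m t hz h1 h2 h3 h4 h5
    rw [D.glue z l m t hz h1 h2 h3 h4 h5]
    show _ = D.A (F.symm (F _), t)
    rw [F.symm_apply_apply]
  · intro z x t hz hc hx
    rw [MirM_onKnot'] at hx
    exact D.disj z (F.symm x) t hz hc hx
  · intro q
    rcases D.cover q with ⟨x, t, hx, rfl⟩ | ⟨z, hz, rfl⟩
    · left
      refine ⟨F x, t, ?_, ?_⟩
      · rw [MirM_onKnot', F.symm_apply_apply]; exact hx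
      · show D.A (x, t) = D.A (F.symm (F x), t)
        rw [F.symm_apply_apply]
    · right
      exact ⟨z, hz, rfl⟩

end

end Pool.Agent.RSG
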