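import Pool.Agent.RSG.Sph
import Pool.Agent.RSG.LDc
import Pool.Agent.RSG.ExM

/-!
# RSG/GlkM: the Gluck twist of the roll spin   (difficulty 3)

`D : RollSpin κ n j Y` (so `glue`: `c1 = |c1| ex(0 m + 1 t)`, `c2 = |c2| ex(1 m + (-j) t)`), `ι = D.tube`,
`G : GluckTwist ι X`.  For `c2 z ≠ 0` let `tw z = pS4 (c1 z · conj (c2 z)/|c2 z|) (c2 z) (ht z)`; it has
the same `|c1|, c2, ht`, so the same `fh`; `tw` is injective on `{c2 ≠ 0}` with smooth inverse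
`tw' z = pS4 (c1 z · c2 z/|c2 z|) (c2 z) (ht z)`.  Put
`A' = G.G ∘ D.A`,
`Q' z = G.G (D.Q (tw z))` if `c2 z ≠ 0`, and `Q' z = G.ι' (y z, v z)` if `c2 z = 0`, where
`y z = pS2 (c1 z) (ht z)`, `v z = 2 conj (c2 z)`.
* The core: `ι (y, 0) = D.Q (pS4 (hz y) 0 (ho y))`.  So `q = D.Q z` with `fh z ≠ 0`, `c2 z ≠ 0`, is not
  in the core (`D.Q_inj`; the core points have `fh ≠ 0` because `2|c1||c2| = 0 < 1`), and `D.A (x, t)`,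
  `x` not on the knot, is not in the core (`D.disj`).
* (**) For `|c2 z| < 1/2`: `Q' z = G.ι' (y z, v z)`.  If `c2 z ≠ 0`: `v = v z ≠ 0`, `|v| < 1`, `G.glue`:
  `G.ι' (y, v) = G.G (ι (rotS (v/|v|) y, v))`, `v/|v| = conj (c2)/|c2|`,
  `√(1 - |v|²/4) = √(1 - |c2|²) = √(|c1|² + ht²)`, `hz y = c1/√(..)`, `ho y = ht/√(..)`, so
  `ι (rotS (v/|v|) y, v) = D.Q (pS4 (c1 · v/|v|) (c2) (ht)) = D.Q (tw z)`.
* A_per, A_loc (`D.A (x, t)` not in the core, `G.G_loc`), A_inj (`G.G_inj`, `D.A_inj`): clear.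
* Q_loc: at `z` with `c2 z ≠ 0`: composition of `tw` (`ld_two`), `D.Q`, `G.G` (near `z`, `c2 ≠ 0`).  At
  `c2 z = 0`: near `z` (**) holds; `z ↦ (y z, v z)` is a local diffeomorphism `S4 → S2 × C` at `z`
  (smooth near `z`, smooth inverse `(y, v) ↦ pS4 (√(1-|v|²/4) hz y) (conj v / 2) (√(1-|v|²/4) ho y)`:
  `ld_two`), and `G.ι'_loc`.
* Q_inj, `Q' z = Q' z'`: both `c2 ≠ 0`: `G.G_inj`, `D.Q_inj`, `tw` injective.  Both `c2 = 0`: `G.ι'_inj`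
  gives `y z = y z'`, and `z = pS4 (hz y) 0 (ho y)`.  Mixed: `G.disj`.
* glue: `c1 z = |c1| ex(m + (1 - j) t)`, `c2 z = |c2| ex(m - j t)`, `fh z = |fh| ex(l - n t)`, `c2 ≠ 0`:
  `c1 (tw z) = |c1| ex(m + (1-j) t) ex(-(m - j t)) = |c1| ex t`; `D.glue` for `tw z`:
  `D.Q (tw z) = D.A (κ (l, 2|c1||c2| ex m), t)`.
* disj: `c2 z = 0`: `G.disj`.  `c1 z = 0`, `c2 z ≠ 0`: `c1 (tw z) = 0`: `D.disj` and `G.G_inj`.
* cover: `p` in `X`: `G.cover`.  If `p = G.G q`, `q` not in the core: `D.cover q`: `q = D.A (x, t)`, or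
  `q = D.Q z'`, and then `c2 z' ≠ 0` (else `q` is in the core: `z' = pS4 (hz y) 0 (ho y)`, `y = y z'`),
  `p = Q' (tw' z')`.  If `p = G.ι' (y, 0)`: `p = Q' (pS4 (hz y) 0 (ho y))`.
-/

open scoped Manifold ContDiff Topology
open Set Filter
open Complex (I)

namespace Pool.Agent.RSG

noncomputable def GlkM_tw (z : S4) : S4 :=
  pS4 (c1 z * ((starRingEnd ℂ) (c2 z) / (‖c2 z‖ : ℂ))) (c2 z) (ht z)

noncomputable def GlkM_tw' (z : S4) : S4 :=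
  pS4 (c1 z * (c2 z / (‖c2 z‖ : ℂ))) (c2 z) (ht z)

noncomputable def GlkM_P (z : S4) : S2 × ℂ := (pS2 (c1 z) (ht z), 2 * (starRingEnd ℂ) (c2 z))

noncomputable def GlkM_R (q : S2 × ℂ) : S4 :=
  pS4 (Real.sqrt (1 - ‖q.2‖ ^ 2 / 4) * hz q.1) ((starRingEnd ℂ) q.2 / 2)
    (Real.sqrt (1 - ‖q.2‖ ^ 2 / 4) * ho q.1)

theorem GlkM_unit {w : ℂ} (h : w ≠ 0) : ‖w / (‖w‖ : ℂ)‖ = 1 := by
  have : ‖w‖ ≠ 0 := norm_ne_zero_iff.2 h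
  rw [norm_div, Complex.norm_real, norm_norm]
  field_simp

theorem GlkM_unit' {w : ℂ} (h : w ≠ 0) : ‖(starRingEnd ℂ) w / (‖w‖ : ℂ)‖ = 1 := by
  have : ‖w‖ ≠ 0 := norm_ne_zero_iff.2 h
  rw [norm_div, Complex.norm_real, norm_norm, RCLike.norm_conj]
  field_simp

theorem GlkM_tw_c {z : S4} (h : c2 z ≠ 0) :
    c1 (GlkM_tw z) = c1 z * ((starRingEnd ℂ) (c2 z) / (‖c2 z‖ : ℂ)) ∧ c2 (GlkM_tw z) = c2 z ∧
      ht (GlkM_tw z) = ht z := by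
  refine pS4_c ?_
  rw [norm_mul, GlkM_unit' h, mul_one]
  exact S4_sq z

theorem GlkM_tw'_c {z : S4} (h : c2 z ≠ 0) :
    c1 (GlkM_tw' z) = c1 z * (c2 z / (‖c2 z‖ : ℂ)) ∧ c2 (GlkM_tw' z) = c2 z ∧
      ht (GlkM_tw' z) = ht z := by
  refine pS4_c ?_
  rw [norm_mul, GlkM_unit h, mul_one]
  exact S4_sq z

theorem GlkM_norm_tw {z : S4} (h : c2 z ≠ 0) : ‖c1 (GlkM_tw z)‖ = ‖c1 z‖ := by
  rw [(GlkM_tw_c h).1, norm_mul, GlkM_unit' h, mul_one]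

theorem GlkM_norm_tw' {z : S4} (h : c2 z ≠ 0) : ‖c1 (GlkM_tw' z)‖ = ‖c1 z‖ := by
  rw [(GlkM_tw'_c h).1, norm_mul, GlkM_unit h, mul_one]

theorem GlkM_fh_tw {z : S4} (h : c2 z ≠ 0) : fh (GlkM_tw z) = fh z := by
  unfold fh
  rw [GlkM_norm_tw h, (GlkM_tw_c h).2.1, (GlkM_tw_c h).2.2]

theorem GlkM_fh_tw' {z : S4} (h : c2 z ≠ 0) : fh (GlkM_tw' z) = fh z := by
  unfold fh
  rw [GlkM_norm_tw' h, (GlkM_tw'_c h).2.1, (GlkM_tw'_c h).2.2]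

theorem GlkM_cc {w : ℂ} (h : w ≠ 0) :
    ((starRingEnd ℂ) w / (‖w‖ : ℂ)) * (w / (‖w‖ : ℂ)) = 1 := by
  have h1 : (‖w‖ : ℂ) ≠ 0 := by exact_mod_cast norm_ne_zero_iff.2 h
  have h2 : (starRingEnd ℂ) w * w = (‖w‖ : ℂ) * ‖w‖ := by
    rw [mul_comm, Complex.mul_conj, Complex.normSq_eq_norm_sq]
    push_cast
    ring
  rw [div_mul_div_comm, h2]
  exact div_self (mul_ne_zero h1 h1)

theorem GlkM_tw'_tw {z : S4} (h : c2 z ≠ 0) : GlkM_tw' (GlkM_tw z) = z := by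
  have h' : c2 (GlkM_tw z) ≠ 0 := by rw [(GlkM_tw_c h).2.1]; exact h
  refine S4_ext ?_ ?_ ?_
  · rw [(GlkM_tw'_c h').1, (GlkM_tw_c h).1, (GlkM_tw_c h).2.1, mul_assoc, GlkM_cc h, mul_one]
  · rw [(GlkM_tw'_c h').2.1, (GlkM_tw_c h).2.1]
  · rw [(GlkM_tw'_c h').2.2, (GlkM_tw_c h).2.2]

theorem GlkM_tw_tw' {z : S4} (h : c2 z ≠ 0) : GlkM_tw (GlkM_tw' z) = z := by
  have h' : c2 (GlkM_tw' z) ≠ 0 := by rw [(GlkM_tw'_c h).2.1]; exact h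
  refine S4_ext ?_ ?_ ?_
  · rw [(GlkM_tw_c h').1, (GlkM_tw'_c h).1, (GlkM_tw'_c h).2.1, mul_assoc, mul_comm (c2 z / _),
      GlkM_cc h, mul_one]
  · rw [(GlkM_tw_c h').2.1, (GlkM_tw'_c h).2.1]
  · rw [(GlkM_tw_c h').2.2, (GlkM_tw'_c h).2.2]

/-- coordinates of `pS2` -/
theorem GlkM_pS2 {a : ℂ} {h ρ : ℝ} (hρ : 0 < ρ) (H : ‖a‖ ^ 2 + h ^ 2 = ρ ^ 2) :
    hz (pS2 a h) = a / ρ ∧ ho (pS2 a h) = h / ρ := by
  have hn : ‖(WithLp.toLp 2 ![a.re, a.im, h] : E3)‖ = ρ := by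
    rw [EuclideanSpace.norm_eq, Fin.sum_univ_three]
    have : (‖(WithLp.toLp 2 ![a.re, a.im, h] : E3) 0‖ ^ 2 + ‖(WithLp.toLp 2 ![a.re, a.im, h] : E3) 1‖ ^ 2
        + ‖(WithLp.toLp 2 ![a.re, a.im, h] : E3) 2‖ ^ 2) = ρ ^ 2 := by
      rw [← H, Complex.sq_norm, Complex.normSq_apply]
      simp
      ring
    rw [this, Real.sqrt_sq hρ.le]
  have hv : (WithLp.toLp 2 ![a.re, a.im, h] : E3) ≠ 0 := by
    intro h0
    rw [h0, norm_zero] at hn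
    exact hρ.ne hn
  have hc : ((pS2 a h : S2) : E3) = ρ⁻¹ • (WithLp.toLp 2 ![a.re, a.im, h] : E3) := by
    unfold pS2
    rw [toSph_coe _ hv, hn]
  constructor
  · unfold hz
    rw [hc]
    apply Complex.ext
    · rw [Complex.div_ofReal_re]
      simp
      ring
    · rw [Complex.div_ofReal_im]
      simp
      ring
  · unfold ho
    rw [hc]
    simp
    ring

theorem GlkM_R_c {q : S2 × ℂ} (h : ‖q.2‖ < 2) :
    c1 (GlkM_R q) = Real.sqrt (1 - ‖q.2‖ ^ 2 / 4) * hz q.1 ∧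
      c2 (GlkM_R q) = (starRingEnd ℂ) q.2 / 2 ∧
      ht (GlkM_R q) = Real.sqrt (1 - ‖q.2‖ ^ 2 / 4) * ho q.1 := by
  refine pS4_c ?_
  have h0 : 0 ≤ 1 - ‖q.2‖ ^ 2 / 4 := by nlinarith [norm_nonneg q.2]
  have h1 := Real.sq_sqrt h0
  have h2 := S2_sq q.1
  rw [norm_mul, Complex.norm_real, Real.norm_eq_abs, abs_of_nonneg (Real.sqrt_nonneg _), norm_div,
    RCLike.norm_conj, mul_pow, mul_pow, h1]
  have h3 : ‖(2 : ℂ)‖ = 2 := by simp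
  rw [h3]
  have h4 : (1 - ‖q.2‖ ^ 2 / 4) * ‖hz q.1‖ ^ 2 + (1 - ‖q.2‖ ^ 2 / 4) * ho q.1 ^ 2
      = 1 - ‖q.2‖ ^ 2 / 4 := by
    rw [← mul_add, h2, mul_one]
  linarith [h4, show (‖q.2‖ / 2) ^ 2 = ‖q.2‖ ^ 2 / 4 by ring]

theorem GlkM_P_R {q : S2 × ℂ} (h : ‖q.2‖ < 2) : GlkM_P (GlkM_R q) = q := by
  obtain ⟨e1, e2, e3⟩ := GlkM_R_c h
  have h0 : 0 < 1 - ‖q.2‖ ^ 2 / 4 := by nlinarith [norm_nonneg q.2]
  have hρ : 0 < Real.sqrt (1 - ‖q.2‖ ^ 2 / 4) := Real.sqrt_pos.2 h0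
  have H : ‖(Real.sqrt (1 - ‖q.2‖ ^ 2 / 4) : ℂ) * hz q.1‖ ^ 2 +
      (Real.sqrt (1 - ‖q.2‖ ^ 2 / 4) * ho q.1) ^ 2 = Real.sqrt (1 - ‖q.2‖ ^ 2 / 4) ^ 2 := by
    rw [norm_mul, Complex.norm_real, Real.norm_eq_abs, abs_of_pos hρ, mul_pow, mul_pow, ← mul_add,
      S2_sq, mul_one]
  obtain ⟨f1, f2⟩ := GlkM_pS2 hρ H
  unfold GlkM_P
  rw [e1, e2, e3]
  refine Prod.ext ?_ ?_
  · refine S2_ext ?_ ?_
    · show hz (pS2 _ _) = hz q.1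
      rw [f1]
      have : (Real.sqrt (1 - ‖q.2‖ ^ 2 / 4) : ℂ) ≠ 0 := by exact_mod_cast hρ.ne'
      exact mul_div_cancel_left₀ _ this
    · show ho (pS2 _ _) = ho q.1
      rw [f2]
      exact mul_div_cancel_left₀ _ hρ.ne'
  · show 2 * (starRingEnd ℂ) ((starRingEnd ℂ) q.2 / 2) = q.2
    rw [map_div₀, Complex.conj_conj, map_ofNat]
    ring

theorem GlkM_y {z : S4} (h : ‖c2 z‖ < 1) :
    (Real.sqrt (1 - ‖(GlkM_P z).2‖ ^ 2 / 4) : ℂ) * hz (GlkM_P z).1 = c1 z ∧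
      Real.sqrt (1 - ‖(GlkM_P z).2‖ ^ 2 / 4) * ho (GlkM_P z).1 = ht z := by
  have e : ‖(GlkM_P z).2‖ ^ 2 / 4 = ‖c2 z‖ ^ 2 := by
    show ‖2 * (starRingEnd ℂ) (c2 z)‖ ^ 2 / 4 = ‖c2 z‖ ^ 2
    rw [norm_mul, RCLike.norm_conj]
    have : ‖(2 : ℂ)‖ = 2 := by simp
    rw [this]
    ring
  rw [e]
  have h0 : 0 < 1 - ‖c2 z‖ ^ 2 := by nlinarith [norm_nonneg (c2 z)]
  have hρ : 0 < Real.sqrt (1 - ‖c2 z‖ ^ 2) := Real.sqrt_pos.2 h0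
  have H : ‖c1 z‖ ^ 2 + ht z ^ 2 = Real.sqrt (1 - ‖c2 z‖ ^ 2) ^ 2 := by
    rw [Real.sq_sqrt h0.le]
    linarith [S4_sq z]
  obtain ⟨f1, f2⟩ := GlkM_pS2 hρ H
  have f1' : hz (GlkM_P z).1 = c1 z / (Real.sqrt (1 - ‖c2 z‖ ^ 2) : ℂ) := f1
  have f2' : ho (GlkM_P z).1 = ht z / Real.sqrt (1 - ‖c2 z‖ ^ 2) := f2
  have hne : (Real.sqrt (1 - ‖c2 z‖ ^ 2) : ℂ) ≠ 0 := by exact_mod_cast hρ.ne'
  rw [f1', f2']
  constructor
  · field_simp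
  · field_simp

theorem GlkM_P2 (z : S4) : (starRingEnd ℂ) (GlkM_P z).2 / 2 = c2 z := by
  show (starRingEnd ℂ) (2 * (starRingEnd ℂ) (c2 z)) / 2 = c2 z
  rw [map_mul, Complex.conj_conj, map_ofNat]
  ring

theorem GlkM_R_P {z : S4} (h : ‖c2 z‖ < 1) : GlkM_R (GlkM_P z) = z := by
  unfold GlkM_R
  rw [(GlkM_y h).1, (GlkM_y h).2, GlkM_P2]
  exact pS4_self z

theorem GlkM_rot {u : ℂ} (hu : ‖u‖ = 1) (y : S2) : hz (rotS u y) = u * hz y ∧ ho (rotS u y) = ho y := by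
  refine pS2_c ?_
  rw [norm_mul, hu, one_mul]
  exact S2_sq y

theorem GlkM_c2_lt (z : S4) (h : c1 z ≠ 0 ∨ ht z ≠ 0) : ‖c2 z‖ < 1 := by
  have h1 := S4_sq z
  have h2 : 0 < ‖c1 z‖ ^ 2 + ht z ^ 2 := by
    rcases h with h | h
    · have := norm_pos_iff.2 h
      positivity
    · positivity
  nlinarith [norm_nonneg (c2 z)]

section smooth

theorem GlkM_conj_smooth : ContDiff ℝ ∞ (fun w : ℂ => (starRingEnd ℂ) w) := by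
  have : (fun w : ℂ => (starRingEnd ℂ) w) = fun w => (Complex.conjCLE : ℂ →L[ℝ] ℂ) w := by
    funext w
    simp
  rw [this]
  exact ContinuousLinearMap.contDiff _

theorem GlkM_normc_smooth {w : ℂ} (h : w ≠ 0) : ContDiffAt ℝ ∞ (fun w : ℂ => (‖w‖ : ℂ)) w :=
  Complex.ofRealCLM.contDiff.contDiffAt.comp w (contDiffAt_norm ℝ h)

theorem GlkM_dir_smooth {w : ℂ} (h : w ≠ 0) : ContDiffAt ℝ ∞ (fun w : ℂ => w / (‖w‖ : ℂ)) w := by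
  have h0 : (‖w‖ : ℂ) ≠ 0 := by exact_mod_cast norm_ne_zero_iff.2 h
  have h1 := (GlkM_normc_smooth h).inv h0
  have h2 : ContDiffAt ℝ ∞ (fun w : ℂ => w) w := contDiffAt_id
  simp only [div_eq_mul_inv]
  exact h2.mul h1

theorem GlkM_dir'_smooth {w : ℂ} (h : w ≠ 0) :
    ContDiffAt ℝ ∞ (fun w : ℂ => (starRingEnd ℂ) w / (‖w‖ : ℂ)) w := by
  have h0 : (‖w‖ : ℂ) ≠ 0 := by exact_mod_cast norm_ne_zero_iff.2 h
  have h1 := (GlkM_normc_smooth h).inv h0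
  have h2 : ContDiffAt ℝ ∞ (fun w : ℂ => (starRingEnd ℂ) w) w := GlkM_conj_smooth.contDiffAt
  simp only [div_eq_mul_inv]
  exact h2.mul h1

theorem GlkM_mul {M : Type*} [TopologicalSpace M] {H : Type*} [TopologicalSpace H]
    {V : Type*} [NormedAddCommGroup V] [NormedSpace ℝ V] {J : ModelWithCorners ℝ V H}
    [ChartedSpace H M] {f g : M → ℂ} {x : M}
    (hf : ContMDiffAt J 𝓘(ℝ, ℂ) ∞ f x) (hg : ContMDiffAt J 𝓘(ℝ, ℂ) ∞ g x) :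
    ContMDiffAt J 𝓘(ℝ, ℂ) ∞ (fun y => f y * g y) x := by
  have h2 : ContDiff ℝ ∞ (fun p : ℂ × ℂ => p.1 * p.2) := contDiff_fst.mul contDiff_snd
  exact h2.contDiffAt.contMDiffAt.comp x (hf.prodMk_space hg)

theorem GlkM_tw_smooth {z : S4} (h : c2 z ≠ 0) : ContMDiffAt (𝓡 4) (𝓡 4) ∞ GlkM_tw z := by
  have h1 : ContMDiffAt (𝓡 4) 𝓘(ℝ, ℂ) ∞
      (fun z : S4 => (starRingEnd ℂ) (c2 z) / (‖c2 z‖ : ℂ)) z :=
    ContMDiffAt.comp z (g := fun w : ℂ => (starRingEnd ℂ) w / (‖w‖ : ℂ))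
      (GlkM_dir'_smooth h).contMDiffAt (c2_smooth z)
  refine pS4_smooth (GlkM_mul (c1_smooth z) h1) (c2_smooth z) (ht_smooth z) ?_
  have := norm_pos_iff.2 h
  positivity

theorem GlkM_tw'_smooth {z : S4} (h : c2 z ≠ 0) : ContMDiffAt (𝓡 4) (𝓡 4) ∞ GlkM_tw' z := by
  have h1 : ContMDiffAt (𝓡 4) 𝓘(ℝ, ℂ) ∞
      (fun z : S4 => (c2 z) / (‖c2 z‖ : ℂ)) z :=
    ContMDiffAt.comp z (g := fun w : ℂ => w / (‖w‖ : ℂ))
      (GlkM_dir_smooth h).contMDiffAt (c2_smooth z)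
  refine pS4_smooth (GlkM_mul (c1_smooth z) h1) (c2_smooth z) (ht_smooth z) ?_
  have := norm_pos_iff.2 h
  positivity

theorem GlkM_c2_ev {z : S4} (h : c2 z ≠ 0) : ∀ᶠ y in 𝓝 z, c2 y ≠ 0 :=
  c2_smooth.continuous.continuousAt.eventually_ne h

theorem GlkM_tw_ld {z : S4} (h : c2 z ≠ 0) : IsLocalDiffeomorphAt (𝓡 4) (𝓡 4) ∞ GlkM_tw z := by
  have h' : c2 (GlkM_tw z) ≠ 0 := by rw [(GlkM_tw_c h).2.1]; exact h
  refine ld_two (g := GlkM_tw') ?_ ?_ ?_ ?_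
  · filter_upwards [GlkM_c2_ev h] with y hy using GlkM_tw_smooth hy
  · filter_upwards [GlkM_c2_ev h'] with y hy using GlkM_tw'_smooth hy
  · filter_upwards [GlkM_c2_ev h] with y hy using GlkM_tw'_tw hy
  · filter_upwards [GlkM_c2_ev h'] with y hy using GlkM_tw_tw' hy

theorem GlkM_P_smooth {z : S4} (h : ‖c2 z‖ < 1) :
    ContMDiffAt (𝓡 4) ((𝓡 2).prod 𝓘(ℝ, ℂ)) ∞ GlkM_P z := by
  have h1 : ContMDiffAt (𝓡 4) (𝓡 2) ∞ (fun z => pS2 (c1 z) (ht z)) z := by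
    refine pS2_smooth (c1_smooth z) (ht_smooth z) ?_
    have := S4_sq z
    nlinarith [norm_nonneg (c2 z)]
  have h2 : ContMDiffAt (𝓡 4) 𝓘(ℝ, ℂ) ∞ (fun z : S4 => 2 * (starRingEnd ℂ) (c2 z)) z :=
    ContMDiffAt.comp z (g := fun w : ℂ => 2 * (starRingEnd ℂ) w)
      (contDiff_const.mul GlkM_conj_smooth).contDiffAt.contMDiffAt (c2_smooth z)
  exact h1.prodMk h2

theorem GlkM_sqrt_smooth {w : ℂ} (h : ‖w‖ < 2) :
    ContDiffAt ℝ ∞ (fun w : ℂ => Real.sqrt (1 - ‖w‖ ^ 2 / 4)) w := by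
  have h0 : 1 - ‖w‖ ^ 2 / 4 ≠ 0 := by nlinarith [norm_nonneg w]
  refine ContDiffAt.sqrt ?_ h0
  exact (contDiff_const.sub ((contDiff_norm_sq ℝ).div_const 4)).contDiffAt

theorem GlkM_R_smooth {q : S2 × ℂ} (h : ‖q.2‖ < 2) :
    ContMDiffAt ((𝓡 2).prod 𝓘(ℝ, ℂ)) (𝓡 4) ∞ GlkM_R q := by
  have s2 : ContMDiffAt ((𝓡 2).prod 𝓘(ℝ, ℂ)) 𝓘(ℝ, ℂ) ∞ (fun q : S2 × ℂ => q.2) q :=
    contMDiffAt_snd
  have s1 : ContMDiffAt ((𝓡 2).prod 𝓘(ℝ, ℂ)) (𝓡 2) ∞ (fun q : S2 × ℂ => q.1) q :=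
    contMDiffAt_fst
  have r1 : ContMDiffAt ((𝓡 2).prod 𝓘(ℝ, ℂ)) 𝓘(ℝ, ℝ) ∞
      (fun q : S2 × ℂ => Real.sqrt (1 - ‖q.2‖ ^ 2 / 4)) q :=
    ContMDiffAt.comp q (g := fun w : ℂ => Real.sqrt (1 - ‖w‖ ^ 2 / 4))
      (GlkM_sqrt_smooth h).contMDiffAt s2
  have r2 : ContMDiffAt ((𝓡 2).prod 𝓘(ℝ, ℂ)) 𝓘(ℝ, ℂ) ∞
      (fun q : S2 × ℂ => ((Real.sqrt (1 - ‖q.2‖ ^ 2 / 4) : ℝ) : ℂ)) q :=
    ContMDiffAt.comp q (g := fun x : ℝ => (x : ℂ))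
      Complex.ofRealCLM.contDiff.contDiffAt.contMDiffAt r1
  have h1 : ContMDiffAt ((𝓡 2).prod 𝓘(ℝ, ℂ)) 𝓘(ℝ, ℂ) ∞ (fun q : S2 × ℂ => hz q.1) q :=
    (hz_smooth q.1).comp q s1
  have h2 : ContMDiffAt ((𝓡 2).prod 𝓘(ℝ, ℂ)) 𝓘(ℝ, ℝ) ∞ (fun q : S2 × ℂ => ho q.1) q :=
    (ho_smooth q.1).comp q s1
  have h3 : ContMDiffAt ((𝓡 2).prod 𝓘(ℝ, ℂ)) 𝓘(ℝ, ℂ) ∞
      (fun q : S2 × ℂ => (starRingEnd ℂ) q.2 / 2) q :=
    ContMDiffAt.comp q (g := fun w : ℂ => (starRingEnd ℂ) w / 2)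
      (GlkM_conj_smooth.div_const 2).contDiffAt.contMDiffAt s2
  have h4 : ContMDiffAt ((𝓡 2).prod 𝓘(ℝ, ℂ)) 𝓘(ℝ, ℝ) ∞
      (fun q : S2 × ℂ => Real.sqrt (1 - ‖q.2‖ ^ 2 / 4) * ho q.1) q := by
    have m : ContDiff ℝ ∞ (fun p : ℝ × ℝ => p.1 * p.2) := contDiff_fst.mul contDiff_snd
    exact m.contDiffAt.contMDiffAt.comp q (r1.prodMk_space h2)
  refine pS4_smooth (GlkM_mul r2 h1) h3 h4 ?_
  obtain ⟨e1, e2, e3⟩ := GlkM_R_c h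
  have := S4_sq (GlkM_R q)
  rw [e1, e2, e3] at this
  linarith

theorem GlkM_P_ld {z : S4} (h : ‖c2 z‖ < 1) :
    IsLocalDiffeomorphAt (𝓡 4) ((𝓡 2).prod 𝓘(ℝ, ℂ)) ∞ GlkM_P z := by
  have hv : ‖(GlkM_P z).2‖ < 2 := by
    show ‖2 * (starRingEnd ℂ) (c2 z)‖ < 2
    rw [norm_mul, RCLike.norm_conj]
    have : ‖(2 : ℂ)‖ = 2 := by simp
    rw [this]
    linarith
  have ev1 : ∀ᶠ y in 𝓝 z, ‖c2 y‖ < 1 :=
    (c2_smooth.continuous.norm.continuousAt).eventually_lt_const h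
  have ev2 : ∀ᶠ q in 𝓝 (GlkM_P z), ‖q.2‖ < 2 :=
    (continuous_snd.norm.continuousAt).eventually_lt_const hv
  refine ld_two (g := GlkM_R) ?_ ?_ ?_ ?_
  · filter_upwards [ev1] with y hy using GlkM_P_smooth hy
  · filter_upwards [ev2] with y hy using GlkM_R_smooth hy
  · filter_upwards [ev1] with y hy using GlkM_R_P hy
  · filter_upwards [ev2] with y hy using GlkM_P_R hy

end smooth

section main
variable {N : Type*} [TopologicalSpace N] [ChartedSpace E3 N]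
    {Y : Type*} [TopologicalSpace Y] [ChartedSpace E4 Y]
    {X : Type*} [TopologicalSpace X] [ChartedSpace E4 X] {κ : ℝ × ℂ → N} {n j : ℤ}
    (D : RollSpin κ n j Y) (G : GluckTwist D.tube X)

theorem GlkM_tube (q : S2 × ℂ) : D.tube q = D.Q (GlkM_R q) := rfl

theorem GlkM_core_fh (y : S2) : fh (GlkM_R (y, 0)) ≠ 0 := by
  rw [fh_ne_iff, (GlkM_R_c (q := (y, 0)) (by simp)).2.1]
  simp

theorem GlkM_core_c2 (y : S2) : c2 (GlkM_R (y, 0)) = 0 := by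
  rw [(GlkM_R_c (q := (y, 0)) (by simp)).2.1]
  simp

theorem GlkM_nc_Q {z : S4} (h : fh z ≠ 0) (h2 : c2 z ≠ 0) : ∀ y, D.Q z ≠ D.tube (y, 0) := by
  intro y e
  rw [GlkM_tube] at e
  have := D.Q_inj _ _ h (GlkM_core_fh y) e
  rw [this] at h2
  exact h2 (GlkM_core_c2 y)

theorem GlkM_nc_A {x : N} (t : ℝ) (h : ¬ OnKnot κ x) : ∀ y, D.A (x, t) ≠ D.tube (y, 0) := by
  intro y e
  rw [GlkM_tube] at e
  exact D.disj _ x t (GlkM_core_fh y) (Or.inr (GlkM_core_c2 y)) h e.symm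

open Classical in
noncomputable def GlkM_Q (z : S4) : X :=
  if c2 z = 0 then G.ι' (GlkM_P z) else G.G (D.Q (GlkM_tw z))

theorem GlkM_Q_ne {z : S4} (h : c2 z ≠ 0) : GlkM_Q D G z = G.G (D.Q (GlkM_tw z)) := by
  unfold GlkM_Q
  rw [if_neg h]

theorem GlkM_Q_near {z : S4} (h : ‖c2 z‖ < 1 / 2) : GlkM_Q D G z = G.ι' (GlkM_P z) := by
  by_cases h0 : c2 z = 0
  · unfold GlkM_Q
    rw [if_pos h0]
  rw [GlkM_Q_ne D G h0]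
  have hv0 : (GlkM_P z).2 ≠ 0 := by
    show 2 * (starRingEnd ℂ) (c2 z) ≠ 0
    simpa using h0
  have hn : ‖(GlkM_P z).2‖ = 2 * ‖c2 z‖ := by
    show ‖2 * (starRingEnd ℂ) (c2 z)‖ = 2 * ‖c2 z‖
    rw [norm_mul, RCLike.norm_conj]
    simp
  have hv1 : ‖(GlkM_P z).2‖ < 1 := by rw [hn]; linarith
  have hg := G.glue (GlkM_P z).1 (GlkM_P z).2 hv0 hv1
  have hg' : G.ι' (GlkM_P z) = G.G (D.tube (rotS ((GlkM_P z).2 / ‖(GlkM_P z).2‖) (GlkM_P z).1,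
      (GlkM_P z).2)) := hg
  rw [hg', GlkM_tube]
  congr 2
  obtain ⟨f1, f2⟩ := GlkM_rot (GlkM_unit hv0) (GlkM_P z).1
  obtain ⟨y1, y2⟩ := GlkM_y (z := z) (by linarith)
  have hu : (GlkM_P z).2 / (‖(GlkM_P z).2‖ : ℂ) = (starRingEnd ℂ) (c2 z) / (‖c2 z‖ : ℂ) := by
    rw [hn]
    show 2 * (starRingEnd ℂ) (c2 z) / ((2 * ‖c2 z‖ : ℝ) : ℂ) = _
    have : (‖c2 z‖ : ℂ) ≠ 0 := by exact_mod_cast norm_ne_zero_iff.2 h0
    push_cast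
    field_simp
  unfold GlkM_R GlkM_tw
  show pS4 (c1 z * _) _ _ = pS4 _ _ _
  rw [show (starRingEnd ℂ) ((rotS ((GlkM_P z).2 / ↑‖(GlkM_P z).2‖) (GlkM_P z).1,
      (GlkM_P z).2) : S2 × ℂ).2 / 2 = c2 z from GlkM_P2 z]
  congr 1
  · show c1 z * _ = (Real.sqrt (1 - ‖(GlkM_P z).2‖ ^ 2 / 4) : ℂ) * hz (rotS _ _)
    rw [f1, ← hu]
    nth_rewrite 1 [← y1]
    ring
  · show ht z = Real.sqrt (1 - ‖(GlkM_P z).2‖ ^ 2 / 4) * ho (rotS _ _)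
    rw [f2]
    exact y2.symm

theorem GlkM_Q_zero {z : S4} (h : c2 z = 0) : GlkM_Q D G z = G.ι' ((GlkM_P z).1, 0) := by
  unfold GlkM_Q
  rw [if_pos h]
  congr 1
  refine Prod.ext rfl ?_
  show 2 * (starRingEnd ℂ) (c2 z) = 0
  rw [h]
  simp

theorem GlkM_loc {z : S4} (h : fh z ≠ 0) :
    IsLocalDiffeomorphAt (𝓡 4) (𝓡 4) ∞ (GlkM_Q D G) z := by
  by_cases h0 : c2 z = 0
  · have hz1 : ‖c2 z‖ < 1 / 2 := by rw [h0]; simp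
    have ev : ∀ᶠ y in 𝓝 z, ‖c2 y‖ < 1 / 2 :=
      (c2_smooth.continuous.norm.continuousAt).eventually_lt_const hz1
    have hP := GlkM_P_ld (z := z) (by linarith)
    have hv : ‖(GlkM_P z).2‖ < 1 := by
      show ‖2 * (starRingEnd ℂ) (c2 z)‖ < 1
      rw [h0]
      simp
    have hι := G.ι'_loc (GlkM_P z).1 (GlkM_P z).2 hv
    have hι' : IsLocalDiffeomorphAt ((𝓡 2).prod 𝓘(ℝ, ℂ)) (𝓡 4) ∞ G.ι' (GlkM_P z) := hι
    have hc : IsLocalDiffeomorphAt (𝓡 4) (𝓡 4) ∞ (G.ι' ∘ GlkM_P) z :=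
      IsLocalDiffeomorphAt.comp (hf := hP) (hg := hι') ..
    refine Pool.Agent.CSG.ld_congr hc ?_
    filter_upwards [ev] with y hy using GlkM_Q_near D G hy
  · have h2 : c2 (GlkM_tw z) ≠ 0 := by rw [(GlkM_tw_c h0).2.1]; exact h0
    have hf : fh (GlkM_tw z) ≠ 0 := by rw [GlkM_fh_tw h0]; exact h
    have s1 := GlkM_tw_ld h0
    have s2 : IsLocalDiffeomorphAt (𝓡 4) (𝓡 4) ∞ (D.Q ∘ GlkM_tw) z :=
      IsLocalDiffeomorphAt.comp (hf := s1) (hg := D.Q_loc _ hf) ..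
    have s3 : IsLocalDiffeomorphAt (𝓡 4) (𝓡 4) ∞ (G.G ∘ (D.Q ∘ GlkM_tw)) z :=
      IsLocalDiffeomorphAt.comp (hf := s2) (hg := G.G_loc _ (GlkM_nc_Q D hf h2)) ..
    refine Pool.Agent.CSG.ld_congr s3 ?_
    filter_upwards [GlkM_c2_ev h0] with y hy using GlkM_Q_ne D G hy

theorem GlkM_zero_eq {z : S4} (h : c2 z = 0) : z = GlkM_R ((GlkM_P z).1, 0) := by
  have h1 : ((GlkM_P z).1, (0 : ℂ)) = GlkM_P z := by
    refine Prod.ext rfl ?_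
    show 0 = 2 * (starRingEnd ℂ) (c2 z)
    rw [h]
    simp
  rw [h1]
  exact (GlkM_R_P (by rw [h]; simp)).symm

theorem GlkM_inj {z z' : S4} (h : fh z ≠ 0) (h' : fh z' ≠ 0)
    (e : GlkM_Q D G z = GlkM_Q D G z') : z = z' := by
  have mixed : ∀ {a b : S4}, fh a ≠ 0 → fh b ≠ 0 → c2 a = 0 → c2 b ≠ 0 →
      GlkM_Q D G a = GlkM_Q D G b → False := by
    intro a b ha hb h1 h2 e
    rw [GlkM_Q_zero D G h1, GlkM_Q_ne D G h2] at e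
    have h2' : c2 (GlkM_tw b) ≠ 0 := by rw [(GlkM_tw_c h2).2.1]; exact h2
    have hf : fh (GlkM_tw b) ≠ 0 := by rw [GlkM_fh_tw h2]; exact hb
    exact G.disj _ _ (GlkM_nc_Q D hf h2') e
  by_cases h1 : c2 z = 0
  · by_cases h2 : c2 z' = 0
    · rw [GlkM_Q_zero D G h1, GlkM_Q_zero D G h2] at e
      have := (G.ι'_inj _ _ _ _ (by simp) (by simp) e).1
      rw [GlkM_zero_eq h1, GlkM_zero_eq h2, this]
    · exact (mixed h h' h1 h2 e).elim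
  · by_cases h2 : c2 z' = 0
    · exact (mixed h' h h2 h1 e.symm).elim
    · rw [GlkM_Q_ne D G h1, GlkM_Q_ne D G h2] at e
      have a1 : c2 (GlkM_tw z) ≠ 0 := by rw [(GlkM_tw_c h1).2.1]; exact h1
      have a2 : fh (GlkM_tw z) ≠ 0 := by rw [GlkM_fh_tw h1]; exact h
      have b1 : c2 (GlkM_tw z') ≠ 0 := by rw [(GlkM_tw_c h2).2.1]; exact h2
      have b2 : fh (GlkM_tw z') ≠ 0 := by rw [GlkM_fh_tw h2]; exact h'
      have e1 := G.G_inj _ _ (GlkM_nc_Q D a2 a1) (GlkM_nc_Q D b2 b1) e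
      have e2 := D.Q_inj _ _ a2 b2 e1
      rw [← GlkM_tw'_tw h1, ← GlkM_tw'_tw h2, e2]

theorem gluck_spin {N : Type*} [TopologicalSpace N] [ChartedSpace E3 N]
    {Y : Type*} [TopologicalSpace Y] [ChartedSpace E4 Y]
    {X : Type*} [TopologicalSpace X] [ChartedSpace E4 X] {κ : ℝ × ℂ → N} {n j : ℤ}
    (D : RollSpin κ n j Y) (G : GluckTwist D.tube X) : IsRollGluck κ n j X := by
  refine ⟨⟨fun a => G.G (D.A a), GlkM_Q D G, ?_, ?_, ?_, ?_, ?_, ?_, ?_, ?_⟩⟩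
  · intro x t
    show G.G (D.A (x, t + 1)) = G.G (D.A (x, t))
    rw [D.A_per]
  · intro x t hx
    exact IsLocalDiffeomorphAt.comp (hf := D.A_loc x t hx) (hg := G.G_loc _ (GlkM_nc_A D t hx)) ..
  · intro x x' t t' hx hx' e
    exact D.A_inj x x' t t' hx hx' (G.G_inj _ _ (GlkM_nc_A D t hx) (GlkM_nc_A D t' hx') e)
  · intro z h
    exact GlkM_loc D G h
  · intro z z' h h' e
    exact GlkM_inj D G h h' e
  · intro z l m t hf h1 h2 e1 e2 e3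
    have a1 : c2 (GlkM_tw z) ≠ 0 := by rw [(GlkM_tw_c h2).2.1]; exact h2
    have a2 : fh (GlkM_tw z) ≠ 0 := by rw [GlkM_fh_tw h2]; exact hf
    have a3 : c1 (GlkM_tw z) ≠ 0 := by
      rw [← norm_ne_zero_iff, GlkM_norm_tw h2]
      exact norm_ne_zero_iff.2 h1
    have hg := D.glue (GlkM_tw z) l m t a2 a3 a1 ?_ ?_ ?_
    · rw [GlkM_Q_ne D G h2, hg, GlkM_norm_tw h2, (GlkM_tw_c h2).2.1]
    · rw [GlkM_norm_tw h2, (GlkM_tw_c h2).1]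
      have hn : (‖c2 z‖ : ℂ) ≠ 0 := by exact_mod_cast norm_ne_zero_iff.2 h2
      have k1 : (starRingEnd ℂ) (c2 z) / (‖c2 z‖ : ℂ) = ex (-(((1 : ℤ) : ℝ) * m + ((-j : ℤ) : ℝ) * t)) := by
        rw [ex_neg]
        nth_rewrite 1 [e2]
        rw [map_mul, Complex.conj_ofReal]
        field_simp
      rw [k1]
      nth_rewrite 1 [e1]
      rw [mul_assoc, ← ex_add]
      congr 2
      push_cast
      ring
    · rw [(GlkM_tw_c h2).2.1]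
      exact e2
    · rw [GlkM_fh_tw h2]
      exact e3
  · intro z x t hf h12 hx e
    by_cases h2 : c2 z = 0
    · have e' : GlkM_Q D G z = G.G (D.A (x, t)) := e
      rw [GlkM_Q_zero D G h2] at e'
      exact G.disj _ _ (GlkM_nc_A D t hx) e'
    · have h1 : c1 z = 0 := h12.resolve_right h2
      have e' : GlkM_Q D G z = G.G (D.A (x, t)) := e
      rw [GlkM_Q_ne D G h2] at e'
      have a1 : c2 (GlkM_tw z) ≠ 0 := by rw [(GlkM_tw_c h2).2.1]; exact h2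
      have a2 : fh (GlkM_tw z) ≠ 0 := by rw [GlkM_fh_tw h2]; exact hf
      have e1 := G.G_inj _ _ (GlkM_nc_Q D a2 a1) (GlkM_nc_A D t hx) e'
      refine D.disj _ x t a2 (Or.inl ?_) hx e1
      rw [← norm_eq_zero, GlkM_norm_tw h2, h1, norm_zero]
  · intro p
    rcases G.cover p with ⟨q, hq, rfl⟩ | ⟨y, rfl⟩
    · rcases D.cover q with ⟨x, t, hx, rfl⟩ | ⟨z', hz', rfl⟩
      · exact Or.inl ⟨x, t, hx, rfl⟩
      · right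
        have h2 : c2 z' ≠ 0 := by
          intro h0
          refine hq (GlkM_P z').1 ?_
          rw [GlkM_tube, ← GlkM_zero_eq h0]
        have b1 : c2 (GlkM_tw' z') ≠ 0 := by rw [(GlkM_tw'_c h2).2.1]; exact h2
        refine ⟨GlkM_tw' z', by rw [GlkM_fh_tw' h2]; exact hz', ?_⟩
        rw [GlkM_Q_ne D G b1, GlkM_tw_tw' h2]
    · right
      refine ⟨GlkM_R (y, 0), GlkM_core_fh y, ?_⟩
      rw [GlkM_Q_zero D G (GlkM_core_c2 y), GlkM_P_R (by simp)]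

end main

end Pool.Agent.RSG
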