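import Pool.Agent.RSG.FKn
import Pool.Agent.RSG.FNe
import Pool.Agent.RSG.LDc

/-!
# RSG/RevM: the inverse of a 4-move is the mirror image of a 4-move   (difficulty 2)

`h : FourMoveVia κ κ' b ε₁ ε₂`; claim: `FourMoveVia (mir κ') (mir κ) b₁ ε₁ ε₂` with
`b₁ (z, s) = b (turn s * conj z, s)`.
* thick: `Thick κ'` is `thick'` (with `F` from `exists_twist`), and `Thick (mir κ')` follows
  (`(l, v) ↦ (l, conj v)` is a linear isomorphism; `‖conj v‖ = ‖v‖`).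
* per': `κ` periodic (`h.thick.per`).
* `(z, s) ↦ (turn s * conj z, s)` is a smooth involution of `C × R` (`|turn s| = 1`:
  `turn s * conj (turn s * conj z) = z`), preserving `|z|` and `s`: ball_loc, ball_inj.
* `cj ε (conj v) = conj (cj ε v)`.  Strand (mir κ') b₁ δ ε: `κ' (λ + l, conj v) =
  b (turn s * (δ + cj ε (conj v) / 2), s)` and `b₁ (δ + cj ε v / 2, s) =
  b (turn s * conj (δ + cj ε v / 2), s)`: equal.
* TwistedStrand (mir κ) b₁ δ ε: `κ (λ + l, conj v) = b (δ + cj ε (conj v)/2, s)` and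
  `b₁ (turn s * (δ + cj ε v / 2), s) = b (turn s * conj (turn s) * conj (δ + cj ε v / 2), s)`.
* rest: `mir κ (l, v) = mir κ' (l, v)` and it is not in the image of `b₁` (same image as `b`).
-/

open scoped Manifold ContDiff Topology
open Set Filter
open Complex (I)

namespace Pool.Agent.RSG

/-- the involution `(z, s) ↦ (turn s * conj z, s)` -/
noncomputable def RevM_inv (q : ℂ × ℝ) : ℂ × ℝ := (turn q.2 * (starRingEnd ℂ) q.1, q.2)

theorem RevM_turn (s : ℝ) : turn s * (starRingEnd ℂ) (turn s) = 1 := by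
  rw [Complex.mul_conj, Complex.normSq_eq_norm_sq, turn_norm]
  norm_num

theorem RevM_inv_inv (q : ℂ × ℝ) : RevM_inv (RevM_inv q) = q := by
  refine Prod.ext ?_ rfl
  simp only [RevM_inv, map_mul, Complex.conj_conj]
  rw [← mul_assoc, RevM_turn, one_mul]

theorem RevM_norm (q : ℂ × ℝ) : ‖(RevM_inv q).1‖ = ‖q.1‖ := by
  simp only [RevM_inv, norm_mul, turn_norm, one_mul, RCLike.norm_conj]

theorem RevM_smooth : ContDiff ℝ ∞ RevM_inv := by
  unfold RevM_inv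
  have h1 : ContDiff ℝ ∞ (fun q : ℂ × ℝ => turn q.2) := turn_smooth.comp contDiff_snd
  have h2 : ContDiff ℝ ∞ (fun q : ℂ × ℝ => (starRingEnd ℂ) q.1) :=
    Complex.conjCLE.contDiff.comp contDiff_fst
  exact (h1.mul h2).prodMk contDiff_snd

theorem RevM_ld (q : ℂ × ℝ) : IsLocalDiffeomorphAt 𝓘(ℝ, ℂ × ℝ) 𝓘(ℝ, ℂ × ℝ) ∞ RevM_inv q :=
  Pool.Agent.CSG.ld_of_perm (f := ⟨RevM_inv, RevM_inv, RevM_inv_inv, RevM_inv_inv⟩)
    RevM_smooth RevM_smooth q

theorem RevM_mir_ld (q : ℝ × ℂ) : IsLocalDiffeomorphAt 𝓘(ℝ, ℝ × ℂ) 𝓘(ℝ, ℝ × ℂ) ∞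
    (fun q : ℝ × ℂ => (q.1, (starRingEnd ℂ) q.2)) q := by
  have h : ContDiff ℝ ∞ (fun q : ℝ × ℂ => (q.1, (starRingEnd ℂ) q.2)) :=
    contDiff_fst.prodMk (Complex.conjCLE.contDiff.comp contDiff_snd)
  exact Pool.Agent.CSG.ld_of_perm (f := ⟨fun q : ℝ × ℂ => (q.1, (starRingEnd ℂ) q.2),
    fun q : ℝ × ℂ => (q.1, (starRingEnd ℂ) q.2), fun q => by simp, fun q => by simp⟩) h h q

theorem RevM_thick {N : Type*} [TopologicalSpace N] [ChartedSpace E3 N] {κ : ℝ × ℂ → N}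
    (h : Thick κ) : Thick (mir κ) := by
  refine ⟨fun l v => h.per l _, ?_, ?_⟩
  · intro l v hv
    have h1 : IsLocalDiffeomorphAt 𝓘(ℝ, ℝ × ℂ) (𝓡 3) ∞ κ
        ((fun q : ℝ × ℂ => (q.1, (starRingEnd ℂ) q.2)) (l, v)) :=
      h.loc l _ (by simpa using hv)
    exact IsLocalDiffeomorphAt.comp (hf := RevM_mir_ld (l, v)) (hg := h1)
  · intro l v l' v' hv hv' he
    obtain ⟨h1, h2⟩ := h.inj l _ l' _ (by simpa using hv) (by simpa using hv') he
    exact ⟨(starRingEnd ℂ).injective h1, h2⟩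

theorem RevM_cj (δ ε : ℝ) (v : ℂ) : (δ : ℂ) + cj ε ((starRingEnd ℂ) v) / 2 =
    (starRingEnd ℂ) (δ + cj ε v / 2) := by
  rw [cj_conj]
  simp [map_ofNat]

theorem RevM_strand {N : Type*} [TopologicalSpace N] [ChartedSpace E3 N] {κ' : ℝ × ℂ → N}
    {b : ℂ × ℝ → N} {δ ε : ℝ} (h : TwistedStrand κ' b δ ε) :
    Strand (mir κ') (fun q => b (turn q.2 * (starRingEnd ℂ) q.1, q.2)) δ ε := by
  intro l v hl hv
  show κ' (1 / 2 - δ / 4 + l, (starRingEnd ℂ) v) = _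
  rw [h l _ hl (by simpa using hv), RevM_cj]

theorem RevM_strand' {N : Type*} [TopologicalSpace N] [ChartedSpace E3 N] {κ : ℝ × ℂ → N}
    {b : ℂ × ℝ → N} {δ ε : ℝ} (h : Strand κ b δ ε) :
    TwistedStrand (mir κ) (fun q => b (turn q.2 * (starRingEnd ℂ) q.1, q.2)) δ ε := by
  intro l v hl hv
  show κ (1 / 2 - δ / 4 + l, (starRingEnd ℂ) v) = _
  rw [h l _ hl (by simpa using hv), RevM_cj]
  simp only [map_mul]
  rw [← mul_assoc, RevM_turn, one_mul]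

theorem reverse_move {N : Type*} [TopologicalSpace N] [ChartedSpace E3 N] [T2Space N]
    {κ κ' : ℝ × ℂ → N} {b : ℂ × ℝ → N} {ε₁ ε₂ : ℝ} (h : FourMoveVia κ κ' b ε₁ ε₂) :
    FourMoveVia (mir κ') (mir κ) (fun q => b (turn q.2 * (starRingEnd ℂ) q.1, q.2)) ε₁ ε₂ := by
  obtain ⟨F, hF⟩ := exists_twist h.ball_loc h.ball_inj
  refine ⟨RevM_thick (thick' h hF), fun l v => h.thick.per l _, h.sign₁, h.sign₂, ?_, ?_,
    RevM_strand h.strand₁', RevM_strand h.strand₂', RevM_strand' h.strand₁,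
    RevM_strand' h.strand₂, ?_⟩
  · intro z s hz hs
    have h1 : IsLocalDiffeomorphAt 𝓘(ℝ, ℂ × ℝ) (𝓡 3) ∞ b (RevM_inv (z, s)) :=
      h.ball_loc _ _ ((RevM_norm (z, s)).trans_lt hz) hs
    exact IsLocalDiffeomorphAt.comp (hf := RevM_ld (z, s)) (hg := h1)
  · intro z s z' s' hz hs hz' hs' he
    have h1 := h.ball_inj (RevM_inv (z, s)).1 s (RevM_inv (z', s')).1 s'
      (by rw [RevM_norm (z, s)]; exact hz) hs (by rw [RevM_norm (z', s')]; exact hz') hs' he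
    have h2 : RevM_inv (z, s) = RevM_inv (z', s') := Prod.ext h1.1 h1.2
    have h3 := congrArg RevM_inv h2
    rw [RevM_inv_inv, RevM_inv_inv] at h3
    exact ⟨congrArg Prod.fst h3, congrArg Prod.snd h3⟩
  · intro l v hv hk
    have h1 := h.rest l ((starRingEnd ℂ) v) (by simpa using hv) hk
    refine ⟨h1.1.symm, ?_⟩
    intro z s hz hs he
    refine h1.2 (RevM_inv (z, s)).1 s (by rw [RevM_norm (z, s)]; exact hz) hs ?_
    rw [← h1.1]
    exact he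

end Pool.Agent.RSG
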