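import Pool.Agent.RSG.NewS
import Pool.Agent.RSG.LDc
import Pool.Agent.RSG.Sph

/-!
# RSG/Uniq: uniqueness of the manifold   (difficulty 2)

`glue_diffeo` with `M = N × R`, `U₁ = {(x, t) : x not on κ}`, `M' = S4`, `U₂ = {fh ≠ 0}`,
`f₁ = D.A`, `f₂ = D.Q`, `g₁ = D'.A`, `g₂ = D'.Q`.
* `U₁` is open: the knot `{κ (l, 0)}` is the image of the compact set `[0, 1] × {0}`
  (`h.per`), so compact, and `N` is Hausdorff.  `U₂` is open: `fh` is continuous.
* h11: both sides are equivalent to `x = x' ∧ ∃ m : ℤ, t' = t + m` (`A_inj`, and `A_per` for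
  integers).
* h22: both sides are equivalent to `z = z'`.
* h12: let `D.A (x, t) = D.Q z`.  By `D.disj`, `c1 z, c2 z ≠ 0`.  Take `l, m, t₀` from `exists_phase`:
  `D.Q z = D.A (κ (l, v), t₀)`, `v = 2|c1||c2| ex m`, `0 < ‖v‖ < 1` (`glue_norm`), `κ (l, v)` is not
  on the knot (`h.inj`, `v ≠ 0`), so `x = κ (l, v)`, `t₀ = t + m'`.  Then
  `D'.Q z = D'.A (κ (l, v), t₀) = D'.A (x, t)`.  The converse is symmetric.
* covX, covY: `cover`.
-/

open scoped Manifold ContDiff Topology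
open Set Filter
open Complex (I)

namespace Pool.Agent.RSG

theorem Uniq_open {N : Type*} [TopologicalSpace N] [ChartedSpace E3 N] [T2Space N]
    {κ : ℝ × ℂ → N} (h : Thick κ) : IsClosed {x | OnKnot κ x} := by
  have e : {x | OnKnot κ x} = (fun l : ℝ => κ (l, 0)) '' Icc (0 : ℝ) 1 := by
    ext x
    constructor
    · rintro ⟨l, rfl⟩
      refine ⟨Int.fract l, ⟨Int.fract_nonneg l, (Int.fract_lt_one l).le⟩, ?_⟩
      have := per_int h.per (Int.fract l) 0 ⌊l⌋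
      rw [Int.fract_add_floor] at this
      exact this.symm
    · rintro ⟨l, -, rfl⟩
      exact ⟨l, rfl⟩
  rw [e]
  apply IsCompact.isClosed
  apply isCompact_Icc.image
  rw [continuous_iff_continuousAt]
  intro l
  have h1 : ContinuousAt κ (l, 0) := Pool.Agent.CSG.ld_continuousAt (h.loc l 0 (by simp))
  exact ContinuousAt.comp (g := κ) (f := fun l : ℝ => (l, (0 : ℂ))) h1 (by fun_prop)

theorem Uniq_A_iff {N : Type*} [TopologicalSpace N] [ChartedSpace E3 N]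
    {X : Type*} [TopologicalSpace X] [ChartedSpace E4 X] {κ : ℝ × ℂ → N} {n j : ℤ}
    (D : RollGluck κ n j X) {x x' : N} {t t' : ℝ} (hx : ¬ OnKnot κ x) (hx' : ¬ OnKnot κ x') :
    D.A (x, t) = D.A (x', t') ↔ x = x' ∧ ∃ m : ℤ, t' = t + m := by
  constructor
  · exact D.A_inj x x' t t' hx hx'
  · rintro ⟨rfl, m, rfl⟩
    have hp : Function.Periodic (fun t => D.A (x, t)) 1 := fun t => D.A_per x t
    have := hp.int_mul m t
    simp only [mul_one] at this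
    exact this.symm

/-- a common description of the equality `A = Q` -/
theorem Uniq_mix {N : Type*} [TopologicalSpace N] [ChartedSpace E3 N]
    {X : Type*} [TopologicalSpace X] [ChartedSpace E4 X]
    {Y : Type*} [TopologicalSpace Y] [ChartedSpace E4 Y] {κ : ℝ × ℂ → N} {n j : ℤ}
    (h : Thick κ) (D : RollGluck κ n j X) (D' : RollGluck κ n j Y) {x : N} {t : ℝ} {z : S4}
    (hx : ¬ OnKnot κ x) (hz : fh z ≠ 0) (he : D.A (x, t) = D.Q z) : D'.A (x, t) = D'.Q z := by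
  by_cases hc : c1 z = 0 ∨ c2 z = 0
  · exact absurd he.symm (D.disj z x t hz hc hx)
  · rw [not_or] at hc
    obtain ⟨l, m, t', e1, e2, e3⟩ := exists_phase n j z
    have hg := D.glue z l m t' hz hc.1 hc.2 e1 e2 e3
    have hg' := D'.glue z l m t' hz hc.1 hc.2 e1 e2 e3
    have hv1 := glue_norm hz m
    have hv0 : ((2 * ‖c1 z‖ * ‖c2 z‖ : ℝ) : ℂ) * ex m ≠ 0 := by
      apply mul_ne_zero _ (ex_ne m)
      have := norm_pos_iff.2 hc.1
      have := norm_pos_iff.2 hc.2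
      exact_mod_cast (by positivity : (2 * ‖c1 z‖ * ‖c2 z‖ : ℝ) ≠ 0)
    have hk := NewS_thick_knot h (l := l) hv0 hv1
    rw [hg] at he
    rw [hg']
    exact (Uniq_A_iff D' hx hk).2 ((Uniq_A_iff D hx hk).1 he)

theorem uniq {N : Type*} [TopologicalSpace N] [ChartedSpace E3 N] [T2Space N]
    {X : Type*} [TopologicalSpace X] [ChartedSpace E4 X]
    {Y : Type*} [TopologicalSpace Y] [ChartedSpace E4 Y] {κ : ℝ × ℂ → N} {n j : ℤ}
    (h : Thick κ) (D : RollGluck κ n j X) (D' : RollGluck κ n j Y) :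
    Nonempty (X ≃ₘ⟮𝓡 4, 𝓡 4⟯ Y) := by
  refine glue_diffeo (I := (𝓡 3).prod 𝓘(ℝ, ℝ)) (I' := 𝓡 4) (J := 𝓡 4)
    (U₁ := {a : N × ℝ | ¬ OnKnot κ a.1}) (U₂ := {z : S4 | fh z ≠ 0})
    (f₁ := D.A) (f₂ := D.Q) (g₁ := D'.A) (g₂ := D'.Q) ?_ ?_ ?_ ?_ ?_ ?_ ?_ ?_ ?_ ?_ ?_
  · have h1 := (Uniq_open h).isOpen_compl
    exact h1.preimage continuous_fst
  · exact isOpen_ne.preimage fh_smooth.continuous
  · rintro ⟨x, t⟩ hx
    exact D.A_loc x t hx
  · intro z hz
    exact D.Q_loc z hz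
  · rintro ⟨x, t⟩ hx
    exact D'.A_loc x t hx
  · intro z hz
    exact D'.Q_loc z hz
  · rintro ⟨x, t⟩ hx ⟨x', t'⟩ hx'
    rw [Uniq_A_iff D hx hx', Uniq_A_iff D' hx hx']
  · rintro ⟨x, t⟩ hx z hz
    exact ⟨Uniq_mix h D D' hx hz, Uniq_mix h D' D hx hz⟩
  · intro z hz z' hz'
    constructor
    · intro he
      rw [D.Q_inj z z' hz hz' he]
    · intro he
      rw [D'.Q_inj z z' hz hz' he]
  · intro q
    rcases D.cover q with ⟨x, t, hx, hq⟩ | ⟨z, hz, hq⟩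
    · exact Or.inl ⟨(x, t), hx, hq⟩
    · exact Or.inr ⟨z, hz, hq⟩
  · intro q
    rcases D'.cover q with ⟨x, t, hx, hq⟩ | ⟨z, hz, hq⟩
    · exact Or.inl ⟨(x, t), hx, hq⟩
    · exact Or.inr ⟨z, hz, hq⟩

end Pool.Agent.RSG
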