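import Pool.Agent.RSG.NewS
import Pool.Agent.RSG.RevM
import Pool.Agent.RSG.MirM
import Pool.Agent.RSG.Uniq
import Pool.Agent.RSG.Base
import Pool.Agent.RSG.StdM
import Pool.Agent.RSG.GlkM
import Pool.Agent.RSG.GerM

/-!
# RSG/Main: assembly
-/

open scoped Manifold ContDiff Topology
open Set Filter
open Complex (I)

namespace Pool.Agent.RSG

universe u v w

theorem four_move_iff {N : Type u} [TopologicalSpace N] [ChartedSpace E3 N] [T2Space N]
    {X : Type v} [TopologicalSpace X] [ChartedSpace E4 X] [T2Space X] {κ κ' : ℝ × ℂ → N}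
    (n j : ℤ) (h : FourMove κ κ') : IsRollGluck κ n j X ↔ IsRollGluck κ' n j X := by
  obtain ⟨b, ε₁, ε₂, h⟩ := h
  constructor
  · rintro ⟨D⟩
    exact four_move D h
  · rintro ⟨D⟩
    obtain ⟨D1⟩ := mirror_data D
    obtain ⟨D2⟩ := four_move D1 (reverse_move h)
    obtain ⟨D3⟩ := mirror_data D2
    rw [mir_mir, neg_neg] at D3
    exact ⟨D3⟩

theorem equiv_iff {N : Type u} [TopologicalSpace N] [ChartedSpace E3 N] [T2Space N]
    {X : Type v} [TopologicalSpace X] [ChartedSpace E4 X] [T2Space X] {κ κ' : ℝ × ℂ → N}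
    (n j : ℤ) (h : FourMoveEquiv κ κ') : IsRollGluck κ n j X ↔ IsRollGluck κ' n j X := by
  induction h with
  | move h => exact four_move_iff n j h
  | diffeo κ F =>
    constructor
    · rintro ⟨D⟩; exact diffeo_data D F
    · rintro ⟨D⟩
      have h := diffeo_data D F.symm
      have e : (F.symm : N → N) ∘ (F ∘ κ) = κ := by
        funext q
        simp
      rw [e] at h
      exact h
  | germ η hη h h' he =>
    constructor
    · rintro ⟨D⟩; exact germ_data hη h h' he D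
    · rintro ⟨D⟩; exact germ_data hη h' h (fun l v hv => (he l v hv).symm) D
  | symm _ ih => exact ih.symm
  | trans _ _ ih1 ih2 => exact ih1.trans ih2

theorem final :
    (∀ (N : Type u) [TopologicalSpace N] [ChartedSpace E3 N] [T2Space N] (κ κ' : ℝ × ℂ → N),
      FourMoveEquiv κ κ' → ∀ (n j : ℤ) (X : Type v) [TopologicalSpace X] [ChartedSpace E4 X]
        [T2Space X], IsRollGluck κ n j X ↔ IsRollGluck κ' n j X) ∧
    ∀ κ : ℝ × ℂ → S3, FourMoveTrivial κ → ∀ n j : ℤ,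
      IsRollGluck κ n j S4 ∧
      (∀ (X : Type v) [TopologicalSpace X] [ChartedSpace E4 X] [T2Space X],
        IsRollGluck κ n j X → Nonempty (X ≃ₘ⟮𝓡 4, 𝓡 4⟯ S4)) ∧
      ∀ (Y : Type w) [TopologicalSpace Y] [ChartedSpace E4 Y] (D : RollSpin κ n j Y)
        (X : Type v) [TopologicalSpace X] [ChartedSpace E4 X] [T2Space X]
        (_ : GluckTwist D.tube X), Nonempty (X ≃ₘ⟮𝓡 4, 𝓡 4⟯ S4) := by
  refine ⟨fun N _ _ _ κ κ' h n j X _ _ _ => equiv_iff n j h, ?_⟩
  rintro κ ⟨k, hk⟩ n j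
  have h2 : ∀ (X : Type v) [TopologicalSpace X] [ChartedSpace E4 X] [T2Space X],
      IsRollGluck κ n j X → Nonempty (X ≃ₘ⟮𝓡 4, 𝓡 4⟯ S4) := by
    intro X _ _ _ hX
    obtain ⟨D⟩ := (equiv_iff n j hk).1 hX
    obtain ⟨D'⟩ := base_unknot k n j
    exact uniq (std_thick k) D D'
  refine ⟨(equiv_iff n j hk).2 (base_unknot k n j), h2, ?_⟩
  intro Y _ _ D X _ _ _ G
  exact h2 X (gluck_spin D G)

end Pool.Agent.RSG
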