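import Pool.Agent.RSG.Blk
import Pool.Agent.RSG.Fn
import Pool.Agent.CSG.FunBasic

/-!
# RSG/BBg: the function `ggo`   (difficulty 2)

`χ = stp 64 81 (|p|²)`, `ggo p = k(|p|²) p`, `k(q) = (1 - χ)/4 + χ √(9 - 30/√q)/√q`.
* `ggo_fderiv`: if `|p| < 8` then `χ = 0` near `p` and `k = 1/4` (`ggo p = p/4` near `p`).  If
  `|p| ≥ 8`, with `r = |p|`, `q = r²`, `B = √(9 - 30/r)` (`30/r ≤ 15/4`, so `B² ≥ 21/4`):
  `k = (1 - χ)/4 + χ B / r > 0`, and `k + 2 q k' = d/dr (r k(r²)) = (1 - χ)/4 + χ · 15/(r² B) +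
  2 r χ' (B - r/4)`, where `χ' ≥ 0` (`CSG.stp_deriv_nonneg`), `χ' = 0` for `r ≥ 9` (`χ = 1` there;
  at `r = 9` the derivative of the smooth function `χ` is `0` too since it is monotone with maximal
  value `1`), and for `8 ≤ r ≤ 9`: `B² ≥ 21/4 ≥ 81/16 ≥ r²/16`.  So it is `> 0`: `radial_inj`.
* `ggo_norm_mono`: `G r = r k(r²)` (norm of `ggo p` for `|p| = r`) is strictly increasing on `[0, ∞)`.
  Without derivatives: `G r = (1 - χ) r/4 + χ B(r)` with `χ` nondecreasing, `r/4` and `B` strictly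
  increasing and `B(r) ≥ r/4` where `0 < χ < 1` (`8 < r < 9`): for `8 ≤ r < r' ≤ 9`,
  `G r' ≥ (1 - χ') r/4... > `: `G r' - G r ≥ (χ' - χ)(B(r') - r'/4) + (1 - χ)(r' - r)/4 +
  χ (B(r') - B(r)) > 0`.
* `ggo_dir`: `c = k(|p|²) > 0`.  `ggo_in`: `χ = 0`.  `ggo_out`: `χ = 1`, `k = B/r`, `|ggo p|² = B²`.
-/

open scoped Manifold ContDiff Topology
open Set Filter
open Complex (I)
open Pool.Agent.CSG (stp)

namespace Pool.Agent.RSG

/-- the factor of `ggo` -/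
noncomputable def BBg_k (q : ℝ) : ℝ :=
  (1 - stp 64 81 q) / 4 + stp 64 81 q * (Real.sqrt (9 - 30 / Real.sqrt q) / Real.sqrt q)

theorem BBg_ggo (p : ℂ) : ggo p = (BBg_k (‖p‖ ^ 2) : ℂ) * p := rfl

theorem BBg_in {q : ℝ} (h : q ≤ 64) : BBg_k q = 1 / 4 := by
  simp [BBg_k, Pool.Agent.CSG.stp_zero (by norm_num : (64 : ℝ) < 81) h]

theorem BBg_B {r : ℝ} (h : 8 ≤ r) : 21 / 4 ≤ 9 - 30 / r := by
  have h0 : 0 < r := by linarith
  have h1 : 30 / r ≤ 15 / 4 := by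
    rw [div_le_div_iff₀ h0 (by norm_num)]
    linarith
  linarith

theorem BBg_Bpos {r : ℝ} (h : 8 ≤ r) : 0 < Real.sqrt (9 - 30 / r) :=
  Real.sqrt_pos.2 (by linarith [BBg_B h])

theorem BBg_Blarge {r : ℝ} (h : 8 ≤ r) : 9 / 4 < Real.sqrt (9 - 30 / r) := by
  apply Real.lt_sqrt_of_sq_lt
  have := BBg_B h
  norm_num
  linarith

theorem BBg_pos (q : ℝ) : 0 < BBg_k q := by
  rcases le_or_gt q 64 with h | h
  · rw [BBg_in h]
    norm_num
  · have hs : 8 ≤ Real.sqrt q := by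
      apply Real.le_sqrt_of_sq_le
      norm_num
      linarith
    have h1 := Pool.Agent.CSG.stp_nonneg 64 81 q
    have h2 := Pool.Agent.CSG.stp_le_one 64 81 q
    have hW : 0 < Real.sqrt (9 - 30 / Real.sqrt q) / Real.sqrt q :=
      div_pos (BBg_Bpos hs) (by linarith)
    unfold BBg_k
    rcases h1.eq_or_lt with h3 | h3
    · rw [← h3]
      norm_num
    · have := mul_pos h3 hW
      linarith

theorem BBg_deriv {q : ℝ} (hq : 64 ≤ q) :
    DifferentiableAt ℝ BBg_k q ∧ 0 < BBg_k q + 2 * q * deriv BBg_k q := by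
  have hq0 : 0 < q := by linarith
  set s := Real.sqrt q with hs
  have hs8 : 8 ≤ s := by
    apply Real.le_sqrt_of_sq_le
    norm_num
    linarith
  have hs0 : 0 < s := by linarith
  have hss : s ^ 2 = q := Real.sq_sqrt hq0.le
  have hB := BBg_B hs8
  set B := Real.sqrt (9 - 30 / s) with hBdef
  have hB0 : 0 < B := BBg_Bpos hs8
  have d1 : HasDerivAt Real.sqrt (1 / (2 * s)) q := Real.hasDerivAt_sqrt hq0.ne'
  have d2 : HasDerivAt (fun q : ℝ => 9 - 30 / Real.sqrt q) (15 / s ^ 3) q := by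
    have h1 := ((hasDerivAt_const q (30 : ℝ)).div d1 (by rw [← hs]; exact hs0.ne')).const_sub 9
    refine h1.congr_deriv ?_
    rw [← hs]
    field_simp
    ring
  have d3 : HasDerivAt (fun q : ℝ => Real.sqrt (9 - 30 / Real.sqrt q)) (15 / s ^ 3 / (2 * B)) q := by
    have h1 := d2.sqrt (by rw [← hs]; linarith)
    exact h1
  have d4 : HasDerivAt (fun q : ℝ => Real.sqrt (9 - 30 / Real.sqrt q) / Real.sqrt q)
      ((15 / s ^ 3 / (2 * B) * s - B * (1 / (2 * s))) / s ^ 2) q :=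
    d3.div d1 (by rw [← hs]; exact hs0.ne')
  have hd : DifferentiableAt ℝ (stp 64 81) q :=
    (Pool.Agent.CSG.stp_smooth 64 81).differentiable (by simp) q
  have d5 := hd.hasDerivAt
  set S := stp 64 81 q with hS
  set S' := deriv (stp 64 81) q with hS'
  have d6 : HasDerivAt BBg_k (-S' / 4 + (S' * (B / s) +
      S * ((15 / s ^ 3 / (2 * B) * s - B * (1 / (2 * s))) / s ^ 2))) q := by
    have h1 := ((d5.const_sub 1).div_const 4).add (d5.mul d4)
    exact h1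
  refine ⟨d6.differentiableAt, ?_⟩
  rw [d6.deriv]
  have hk : BBg_k q = (1 - S) / 4 + S * (B / s) := rfl
  have e : BBg_k q + 2 * q * (-S' / 4 + (S' * (B / s) +
      S * ((15 / s ^ 3 / (2 * B) * s - B * (1 / (2 * s))) / s ^ 2))) =
      (1 - S) * (1 / 4) + S * (15 / (s ^ 2 * B)) + 2 * q * (S' * (B / s - 1 / 4)) := by
    rw [hk, ← hss]
    field_simp
    ring
  rw [e]
  have h1 := Pool.Agent.CSG.stp_nonneg 64 81 q
  have h2 := Pool.Agent.CSG.stp_le_one 64 81 q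
  rw [← hS] at h1 h2
  have h3 : 0 ≤ S' * (B / s - 1 / 4) := by
    rcases le_or_gt s 9 with h | h
    · apply mul_nonneg (Pool.Agent.CSG.stp_deriv_nonneg (by norm_num) q)
      have h4 : 9 / 4 < B := BBg_Blarge hs8
      have h5 : 1 / 4 ≤ B / s := by
        rw [div_le_div_iff₀ (by norm_num) hs0]
        linarith
      linarith
    · have hq81 : 81 < q := by
        rw [← hss]
        nlinarith
      have h4 : S' = 0 := by
        have h5 : stp 64 81 =ᶠ[𝓝 q] fun _ => (1 : ℝ) := by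
          filter_upwards [lt_mem_nhds hq81] with y hy
          exact Pool.Agent.CSG.stp_one (by norm_num) hy.le
        rw [hS', h5.deriv_eq]
        simp
      rw [h4]
      simp
  have h4 : 0 < 15 / (s ^ 2 * B) := by positivity
  have h5 : 0 < (1 - S) * (1 / 4) + S * (15 / (s ^ 2 * B)) := by
    rcases h1.eq_or_lt with h6 | h6
    · rw [← h6]
      norm_num
    · have h7 := mul_pos h6 h4
      nlinarith
  have h6 : 0 ≤ 2 * q * (S' * (B / s - 1 / 4)) := mul_nonneg (by linarith) h3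
  linarith

theorem ggo_fderiv {p : ℂ} (v : ℂ) (hv : fderiv ℝ ggo p v = 0) : v = 0 := by
  have hg : ggo = fun P : ℂ => (BBg_k (‖P‖ ^ 2) : ℂ) * P := rfl
  rw [hg] at hv
  rcases lt_or_ge (‖p‖ ^ 2) 64 with h | h
  · have h1 : BBg_k =ᶠ[𝓝 (‖p‖ ^ 2)] fun _ => (1 / 4 : ℝ) := by
      filter_upwards [gt_mem_nhds h] with y hy
      exact BBg_in hy.le
    refine radial_inj ?_ (BBg_pos _) ?_ v hv
    · exact (differentiableAt_const (1 / 4 : ℝ)).congr_of_eventuallyEq h1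
    · rw [h1.deriv_eq, BBg_in h.le]
      simp
  · obtain ⟨h1, h2⟩ := BBg_deriv h
    exact radial_inj h1 (BBg_pos _) h2 v hv

/-- the norm of `ggo p` for `|p| = r` -/
noncomputable def BBg_G (r : ℝ) : ℝ :=
  (1 - stp 64 81 (r ^ 2)) * (r / 4) + stp 64 81 (r ^ 2) * Real.sqrt (9 - 30 / r)

theorem BBg_norm (p : ℂ) : ‖ggo p‖ = BBg_G ‖p‖ := by
  rw [BBg_ggo, norm_mul, Complex.norm_real, Real.norm_eq_abs, abs_of_pos (BBg_pos _)]
  unfold BBg_k BBg_G
  rw [Real.sqrt_sq (norm_nonneg p)]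
  rcases (norm_nonneg p).eq_or_lt with h | h
  · rw [← h, Pool.Agent.CSG.stp_zero (by norm_num : (64 : ℝ) < 81) (by norm_num)]
    simp
  · field_simp

theorem BBg_Gin {r : ℝ} (h0 : 0 ≤ r) (h : r ≤ 8) : BBg_G r = r / 4 := by
  unfold BBg_G
  rw [Pool.Agent.CSG.stp_zero (by norm_num : (64 : ℝ) < 81) (by nlinarith)]
  ring

theorem BBg_Gout {r : ℝ} (h : 9 ≤ r) : BBg_G r = Real.sqrt (9 - 30 / r) := by
  unfold BBg_G
  rw [Pool.Agent.CSG.stp_one (by norm_num : (64 : ℝ) < 81) (by nlinarith)]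
  ring

theorem BBg_Bmono {r r' : ℝ} (h : 8 ≤ r) (h' : r < r') :
    Real.sqrt (9 - 30 / r) < Real.sqrt (9 - 30 / r') := by
  apply Real.sqrt_lt_sqrt
  · linarith [BBg_B h]
  · have : 30 / r' < 30 / r := by
      apply div_lt_div_of_pos_left (by norm_num) (by linarith) h'
    linarith

theorem BBg_G_mid {r r' : ℝ} (h : 8 ≤ r) (h' : r < r') (h9 : r' ≤ 9) : BBg_G r < BBg_G r' := by
  have hB := BBg_Bmono h h'
  have hl := BBg_Blarge (le_trans h h'.le)
  have hS : stp 64 81 (r ^ 2) ≤ stp 64 81 (r' ^ 2) :=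
    Pool.Agent.CSG.stp_mono (by norm_num) (by nlinarith)
  have h1 := Pool.Agent.CSG.stp_nonneg 64 81 (r ^ 2)
  have h2 := Pool.Agent.CSG.stp_le_one 64 81 (r ^ 2)
  have e : BBg_G r' - BBg_G r = (stp 64 81 (r' ^ 2) - stp 64 81 (r ^ 2)) *
      (Real.sqrt (9 - 30 / r') - r' / 4) + ((1 - stp 64 81 (r ^ 2)) * ((r' - r) / 4) +
      stp 64 81 (r ^ 2) * (Real.sqrt (9 - 30 / r') - Real.sqrt (9 - 30 / r))) := by
    unfold BBg_G
    ring
  have h3 : 0 ≤ (stp 64 81 (r' ^ 2) - stp 64 81 (r ^ 2)) *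
      (Real.sqrt (9 - 30 / r') - r' / 4) := mul_nonneg (by linarith) (by linarith)
  have h4 : 0 < (1 - stp 64 81 (r ^ 2)) * ((r' - r) / 4) +
      stp 64 81 (r ^ 2) * (Real.sqrt (9 - 30 / r') - Real.sqrt (9 - 30 / r)) := by
    rcases h1.eq_or_lt with h6 | h6
    · rw [← h6]
      linarith
    · have h7 := mul_pos h6 (sub_pos.2 hB)
      have h8 : 0 ≤ (1 - stp 64 81 (r ^ 2)) * ((r' - r) / 4) :=
        mul_nonneg (by linarith) (by linarith)
      linarith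
  linarith

theorem BBg_G_mono {r r' : ℝ} (h0 : 0 ≤ r) (h : r < r') : BBg_G r < BBg_G r' := by
  rcases le_or_gt r' 8 with h8 | h8
  · rw [BBg_Gin h0 (by linarith), BBg_Gin (by linarith) h8]
    linarith
  · rcases lt_or_ge r 8 with hr | hr
    · rw [BBg_Gin h0 hr.le]
      have hl := BBg_Blarge h8.le
      have h1 := Pool.Agent.CSG.stp_nonneg 64 81 (r' ^ 2)
      have h2 := Pool.Agent.CSG.stp_le_one 64 81 (r' ^ 2)
      unfold BBg_G
      have h3 : 0 ≤ (1 - stp 64 81 (r' ^ 2)) * (r' / 4 - 2) := mul_nonneg (by linarith) (by linarith)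
      have h4 : 0 ≤ stp 64 81 (r' ^ 2) * (Real.sqrt (9 - 30 / r') - 2) :=
        mul_nonneg h1 (by linarith)
      nlinarith
    · rcases le_or_gt r' 9 with h9 | h9
      · exact BBg_G_mid hr h h9
      · rcases lt_or_ge r 9 with hr9 | hr9
        · have h1 := BBg_G_mid hr hr9 le_rfl
          have h2 := BBg_Bmono (by norm_num) h9
          rw [← BBg_Gout le_rfl, ← BBg_Gout h9.le] at h2
          exact h1.trans h2
        · rw [BBg_Gout hr9, BBg_Gout h9.le]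
          exact BBg_Bmono hr h

theorem ggo_norm_mono {p p' : ℂ} (h : ‖p‖ < ‖p'‖) : ‖ggo p‖ < ‖ggo p'‖ := by
  rw [BBg_norm, BBg_norm]
  exact BBg_G_mono (norm_nonneg _) h

/-- `ggo p` is a nonnegative multiple of `p`, positive if `p ≠ 0` -/
theorem ggo_dir {p : ℂ} : ∃ c : ℝ, 0 < c ∧ ggo p = c * p :=
  ⟨BBg_k (‖p‖ ^ 2), BBg_pos _, rfl⟩

theorem ggo_in {p : ℂ} (h : ‖p‖ ≤ 8) : ggo p = p / 4 := by
  rw [BBg_ggo, BBg_in (by nlinarith [norm_nonneg p])]
  push_cast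
  ring

theorem ggo_out {p : ℂ} (h : 9 ≤ ‖p‖) : ‖ggo p‖ ^ 2 = 9 - 30 / ‖p‖ := by
  rw [BBg_norm, BBg_Gout h, Real.sq_sqrt]
  linarith [BBg_B (by linarith : 8 ≤ ‖p‖)]

end Pool.Agent.RSG
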