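import Pool.Agent.RSG.Blk
import Pool.Agent.RSG.Fn
import Pool.Agent.CSG.FunBasic
import Pool.Agent.RSG.BBg

/-!
# RSG/BBf: the chart far from the strands   (difficulty 3)

`p ≠ ±4`, `χ = stp 64 81 (|p|²)`, `BBo = (1 - χ) outB + χ farB`, `H = HH p`.
* `HH_re`: `conj (p - 4) (p + 4) = |p|² - 16 + 4 (conj p - p)` has real part `|p|² - 16 > 0` if
  `|p| > 4`, so `Re (HH p) > 0`.
* `BBo_zero`: `outB (p, 0) = (p/4, 0, 0)`; `farB (p, 0) = (p/|p| √(9 - 30/|p|), 0, 0)` (`cos 0 = 1`);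
  `√(|p|²) = |p|`.  (If `p = 0` then `χ = 0`, and division by `0` gives `0`.)
* `BBo_ld` for `|p| ≤ 11`, `p ≠ ±4`: `ld_block` with `g = ggo`.  Smoothness near `(p, 0)`: `outB` is
  smooth for `p ≠ ±4`; if `|p| < 8` then `BBo = outB` near `(p, 0)`; if `|p| ≥ 8`, `farB` is smooth
  near `(p, 0)` (`30/|p| cos ≤ 30/7 < 9`).  `hs`: the derivative of `r ↦ (BBo (p, r c)).2` at `0`,
  `c = c₁ + i c₂`, is `((1 - χ) Re (c H) + χ (10 π / |p|) c₁, (1 - χ) Im (c H) + χ c₂)`.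
  Suppose it is `0`.  If `|p| < 8`: `χ = 0` and `c H = 0`, so `c = 0`.  If `|p| ≥ 8`: with
  `H = a + i b`, `a > 0`: `c₁ · first + c₂ · second = (1 - χ) a (c₁² + c₂²) + χ ((10π/|p|) c₁² + c₂²)
  = 0`, so `c = 0` (`0 ≤ χ ≤ 1`).
-/

open scoped Manifold ContDiff Topology
open Set Filter
open Complex (I)
open Pool.Agent.CSG (stp stp_smooth stp_zero stp_one stp_nonneg stp_le_one)

namespace Pool.Agent.RSG

theorem HH_re {p : ℂ} (h : 4 < ‖p‖) : 0 < (HH p).re := by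
  have h2 : 16 < p.re ^ 2 + p.im ^ 2 := by
    have := Complex.sq_norm p
    rw [Complex.normSq_apply] at this
    nlinarith [norm_nonneg p]
  have e : ((starRingEnd ℂ) (p - 4) * (p + 4)).re = p.re ^ 2 + p.im ^ 2 - 16 := by
    simp [Complex.mul_re, Complex.conj_re, Complex.conj_im]
    ring
  unfold HH
  rw [one_div, Complex.inv_re]
  apply div_pos
  · rw [e]; linarith
  · apply Complex.normSq_pos.2
    intro h0
    rw [h0] at e
    simp at e
    linarith

theorem HH_ne {p : ℂ} (h1 : p ≠ 4) (h2 : p ≠ -4) : HH p ≠ 0 := by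
  unfold HH
  apply one_div_ne_zero
  apply mul_ne_zero
  · rw [Ne, map_eq_zero]
    exact sub_ne_zero.2 h1
  · intro h
    exact h2 (eq_neg_of_add_eq_zero_left h)

theorem BBf_sqrt (p : ℂ) : Real.sqrt (‖p‖ ^ 2) = ‖p‖ := Real.sqrt_sq (norm_nonneg p)

theorem BBo_zero (p : ℂ) : BBo (p, 0) = (ggo p, 0, 0) := by
  unfold BBo mix outB farB ggo
  refine Prod.ext ?_ (by ext <;> simp)
  simp
  ring

theorem BBf_HH_smooth {p : ℂ} (h1 : p ≠ 4) (h2 : p ≠ -4) : ContDiffAt ℝ ∞ HH p := by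
  have e : HH = fun p : ℂ => ((starRingEnd ℂ) (p - 4) * (p + 4))⁻¹ := by
    funext p; unfold HH; rw [one_div]
  rw [e]
  apply ContDiffAt.inv
  · apply ContDiffAt.mul
    · exact (Complex.conjCLE.contDiff.comp (contDiff_id.sub contDiff_const)).contDiffAt
    · exact (contDiff_id.add contDiff_const).contDiffAt
  · have := HH_ne h1 h2
    unfold HH at this
    intro h0
    rw [h0] at this
    simp at this

theorem BBf_out_smooth {q : ℂ × ℂ} (h1 : q.1 ≠ 4) (h2 : q.1 ≠ -4) : ContDiffAt ℝ ∞ outB q := by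
  have hH : ContDiffAt ℝ ∞ (fun q : ℂ × ℂ => q.2 * HH q.1) q :=
    contDiffAt_snd.mul ((BBf_HH_smooth h1 h2).comp q contDiffAt_fst)
  have a1 : ContDiffAt ℝ ∞ (fun q : ℂ × ℂ => q.1 / 4) q := contDiffAt_fst.div_const _
  have a2 : ContDiffAt ℝ ∞ (fun q : ℂ × ℂ => (q.2 * HH q.1).re) q :=
    Complex.reCLM.contDiff.contDiffAt.comp q hH
  have a3 : ContDiffAt ℝ ∞ (fun q : ℂ × ℂ => (q.2 * HH q.1).im) q :=
    Complex.imCLM.contDiff.contDiffAt.comp q hH
  exact a1.prodMk (a2.prodMk a3)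

theorem BBf_far_smooth {q : ℂ × ℂ} (h1 : 7 < ‖q.1‖) : ContDiffAt ℝ ∞ farB q := by
  have h0 : q.1 ≠ 0 := by intro h; rw [h] at h1; simp at h1; linarith
  have hn : ContDiffAt ℝ ∞ (fun q : ℂ × ℂ => ‖q.1‖) q :=
    (contDiffAt_norm ℝ h0).comp q contDiffAt_fst
  have hn0 : ‖q.1‖ ≠ 0 := by linarith
  have hre : ContDiffAt ℝ ∞ (fun q : ℂ × ℂ => 2 * Real.pi * q.2.re) q :=
    contDiffAt_const.mul (Complex.reCLM.contDiff.contDiffAt.comp q contDiffAt_snd)
  have hdiv (k : ℝ) : ContDiffAt ℝ ∞ (fun q : ℂ × ℂ => k / ‖q.1‖) q :=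
    contDiffAt_const.div hn hn0
  have hcos : ContDiffAt ℝ ∞ (fun q : ℂ × ℂ =>
      9 - 30 / ‖q.1‖ * Real.cos (2 * Real.pi * q.2.re)) q :=
    contDiffAt_const.sub ((hdiv 30).mul (Real.contDiff_cos.contDiffAt.comp q hre))
  have hpos : 9 - 30 / ‖q.1‖ * Real.cos (2 * Real.pi * q.2.re) ≠ 0 := by
    have h3 : 30 / ‖q.1‖ < 30 / 7 := by
      apply div_lt_div_of_pos_left <;> linarith
    have h4 : 0 < 30 / ‖q.1‖ := by positivity
    have h5 := Real.cos_le_one (2 * Real.pi * q.2.re)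
    have h6 : 30 / ‖q.1‖ * Real.cos (2 * Real.pi * q.2.re) ≤ 30 / ‖q.1‖ * 1 := by
      apply mul_le_mul_of_nonneg_left h5 h4.le
    intro h7
    linarith
  have hsq : ContDiffAt ℝ ∞ (fun q : ℂ × ℂ =>
      Real.sqrt (9 - 30 / ‖q.1‖ * Real.cos (2 * Real.pi * q.2.re))) q := hcos.sqrt hpos
  have hof {f : ℂ × ℂ → ℝ} (hf : ContDiffAt ℝ ∞ f q) : ContDiffAt ℝ ∞ (fun q => (f q : ℂ)) q :=
    Complex.ofRealCLM.contDiff.contDiffAt.comp q hf
  have a1 : ContDiffAt ℝ ∞ (fun q : ℂ × ℂ => q.1 / ‖q.1‖ *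
      (Real.sqrt (9 - 30 / ‖q.1‖ * Real.cos (2 * Real.pi * q.2.re)) : ℂ)) q := by
    apply ContDiffAt.mul _ (hof hsq)
    have hn0' : ((‖q.1‖ : ℝ) : ℂ) ≠ 0 := by exact_mod_cast hn0
    have := (hof hn).inv hn0'
    simp only [div_eq_mul_inv]
    exact contDiffAt_fst.mul this
  have a2 : ContDiffAt ℝ ∞ (fun q : ℂ × ℂ =>
      5 / ‖q.1‖ * Real.sin (2 * Real.pi * q.2.re)) q :=
    (hdiv 5).mul (Real.contDiff_sin.contDiffAt.comp q hre)
  have a3 : ContDiffAt ℝ ∞ (fun q : ℂ × ℂ => q.2.im) q :=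
    Complex.imCLM.contDiff.contDiffAt.comp q contDiffAt_snd
  exact a1.prodMk (a2.prodMk a3)

theorem BBf_chi_smooth (q : ℂ × ℂ) : ContDiffAt ℝ ∞ (fun q : ℂ × ℂ => stp 64 81 (‖q.1‖ ^ 2)) q := by
  have : ContDiffAt ℝ ∞ (fun q : ℂ × ℂ => ‖q.1‖ ^ 2) q := by
    have : ContDiff ℝ ∞ (fun z : ℂ => ‖z‖ ^ 2) := contDiff_norm_sq ℝ
    exact this.contDiffAt.comp q contDiffAt_fst
  exact (stp_smooth 64 81).contDiffAt.comp q this

theorem BBf_smooth {q : ℂ × ℂ} (h1 : q.1 ≠ 4) (h2 : q.1 ≠ -4) : ContDiffAt ℝ ∞ BBo q := by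
  by_cases h : ‖q.1‖ < 8
  · have : BBo =ᶠ[𝓝 q] outB := by
      have ho : ∀ᶠ q' : ℂ × ℂ in 𝓝 q, ‖q'.1‖ < 8 :=
        (continuous_fst.norm.continuousAt.eventually_lt continuousAt_const h)
      filter_upwards [ho] with q' hq'
      unfold BBo mix
      rw [stp_zero (by norm_num) (by nlinarith [norm_nonneg q'.1])]
      simp
    exact (BBf_out_smooth h1 h2).congr_of_eventuallyEq this
  · have hc := BBf_chi_smooth q
    exact ((contDiffAt_const.sub hc).smul (BBf_out_smooth h1 h2)).add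
      (hc.smul (BBf_far_smooth (by linarith)))

theorem BBf_deriv (p c : ℂ) : HasDerivAt (fun r : ℝ => (BBo (p, (r : ℂ) * c)).2)
    ((1 - stp 64 81 (‖p‖ ^ 2)) * (c * HH p).re + stp 64 81 (‖p‖ ^ 2) * (5 / ‖p‖ * (2 * Real.pi * c.re)),
     (1 - stp 64 81 (‖p‖ ^ 2)) * (c * HH p).im + stp 64 81 (‖p‖ ^ 2) * c.im) 0 := by
  have e : (fun r : ℝ => (BBo (p, (r : ℂ) * c)).2) = fun r : ℝ =>
      ((1 - stp 64 81 (‖p‖ ^ 2)) * (r * (c * HH p).re) +
        stp 64 81 (‖p‖ ^ 2) * (5 / ‖p‖ * Real.sin (r * (2 * Real.pi * c.re))),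
       (1 - stp 64 81 (‖p‖ ^ 2)) * (r * (c * HH p).im) + stp 64 81 (‖p‖ ^ 2) * (r * c.im)) := by
    funext r
    unfold BBo mix outB farB
    simp only [smul_eq_mul, Prod.mk_add_mk, Prod.smul_mk, mul_assoc]
    rw [Complex.re_ofReal_mul, Complex.im_ofReal_mul, Complex.re_ofReal_mul, Complex.im_ofReal_mul]
    rw [show 2 * (Real.pi * (r * c.re)) = r * (2 * (Real.pi * c.re)) by ring]
  rw [e]
  have hid : HasDerivAt (fun r : ℝ => r) 1 0 := hasDerivAt_id 0
  have b1 (k : ℝ) : HasDerivAt (fun r : ℝ => r * k) k 0 := by simpa using hid.mul_const k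
  have b2 : HasDerivAt (fun r : ℝ => Real.sin (r * (2 * Real.pi * c.re))) (2 * Real.pi * c.re) 0 := by
    have := (b1 (2 * Real.pi * c.re)).sin
    simpa using this
  exact (((b1 _).const_mul _).add ((b2.const_mul _).const_mul _)).prodMk
    (((b1 _).const_mul _).add ((b1 _).const_mul _))

theorem BBo_ld {p : ℂ} (h1 : p ≠ 4) (h2 : p ≠ -4) :
    IsLocalDiffeomorphAt 𝓘(ℝ, ℂ × ℂ) 𝓘(ℝ, ℂ × ℝ × ℝ) ∞ BBo (p, 0) := by
  apply ld_block (g := ggo)
  · have e1 : ∀ᶠ q : ℂ × ℂ in 𝓝 (p, (0:ℂ)), q.1 ≠ 4 :=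
      continuous_fst.continuousAt.eventually_ne h1
    have e2 : ∀ᶠ q : ℂ × ℂ in 𝓝 (p, (0:ℂ)), q.1 ≠ -4 :=
      continuous_fst.continuousAt.eventually_ne h2
    filter_upwards [e1, e2] with q hq1 hq2 using BBf_smooth hq1 hq2
  · exact Eventually.of_forall BBo_zero
  · intro v hv; exact ggo_fderiv v hv
  · intro c hc
    have hd := (BBf_deriv p c).unique hc
    have d1 := congrArg Prod.fst hd
    have d2 := congrArg Prod.snd hd
    simp only [Prod.fst_zero, Prod.snd_zero] at d1 d2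
    by_cases h : ‖p‖ < 8
    · rw [stp_zero (by norm_num) (by nlinarith [norm_nonneg p])] at d1 d2
      have : c * HH p = 0 := by
        apply Complex.ext
        · simpa using d1
        · simpa using d2
      rcases mul_eq_zero.1 this with h0 | h0
      · exact h0
      · exact absurd h0 (HH_ne h1 h2)
    · push Not at h
      have ha := HH_re (p := p) (by linarith)
      set χ := stp 64 81 (‖p‖ ^ 2) with hχ
      have x0 : 0 ≤ χ := stp_nonneg _ _ _
      have x1 : χ ≤ 1 := stp_le_one _ _ _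
      set k := 5 / ‖p‖ * (2 * Real.pi) with hk
      have k0 : 0 < k := by
        have := Real.pi_pos
        have : 0 < ‖p‖ := by linarith
        positivity
      rw [Complex.mul_re] at d1
      rw [Complex.mul_im] at d2
      have s : (1 - χ) * (HH p).re * (c.re ^ 2 + c.im ^ 2) + χ * (k * c.re ^ 2 + c.im ^ 2) = 0 := by
        rw [hk]
        linear_combination c.re * d1 + c.im * d2
      have t1 : 0 ≤ (1 - χ) * (HH p).re * (c.re ^ 2 + c.im ^ 2) := by
        apply mul_nonneg (mul_nonneg (by linarith) ha.le) (by positivity)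
      have t2 : 0 ≤ χ * (k * c.re ^ 2 + c.im ^ 2) := by positivity
      rcases eq_or_lt_of_le x0 with hx | hx
      · rw [← hx] at s
        have : c.re ^ 2 + c.im ^ 2 = 0 := by
          have : (HH p).re * (c.re ^ 2 + c.im ^ 2) = 0 := by linarith
          rcases mul_eq_zero.1 this with h' | h'
          · linarith
          · exact h'
        apply Complex.ext
        · simp only [Complex.zero_re]; nlinarith
        · simp only [Complex.zero_im]; nlinarith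
      · have : k * c.re ^ 2 + c.im ^ 2 = 0 := by
          have : χ * (k * c.re ^ 2 + c.im ^ 2) = 0 := by linarith
          rcases mul_eq_zero.1 this with h' | h'
          · linarith
          · exact h'
        have u1 : k * c.re ^ 2 = 0 := by nlinarith [mul_nonneg k0.le (sq_nonneg c.re), sq_nonneg c.im]
        have u2 : c.im ^ 2 = 0 := by nlinarith
        apply Complex.ext
        · simp only [Complex.zero_re]
          rcases mul_eq_zero.1 u1 with h' | h'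
          · linarith
          · exact pow_eq_zero_iff (two_ne_zero) |>.1 h'
        · simp only [Complex.zero_im]
          exact pow_eq_zero_iff (two_ne_zero) |>.1 u2

end Pool.Agent.RSG
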