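import Pool.Agent.CSG.LDb
import Pool.Agent.RSG.Defs

/-!
# RSG/Blk: a block triangular derivative, radial maps   (difficulty 2)

* `ld_block`: by `CSG.ld_of_fderiv` it is enough to show that `L = fderiv G (p, 0)` is injective
  (`finrank (C × C) = 4 = finrank (C × R × R)`: `simp`).  Let `L (a, b) = 0`.  As
  `(G (p', 0)).2 = 0` for `p'` near `p`, `(L (a, 0)).2 = 0`, so `(L (0, b)).2 = 0`.  The curve
  `r ↦ (G (p, r b)).2` has derivative `(L (0, b)).2 = 0` at `0`, so `b = 0` by `hs`.  Then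
  `0 = (L (a, 0)).1 = fderiv g p a`, since `g p' = (G (p', 0)).1` for `p'` near `p`.
* `radial_inj`: with `q = |P|²`: `D (v) = h(q) v + 2 h'(q) <P, v> P`.  If `D v = 0`, the scalar product
  with `P` gives `(h + 2 q h') <P, v> = 0`, so `<P, v> = 0`, so `h v = 0`, so `v = 0`.
-/

open scoped Manifold ContDiff Topology
open Set Filter

namespace Pool.Agent.RSG

theorem ld_block {G : ℂ × ℂ → ℂ × ℝ × ℝ} {p : ℂ} {g : ℂ → ℂ}
    (hG : ∀ᶠ q in 𝓝 (p, (0 : ℂ)), ContDiffAt ℝ ∞ G q)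
    (h0 : ∀ᶠ p' in 𝓝 p, G (p', 0) = (g p', 0, 0))
    (hg : ∀ v, fderiv ℝ g p v = 0 → v = 0)
    (hs : ∀ c : ℂ, HasDerivAt (fun r : ℝ => (G (p, (r : ℂ) * c)).2) 0 0 → c = 0) :
    IsLocalDiffeomorphAt 𝓘(ℝ, ℂ × ℂ) 𝓘(ℝ, ℂ × ℝ × ℝ) ∞ G (p, 0) := by
  have hn : (∞ : WithTop ℕ∞) ≠ 0 := by simp
  refine Pool.Agent.CSG.ld_of_fderiv hG (by simp) ?_
  rintro ⟨a, b⟩ hab
  have hd : HasFDerivAt G (fderiv ℝ G (p, 0)) (p, 0) :=
    (hG.self_of_nhds.differentiableAt hn).hasFDerivAt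
  set L := fderiv ℝ G (p, 0) with hL
  -- horizontal direction
  have i1 : HasFDerivAt (fun p' : ℂ => (p', (0 : ℂ))) (ContinuousLinearMap.inl ℝ ℂ ℂ) p :=
    (ContinuousLinearMap.inl ℝ ℂ ℂ).hasFDerivAt
  have c1 : HasFDerivAt (fun p' : ℂ => G (p', 0)) (L.comp (ContinuousLinearMap.inl ℝ ℂ ℂ)) p :=
    HasFDerivAt.comp (f := fun p' : ℂ => (p', (0 : ℂ))) p hd i1
  have c2 : HasFDerivAt (fun p' : ℂ => (g p', (0 : ℝ), (0 : ℝ)))
      (L.comp (ContinuousLinearMap.inl ℝ ℂ ℂ)) p :=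
    c1.congr_of_eventuallyEq (h0.mono fun _ h => h.symm)
  have c3 : HasFDerivAt g ((ContinuousLinearMap.fst ℝ ℂ (ℝ × ℝ)).comp
      (L.comp (ContinuousLinearMap.inl ℝ ℂ ℂ))) p := c2.fst
  have c4 : HasFDerivAt (fun _ : ℂ => ((0 : ℝ), (0 : ℝ))) ((ContinuousLinearMap.snd ℝ ℂ (ℝ × ℝ)).comp
      (L.comp (ContinuousLinearMap.inl ℝ ℂ ℂ))) p := c2.snd
  have c5 := c4.unique (hasFDerivAt_const _ _)
  have e1 : (L (a, 0)).2 = 0 := by
    have := DFunLike.congr_fun c5 a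
    simpa using this
  have e2 : fderiv ℝ g p a = (L (a, 0)).1 := by
    rw [c3.fderiv]
    simp
  -- vertical direction
  have e3 : L (a, b) = L (a, 0) + L (0, b) := by
    rw [← map_add]
    simp
  have e4 : (L (0, b)).2 = 0 := by
    have h1 : (L (a, b)).2 = 0 := by rw [hab]; rfl
    rw [e3] at h1
    have h2 : (L (a, 0)).2 + (L (0, b)).2 = 0 := h1
    rwa [e1, zero_add] at h2
  have v0 : HasDerivAt (fun r : ℝ => (p, (r : ℂ) * b)) ((0 : ℂ), b) 0 := by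
    have h1 : HasDerivAt (fun r : ℝ => (r : ℂ) * b) (1 * b) 0 :=
      (Complex.ofRealCLM.hasDerivAt (x := (0 : ℝ))).mul_const b
    rw [one_mul] at h1
    exact (hasDerivAt_const (0 : ℝ) p).prodMk h1
  have v1 : HasDerivAt (fun r : ℝ => G (p, (r : ℂ) * b)) (L (0, b)) 0 := by
    have h2 : HasFDerivAt G L (p, ((0 : ℝ) : ℂ) * b) := by
      simpa using hd
    exact HasFDerivAt.comp_hasDerivAt (f := fun r : ℝ => (p, (r : ℂ) * b)) (0 : ℝ) h2 v0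
  have v2 : HasDerivAt (fun r : ℝ => (G (p, (r : ℂ) * b)).2) (L (0, b)).2 0 :=
    HasFDerivAt.comp_hasDerivAt (0 : ℝ)
      ((ContinuousLinearMap.snd ℝ ℂ (ℝ × ℝ)).hasFDerivAt) v1
  rw [e4] at v2
  have hb : b = 0 := hs b v2
  subst hb
  have ha : a = 0 := by
    apply hg
    rw [e2, hab]
    rfl
  rw [ha]
  rfl

theorem radial_inj {h : ℝ → ℝ} {P : ℂ} (hd : DifferentiableAt ℝ h (‖P‖ ^ 2))
    (h0 : 0 < h (‖P‖ ^ 2)) (h1 : 0 < h (‖P‖ ^ 2) + 2 * ‖P‖ ^ 2 * deriv h (‖P‖ ^ 2)) (v : ℂ)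
    (hv : fderiv ℝ (fun P : ℂ => (h (‖P‖ ^ 2) : ℂ) * P) P v = 0) : v = 0 := by
  set q : ℝ := ‖P‖ ^ 2 with hq
  have hqe : q = P.re ^ 2 + P.im ^ 2 := by
    rw [hq, Complex.sq_norm, Complex.normSq_apply]; ring
  have dN : DifferentiableAt ℝ (fun P : ℂ => ‖P‖ ^ 2) P := differentiableAt_id.norm_sq ℝ
  have dh : DifferentiableAt ℝ (fun P : ℂ => h (‖P‖ ^ 2)) P :=
    DifferentiableAt.comp (f := fun P : ℂ => ‖P‖ ^ 2) P hd dN
  have dc : DifferentiableAt ℝ (fun P : ℂ => (h (‖P‖ ^ 2) : ℂ)) P :=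
    DifferentiableAt.comp P (Complex.ofRealCLM.differentiableAt) dh
  have df : DifferentiableAt ℝ (fun P : ℂ => (h (‖P‖ ^ 2) : ℂ) * P) P :=
    dc.mul differentiableAt_id
  set s : ℝ := P.re * v.re + P.im * v.im with hs
  -- the curve
  have k1 : HasDerivAt (fun t : ℝ => P + (t : ℂ) * v) v 0 := by
    have h1 : HasDerivAt (fun r : ℝ => (r : ℂ) * v) (1 * v) 0 :=
      (Complex.ofRealCLM.hasDerivAt (x := (0 : ℝ))).mul_const v
    rw [one_mul] at h1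
    exact h1.const_add P
  have k2 : HasDerivAt (fun t : ℝ => (h (‖P + (t : ℂ) * v‖ ^ 2) : ℂ) * (P + (t : ℂ) * v))
      (fderiv ℝ (fun P : ℂ => (h (‖P‖ ^ 2) : ℂ) * P) P v) 0 := by
    have h2 : HasFDerivAt (fun P : ℂ => (h (‖P‖ ^ 2) : ℂ) * P)
        (fderiv ℝ (fun P : ℂ => (h (‖P‖ ^ 2) : ℂ) * P) P) (P + ((0 : ℝ) : ℂ) * v) := by
      simpa using df.hasFDerivAt
    exact HasFDerivAt.comp_hasDerivAt (f := fun t : ℝ => P + (t : ℂ) * v) (0 : ℝ) h2 k1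
  have hN : ∀ t : ℝ, ‖P + (t : ℂ) * v‖ ^ 2 = q + 2 * s * t + (v.re ^ 2 + v.im ^ 2) * t ^ 2 := by
    intro t
    rw [Complex.sq_norm, Complex.normSq_apply, hqe, hs]
    simp
    ring
  have k3 : HasDerivAt (fun t : ℝ => ‖P + (t : ℂ) * v‖ ^ 2) (2 * s) 0 := by
    have e : (fun t : ℝ => ‖P + (t : ℂ) * v‖ ^ 2) =
        fun t => q + 2 * s * t + (v.re ^ 2 + v.im ^ 2) * t ^ 2 := funext hN
    rw [e]
    have a1 : HasDerivAt (fun t : ℝ => 2 * s * t) (2 * s * 1) 0 :=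
      (hasDerivAt_id (0 : ℝ)).const_mul (2 * s)
    have a2 : HasDerivAt (fun t : ℝ => (v.re ^ 2 + v.im ^ 2) * t ^ 2)
        ((v.re ^ 2 + v.im ^ 2) * (2 * (0 : ℝ) ^ (2 - 1) * 1)) 0 := by
      have := ((hasDerivAt_id (0 : ℝ)).pow 2).const_mul (v.re ^ 2 + v.im ^ 2)
      simpa using this
    have a3 := (a1.const_add q).add a2
    have a4 : 2 * s * 1 + (v.re ^ 2 + v.im ^ 2) * (2 * (0 : ℝ) ^ (2 - 1) * 1) = 2 * s := by
      norm_num
    rw [a4] at a3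
    exact a3
  have k4 : HasDerivAt (fun t : ℝ => h (‖P + (t : ℂ) * v‖ ^ 2)) (deriv h q * (2 * s)) 0 := by
    have hh : HasDerivAt h (deriv h q) (‖P + ((0 : ℝ) : ℂ) * v‖ ^ 2) := by
      have h0' : ‖P + ((0 : ℝ) : ℂ) * v‖ ^ 2 = q := by simp [hq]
      rw [h0']
      exact hd.hasDerivAt
    exact hh.comp (0 : ℝ) k3
  have k5 : HasDerivAt (fun t : ℝ => ((h (‖P + (t : ℂ) * v‖ ^ 2) : ℝ) : ℂ))
      ((deriv h q * (2 * s) : ℝ) : ℂ) 0 := k4.ofReal_comp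
  have k6 := k5.mul k1
  have k7 := k2.unique k6
  rw [hv] at k7
  have k8 : ((deriv h q * (2 * s) : ℝ) : ℂ) * P + ((h q : ℝ) : ℂ) * v = 0 := by
    have := k7.symm
    simpa [hq] using this
  have r1 := congrArg Complex.re k8
  have r2 := congrArg Complex.im k8
  simp only [Complex.add_re, Complex.add_im, Complex.mul_re, Complex.mul_im, Complex.ofReal_re,
    Complex.ofReal_im, zero_mul, sub_zero, add_zero, Complex.zero_re, Complex.zero_im] at r1 r2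
  have s0 : s * (h q + 2 * q * deriv h q) = 0 := by
    have : P.re * (deriv h q * (2 * s) * P.re + h q * v.re) +
        P.im * (deriv h q * (2 * s) * P.im + h q * v.im) = 0 := by rw [r1, r2]; ring
    rw [hqe]
    rw [hqe] at this
    linear_combination this + (h (P.re ^ 2 + P.im ^ 2)) * hs
  have s1 : s = 0 := by
    rcases mul_eq_zero.1 s0 with h | h
    · exact h
    · exact absurd h h1.ne'
  rw [s1] at r1 r2
  have z1 : h q * v.re = 0 := by linarith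
  have z2 : h q * v.im = 0 := by linarith
  apply Complex.ext
  · exact (mul_eq_zero.1 z1).resolve_left h0.ne'
  · exact (mul_eq_zero.1 z2).resolve_left h0.ne'

end Pool.Agent.RSG
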