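import Pool.Agent.RSG.ExM
import Pool.Agent.RSG.Fn
import Pool.Agent.RSG.LDc

/-!
# RSG/FiB: derivative of `Fi`, the map `XW`   (difficulty 3)

`q = (x, w)`.
* `Fi_deriv`: along `w = r c` (`r` real, `r = 0`), with `W = c / x`:
  `d/dr (x + r c/2)/(x - r c/2) = W` at `r = 0`, so `d/dr log(..) = W`, `d/dr tV = Im W / 2π`.
  `uV (x, r c) = 2 r Re (x̄ c) = 2 r |x|² Re W`; `SV (x, r c) = 2|x|² + r²|c|²/2` has derivative `0`,
  so `g(r) = √(1 - SV²) - i δ uV` has `g(0) = √(1 - 4|x|⁴) =: a > 0`,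
  `g'(0) = - 2 i δ |x|² Re W`, and `d/dr Im log g = - 2 δ |x|² Re W / a`.  Hence
  `d/dr (16 ε lV) = 16 ε (- δ |x|² Re W / (π a) + n Im W / 2π)`.
* `XW_linear`, `XW_div`: insert `w = r c`, `c = (XW δ ε (p, c')).2` where `ν = r c'`: `XW` is real linear in `ν`,
  `x = cj ε (p - 4δ)/2`, and `W = c / x`: if `δ ε = -1` then `c = c' om δ p`,
  `W = c' om δ p · 2 / cj ε (p - 4δ) = c' HH p`; if `δ ε = 1` then `c = - conj (c' om δ p)` and
  `W = - conj (c' HH p)`.  (`HH p = 1/(conj (p - 4) (p + 4))`, `om 1 p = 1/(2 (p + 4))`,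
  `om (-1) p = 1/(2 conj (p - 4))`.)  In both cases `Im W = Im (c' HH p)` and
  `- δ ε Re W = Re (c' HH p)`.  (`ε² = 1`, `δ² = 1`.)
-/

open scoped Manifold ContDiff Topology
open Set Filter
open Complex (I)

namespace Pool.Agent.RSG

theorem FiB_tV {x : ℂ} (h0 : x ≠ 0) (c : ℂ) :
    HasDerivAt (fun r : ℝ => tV (x, (r : ℂ) * c)) ((c / x).im / (2 * Real.pi)) 0 := by
  have hid : HasDerivAt (fun r : ℝ => (r : ℂ)) 1 0 := by
    simpa using (hasDerivAt_id (0:ℝ)).ofReal_comp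
  have hn : HasDerivAt (fun r : ℝ => x + (r : ℂ) * c / 2) (c / 2) 0 := by
    have := (((hid.mul_const c).div_const 2).const_add x)
    simpa using this
  have hd : HasDerivAt (fun r : ℝ => x - (r : ℂ) * c / 2) (-(c / 2)) 0 := by
    have := (((hid.mul_const c).div_const 2).const_sub x)
    simpa using this
  have hq : HasDerivAt (fun r : ℝ => (x + (r : ℂ) * c / 2) / (x - (r : ℂ) * c / 2)) (c / x) 0 := by
    refine (hn.fun_div hd (by simpa using h0)).congr_deriv ?_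
    simp
    field_simp
    ring
  have hl : HasDerivAt (fun r : ℝ => Complex.log ((x + (r : ℂ) * c / 2) / (x - (r : ℂ) * c / 2)))
      (c / x) 0 := by
    refine (hq.clog_real (by simp [h0, Complex.slitPlane])).congr_deriv ?_
    simp [h0]
  have hi : HasDerivAt (fun r : ℝ =>
      (Complex.log ((x + (r : ℂ) * c / 2) / (x - (r : ℂ) * c / 2))).im) (c / x).im 0 :=
    Complex.imCLM.hasFDerivAt.comp_hasDerivAt 0 hl
  exact hi.div_const _

theorem FiB_lV (δ : ℝ) (n : ℤ) {x : ℂ} (h0 : x ≠ 0) (h1 : 2 * ‖x‖ ^ 2 < 1) (c : ℂ) :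
    HasDerivAt (fun r : ℝ => lV δ n (x, (r : ℂ) * c))
      (-(δ * ‖x‖ ^ 2 * (c / x).re) / (Real.pi * Real.sqrt (1 - 4 * ‖x‖ ^ 4)) +
        n * ((c / x).im / (2 * Real.pi))) 0 := by
  have hid : HasDerivAt (fun r : ℝ => r) 1 0 := hasDerivAt_id 0
  have hS : HasDerivAt (fun r : ℝ => SV (x, (r : ℂ) * c)) 0 0 := by
    have e : (fun r : ℝ => SV (x, (r : ℂ) * c)) = fun r : ℝ => 2 * ‖x‖ ^ 2 + r ^ 2 * (‖c‖ ^ 2 / 2) := by
      funext r
      unfold SV
      simp only [norm_mul, Complex.norm_real, Real.norm_eq_abs, mul_pow, sq_abs]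
      ring
    rw [e]
    have := (((hid.pow 2).mul_const (‖c‖ ^ 2 / 2)).const_add (2 * ‖x‖ ^ 2))
    simpa using this
  have hS0 : SV (x, ((0 : ℝ) : ℂ) * c) = 2 * ‖x‖ ^ 2 := by
    unfold SV; simp
  have ha : 1 - (2 * ‖x‖ ^ 2) ^ 2 = 1 - 4 * ‖x‖ ^ 4 := by ring
  have hpos : 0 < 1 - 4 * ‖x‖ ^ 4 := by
    rw [← ha]; nlinarith [sq_nonneg (‖x‖)]
  have hsq : HasDerivAt (fun r : ℝ => Real.sqrt (1 - SV (x, (r : ℂ) * c) ^ 2)) 0 0 := by
    have h := (((hS.fun_pow 2).const_sub 1).sqrt (by rw [hS0, ha]; exact hpos.ne'))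
    simpa using h
  have hu : HasDerivAt (fun r : ℝ => uV (x, (r : ℂ) * c)) (2 * (‖x‖ ^ 2 * (c / x).re)) 0 := by
    have e : (fun r : ℝ => uV (x, (r : ℂ) * c)) = fun r : ℝ => r * (2 * (‖x‖ ^ 2 * (c / x).re)) := by
      funext r
      have hc : c = x * (c / x) := by field_simp
      unfold uV
      have : (starRingEnd ℂ) x * ((r : ℂ) * c) = ((r * ‖x‖ ^ 2 : ℝ) : ℂ) * (c / x) := by
        have h2 : (starRingEnd ℂ) x * x = ((‖x‖ ^ 2 : ℝ) : ℂ) := by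
          rw [mul_comm, Complex.mul_conj, Complex.normSq_eq_norm_sq]
        conv_lhs => rw [hc]
        push_cast
        push_cast at h2
        linear_combination (r : ℂ) * (c / x) * h2
      simp only
      rw [this, Complex.re_ofReal_mul]
      ring
    rw [e]
    simpa using hid.mul_const (2 * (‖x‖ ^ 2 * (c / x).re))
  have hg : HasDerivAt (fun r : ℝ => ((Real.sqrt (1 - SV (x, (r : ℂ) * c) ^ 2) : ℝ) : ℂ) -
      ((δ * uV (x, (r : ℂ) * c) : ℝ) : ℂ) * I) (-(((δ * (2 * (‖x‖ ^ 2 * (c / x).re)) : ℝ) : ℂ) * I)) 0 := by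
    refine (hsq.ofReal_comp.fun_sub ((hu.const_mul δ).ofReal_comp.mul_const I)).congr_deriv ?_
    simp
  have hg0 : ((Real.sqrt (1 - SV (x, ((0:ℝ) : ℂ) * c) ^ 2) : ℝ) : ℂ) -
      ((δ * uV (x, ((0:ℝ) : ℂ) * c) : ℝ) : ℂ) * I = ((Real.sqrt (1 - 4 * ‖x‖ ^ 4) : ℝ) : ℂ) := by
    rw [hS0, ha]
    simp [uV]
  have hsp : 0 < Real.sqrt (1 - 4 * ‖x‖ ^ 4) := Real.sqrt_pos.2 hpos
  have hl := hg.clog_real (by rw [hg0]; exact Or.inl (by simpa using hsp))
  rw [hg0] at hl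
  have hi := Complex.imCLM.hasFDerivAt.comp_hasDerivAt 0 hl
  have hi' := (hi.div_const (2 * Real.pi)).add ((FiB_tV h0 c).const_mul (n : ℝ))
  have hi2 : HasDerivAt (fun r : ℝ => lV δ n (x, (r : ℂ) * c)) _ 0 := hi'
  refine hi2.congr_deriv ?_
  have e2 : (Complex.imCLM (-(((δ * (2 * (‖x‖ ^ 2 * (c / x).re)) : ℝ) : ℂ) * I) /
      ((Real.sqrt (1 - 4 * ‖x‖ ^ 4) : ℝ) : ℂ))) =
      -(δ * (2 * (‖x‖ ^ 2 * (c / x).re))) / Real.sqrt (1 - 4 * ‖x‖ ^ 4) := by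
    rw [Complex.imCLM_apply, Complex.div_ofReal_im, Complex.neg_im, Complex.im_ofReal_mul, Complex.I_im]
    ring
  rw [e2]
  have hpi := Real.pi_pos
  field_simp

theorem Fi_deriv (δ ε : ℝ) (n j : ℤ) {x : ℂ} (h0 : x ≠ 0) (h1 : 2 * ‖x‖ ^ 2 < 1) (c : ℂ) :
    HasDerivAt (fun r : ℝ => (Fi δ ε n j (x, (r : ℂ) * c)).2)
      (16 * ε * (-(δ * ‖x‖ ^ 2 * (c / x).re) / (Real.pi * Real.sqrt (1 - 4 * ‖x‖ ^ 4)) +
        n * ((c / x).im / (2 * Real.pi))), (c / x).im / (2 * Real.pi)) 0 := by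
  exact ((FiB_lV δ n h0 h1 c).const_mul (16 * ε)).prodMk (FiB_tV h0 c)

theorem XW_linear (δ ε : ℝ) (p c : ℂ) (r : ℝ) :
    XW δ ε (p, (r : ℂ) * c) = ((XW δ ε (p, c)).1, (r : ℂ) * (XW δ ε (p, c)).2) := by
  unfold XW
  refine Prod.ext rfl ?_
  apply Complex.ext
  · simp only [mul_assoc, Complex.re_ofReal_mul]
    ring
  · simp only [mul_assoc, Complex.im_ofReal_mul]

theorem XW_div {δ ε : ℝ} (hδ : δ = 1 ∨ δ = -1) (hε : ε = 1 ∨ ε = -1) {p c : ℂ}
    (h1 : p ≠ 4) (h2 : p ≠ -4) :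
    -(δ * ε) * ((XW δ ε (p, c)).2 / (XW δ ε (p, c)).1).re = (c * HH p).re ∧
      ((XW δ ε (p, c)).2 / (XW δ ε (p, c)).1).im = (c * HH p).im := by
  have hp4 : p - 4 ≠ 0 := sub_ne_zero.2 h1
  have hp4' : p + 4 ≠ 0 := fun h => h2 (eq_neg_of_add_eq_zero_left h)
  have hc4 : (starRingEnd ℂ) (p - 4) ≠ 0 := by rwa [Ne, map_eq_zero]
  have hc4' : (starRingEnd ℂ) (p + 4) ≠ 0 := by rwa [Ne, map_eq_zero]
  have c1 (v : ℂ) : cj 1 v = v := by apply Complex.ext <;> simp [cj]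
  have c2 (v : ℂ) : cj (-1) v = (starRingEnd ℂ) v := by apply Complex.ext <;> simp [cj]
  have d1 (z : ℂ) : (⟨-(1 : ℝ) * z.re, z.im⟩ : ℂ) = -(starRingEnd ℂ) z := by
    apply Complex.ext <;> simp
  have d2 (z : ℂ) : (⟨-(-1 : ℝ) * z.re, z.im⟩ : ℂ) = z := by
    apply Complex.ext <;> simp
  have r1 : ∀ W : ℂ, W = -(starRingEnd ℂ) (c * HH p) →
      -(1 : ℝ) * W.re = (c * HH p).re ∧ W.im = (c * HH p).im := by
    intro W hW
    rw [hW, Complex.neg_re, Complex.neg_im, Complex.conj_re, Complex.conj_im]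
    constructor <;> ring
  have r2 : ∀ W : ℂ, W = c * HH p →
      -(-1 : ℝ) * W.re = (c * HH p).re ∧ W.im = (c * HH p).im := by
    intro W hW
    rw [hW]
    simp
  rcases hδ with rfl | rfl <;> rcases hε with rfl | rfl
  · have e : (1 : ℝ) * 1 = 1 := by norm_num
    unfold XW om
    simp only [e]
    apply r1
    rw [d1, c1, c1]
    unfold HH
    push_cast
    simp only [map_mul, map_div₀, map_one, Complex.conj_conj, mul_one, map_ofNat]
    field_simp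
  · have e : (1 : ℝ) * (-1) = -1 := by norm_num
    unfold XW om
    simp only [e]
    apply r2
    rw [d2, c1, c2]
    unfold HH
    push_cast
    simp only [mul_one]
    field_simp
  · have e : (-1 : ℝ) * 1 = -1 := by norm_num
    unfold XW om
    simp only [e]
    apply r2
    rw [d2, c1, c2]
    unfold HH
    push_cast
    have e1 : p - 4 * (-1) = p + 4 := by ring
    have e2 : p + 4 * (-1) = p - 4 := by ring
    rw [e1, e2]
    field_simp
  · have e : (-1 : ℝ) * (-1) = 1 := by norm_num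
    unfold XW om
    simp only [e]
    apply r1
    rw [d1, c2, c2]
    unfold HH
    push_cast
    have e1 : p - 4 * (-1) = p + 4 := by ring
    have e2 : p + 4 * (-1) = p - 4 := by ring
    rw [e1, e2]
    simp only [map_mul, map_div₀, map_one, Complex.conj_conj, map_ofNat]
    field_simp

end Pool.Agent.RSG
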