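import Pool.Agent.RSG.ExM
import Pool.Agent.RSG.FiM
import Pool.Agent.RSG.Blk
import Pool.Agent.CSG.FunBasic

/-!
# RSG/BBn: the chart near a strand   (difficulty 3)

`P = p - 4δ`, `0 < |P| ≤ 1` (`δ = ±1`, `ε = ±1`), `x = cj ε P / 2`, `|x| = |P|/2`, `2|x|² ≤ 1/2 < 1`;
`χ = stp (1/16) (1/4) (|P|²)`; `BBi = (1 - χ) Fi (XW) + χ outB`.
* `BBi_zero`: `Fi_zero` and `cj ε (2 |x| x) / 2 = |x| P / 2 = |P| P / 4` (`cj ε (cj ε P) = P`),
  `outB (p, 0) = (p / 4, 0, 0)`, `p / 4 = δ + P / 4`; `|P| = √(|P|²)`.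
* `ggi_fderiv`: `ggi δ p = δ + h(|P|²) P`, `h(q) = ((1 - χ(q)) √q + χ(q)) / 4`.  `h` is
  differentiable at `q = |P|² > 0`, `h > 0`, and
  `4 h' = χ' (1 - √q) + (1 - χ) / (2 √q) ≥ 0` for `0 < q ≤ 1` (`χ' ≥ 0`:
  `CSG.stp_deriv_nonneg`).  `radial_inj` (translate by `4δ`).
* `BBi_ld`: `ld_block` with `g = ggi δ`.  Smoothness near `(p, 0)`: `Fi_smooth` composed with `XW`
  (smooth near `(p, ν)`, `p + 4δ ≠ 0`), `outB` is smooth (`p ≠ ±4`).  `h0`: `BBi_zero` for `p'`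
  near `p` (it needs only `0 < |p' - 4δ|` and `2|x'|² < 1`, i.e. `|p' - 4δ|² < 2`).
  `hs`: by `XW_linear`, `Fi_deriv`, `XW_div` the derivative of
  `r ↦ (BBi (p, r c)).2` at `0` is, with `a + i b = c HH p`, `A = |x|² / (π √(1 - 4|x|⁴)) > 0`,
  `((1 - χ) (16 A a + 16 ε n b / 2π) + χ a, (1 - χ) b / 2π + χ b)`.
  If it is `0`, the second coordinate gives `b = 0`, the first `a = 0`, so `c HH p = 0`, `c = 0`.
  (`HasDerivAt.unique`.)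
-/

open scoped Manifold ContDiff Topology
open Set Filter
open Complex (I)
open Pool.Agent.CSG (stp)

namespace Pool.Agent.RSG

theorem BBn_XW0 (δ ε : ℝ) (p : ℂ) : XW δ ε (p, 0) = (cj ε (p - 4 * δ) / 2, 0) := by
  unfold XW
  refine Prod.ext rfl ?_
  apply Complex.ext <;> simp

theorem BBn_norm {ε : ℝ} (hε : ε = 1 ∨ ε = -1) (P : ℂ) : ‖cj ε P / 2‖ = ‖P‖ / 2 := by
  rw [norm_div, cj_norm hε]; simp

theorem BBi_zero {δ ε : ℝ} (hδ : δ = 1 ∨ δ = -1) (hε : ε = 1 ∨ ε = -1) (n j : ℤ) {p : ℂ}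
    (h0 : 0 < ‖p - 4 * δ‖) (h1 : ‖p - 4 * δ‖ ^ 2 < 2) : BBi δ ε n j (p, 0) = (ggi δ p, 0, 0) := by
  have hx : cj ε (p - 4 * δ) / 2 ≠ 0 := by
    rw [← norm_pos_iff, BBn_norm hε]; linarith
  have hx2 : 2 * ‖cj ε (p - 4 * δ) / 2‖ ^ 2 < 1 := by
    rw [BBn_norm hε]; nlinarith
  have hF := Fi_zero δ ε n j hx hx2
  have hc : cj ε (2 * (‖cj ε (p - 4 * δ) / 2‖ : ℂ) * (cj ε (p - 4 * δ) / 2)) =
      (‖p - 4 * δ‖ : ℂ) * (p - 4 * δ) / 2 := by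
    rw [BBn_norm hε]
    have e1 : (2 * ((‖p - 4 * δ‖ / 2 : ℝ) : ℂ) * (cj ε (p - 4 * δ) / 2)) =
        ((‖p - 4 * δ‖ / 2 : ℝ) : ℂ) * cj ε (p - 4 * δ) := by ring
    rw [e1, cj_real_mul, cj_cj hε]
    push_cast
    ring
  rw [hc] at hF
  have hs : Real.sqrt (‖p - 4 * δ‖ ^ 2) = ‖p - 4 * δ‖ := Real.sqrt_sq h0.le
  unfold BBi mix
  rw [BBn_XW0, hF]
  unfold outB ggi
  rw [hs]
  simp only [zero_mul, Complex.zero_re, Complex.zero_im, Prod.smul_mk, smul_zero, Prod.mk_add_mk,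
    add_zero, Prod.mk.injEq, and_true]
  rw [Complex.real_smul, Complex.real_smul]
  push_cast
  ring

/-- the radial function -/
noncomputable def BBn_h (q : ℝ) : ℝ :=
  ((1 - stp (1 / 16) (1 / 4) q) * Real.sqrt q + stp (1 / 16) (1 / 4) q) / 4

theorem BBn_hd {q : ℝ} (hq : 0 < q) : HasDerivAt BBn_h
    (((0 - deriv (stp (1 / 16) (1 / 4)) q) * Real.sqrt q +
      (1 - stp (1 / 16) (1 / 4) q) * (1 / (2 * Real.sqrt q)) +
        deriv (stp (1 / 16) (1 / 4)) q) / 4) q := by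
  have h1 : HasDerivAt (stp (1 / 16) (1 / 4)) (deriv (stp (1 / 16) (1 / 4)) q) q :=
    ((Pool.Agent.CSG.stp_smooth (1 / 16) (1 / 4)).differentiable (by simp) q).hasDerivAt
  have h2 : HasDerivAt Real.sqrt (1 / (2 * Real.sqrt q)) q := Real.hasDerivAt_sqrt hq.ne'
  exact ((((hasDerivAt_const q (1 : ℝ)).sub h1).mul h2).add h1).div_const 4

theorem ggi_fderiv {δ : ℝ} {p : ℂ} (h0 : 0 < ‖p - 4 * δ‖) (h1 : ‖p - 4 * δ‖ ≤ 1) (v : ℂ)
    (hv : fderiv ℝ (ggi δ) p v = 0) : v = 0 := by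
  set P : ℂ := p - 4 * δ with hP
  have hq : 0 < ‖P‖ ^ 2 := by positivity
  have hd := BBn_hd hq
  have hs : Real.sqrt (‖P‖ ^ 2) = ‖P‖ := Real.sqrt_sq h0.le
  set χ := stp (1 / 16) (1 / 4) (‖P‖ ^ 2) with hχ
  have hχ0 : 0 ≤ χ := Pool.Agent.CSG.stp_nonneg _ _ _
  have hχ1 : χ ≤ 1 := Pool.Agent.CSG.stp_le_one _ _ _
  have hχd : 0 ≤ deriv (stp (1 / 16) (1 / 4)) (‖P‖ ^ 2) :=
    Pool.Agent.CSG.stp_deriv_nonneg (by norm_num) _
  have hpos : 0 < BBn_h (‖P‖ ^ 2) := by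
    unfold BBn_h
    rw [hs, ← hχ]
    nlinarith
  have hder : 0 ≤ deriv BBn_h (‖P‖ ^ 2) := by
    rw [hd.deriv, hs]
    have h3 : 0 ≤ (1 - χ) * (1 / (2 * ‖P‖)) := by
      apply mul_nonneg (by linarith)
      positivity
    nlinarith [mul_nonneg hχd (by linarith : (0 : ℝ) ≤ 1 - ‖P‖)]
  refine radial_inj (h := BBn_h) (P := P) hd.differentiableAt hpos (by positivity) v ?_
  have e : ggi δ = fun x : ℂ => (δ : ℂ) + (fun P : ℂ => (BBn_h (‖P‖ ^ 2) : ℂ) * P) (x - 4 * δ) := by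
    funext x
    unfold ggi BBn_h
    rfl
  rw [e, fderiv_const_add] at hv
  have h4 := fderiv_comp_sub (𝕜 := ℝ) (f := fun P : ℂ => (BBn_h (‖P‖ ^ 2) : ℂ) * P)
    (x := p) (4 * (δ : ℂ))
  rw [h4] at hv
  exact hv

theorem BBn_ne {δ : ℝ} (hδ : δ = 1 ∨ δ = -1) {p : ℂ} (h0 : 0 < ‖p - 4 * δ‖)
    (h1 : ‖p - 4 * δ‖ ≤ 1) : p ≠ 4 ∧ p ≠ -4 ∧ p + 4 * δ ≠ 0 := by
  rcases hδ with rfl | rfl
  · refine ⟨?_, ?_, ?_⟩
    · rintro rfl
      norm_num at h0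
    · rintro rfl
      norm_num at h1
    · intro h
      have : p = -4 := by push_cast at h; linear_combination h
      subst this
      norm_num at h1
  · refine ⟨?_, ?_, ?_⟩
    · rintro rfl
      norm_num at h1
    · rintro rfl
      norm_num at h0
    · intro h
      have : p = 4 := by push_cast at h; linear_combination h
      subst this
      norm_num at h1

theorem BBn_HH_ne {p : ℂ} (h1 : p ≠ 4) (h2 : p ≠ -4) : HH p ≠ 0 := by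
  unfold HH
  apply one_div_ne_zero
  apply mul_ne_zero
  · intro h
    have h' := congrArg (starRingEnd ℂ) h
    rw [Complex.conj_conj, map_zero] at h'
    exact h1 (sub_eq_zero.1 h')
  · intro h
    exact h2 (eq_neg_of_add_eq_zero_left h)

theorem BBn_conj_smooth : ContDiff ℝ ∞ (fun z : ℂ => (starRingEnd ℂ) z) :=
  Complex.conjCLE.contDiff

theorem BBn_HH_smooth {p : ℂ} (h1 : p ≠ 4) (h2 : p ≠ -4) : ContDiffAt ℝ ∞ HH p := by
  have hne : (starRingEnd ℂ) (p - 4) * (p + 4) ≠ 0 := by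
    have := BBn_HH_ne h1 h2
    unfold HH at this
    intro h
    rw [h] at this
    simp at this
  have e : HH = fun p : ℂ => ((starRingEnd ℂ) (p - 4) * (p + 4))⁻¹ := by
    funext x
    unfold HH
    rw [one_div]
  rw [e]
  refine ContDiffAt.inv ?_ hne
  refine ContDiffAt.mul ?_ (by fun_prop)
  exact (BBn_conj_smooth.comp (by fun_prop : ContDiff ℝ ∞ fun p : ℂ => p - 4)).contDiffAt

theorem BBn_outB_smooth {q : ℂ × ℂ} (h1 : q.1 ≠ 4) (h2 : q.1 ≠ -4) :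
    ContDiffAt ℝ ∞ outB q := by
  have hH : ContDiffAt ℝ ∞ (fun q : ℂ × ℂ => q.2 * HH q.1) q :=
    contDiffAt_snd.mul (ContDiffAt.comp (g := HH) (f := Prod.fst) q (BBn_HH_smooth h1 h2)
      contDiffAt_fst)
  unfold outB
  refine ContDiffAt.prodMk ?_ (ContDiffAt.prodMk ?_ ?_)
  · fun_prop
  · exact Complex.reCLM.contDiff.contDiffAt.comp q hH
  · exact Complex.imCLM.contDiff.contDiffAt.comp q hH

theorem BBn_mk_smooth {f g : ℂ × ℂ → ℝ} {q : ℂ × ℂ} (hf : ContDiffAt ℝ ∞ f q)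
    (hg : ContDiffAt ℝ ∞ g q) : ContDiffAt ℝ ∞ (fun q => (⟨f q, g q⟩ : ℂ)) q := by
  have e : (fun q => (⟨f q, g q⟩ : ℂ)) = fun q => (f q : ℂ) + (g q : ℂ) * I := by
    funext q
    exact Complex.mk_eq_add_mul_I _ _
  rw [e]
  exact (Complex.ofRealCLM.contDiff.contDiffAt.comp q hf).add
    ((Complex.ofRealCLM.contDiff.contDiffAt.comp q hg).mul contDiffAt_const)

theorem BBn_XW_smooth {δ ε : ℝ} (hδ : δ = 1 ∨ δ = -1) {q : ℂ × ℂ} (h : q.1 + 4 * δ ≠ 0) :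
    ContDiffAt ℝ ∞ (XW δ ε) q := by
  have hne : cj δ (q.1 + 4 * δ) ≠ 0 := by
    rw [← norm_pos_iff, cj_norm hδ, norm_pos_iff]; exact h
  have hcj : ContDiffAt ℝ ∞ (fun q : ℂ × ℂ => cj δ (q.1 + 4 * δ)) q :=
    ((cj_smooth δ).comp (by fun_prop : ContDiff ℝ ∞ fun q : ℂ × ℂ => q.1 + 4 * δ)).contDiffAt
  have hom : ContDiffAt ℝ ∞ (fun q : ℂ × ℂ => om δ q.1) q := by
    have e : (fun q : ℂ × ℂ => om δ q.1) = fun q : ℂ × ℂ => (1 / 2) * (cj δ (q.1 + 4 * δ))⁻¹ := by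
      funext x
      unfold om
      rw [div_eq_mul_inv]
    rw [e]
    exact contDiffAt_const.mul (hcj.inv hne)
  have hm : ContDiffAt ℝ ∞ (fun q : ℂ × ℂ => q.2 * om δ q.1) q := contDiffAt_snd.mul hom
  unfold XW
  refine ContDiffAt.prodMk ?_ (BBn_mk_smooth ?_ ?_)
  · exact (((cj_smooth ε).comp
      (by fun_prop : ContDiff ℝ ∞ fun q : ℂ × ℂ => q.1 - 4 * δ)).div_const 2).contDiffAt
  · exact contDiffAt_const.mul (Complex.reCLM.contDiff.contDiffAt.comp q hm)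
  · exact Complex.imCLM.contDiff.contDiffAt.comp q hm

theorem BBn_smooth {δ ε : ℝ} (hδ : δ = 1 ∨ δ = -1) (hε : ε = 1 ∨ ε = -1) (n j : ℤ) {p : ℂ}
    (h0 : 0 < ‖p - 4 * δ‖) (h1 : ‖p - 4 * δ‖ ≤ 1) :
    ∀ᶠ q in 𝓝 (p, (0 : ℂ)), ContDiffAt ℝ ∞ (BBi δ ε n j) q := by
  obtain ⟨hp1, hp2, hp3⟩ := BBn_ne hδ h0 h1
  have hx : cj ε (p - 4 * δ) / 2 ≠ 0 := by
    rw [← norm_pos_iff, BBn_norm hε]; linarith
  have hx2 : 2 * ‖cj ε (p - 4 * δ) / 2‖ ^ 2 < 1 := by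
    rw [BBn_norm hε]; nlinarith
  have hFi := Fi_smooth (δ := δ) (ε := ε) (n := n) (j := j) hx hx2
  rw [← BBn_XW0] at hFi
  have hXc : ContinuousAt (XW δ ε) (p, 0) :=
    (BBn_XW_smooth (ε := ε) (q := (p, 0)) hδ hp3).continuousAt
  have e1 := hXc.eventually hFi
  have e2 : ∀ᶠ q in 𝓝 (p, (0 : ℂ)), q.1 ≠ 4 :=
    (continuous_fst.continuousAt).eventually_ne hp1
  have e3 : ∀ᶠ q in 𝓝 (p, (0 : ℂ)), q.1 ≠ -4 :=
    (continuous_fst.continuousAt).eventually_ne hp2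
  have e4 : ∀ᶠ q : ℂ × ℂ in 𝓝 (p, (0 : ℂ)), q.1 + 4 * δ ≠ 0 := by
    have : ContinuousAt (fun q : ℂ × ℂ => q.1 + 4 * δ) (p, 0) := by fun_prop
    exact this.eventually_ne hp3
  filter_upwards [e1, e2, e3, e4] with q g1 g2 g3 g4
  have hχ : ContDiffAt ℝ ∞ (fun q : ℂ × ℂ => stp (1 / 16) (1 / 4) (‖q.1 - 4 * δ‖ ^ 2)) q := by
    refine ContDiffAt.comp (g := stp (1 / 16) (1 / 4)) (f := fun q : ℂ × ℂ => ‖q.1 - 4 * δ‖ ^ 2) q
      (Pool.Agent.CSG.stp_smooth (1 / 16) (1 / 4)).contDiffAt ?_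
    exact ((contDiff_norm_sq ℝ).comp
      (by fun_prop : ContDiff ℝ ∞ fun q : ℂ × ℂ => q.1 - 4 * δ)).contDiffAt
  unfold BBi mix
  refine ContDiffAt.add ?_ ?_
  · exact (contDiffAt_const.sub hχ).smul (ContDiffAt.comp q g1 (BBn_XW_smooth hδ g4))
  · exact hχ.smul (BBn_outB_smooth g2 g3)

theorem BBn_slice {δ ε : ℝ} (hδ : δ = 1 ∨ δ = -1) (hε : ε = 1 ∨ ε = -1) (n j : ℤ) {p : ℂ}
    (h0 : 0 < ‖p - 4 * δ‖) (h1 : ‖p - 4 * δ‖ ≤ 1) (c : ℂ)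
    (h : HasDerivAt (fun r : ℝ => (BBi δ ε n j (p, (r : ℂ) * c)).2) 0 0) : c = 0 := by
  obtain ⟨hp1, hp2, hp3⟩ := BBn_ne hδ h0 h1
  have hx : cj ε (p - 4 * δ) / 2 ≠ 0 := by
    rw [← norm_pos_iff, BBn_norm hε]; linarith
  have hxn : ‖cj ε (p - 4 * δ) / 2‖ = ‖p - 4 * δ‖ / 2 := BBn_norm hε _
  have hx2 : 2 * ‖cj ε (p - 4 * δ) / 2‖ ^ 2 < 1 := by
    rw [hxn]; nlinarith
  set x : ℂ := cj ε (p - 4 * δ) / 2 with hxdef
  have hX1 : (XW δ ε (p, c)).1 = x := rfl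
  obtain ⟨k1, k2⟩ := XW_div (c := c) hδ hε hp1 hp2
  rw [hX1] at k1 k2
  set w : ℂ := (XW δ ε (p, c)).2 with hw
  set χ : ℝ := stp (1 / 16) (1 / 4) (‖p - 4 * δ‖ ^ 2) with hχ
  have hχ0 : 0 ≤ χ := Pool.Agent.CSG.stp_nonneg _ _ _
  have hχ1 : χ ≤ 1 := Pool.Agent.CSG.stp_le_one _ _ _
  have hF := Fi_deriv δ ε n j hx hx2 w
  have hO : HasDerivAt (fun r : ℝ => (outB (p, (r : ℂ) * c)).2)
      ((c * HH p).re, (c * HH p).im) 0 := by
    have e : (fun r : ℝ => (outB (p, (r : ℂ) * c)).2) =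
        fun r : ℝ => (r * (c * HH p).re, r * (c * HH p).im) := by
      funext r
      unfold outB
      simp only [mul_assoc, Complex.re_ofReal_mul, Complex.im_ofReal_mul]
    rw [e]
    have f1 : HasDerivAt (fun r : ℝ => r * (c * HH p).re) (1 * (c * HH p).re) 0 :=
      (hasDerivAt_id (0 : ℝ)).mul_const _
    have f2 : HasDerivAt (fun r : ℝ => r * (c * HH p).im) (1 * (c * HH p).im) 0 :=
      (hasDerivAt_id (0 : ℝ)).mul_const _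
    rw [one_mul] at f1 f2
    exact f1.prodMk f2
  have hB : HasDerivAt (fun r : ℝ => (BBi δ ε n j (p, (r : ℂ) * c)).2)
      ((1 - χ) • (16 * ε * (-(δ * ‖x‖ ^ 2 * (w / x).re) / (Real.pi * Real.sqrt (1 - 4 * ‖x‖ ^ 4)) +
        n * ((w / x).im / (2 * Real.pi))), (w / x).im / (2 * Real.pi)) +
        χ • ((c * HH p).re, (c * HH p).im)) 0 := by
    have e : (fun r : ℝ => (BBi δ ε n j (p, (r : ℂ) * c)).2) =
        fun r : ℝ => (1 - χ) • (Fi δ ε n j (x, (r : ℂ) * w)).2 + χ • (outB (p, (r : ℂ) * c)).2 := by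
      funext r
      unfold BBi mix
      rw [XW_linear, hX1]
      rfl
    rw [e]
    exact (hF.const_smul (1 - χ)).add (hO.const_smul χ)
  have hu := hB.unique h
  rw [Prod.ext_iff] at hu
  obtain ⟨u1, u2⟩ := hu
  simp only [Prod.fst_add, Prod.snd_add, Prod.smul_fst, Prod.smul_snd, smul_eq_mul, Prod.fst_zero,
    Prod.snd_zero] at u1 u2
  have hb : (c * HH p).im = 0 := by
    rw [k2] at u2
    have h3 : ((1 - χ) / (2 * Real.pi) + χ) * (c * HH p).im = 0 := by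
      rw [← u2]; ring
    have h4 : 0 < (1 - χ) / (2 * Real.pi) + χ := by
      have hpi := Real.pi_pos
      rcases hχ0.lt_or_eq with h5 | h5
      · have : 0 ≤ (1 - χ) / (2 * Real.pi) := div_nonneg (by linarith) (by positivity)
        linarith
      · rw [← h5]
        positivity
    rcases mul_eq_zero.1 h3 with h5 | h5
    · exact absurd h5 h4.ne'
    · exact h5
  have ha : (c * HH p).re = 0 := by
    rw [k2, hb, ← k1] at u1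
    have hpi := Real.pi_pos
    have hxp : 0 < ‖x‖ := norm_pos_iff.2 hx
    have hsq : 0 < Real.sqrt (1 - 4 * ‖x‖ ^ 4) := by
      apply Real.sqrt_pos.2
      have : ‖x‖ ^ 2 < 1 / 2 := by linarith
      nlinarith [sq_nonneg (‖x‖ ^ 2)]
    set A : ℝ := ‖x‖ ^ 2 / (Real.pi * Real.sqrt (1 - 4 * ‖x‖ ^ 4)) with hA
    have hApos : 0 < A := by positivity
    have h3 : ((1 - χ) * (16 * A) + χ) * (-(δ * ε) * (w / x).re) = 0 := by
      rw [← u1, hA]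
      ring
    have h4 : 0 < (1 - χ) * (16 * A) + χ := by
      rcases hχ0.lt_or_eq with h5 | h5
      · have : 0 ≤ (1 - χ) * (16 * A) := mul_nonneg (by linarith) (by positivity)
        linarith
      · rw [← h5]
        positivity
    rcases mul_eq_zero.1 h3 with h5 | h5
    · exact absurd h5 h4.ne'
    · rw [k1] at h5
      exact h5
  have hz : c * HH p = 0 := Complex.ext ha hb
  rcases mul_eq_zero.1 hz with h5 | h5
  · exact h5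
  · exact absurd h5 (BBn_HH_ne hp1 hp2)

theorem BBi_ld {δ ε : ℝ} (hδ : δ = 1 ∨ δ = -1) (hε : ε = 1 ∨ ε = -1) (n j : ℤ) {p : ℂ}
    (h0 : 0 < ‖p - 4 * δ‖) (h1 : ‖p - 4 * δ‖ ≤ 1) :
    IsLocalDiffeomorphAt 𝓘(ℝ, ℂ × ℂ) 𝓘(ℝ, ℂ × ℝ × ℝ) ∞ (BBi δ ε n j) (p, 0) := by
  refine ld_block (g := ggi δ) (BBn_smooth hδ hε n j h0 h1) ?_
    (fun v hv => ggi_fderiv h0 h1 v hv) (fun c h => BBn_slice hδ hε n j h0 h1 c h)
  have hc : Continuous fun p' : ℂ => ‖p' - 4 * δ‖ := by fun_prop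
  have e1 : ∀ᶠ p' : ℂ in 𝓝 p, 0 < ‖p' - 4 * δ‖ := hc.continuousAt.eventually (lt_mem_nhds h0)
  have e2 : ∀ᶠ p' : ℂ in 𝓝 p, ‖p' - 4 * δ‖ ^ 2 < 2 := by
    have hc2 : ContinuousAt (fun p' : ℂ => ‖p' - 4 * δ‖ ^ 2) p := (hc.pow 2).continuousAt
    refine hc2.eventually (gt_mem_nhds ?_)
    show ‖p - 4 * δ‖ ^ 2 < 2
    nlinarith
  filter_upwards [e1, e2] with p' g1 g2
  exact BBi_zero hδ hε n j g1 g2

end Pool.Agent.RSG
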