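import Pool.Agent.RSG.BBn
import Pool.Agent.RSG.BBf

/-!
# RSG/GgA: the position `gg` of the disc
-/

open scoped Manifold ContDiff Topology
open Set Filter
open Complex (I)
open Pool.Agent.CSG (stp)

namespace Pool.Agent.RSG

/-- radial factor -/
noncomputable def GgA_u (r : ℝ) : ℝ :=
  (1 - stp (1 / 16) (1 / 4) (r ^ 2)) * r + stp (1 / 16) (1 / 4) (r ^ 2)

theorem GgA_ggi {δ : ℝ} (p : ℂ) :
    ggi δ p - δ = ((GgA_u ‖p - 4 * δ‖ / 4 : ℝ) : ℂ) * (p - 4 * δ) := by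
  unfold ggi GgA_u
  rw [Real.sqrt_sq (norm_nonneg _)]
  ring

theorem GgA_u_ge {r : ℝ} (h1 : r ≤ 1) : r ≤ GgA_u r := by
  unfold GgA_u
  nlinarith [Pool.Agent.CSG.stp_nonneg (1 / 16) (1 / 4) (r ^ 2)]

theorem GgA_u_le {r : ℝ} (h1 : r ≤ 1) : GgA_u r ≤ 1 := by
  unfold GgA_u
  nlinarith [Pool.Agent.CSG.stp_le_one (1 / 16) (1 / 4) (r ^ 2)]

theorem GgA_u_mono {r r' : ℝ} (h0 : 0 ≤ r) (h : r ≤ r') (h1 : r' ≤ 1) : GgA_u r ≤ GgA_u r' := by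
  unfold GgA_u
  have h2 : stp (1 / 16) (1 / 4) (r ^ 2) ≤ stp (1 / 16) (1 / 4) (r' ^ 2) :=
    Pool.Agent.CSG.stp_mono (by norm_num) (by nlinarith)
  have h3 := Pool.Agent.CSG.stp_le_one (1 / 16) (1 / 4) (r' ^ 2)
  have e : (1 - stp (1 / 16) (1 / 4) (r' ^ 2)) * r' + stp (1 / 16) (1 / 4) (r' ^ 2) -
      ((1 - stp (1 / 16) (1 / 4) (r ^ 2)) * r + stp (1 / 16) (1 / 4) (r ^ 2)) =
      (1 - stp (1 / 16) (1 / 4) (r' ^ 2)) * (r' - r) +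
        (stp (1 / 16) (1 / 4) (r' ^ 2) - stp (1 / 16) (1 / 4) (r ^ 2)) * (1 - r) := by ring
  have h4 : 0 ≤ (1 - stp (1 / 16) (1 / 4) (r' ^ 2)) * (r' - r) :=
    mul_nonneg (by linarith) (by linarith)
  have h5 : 0 ≤ (stp (1 / 16) (1 / 4) (r' ^ 2) - stp (1 / 16) (1 / 4) (r ^ 2)) * (1 - r) :=
    mul_nonneg (by linarith) (by linarith)
  linarith

theorem GgA_k_mono {r r' : ℝ} (h0 : 0 ≤ r) (h : r < r') (h1 : r' ≤ 1) :
    GgA_u r / 4 * r < GgA_u r' / 4 * r' := by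
  have h2 := GgA_u_mono h0 h.le h1
  have h3 : 0 < GgA_u r' := lt_of_lt_of_le (by linarith) (GgA_u_ge h1)
  have h4 : GgA_u r * r ≤ GgA_u r' * r := mul_le_mul_of_nonneg_right h2 h0
  have h5 : GgA_u r' * r < GgA_u r' * r' := mul_lt_mul_of_pos_left h h3
  linarith

theorem GgA_norm_ggi {δ : ℝ} {p : ℂ} (h : ‖p - 4 * δ‖ < 1) :
    ‖ggi δ p - δ‖ = GgA_u ‖p - 4 * δ‖ / 4 * ‖p - 4 * δ‖ := by
  have h1 : 0 ≤ GgA_u ‖p - 4 * δ‖ := le_trans (norm_nonneg _) (GgA_u_ge h.le)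
  rw [GgA_ggi, norm_mul, Complex.norm_real, Real.norm_of_nonneg (by positivity)]

theorem GgA_lt_ggi {δ : ℝ} {p : ℂ} (h : ‖p - 4 * δ‖ < 1) : ‖ggi δ p - δ‖ < 1 / 4 := by
  rw [GgA_norm_ggi h]
  have h1 := GgA_u_le h.le
  have h2 := norm_nonneg (p - 4 * (δ : ℂ))
  nlinarith

theorem GgA_ggi_inj {δ : ℝ} {p p' : ℂ} (h : ‖p - 4 * δ‖ < 1) (h' : ‖p' - 4 * δ‖ < 1)
    (he : ggi δ p = ggi δ p') : p = p' := by
  have h1 : ‖ggi δ p - δ‖ = ‖ggi δ p' - δ‖ := by rw [he]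
  rw [GgA_norm_ggi h, GgA_norm_ggi h'] at h1
  have h2 : ‖p - 4 * (δ : ℂ)‖ = ‖p' - 4 * (δ : ℂ)‖ := by
    rcases lt_trichotomy ‖p - 4 * (δ : ℂ)‖ ‖p' - 4 * (δ : ℂ)‖ with h3 | h3 | h3
    · exact absurd h1 (GgA_k_mono (norm_nonneg _) h3 h'.le).ne
    · exact h3
    · exact absurd h1 (GgA_k_mono (norm_nonneg _) h3 h.le).ne'
  have h3 : ggi δ p - δ = ggi δ p' - δ := by rw [he]
  rw [GgA_ggi, GgA_ggi, h2] at h3
  by_cases h0 : ‖p' - 4 * (δ : ℂ)‖ = 0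
  · have h4 : p' - 4 * (δ : ℂ) = 0 := norm_eq_zero.1 h0
    have h5 : p - 4 * (δ : ℂ) = 0 := norm_eq_zero.1 (h2.trans h0)
    linear_combination h5 - h4
  · have h4 : 0 < GgA_u ‖p' - 4 * (δ : ℂ)‖ :=
      lt_of_lt_of_le (lt_of_le_of_ne (norm_nonneg _) (Ne.symm h0)) (GgA_u_ge h'.le)
    have h5 : ((GgA_u ‖p' - 4 * (δ : ℂ)‖ / 4 : ℝ) : ℂ) ≠ 0 := by
      exact_mod_cast (by positivity : GgA_u ‖p' - 4 * (δ : ℂ)‖ / 4 ≠ 0)
    have h6 := mul_left_cancel₀ h5 h3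
    linear_combination h6

theorem GgA_in {δ : ℝ} (hδ : δ = 1 ∨ δ = -1) {p : ℂ} (h : ‖p - 4 * δ‖ < 1) : gg p = ggi δ p := by
  unfold gg
  rcases hδ with rfl | rfl
  · rw [if_pos]
    simpa using h
  · have e : p - 4 * ((-1 : ℝ) : ℂ) = p + 4 := by push_cast; ring
    rw [e] at h
    rw [if_neg, if_pos h]
    intro h1
    have h2 : ‖(p + 4) - (p - 4)‖ ≤ ‖p + 4‖ + ‖p - 4‖ := norm_sub_le _ _
    have h3 : (p + 4) - (p - 4) = (8 : ℂ) := by ring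
    rw [h3] at h2
    have h4 : ‖(8 : ℂ)‖ = 8 := by simp
    linarith

theorem GgA_out {p : ℂ} (h : ∀ δ : ℝ, δ = 1 ∨ δ = -1 → 1 ≤ ‖p - 4 * δ‖) : gg p = ggo p := by
  unfold gg
  rw [if_neg, if_neg]
  · have := h (-1) (Or.inr rfl)
    have e : p - 4 * ((-1 : ℝ) : ℂ) = p + 4 := by push_cast; ring
    rw [e] at this
    exact not_lt.2 this
  · have := h 1 (Or.inl rfl)
    have e : p - 4 * ((1 : ℝ) : ℂ) = p - 4 := by push_cast; ring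
    rw [e] at this
    exact not_lt.2 this

theorem GgA_cases (p : ℂ) : (∃ δ : ℝ, (δ = 1 ∨ δ = -1) ∧ ‖p - 4 * δ‖ < 1) ∨
    ∀ δ : ℝ, δ = 1 ∨ δ = -1 → 1 ≤ ‖p - 4 * δ‖ := by
  by_cases h : ∃ δ : ℝ, (δ = 1 ∨ δ = -1) ∧ ‖p - 4 * δ‖ < 1
  · exact Or.inl h
  · refine Or.inr fun δ hδ => ?_
    by_contra h1
    exact h ⟨δ, hδ, not_le.1 h1⟩

theorem GgA_i {δ : ℝ} (hδ : δ = 1 ∨ δ = -1) {p : ℂ} (h : ‖p - 4 * δ‖ < 1) :
    ‖gg p - δ‖ < 1 / 4 := by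
  rw [GgA_in hδ h]
  exact GgA_lt_ggi h

theorem GgA_abs {δ : ℝ} (hδ : δ = 1 ∨ δ = -1) : ‖(δ : ℂ)‖ = 1 := by
  rcases hδ with rfl | rfl <;> simp

theorem GgA_o {p : ℂ} (h : ∀ δ : ℝ, δ = 1 ∨ δ = -1 → 1 ≤ ‖p - 4 * δ‖) {δ : ℝ}
    (hδ : δ = 1 ∨ δ = -1) : 1 / 4 ≤ ‖gg p - δ‖ := by
  rw [GgA_out h]
  by_cases h8 : ‖p‖ ≤ 8
  · rw [ggo_in h8]
    have e : p / 4 - (δ : ℂ) = (p - 4 * δ) / 4 := by ring
    rw [e, norm_div]
    have h1 := h δ hδ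
    have h2 : ‖(4 : ℂ)‖ = 4 := by simp
    rw [h2]
    linarith
  · have h1 : ‖(8 : ℂ)‖ = 8 := by simp
    have h2 : ‖ggo 8‖ < ‖ggo p‖ := ggo_norm_mono (by rw [h1]; exact not_le.1 h8)
    rw [ggo_in (by rw [h1])] at h2
    have h3 : ‖(8 / 4 : ℂ)‖ = 2 := by
      rw [norm_div, h1]
      norm_num
    rw [h3] at h2
    have h4 : ‖ggo p‖ - ‖(δ : ℂ)‖ ≤ ‖ggo p - δ‖ := norm_sub_norm_le _ _
    rw [GgA_abs hδ] at h4
    linarith

theorem GgA_ggo_inj {p p' : ℂ} (he : ggo p = ggo p') : p = p' := by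
  have h1 : ‖ggo p‖ = ‖ggo p'‖ := by rw [he]
  have h2 : ‖p‖ = ‖p'‖ := by
    rcases lt_trichotomy ‖p‖ ‖p'‖ with h3 | h3 | h3
    · exact absurd h1 (ggo_norm_mono h3).ne
    · exact h3
    · exact absurd h1 (ggo_norm_mono h3).ne'
  obtain ⟨c, hc, h3⟩ := ggo_dir (p := p)
  obtain ⟨c', hc', h4⟩ := ggo_dir (p := p')
  by_cases h0 : p' = 0
  · rw [h0, norm_zero] at h2
    rw [h0]
    exact norm_eq_zero.1 h2
  · have h5 : 0 < ‖p'‖ := norm_pos_iff.2 h0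
    have h6 : c = c' := by
      rw [h3, h4, norm_mul, norm_mul, Complex.norm_real, Complex.norm_real,
        Real.norm_of_nonneg hc.le, Real.norm_of_nonneg hc'.le, h2] at h1
      exact mul_right_cancel₀ h5.ne' h1
    rw [h3, h4, h6] at he
    have h7 : (c' : ℂ) ≠ 0 := by exact_mod_cast hc'.ne'
    exact mul_left_cancel₀ h7 he

theorem gg_at : gg 4 = 1 ∧ gg (-4) = -1 := by
  constructor
  · rw [GgA_in (δ := 1) (Or.inl rfl) (by simp)]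
    unfold ggi
    simp
  · rw [GgA_in (δ := -1) (Or.inr rfl) (by simp)]
    unfold ggi
    simp

theorem gg_inj : Function.Injective gg := by
  intro p p' he
  rcases GgA_cases p with ⟨δ, hδ, hp⟩ | hp
  · rcases GgA_cases p' with ⟨δ', hδ', hp'⟩ | hp'
    · have h1 := GgA_i hδ hp
      have h2 := GgA_i hδ' hp'
      by_cases hdd : δ = δ'
      · subst hdd
        rw [GgA_in hδ hp, GgA_in hδ hp'] at he
        exact GgA_ggi_inj hp hp' he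
      · exfalso
        rw [he] at h1
        have h3 : ‖(gg p' - (δ' : ℂ)) - (gg p' - δ)‖ ≤ ‖gg p' - (δ' : ℂ)‖ + ‖gg p' - δ‖ :=
          norm_sub_le _ _
        have h4 : (gg p' - (δ' : ℂ)) - (gg p' - δ) = ((δ - δ' : ℝ) : ℂ) := by push_cast; ring
        rw [h4, Complex.norm_real, Real.norm_eq_abs] at h3
        have h5 : |δ - δ'| = 2 := by
          rcases hδ with rfl | rfl <;> rcases hδ' with rfl | rfl
          · exact absurd rfl hdd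
          · norm_num
          · norm_num
          · exact absurd rfl hdd
        linarith
    · exfalso
      have h1 := GgA_i hδ hp
      have h2 := GgA_o hp' hδ
      rw [he] at h1
      linarith
  · rcases GgA_cases p' with ⟨δ', hδ', hp'⟩ | hp'
    · exfalso
      have h1 := GgA_i hδ' hp'
      have h2 := GgA_o hp hδ'
      rw [he] at h2
      linarith
    · rw [GgA_out hp, GgA_out hp'] at he
      exact GgA_ggo_inj he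

theorem GgA_nine {p : ℂ} (h : ‖p‖ ≤ 9) : ‖ggo p‖ ^ 2 ≤ 17 / 3 := by
  have h9 : ‖(9 : ℂ)‖ = 9 := by simp
  have h1 : ‖ggo 9‖ ^ 2 = 17 / 3 := by
    rw [ggo_out (by rw [h9]), h9]
    norm_num
  rcases h.lt_or_eq with h2 | h2
  · have h3 : ‖ggo p‖ < ‖ggo 9‖ := ggo_norm_mono (by rw [h9]; exact h2)
    have h4 := norm_nonneg (ggo p)
    nlinarith
  · rw [ggo_out h2.ge, h2]
    norm_num

theorem gg_norm (p : ℂ) : ‖gg p‖ < 4 := by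
  rcases GgA_cases p with ⟨δ, hδ, hp⟩ | hp
  · have h1 := GgA_i hδ hp
    have h2 : ‖gg p‖ - ‖(δ : ℂ)‖ ≤ ‖gg p - δ‖ := norm_sub_norm_le _ _
    rw [GgA_abs hδ] at h2
    linarith
  · rw [GgA_out hp]
    have h0 := norm_nonneg (ggo p)
    rcases le_total ‖p‖ 9 with h | h
    · have := GgA_nine h
      nlinarith
    · have h1 := ggo_out h
      have h2 : 0 ≤ 30 / ‖p‖ := by positivity
      nlinarith

theorem gg_sep {p : ℂ} (h : ‖p‖ ≤ 9) : ‖gg p‖ ^ 2 < 6 := by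
  rcases GgA_cases p with ⟨δ, hδ, hp⟩ | hp
  · have h1 := GgA_i hδ hp
    have h2 : ‖gg p‖ - ‖(δ : ℂ)‖ ≤ ‖gg p - δ‖ := norm_sub_norm_le _ _
    rw [GgA_abs hδ] at h2
    have h0 := norm_nonneg (gg p)
    nlinarith
  · rw [GgA_out hp]
    have := GgA_nine h
    linarith

theorem gg_ne {p : ℂ} (h3 : p ≠ 4) (h4 : p ≠ -4) : gg p ≠ 1 ∧ gg p ≠ -1 := by
  constructor
  · intro h
    exact h3 (gg_inj (h.trans gg_at.1.symm))
  · intro h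
    exact h4 (gg_inj (h.trans gg_at.2.symm))

end Pool.Agent.RSG
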