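import Pool.Agent.RSG.GgA
import Pool.Agent.RSG.BBn
import Pool.Agent.RSG.BBf

/-!
# RSG/GgM: the chart `BB`
-/

open scoped Manifold ContDiff Topology
open Set Filter
open Complex (I)
open Pool.Agent.CSG (stp)

namespace Pool.Agent.RSG

theorem GgM_one (p : ℂ) : p - 4 * ((1 : ℝ) : ℂ) = p - 4 := by push_cast; ring

theorem GgM_neg (p : ℂ) : p - 4 * ((-1 : ℝ) : ℂ) = p + 4 := by push_cast; ring

theorem GgM_far {p : ℂ} (h : ‖p + 4‖ < 7) : ¬ ‖p - 4‖ < 1 := by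
  intro h1
  have h2 : ‖(p + 4) - (p - 4)‖ ≤ ‖p + 4‖ + ‖p - 4‖ := norm_sub_le _ _
  have h3 : (p + 4) - (p - 4) = (8 : ℂ) := by ring
  rw [h3] at h2
  have h4 : ‖(8 : ℂ)‖ = 8 := by simp
  linarith

section
variable {ε₁ ε₂ : ℝ} {n j : ℤ}

theorem BB_zero (h1 : ε₁ = 1 ∨ ε₁ = -1) (h2 : ε₂ = 1 ∨ ε₂ = -1) {p : ℂ} (h3 : p ≠ 4)
    (h4 : p ≠ -4) : BB ε₁ ε₂ n j (p, 0) = (gg p, 0, 0) := by
  unfold BB gg
  simp only
  have hp1 : 0 < ‖p - 4‖ := norm_pos_iff.2 (sub_ne_zero.2 h3)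
  have hp2 : 0 < ‖p + 4‖ := by
    rw [norm_pos_iff]
    intro h
    exact h4 (by linear_combination h)
  split_ifs with h5 h6
  · refine BBi_zero (Or.inl rfl) h1 n j ?_ ?_
    · rw [GgM_one]; exact hp1
    · rw [GgM_one]; nlinarith
  · refine BBi_zero (Or.inr rfl) h2 n j ?_ ?_
    · rw [GgM_neg]; exact hp2
    · rw [GgM_neg]; nlinarith
  · exact BBo_zero p

/-- near the boundary of the disc both charts are `outB` -/
theorem GgM_bdry {δ ε : ℝ} (hδ : δ = 1 ∨ δ = -1) {p ν : ℂ} (h1 : 1 / 2 < ‖p - 4 * δ‖)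
    (h2 : ‖p - 4 * δ‖ < 2) : BBi δ ε n j (p, ν) = BBo (p, ν) := by
  unfold BBi BBo mix
  simp only
  have hs1 : stp (1 / 16) (1 / 4) (‖p - 4 * (δ : ℂ)‖ ^ 2) = 1 :=
    Pool.Agent.CSG.stp_one (by norm_num) (by nlinarith)
  have hp : ‖p‖ < 6 := by
    have e : p = (p - 4 * (δ : ℂ)) + 4 * (δ : ℂ) := by ring
    have h3 : ‖p‖ ≤ ‖p - 4 * (δ : ℂ)‖ + ‖4 * (δ : ℂ)‖ := by
      conv_lhs => rw [e]
      exact norm_add_le _ _
    have h4 : ‖4 * (δ : ℂ)‖ = 4 := by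
      rcases hδ with rfl | rfl <;> simp
    linarith
  have hs2 : stp 64 81 (‖p‖ ^ 2) = 0 :=
    Pool.Agent.CSG.stp_zero (by norm_num) (by nlinarith [norm_nonneg p])
  rw [hs1, hs2]
  simp

theorem BB_ld (h1 : ε₁ = 1 ∨ ε₁ = -1) (h2 : ε₂ = 1 ∨ ε₂ = -1) {p : ℂ} (h3 : p ≠ 4)
    (h4 : p ≠ -4) :
    IsLocalDiffeomorphAt 𝓘(ℝ, ℂ × ℂ) 𝓘(ℝ, ℂ × ℝ × ℝ) ∞ (BB ε₁ ε₂ n j) (p, 0) := by
  have hp1 : 0 < ‖p - 4‖ := norm_pos_iff.2 (sub_ne_zero.2 h3)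
  have hp2 : 0 < ‖p + 4‖ := by
    rw [norm_pos_iff]
    intro h
    exact h4 (by linear_combination h)
  have hc1 : ContinuousAt (fun q : ℂ × ℂ => ‖q.1 - 4‖) (p, 0) :=
    ((continuous_fst.sub continuous_const).norm).continuousAt
  have hc2 : ContinuousAt (fun q : ℂ × ℂ => ‖q.1 + 4‖) (p, 0) :=
    ((continuous_fst.add continuous_const).norm).continuousAt
  by_cases h5 : ‖p - 4‖ < 1
  · refine Pool.Agent.CSG.ld_congr (BBi_ld (δ := 1) (ε := ε₁) (Or.inl rfl) h1 n j ?_ ?_) ?_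
    · rw [GgM_one]; exact hp1
    · rw [GgM_one]; exact h5.le
    · filter_upwards [hc1.eventually (gt_mem_nhds h5)] with q hq
      unfold BB
      rw [if_pos hq]
  by_cases h6 : ‖p + 4‖ < 1
  · refine Pool.Agent.CSG.ld_congr (BBi_ld (δ := -1) (ε := ε₂) (Or.inr rfl) h2 n j ?_ ?_) ?_
    · rw [GgM_neg]; exact hp2
    · rw [GgM_neg]; exact h6.le
    · filter_upwards [hc2.eventually (gt_mem_nhds h6)] with q hq
      unfold BB
      rw [if_neg (GgM_far (by linarith)), if_pos hq]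
  · refine Pool.Agent.CSG.ld_congr (BBo_ld h3 h4) ?_
    filter_upwards [hc1.eventually (lt_mem_nhds (by linarith [not_lt.1 h5] : 1 / 2 < ‖p - 4‖)),
      hc2.eventually (lt_mem_nhds (by linarith [not_lt.1 h6] : 1 / 2 < ‖p + 4‖))] with q hq1 hq2
    obtain ⟨p', ν⟩ := q
    simp only at hq1 hq2
    unfold BB
    simp only
    split_ifs with h7 h8
    · refine GgM_bdry (Or.inl rfl) ?_ ?_
      · rw [GgM_one]; exact hq1
      · rw [GgM_one]; linarith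
    · refine GgM_bdry (Or.inr rfl) ?_ ?_
      · rw [GgM_neg]; exact hq2
      · rw [GgM_neg]; linarith
    · rfl

end

end Pool.Agent.RSG
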