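import Pool.Agent.RSG.Vtx
import Pool.Agent.RSG.ExM
import Pool.Agent.RSG.Fn
import Pool.Agent.RSG.LDc

/-!
# RSG/GlV: the vertex chart in ball coordinates   (difficulty 2)

`q = (x, w)`, `SV q < 1`, `a = x + w/2 ≠ 0`, `b = x - w/2 ≠ 0`, `z = Vx δ q`, so `c1 z = a`,
`c2 z = b`, `fh z = uV + i δ √(1 - S²) ≠ 0`.  Apply `D.glue z l m t` with `t = tV q`,
`m = arg b / 2π + j t`, `l = 1/2 - δ/4 + lV δ n q`:
* `b = |b| ex (arg b / 2π) = |b| ex (m - j t)` (`ex_arg`).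
* `a / b = |a / b| ex (t)` (`(log (a/b)).im = arg (a/b)`), so `a = |a| ex (t) ex (m - j t) =
  |a| ex (m + (1 - j) t)`.
* `g = √(1 - S²) - i δ uV` has `fh z = i δ g` (`δ² = 1`), `|g| = |fh z|`, `g = |g| ex (lV - n t)`,
  `i δ = ex (1/2 - δ/4)` (`ex (1/4) = i`, `ex (3/4) = -i`).  So `fh z = |fh z| ex (l - n t)`.
* `2 |a| |b| ex m = 2 |a| (b / ex (m - j t)) ex m = 2 |a| b ex (j t) = vV j q`, of norm `< 1`
  (`fh_ne_iff`, `Vx_ne`).
The casts: `((1 - j : ℤ) : ℝ) = 1 - j`, `((1 : ℤ) : ℝ) = 1`, `((-j : ℤ) : ℝ) = -j`.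
Then `D.Q z = D.A (κ (1/2 - δ/4 + lV, vV), t)` and, as `|lV| < 1/16`, `Strand` gives
`κ (..) = b (δ + cj ε vV / 2, 16 ε lV)`.
-/

open scoped Manifold ContDiff Topology
open Set Filter
open Complex (I)

namespace Pool.Agent.RSG

theorem GlV_arg {p : ℂ} : ∃ x : ℝ, p = (‖p‖ : ℂ) * ex x :=
  ⟨Complex.arg p / (2 * Real.pi), ex_arg.symm⟩

theorem GlV_log {p : ℂ} : p = (‖p‖ : ℂ) * ex ((Complex.log p).im / (2 * Real.pi)) := by
  rw [Complex.log_im]
  exact ex_arg.symm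

theorem vertex_glue {N : Type*} [TopologicalSpace N] [ChartedSpace E3 N]
    {X : Type*} [TopologicalSpace X] [ChartedSpace E4 X] {κ : ℝ × ℂ → N} {n j : ℤ}
    (D : RollGluck κ n j X) {b : ℂ × ℝ → N} {δ ε : ℝ} (hδ : δ = 1 ∨ δ = -1)
    (hs : Strand κ b δ ε) {q : ℂ × ℂ} (h : SV q < 1) (h1 : q.1 + q.2 / 2 ≠ 0)
    (h2 : q.1 - q.2 / 2 ≠ 0) (hl : |lV δ n q| < 1 / 16) :
    D.Q (Vx δ q) = PB D b (Fi δ ε n j q) := by
  obtain ⟨v1, v2, v3⟩ := Vx_c hδ h.le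
  have vf := Vx_fh hδ h.le
  have vn := Vx_ne hδ h
  set z := Vx δ q with hz
  set A : ℂ := q.1 + q.2 / 2 with hA
  set B : ℂ := q.1 - q.2 / 2 with hB
  set t := tV q with ht
  have hδ2 : δ * δ = 1 := by rcases hδ with h | h <;> rw [h] <;> norm_num
  have pA : 0 < ‖A‖ := norm_pos_iff.2 h1
  have pB : 0 < ‖B‖ := norm_pos_iff.2 h2
  have cA : (‖A‖ : ℂ) ≠ 0 := by exact_mod_cast pA.ne'
  have cB : (‖B‖ : ℂ) ≠ 0 := by exact_mod_cast pB.ne'
  -- the angle of B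
  obtain ⟨β, hβ⟩ := GlV_arg (p := B)
  set m := β + j * t with hm
  have eB : B = (‖B‖ : ℂ) * ex (m + -j * t) := by
    rw [hm, show β + j * t + -j * t = β by ring]
    exact hβ
  -- the angle of A
  have eAB : A / B = (‖A / B‖ : ℂ) * ex t := GlV_log
  have eA : A = (‖A‖ : ℂ) * ex (m + (1 - j) * t) := by
    have h3 : A = A / B * B := (div_mul_cancel₀ _ h2).symm
    have h4 : ‖A / B‖ * ‖B‖ = ‖A‖ := by
      rw [norm_div, div_mul_cancel₀ _ pB.ne']
    calc A = A / B * B := h3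
      _ = ((‖A / B‖ : ℂ) * ex t) * ((‖B‖ : ℂ) * ex (m + -j * t)) := by rw [← eAB, ← eB]
      _ = ((‖A / B‖ * ‖B‖ : ℝ) : ℂ) * (ex t * ex (m + -j * t)) := by push_cast; ring
      _ = (‖A‖ : ℂ) * ex (m + (1 - j) * t) := by
        rw [h4, ← ex_add, show t + (m + -j * t) = m + (1 - j) * t by ring]
  -- the angle of fh
  set g : ℂ := (Real.sqrt (1 - SV q ^ 2) : ℝ) - (δ * uV q : ℝ) * I with hg
  have hfg : fh z = δ * I * g := by
    rw [vf, hg]
    apply Complex.ext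
    · simp
      rw [← mul_assoc, hδ2, one_mul]
    · simp
  have hng : ‖fh z‖ = ‖g‖ := by
    rw [hfg, norm_mul, norm_mul, Complex.norm_I, Complex.norm_real, mul_one]
    rcases hδ with h | h <;> rw [h] <;> norm_num
  have eg : g = (‖g‖ : ℂ) * ex (lV δ n q - n * t) := by
    have h3 : lV δ n q - n * t = (Complex.log g).im / (2 * Real.pi) := by
      unfold lV
      rw [← hg, ← ht]
      ring
    rw [h3]
    exact GlV_log
  have hδI : (δ : ℂ) * I = ex (1 / 2 - δ / 4) := by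
    rcases hδ with h | h
    · rw [h, show (1 : ℝ) / 2 - 1 / 4 = 1 / 4 by norm_num, ex_quarter]
      simp
    · rw [h, show (1 : ℝ) / 2 - -1 / 4 = 1 / 2 + 1 / 4 by norm_num, ex_add, ex_quarter, ex_half]
      simp
  set l := 1 / 2 - δ / 4 + lV δ n q with hl'
  have ef : fh z = (‖fh z‖ : ℂ) * ex (l - n * t) := by
    rw [hng]
    calc fh z = δ * I * g := hfg
      _ = ex (1 / 2 - δ / 4) * ((‖g‖ : ℂ) * ex (lV δ n q - n * t)) := by rw [← hδI, ← eg]
      _ = (‖g‖ : ℂ) * (ex (1 / 2 - δ / 4) * ex (lV δ n q - n * t)) := by ring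
      _ = (‖g‖ : ℂ) * ex (l - n * t) := by
        rw [← ex_add, show 1 / 2 - δ / 4 + (lV δ n q - n * t) = l - n * t by rw [hl']; ring]
  have hglue := D.glue z l m t vn (by rw [v1]; exact h1) (by rw [v2]; exact h2)
    (by
      rw [v1, Int.cast_one, one_mul, Int.cast_sub, Int.cast_one]
      exact eA)
    (by
      rw [v2, Int.cast_one, one_mul, Int.cast_neg]
      exact eB) ef
  -- the point of the knot
  have hv : ((2 * ‖c1 z‖ * ‖c2 z‖ : ℝ) : ℂ) * ex m = vV j q := by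
    rw [v1, v2]
    unfold vV
    rw [← hA, ← hB, ← ht]
    have h3 : B = (‖B‖ : ℂ) * ex (m + -j * t) := eB
    calc ((2 * ‖A‖ * ‖B‖ : ℝ) : ℂ) * ex m
        = ((2 * ‖A‖ : ℝ) : ℂ) * ((‖B‖ : ℂ) * ex (m + -j * t)) * ex (j * t) := by
          have h4 : ex m = ex (m + -j * t) * ex (j * t) := by
            rw [← ex_add]
            congr 1
            ring
          rw [h4]
          push_cast
          ring
      _ = _ := by rw [← h3]
  have hvn : ‖vV j q‖ < 1 := by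
    rw [← hv]
    exact glue_norm vn m
  rw [hglue, hv]
  unfold PB Fi
  dsimp only
  rw [← ht, hl', hs (lV δ n q) (vV j q) hl hvn]

end Pool.Agent.RSG
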