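import Pool.Agent.RSG.BBn
import Pool.Agent.RSG.LDc

/-!
# RSG/XWm: the map `XW`   (difficulty 1)

`XW δ ε (p, ν) = (x, w)`, `x = cj ε (p - 4δ) / 2`, `w = L (ν om)` with `L v = ⟨-(δε) v.re, v.im⟩` a real
linear involution (`(δε)² = 1`) and `om = om δ p = (1/2) / cj δ (p + 4δ)`, nonzero and smooth for
`p + 4δ ≠ 0`.  Inverse: `p = 4δ + 2 cj ε x`, `ν = L w / om δ p`.  So `XW` is a local diffeomorphism at
`(p, ν)` if `p + 4δ ≠ 0` (`ld_left`, or `ld_two`).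
`XW (p, 0) = (cj ε (p - 4δ)/2, 0)`, `SV = |p - 4δ|² / 2`.
-/

open scoped Manifold ContDiff Topology
open Set Filter
open Complex (I)

namespace Pool.Agent.RSG

/-- `L v = ⟨c v.re, v.im⟩` -/
noncomputable def XWm_L (c : ℝ) (v : ℂ) : ℂ := ⟨c * v.re, v.im⟩

theorem XWm_L_smooth (c : ℝ) : ContDiff ℝ ∞ (XWm_L c) := by
  have : XWm_L c = fun v : ℂ => ((c * v.re : ℝ) : ℂ) + ((v.im : ℝ) : ℂ) * I := by
    funext v
    apply Complex.ext <;> simp [XWm_L]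
  rw [this]
  exact (Complex.ofRealCLM.contDiff.comp (contDiff_const.mul Complex.reCLM.contDiff)).add
    ((Complex.ofRealCLM.contDiff.comp Complex.imCLM.contDiff).mul contDiff_const)

theorem XWm_LL {c : ℝ} (hc : c * c = 1) (v : ℂ) : XWm_L c (XWm_L c v) = v := by
  apply Complex.ext
  · simp only [XWm_L]
    rw [← mul_assoc, hc, one_mul]
  · rfl

theorem XWm_cj_ne {δ : ℝ} (hδ : δ = 1 ∨ δ = -1) {u : ℂ} (h : u ≠ 0) : cj δ u ≠ 0 := by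
  intro h0
  have := cj_norm hδ u
  rw [h0, norm_zero] at this
  exact h (norm_eq_zero.1 this.symm)

theorem XWm_om_ne {δ : ℝ} (hδ : δ = 1 ∨ δ = -1) {p : ℂ} (h : p + 4 * δ ≠ 0) : om δ p ≠ 0 :=
  div_ne_zero (by norm_num) (XWm_cj_ne hδ h)

theorem XWm_div {E : Type*} [NormedAddCommGroup E] [NormedSpace ℝ E] {f g : E → ℂ} {x : E}
    (hf : ContDiffAt ℝ ∞ f x) (hg : ContDiffAt ℝ ∞ g x) (h : g x ≠ 0) :
    ContDiffAt ℝ ∞ (fun y => f y / g y) x := by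
  simp only [div_eq_mul_inv]
  exact hf.mul (hg.inv h)

theorem XWm_om_smooth {δ : ℝ} (hδ : δ = 1 ∨ δ = -1) {p : ℂ} (h : p + 4 * δ ≠ 0) :
    ContDiffAt ℝ ∞ (om δ) p := by
  have h1 : ContDiffAt ℝ ∞ (fun p : ℂ => cj δ (p + 4 * δ)) p :=
    (cj_smooth δ).contDiffAt.comp p (contDiffAt_id.add contDiffAt_const)
  exact XWm_div contDiffAt_const h1 (XWm_cj_ne hδ h)

theorem XW_ld {δ ε : ℝ} (hδ : δ = 1 ∨ δ = -1) (hε : ε = 1 ∨ ε = -1) {p ν : ℂ}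
    (h : p + 4 * δ ≠ 0) :
    IsLocalDiffeomorphAt 𝓘(ℝ, ℂ × ℂ) 𝓘(ℝ, ℂ × ℂ) ∞ (XW δ ε) (p, ν) := by
  have hc : -(δ * ε) * -(δ * ε) = 1 := by
    rcases hδ with rfl | rfl <;> rcases hε with rfl | rfl <;> norm_num
  have hev : ∀ᶠ q : ℂ × ℂ in 𝓝 (p, ν), q.1 + 4 * δ ≠ 0 := by
    have hcont : Continuous fun q : ℂ × ℂ => q.1 + 4 * (δ : ℂ) := by fun_prop
    exact hcont.continuousAt.eventually_ne h
  have hinv : ∀ q : ℂ × ℂ, q.1 + 4 * δ ≠ 0 →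
      (fun y : ℂ × ℂ => ((4 * δ + 2 * cj ε y.1 : ℂ),
        XWm_L (-(δ * ε)) y.2 / om δ (4 * δ + 2 * cj ε y.1))) (XW δ ε q) = q := by
    intro q hq
    have e1 : (4 * δ + 2 * cj ε (cj ε (q.1 - 4 * δ) / 2) : ℂ) = q.1 := by
      have : (cj ε (q.1 - 4 * δ) / 2 : ℂ) = ((1 / 2 : ℝ) : ℂ) * cj ε (q.1 - 4 * δ) := by
        push_cast; ring
      rw [this, cj_real_mul, cj_cj hε]
      push_cast; ring
    have e2 : XWm_L (-(δ * ε)) (XW δ ε q).2 = q.2 * om δ q.1 := XWm_LL hc _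
    refine Prod.ext ?_ ?_
    · exact e1
    · show XWm_L (-(δ * ε)) (XW δ ε q).2 / om δ (4 * δ + 2 * cj ε (cj ε (q.1 - 4 * δ) / 2)) = q.2
      rw [e1, e2, mul_div_assoc, div_self (XWm_om_ne hδ hq), mul_one]
  have hsm : ∀ q : ℂ × ℂ, q.1 + 4 * δ ≠ 0 → ContDiffAt ℝ ∞ (XW δ ε) q := by
    intro q hq
    have h1 : ContDiffAt ℝ ∞ (fun q : ℂ × ℂ => cj ε (q.1 - 4 * δ) / 2) q :=
      ((cj_smooth ε).contDiffAt.comp q (contDiffAt_fst.sub contDiffAt_const)).div_const _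
    have h2 : ContDiffAt ℝ ∞ (fun q : ℂ × ℂ => XWm_L (-(δ * ε)) (q.2 * om δ q.1)) q :=
      (XWm_L_smooth _).contDiffAt.comp q
        (contDiffAt_snd.mul ((XWm_om_smooth hδ hq).comp q contDiffAt_fst))
    exact h1.prodMk h2
  refine ld_left (g := fun y : ℂ × ℂ => ((4 * δ + 2 * cj ε y.1 : ℂ),
        XWm_L (-(δ * ε)) y.2 / om δ (4 * δ + 2 * cj ε y.1))) (hev.mono hsm) rfl ?_ (hev.mono hinv)
  have e0 : (4 * δ + 2 * cj ε (XW δ ε (p, ν)).1 : ℂ) = p :=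
    congrArg Prod.fst (hinv (p, ν) h)
  have hd1 : ContDiffAt ℝ ∞ (fun y : ℂ × ℂ => (4 * δ + 2 * cj ε y.1 : ℂ)) (XW δ ε (p, ν)) :=
    contDiffAt_const.add (contDiffAt_const.mul ((cj_smooth ε).contDiffAt.comp _ contDiffAt_fst))
  have hd2 : ContDiffAt ℝ ∞ (fun y : ℂ × ℂ => XWm_L (-(δ * ε)) y.2 /
      om δ (4 * δ + 2 * cj ε y.1)) (XW δ ε (p, ν)) := by
    refine XWm_div ((XWm_L_smooth _).contDiffAt.comp _ contDiffAt_snd) ?_ ?_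
    · refine ContDiffAt.comp (XW δ ε (p, ν)) (g := om δ) ?_ hd1
      rw [e0]
      exact XWm_om_smooth hδ h
    · rw [e0]
      exact XWm_om_ne hδ h
  exact (hd1.prodMk hd2).differentiableAt (by simp)

theorem XW_zero (δ ε : ℝ) (p : ℂ) : XW δ ε (p, 0) = (cj ε (p - 4 * δ) / 2, 0) := by
  unfold XW
  refine Prod.ext rfl ?_
  apply Complex.ext <;> simp

theorem SV_XW_zero {δ ε : ℝ} (hε : ε = 1 ∨ ε = -1) (p : ℂ) :
    SV (XW δ ε (p, 0)) = ‖p - 4 * δ‖ ^ 2 / 2 := by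
  rw [XW_zero]
  unfold SV
  simp only [norm_zero]
  rw [norm_div, cj_norm hε]
  norm_num
  ring

end Pool.Agent.RSG
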