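import Pool.Agent.CSG.EDef
import Pool.Agent.CSG.LD
import Pool.Agent.RSG.Fn

/-!
# RSG/TwD: the even twist along a torus bounding a 0-framed disc, definitions

`Θ (y, φ, ζ)` is a chart (modulo `Z²` in `(y, φ)`) of a neighbourhood `|ζ| < 3/5` of the torus
`ζ = 0`; `EE (p, ν)` is a chart of a neighbourhood of the disc `ν = 0`, `|p| ≤ 10`, which for
`|p| ≥ 9` is `Θ (y, arg p / 2π, (5/|p|) ex s)` with `ν = -s + i y`.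
`eeT` is the chart of the union: for `|p| > 10` it is `farT`, for `|p| ≤ 10` it is `EE`; its domain is
`CSG.Dm σ` (variable `z = (y, p, s)`).
-/

open scoped Manifold ContDiff Topology
open Set Filter
open Complex (I)
open Pool.Agent.CSG (Dm Cm Lam Lam')

namespace Pool.Agent.RSG

section
variable {X : Type*} [TopologicalSpace X] [ChartedSpace E4 X]

/-- the chart near the torus -/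
noncomputable def farT (Θ : ℝ × ℝ × ℂ → X) (z : ℝ × ℂ × ℝ) : X :=
  Θ (z.1, Complex.arg z.2.1 / (2 * Real.pi), (5 / ‖z.2.1‖ : ℝ) * ex z.2.2)

open Classical in
/-- the full chart -/
noncomputable def eeT (Θ : ℝ × ℝ × ℂ → X) (EE : ℂ × ℂ → X) (z : ℝ × ℂ × ℝ) : X :=
  if 10 < ‖z.2.1‖ then farT Θ z
  else EE (z.2.1, ⟨-(z.2.2 - round z.2.2), z.1 - round z.1⟩)

structure TwHyp (Θ : ℝ × ℝ × ℂ → X) (EE : ℂ × ℂ → X) : Prop where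
  loc : ∀ y φ ζ, ‖ζ‖ < 3 / 5 → IsLocalDiffeomorphAt 𝓘(ℝ, ℝ × ℝ × ℂ) (𝓡 4) ∞ Θ (y, φ, ζ)
  per1 : ∀ y φ ζ, Θ (y + 1, φ, ζ) = Θ (y, φ, ζ)
  per2 : ∀ y φ ζ, Θ (y, φ + 1, ζ) = Θ (y, φ, ζ)
  inj : ∀ y φ ζ y' φ' ζ', ‖ζ‖ < 3 / 5 → ‖ζ'‖ < 3 / 5 → Θ (y, φ, ζ) = Θ (y', φ', ζ') →
    ζ = ζ' ∧ (∃ m : ℤ, y' = y + m) ∧ ∃ m : ℤ, φ' = φ + m
  E_loc : ∀ p, ‖p‖ ≤ 10 → IsLocalDiffeomorphAt 𝓘(ℝ, ℂ × ℂ) (𝓡 4) ∞ EE (p, 0)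
  E_inj : ∀ p p', ‖p‖ ≤ 10 → ‖p'‖ ≤ 10 → EE (p, 0) = EE (p', 0) → p = p'
  E_far : ∀ (p : ℂ) (s y : ℝ), 9 ≤ ‖p‖ → ‖p‖ ≤ 11 → |s| < 1 / 2 → |y| < 1 / 2 →
    EE (p, ⟨-s, y⟩) = farT Θ (y, p, s)
  E_sep : ∀ p y φ ζ, ‖p‖ ≤ 9 → ‖ζ‖ ≤ 1 / 2 → EE (p, 0) ≠ Θ (y, φ, ζ)

/-- the torus -/
def TorT (Θ : ℝ × ℝ × ℂ → X) : Set X := {x | ∃ y φ, x = Θ (y, φ, 0)}

/-- `σ` is small enough. -/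
structure SigOK (Θ : ℝ × ℝ × ℂ → X) (EE : ℂ × ℂ → X) (σ : ℝ) : Prop where
  pos : 0 < σ
  le : σ ≤ 1 / 4
  loc : ∀ p ν, ‖p‖ ≤ 10 → |ν.re| < σ → |ν.im| < σ →
    IsLocalDiffeomorphAt 𝓘(ℝ, ℂ × ℂ) (𝓡 4) ∞ EE (p, ν)
  inj : ∀ p ν p' ν', ‖p‖ ≤ 10 → |ν.re| < σ → |ν.im| < σ → ‖p'‖ ≤ 10 → |ν'.re| < σ → |ν'.im| < σ →
    EE (p, ν) = EE (p', ν') → p = p' ∧ ν = ν'
  sep : ∀ p ν y φ ζ, ‖p‖ ≤ 9 → |ν.re| < σ → |ν.im| < σ → ‖ζ‖ ≤ 1 / 2 → EE (p, ν) ≠ Θ (y, φ, ζ)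

end

end Pool.Agent.RSG
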