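import Pool.Agent.RSG.TwE
import Pool.Agent.CSG.Clos
import Pool.Agent.CSG.LamB

/-!
# RSG/TwC: closedness   (difficulty 3)

`eeT '' Cm σ ∪ TorT = K₁ ∪ K₂`, with
`K₂ = Θ '' ([0,1] × [0,1] × {|ζ| ≤ σ/4})` (compact, `Θ` is continuous at these points) and
`K₁ = eeT '' (Cm σ ∩ {y, s ∈ [0, 1], |p| ≤ 20/σ})` (compact: `Cm σ` is closed (`CSG.isClosed_Cm`),
`eeT` is continuous at the points of `Cm σ ⊆ Dm σ` (`CSG.Cm_sub`, `eeT_loc`,
`CSG.ld_continuousAt`)).  Compact sets are closed (`X` is Hausdorff).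
* `K₂ ⊆`: `Θ (y, φ, 0) ∈ TorT`.  If `0 < |ζ| ≤ σ/4`, put `p = (5/|ζ|) ex φ`, `s = arg ζ / 2π`:
  `|p| ≥ 20/σ > 10`, `rr σ y p ≥ (σ/10 |p|)² ≥ 4 ≥ 1` (`CSG.LamB_le_rr` with `c = 20`), so
  `(y, p, s) ∈ Cm σ`, and `eeT (y, p, s) = Θ (y, arg p / 2π, (5/|p|) ex s) = Θ (y, φ, ζ)`
  (`arg p / 2π - φ ∈ Z`, `(|ζ|) ex (arg ζ / 2π) = ζ`).
* `⊆`: `TorT`: reduce `y, φ` to `[0,1]` (`Int.fract`) by `ThT_int`.  `z = (y, p, s) ∈ Cm σ`: `Cm σ`
  and `eeT` are invariant under integer translations of `y`, `s` (`CSG.LamB_sc_per` for `rr`;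
  `eeT_per`), so we may assume `y, s ∈ [0,1)`.  If `|p| ≤ 20/σ`: in `K₁`.  Else `|p| > 20/σ > 10`
  and `eeT z = farT z = Θ (y, arg p / 2π, ζ)` with `|ζ| = 5/|p| ≤ σ/4`; reduce `arg p / 2π` to
  `[0,1)`: in `K₂`.
-/

open scoped Manifold ContDiff Topology
open Set Filter
open Complex (I)
open Pool.Agent.CSG (Dm Cm Lam Lam' rr)

namespace Pool.Agent.RSG

section
variable {X : Type*} [TopologicalSpace X] [ChartedSpace E4 X]
    {Θ : ℝ × ℝ × ℂ → X} {EE : ℂ × ℂ → X} {σ : ℝ}

/-- the far chart at a point given in polar coordinates -/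
theorem TwC_far (h : TwHyp Θ EE) (y φ s : ℝ) {r : ℝ} (hr : 0 < r) (hr2 : r < 1 / 2) :
    10 < ‖((5 / r : ℝ) : ℂ) * ex φ‖ ∧
    eeT Θ EE (y, ((5 / r : ℝ) : ℂ) * ex φ, s) = Θ (y, φ, (r : ℂ) * ex s) := by
  have h5 : 0 < 5 / r := by positivity
  have hn : ‖((5 / r : ℝ) : ℂ) * ex φ‖ = 5 / r := by
    rw [norm_mul, ex_norm, mul_one, Complex.norm_real, Real.norm_of_nonneg h5.le]
  have h10 : 10 < 5 / r := by
    rw [lt_div_iff₀ hr]; linarith
  refine ⟨by rw [hn]; exact h10, ?_⟩
  have h1 := ex_arg (p := ((5 / r : ℝ) : ℂ) * ex φ)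
  rw [hn] at h1
  obtain ⟨-, m, hm⟩ := ex_polar h5 h5 h1
  unfold eeT
  simp only
  rw [if_pos (by rw [hn]; exact h10)]
  unfold farT
  simp only
  rw [hn]
  have e1 : (5 / (5 / r) : ℝ) = r := by field_simp
  rw [e1]
  have h2 := ThT_int h y (Complex.arg (((5 / r : ℝ) : ℂ) * ex φ) / (2 * Real.pi))
    ((r : ℂ) * ex s) 0 m
  rw [← hm] at h2
  simpa using h2.symm

theorem TwC_cont (h : TwHyp Θ EE) {K : Set (ℝ × ℝ × ℂ)} (hK : ∀ a ∈ K, ‖a.2.2‖ < 3 / 5) :
    ContinuousOn Θ K := by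
  rintro ⟨y, φ, ζ⟩ ha
  exact (CSG.ld_continuousAt (h.loc y φ ζ (hK _ ha))).continuousWithinAt

end

theorem eeT_closed {X : Type*} [TopologicalSpace X] [ChartedSpace E4 X] [T2Space X]
    {Θ : ℝ × ℝ × ℂ → X} {EE : ℂ × ℂ → X} {σ : ℝ} (h : TwHyp Θ EE) (hσ : SigOK Θ EE σ) :
    IsClosed (eeT Θ EE '' Cm σ ∪ TorT Θ) := by
  have h0 : 0 < σ := hσ.pos
  have h1 : σ ≤ 1 / 4 := hσ.le
  set K1 : Set (ℝ × ℂ × ℝ) := Cm σ ∩ (Icc (0 : ℝ) 1 ×ˢ Metric.closedBall (0 : ℂ) (20 / σ) ×ˢ
    Icc (0 : ℝ) 1) with hK1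
  set K2 : Set (ℝ × ℝ × ℂ) := Icc (0 : ℝ) 1 ×ˢ Icc (0 : ℝ) 1 ×ˢ
    Metric.closedBall (0 : ℂ) (σ / 4) with hK2
  have hmain : eeT Θ EE '' Cm σ ∪ TorT Θ = eeT Θ EE '' K1 ∪ Θ '' K2 := by
    apply Subset.antisymm
    · apply union_subset
      · rintro _ ⟨⟨y, p, s⟩, hz, rfl⟩
        have hz' : (Int.fract y, p, Int.fract s) ∈ Cm σ := by
          refine ⟨?_, ?_⟩
          · have e : rr σ (Int.fract y) p = rr σ y p := by
              unfold CSG.rr CSG.sc
              rw [Int.fract_fract]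
            show 1 ≤ rr σ (Int.fract y) p
            rw [e]
            exact hz.1
          · rcases hz.2 with h3 | h3
            · left
              show |Int.fract s - round (Int.fract s)| ≤ σ / 2
              have e : Int.fract s = s - ⌊s⌋ := rfl
              rw [e, round_sub_intCast]
              push_cast
              rw [sub_sub_sub_cancel_right]
              exact h3
            · right
              exact h3
        have he : eeT Θ EE (y, p, s) = eeT Θ EE (Int.fract y, p, Int.fract s) := by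
          have h3 := eeT_per h (Int.fract y) (Int.fract s) p ⌊y⌋ ⌊s⌋
          rw [Int.fract_add_floor, Int.fract_add_floor] at h3
          exact h3
        by_cases hp : ‖p‖ ≤ 20 / σ
        · left
          refine ⟨(Int.fract y, p, Int.fract s), ⟨hz',
            ⟨Int.fract_nonneg _, (Int.fract_lt_one _).le⟩, ?_,
            ⟨Int.fract_nonneg _, (Int.fract_lt_one _).le⟩⟩, he.symm⟩
          rw [Metric.mem_closedBall, dist_zero_right]
          exact hp
        · right
          push Not at hp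
          have h20 : (80 : ℝ) ≤ 20 / σ := by
            rw [le_div_iff₀ h0]; linarith
          have hp10 : 10 < ‖p‖ := by linarith
          have hp0 : 0 < ‖p‖ := by linarith
          rw [he]
          refine ⟨(Int.fract y, Int.fract (Complex.arg p / (2 * Real.pi)),
            ((5 / ‖p‖ : ℝ) : ℂ) * ex (Int.fract s)), ⟨⟨Int.fract_nonneg _,
            (Int.fract_lt_one _).le⟩, ⟨Int.fract_nonneg _, (Int.fract_lt_one _).le⟩, ?_⟩, ?_⟩
          · rw [Metric.mem_closedBall, dist_zero_right, norm_mul, ex_norm, mul_one,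
              Complex.norm_real, Real.norm_of_nonneg (by positivity), div_le_iff₀ hp0]
            rw [div_lt_iff₀ h0] at hp
            linarith
          · unfold eeT
            simp only
            rw [if_pos hp10]
            unfold farT
            simp only
            have h3 := ThT_int h (Int.fract y) (Int.fract (Complex.arg p / (2 * Real.pi)))
              (((5 / ‖p‖ : ℝ) : ℂ) * ex (Int.fract s)) 0 ⌊Complex.arg p / (2 * Real.pi)⌋
            rw [Int.fract_add_floor] at h3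
            simpa using h3.symm
      · rintro _ ⟨y, φ, rfl⟩
        right
        refine ⟨(Int.fract y, Int.fract φ, 0), ⟨⟨Int.fract_nonneg _,
            (Int.fract_lt_one _).le⟩, ⟨Int.fract_nonneg _, (Int.fract_lt_one _).le⟩, ?_⟩, ?_⟩
        · rw [Metric.mem_closedBall, dist_self]
          positivity
        · have h3 := ThT_int h (Int.fract y) (Int.fract φ) 0 ⌊y⌋ ⌊φ⌋
          rw [Int.fract_add_floor, Int.fract_add_floor] at h3
          exact h3.symm
    · apply union_subset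
      · exact (image_mono inter_subset_left).trans subset_union_left
      · rintro _ ⟨⟨y, φ, ζ⟩, ⟨-, -, hζ⟩, rfl⟩
        simp only at hζ
        rw [Metric.mem_closedBall, dist_zero_right] at hζ
        by_cases hz0 : ζ = 0
        · right
          exact ⟨y, φ, by rw [hz0]⟩
        · left
          have hr : 0 < ‖ζ‖ := norm_pos_iff.2 hz0
          obtain ⟨f1, f2⟩ := TwC_far h y φ (Complex.arg ζ / (2 * Real.pi)) hr (by linarith)
          rw [ex_arg] at f2
          have hn : ‖((5 / ‖ζ‖ : ℝ) : ℂ) * ex φ‖ = 5 / ‖ζ‖ := by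
            rw [norm_mul, ex_norm, mul_one, Complex.norm_real, Real.norm_of_nonneg (by positivity)]
          have hp : 20 / σ ≤ ‖((5 / ‖ζ‖ : ℝ) : ℂ) * ex φ‖ := by
            rw [hn, div_le_div_iff₀ h0 hr]
            linarith
          refine ⟨_, ⟨?_, Or.inr hp⟩, f2⟩
          have h3 := CSG.LamB_le_rr h0 (by norm_num : (0 : ℝ) ≤ 20) (n := y) hp
          rw [show ((20 : ℝ) / 10) ^ 2 = 4 by norm_num] at h3
          show 1 ≤ rr σ y _
          linarith
  rw [hmain]
  apply IsClosed.union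
  · apply IsCompact.isClosed
    apply IsCompact.image_of_continuousOn
    · apply IsCompact.inter_left _ (CSG.isClosed_Cm h0 h1)
      exact isCompact_Icc.prod ((isCompact_closedBall _ _).prod isCompact_Icc)
    · intro z hz
      exact (CSG.ld_continuousAt (eeT_loc h hσ (CSG.Cm_sub h0 h1 hz.1))).continuousWithinAt
  · apply IsCompact.isClosed
    apply IsCompact.image_of_continuousOn
    · exact isCompact_Icc.prod (isCompact_Icc.prod (isCompact_closedBall _ _))
    · apply TwC_cont h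
      rintro a ⟨-, -, ha⟩
      rw [Metric.mem_closedBall, dist_zero_right] at ha
      linarith

end Pool.Agent.RSG
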