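import Pool.Agent.RSG.TwS
import Pool.Agent.RSG.TwC
import Pool.Agent.CSG.GamAbs
import Pool.Agent.CSG.EeP
import Pool.Agent.CSG.LamA
import Pool.Agent.CSG.LamB

/-!
# RSG/TwG: the even twist along a torus with a 0-framed disc   (difficulty 2; model: CSG/Gam)

Take `σ` from `exists_sigma` and apply `CSG.exists_gamma` with `e = eeT Θ EE`, `D = Dm σ`, `C = Cm σ`,
`T = TorT Θ`, `L = Lam σ`, `L' = Lam' σ`:  `CSG.Dm_open`, `eeT_loc`, `eeT_torus`, `CSG.Lam_loc` (see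
CSG/Gam), `CSG.Lam_left`, `CSG.Lam_right`, `CSG.Lam_D`, `CSG.Lam'_D`, `CSG.Lam_id`, `eeT_closed`,
`CSG.Cm_sub`.  `hcomp`: if `eeT z = eeT z'` then `z' = z + (a, 0, c)` with integers `a, c`
(`eeT_inj`); `Lam_per`/`Lam'_per` give `L z' = L z + (a, 0, c)` and `eeT_per` applies.
Put `ρ = σ / 8`.  For `0 < r < ρ` let `p = (5/r) ex φ`, `|p| = 5/r > 40/σ ≥ 10`.  Then
`z = (y, p, s) ∈ Dm σ`, `eeT z = farT z = Θ (y, φ, r ex s)` (`arg p / 2π - φ ∈ Z`), and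
`Lam σ z = (y, e^{-4πis} p, s)` (`CSG.Lam_far`), so `eeT (Lam σ z) = Θ (y, φ - 2s, r ex s)` as
`e^{-4πis} p = (5/r) ex (φ - 2s)`.
-/

open scoped Manifold ContDiff Topology
open Set Filter
open Complex (I)
open Pool.Agent.CSG (Dm Cm Lam Lam')

namespace Pool.Agent.RSG

theorem even_twist {X : Type*} [TopologicalSpace X] [ChartedSpace E4 X] [T2Space X]
    {Θ : ℝ × ℝ × ℂ → X} {EE : ℂ × ℂ → X} (h : TwHyp Θ EE) :
    ∃ (Γ : Equiv.Perm X) (ρ : ℝ), 0 < ρ ∧ ρ < 1 / 4 ∧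
      (∀ x, x ∉ TorT Θ → IsLocalDiffeomorphAt (𝓡 4) (𝓡 4) ∞ Γ x) ∧
      (∀ (y φ s r : ℝ), 0 < r → r < ρ → Γ (Θ (y, φ, r * ex s)) = Θ (y, φ - 2 * s, r * ex s)) ∧
      ∀ x ∈ TorT Θ, Γ x = x := by
  obtain ⟨σ, hs⟩ := exists_sigma h
  have h0 : 0 < σ := hs.pos
  have hσ : σ ≤ 1 / 4 := hs.le
  let L : (ℝ × ℂ × ℝ) ≃ (ℝ × ℂ × ℝ) :=
    ⟨Lam σ, Lam' σ, CSG.Lam_left h0 hσ, CSG.Lam_right h0 hσ⟩
  have hcomp : ∀ (F : ℝ × ℂ × ℝ → ℝ × ℂ × ℝ),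
      (∀ (n s : ℝ) (p : ℂ) (a b : ℤ), F (n + a, p, s + b) =
        ((F (n, p, s)).1 + a, (F (n, p, s)).2.1, (F (n, p, s)).2.2 + b)) →
      ∀ z ∈ Dm σ, ∀ z' ∈ Dm σ, eeT Θ EE z = eeT Θ EE z' → eeT Θ EE (F z) = eeT Θ EE (F z') := by
    intro F hF z hz z' hz' hh
    obtain ⟨n, p, s⟩ := z
    obtain ⟨n', p', s'⟩ := z'
    obtain ⟨hp, ⟨a, ha⟩, ⟨b, hb⟩⟩ := eeT_inj h hs hz hz' hh
    subst hp ha hb
    rw [hF n s p' a b, eeT_per h]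
  obtain ⟨Γ, hΓ1, hΓ2, -, hΓ4⟩ := CSG.exists_gamma (J := 𝓡 4) (eeT Θ EE) (Dm σ) (Cm σ) (TorT Θ)
    (Lam σ) (Lam' σ)
    (CSG.Dm_open σ hσ) (fun z hz => eeT_loc h hs hz) (fun z hz => eeT_torus h hs hz)
    (fun z _ => CSG.ld_of_perm (f := L) (CSG.Lam_smooth h0 hσ) (CSG.Lam'_smooth h0 hσ) z)
    (fun z _ => CSG.Lam_right h0 hσ z) (fun z _ => CSG.Lam_left h0 hσ z) (CSG.Lam_D h0 hσ)
    (CSG.Lam'_D h0 hσ)
    (hcomp _ fun n s p a b => CSG.Lam_per n s p a b h0 hσ)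
    (hcomp _ fun n s p a b => CSG.Lam'_per n s p a b h0 hσ)
    (fun z _ hz => CSG.Lam_id h0 hσ hz) (eeT_closed h hs) (CSG.Cm_sub h0 hσ)
  refine ⟨Γ, σ / 8, by positivity, by linarith, hΓ1, ?_, hΓ4⟩
  intro y φ s r hr hrσ
  obtain ⟨f1, f2⟩ := TwC_far h y φ s hr (by linarith)
  obtain ⟨g1, g2⟩ := TwC_far h y (φ - 2 * s) s hr (by linarith)
  have hn : ‖((5 / r : ℝ) : ℂ) * ex φ‖ = 5 / r := by
    rw [norm_mul, ex_norm, mul_one, Complex.norm_real, Real.norm_of_nonneg (by positivity)]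
  have hp : 40 / σ ≤ ‖((5 / r : ℝ) : ℂ) * ex φ‖ := by
    rw [hn, div_le_div_iff₀ h0 hr]
    linarith
  have e : Complex.exp ((-(4 * Real.pi * s) : ℝ) * I) * (((5 / r : ℝ) : ℂ) * ex φ) =
      ((5 / r : ℝ) : ℂ) * ex (φ - 2 * s) := by
    have e2 : ex (φ - 2 * s) = Complex.exp ((-(4 * Real.pi * s) : ℝ) * I) * ex φ := by
      unfold ex
      rw [← Complex.exp_add]
      congr 1
      push_cast
      ring
    rw [e2]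
    ring
  rw [← f2, hΓ2 _ (Or.inl f1), CSG.Lam_far h0 hσ y s hp, e, g2]

end Pool.Agent.RSG
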