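import Pool.Agent.RSG.GgM
import Pool.Agent.RSG.XWm
import Pool.Agent.RSG.GlV
import Pool.Agent.RSG.FKn

/-!
# RSG/EEa: the chart `EE` of the disc, part 1   (difficulty 3)

`D : RollGluck κ n j X`, `h : FourMoveVia κ κ' b ε₁ ε₂`.
* `PB_ld`: `a = (z, s, t)`, `(z, s) ∈ Bal`, `z ≠ ±1`: `b (z, s)` is not on the knot (`ball_knot`), so
  `PB D b` is a local diffeomorphism at `a` (`ld_ball`, `h.ball_loc`, `D.A_loc`).
* `PB_inj`: `D.A_inj` and `h.ball_inj`.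
* `EE_near`: if `p ≠ 4`, `p ≠ -4`, then `EE = PB D b ∘ BB` near `(p, 0)`.  If `|p - 4| < 1` (similarly
  `|p + 4| < 1`): for `q = (p', ν)` near `(p, 0)`, if `|p' - 4| ≥ 1/4` then (as `|p' + 4| ≥ 1/4`)
  `EE q = PB (BB q)` by definition; if `|p' - 4| < 1/4` then `EE q = D.Q (Vx 1 (XW 1 ε₁ q))`, which is
  `PB D b (Fi 1 ε₁ n j (XW 1 ε₁ q))` by `vertex_glue` (`h.strand₁`), its hypotheses hold near
  `(p, 0)` by `Fi_ev` at `x = cj ε₁ (p - 4)/2 ≠ 0` and continuity of `XW` at `(p, 0)`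
  (`XW_ld`, `CSG.ld_continuousAt`, `XW_zero`); and `BB q = BBi 1 ε₁ n j q = Fi .. (XW ..)` as
  `stp (1/16) (1/4) (|p' - 4|²) = 0`.  If `|p - 4| ≥ 1` and `|p + 4| ≥ 1`, by definition.
* `EE_zero`: `p ≠ ±4`: `EE (p, 0) = PB D b (gg p, 0, 0)` (`EE_near` at the point, `BB_zero`).
* `EE_vertex`: `EE (4, 0) = D.Q (Vx 1 (0, 0))`, `EE (-4, 0) = D.Q (Vx (-1) (0, 0))` (`XW_zero`).
* `EE_vertex_ne`: `D.disj`, `c1 (Vx δ (0,0)) = 0` (`Vx_c`), `Vx_ne`.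
-/

open scoped Manifold ContDiff Topology
open Set Filter
open Complex (I)

namespace Pool.Agent.RSG

section
variable {N : Type*} [TopologicalSpace N] [ChartedSpace E3 N]
  {X : Type*} [TopologicalSpace X] [ChartedSpace E4 X] {κ κ' : ℝ × ℂ → N} {n j : ℤ}
  {b : ℂ × ℝ → N} {ε₁ ε₂ : ℝ}

theorem EEa_notKnot (h : FourMoveVia κ κ' b ε₁ ε₂) {z : ℂ} {s : ℝ}
    (hz : ‖z‖ < 4) (hs : |s| < 1) (h1 : z ≠ 1) (h2 : z ≠ -1) : ¬ OnKnot κ (b (z, s)) := by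
  intro hk
  rcases ball_knot h (show (z, s) ∈ Bal from ⟨hz, hs⟩) hk with h3 | h3
  · exact h1 h3
  · exact h2 h3

theorem PB_ld (D : RollGluck κ n j X) (h : FourMoveVia κ κ' b ε₁ ε₂) {z : ℂ} {s t : ℝ}
    (hz : ‖z‖ < 4) (hs : |s| < 1) (h1 : z ≠ 1) (h2 : z ≠ -1) :
    IsLocalDiffeomorphAt 𝓘(ℝ, ℂ × ℝ × ℝ) (𝓡 4) ∞ (PB D b) (z, s, t) :=
  ld_ball (h.ball_loc z s hz hs) (D.A_loc (b (z, s)) t (EEa_notKnot h hz hs h1 h2))

theorem PB_inj (D : RollGluck κ n j X) (h : FourMoveVia κ κ' b ε₁ ε₂) {z z' : ℂ} {s s' t t' : ℝ}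
    (hz : ‖z‖ < 4) (hs : |s| < 1) (h1 : z ≠ 1) (h2 : z ≠ -1)
    (hz' : ‖z'‖ < 4) (hs' : |s'| < 1) (h1' : z' ≠ 1) (h2' : z' ≠ -1)
    (he : PB D b (z, s, t) = PB D b (z', s', t')) : z = z' ∧ s = s' ∧ ∃ m : ℤ, t' = t + m := by
  obtain ⟨e1, e2⟩ := D.A_inj (b (z, s)) (b (z', s')) t t' (EEa_notKnot h hz hs h1 h2)
    (EEa_notKnot h hz' hs' h1' h2') he
  obtain ⟨e3, e4⟩ := h.ball_inj z s z' s' hz hs hz' hs' e1
  exact ⟨e3, e4, e2⟩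

/-- near a strand, the vertex chart is the chart `BBi` in ball coordinates -/
theorem EEa_key (D : RollGluck κ n j X) {δ ε : ℝ} (hδ : δ = 1 ∨ δ = -1) (hε : ε = 1 ∨ ε = -1)
    (hs : Strand κ b δ ε) {p : ℂ} (hp0 : p ≠ 4 * (δ : ℂ)) (hp : ‖p - 4 * (δ : ℂ)‖ < 1) :
    ∀ᶠ q in 𝓝 (p, (0 : ℂ)), ‖q.1 - 4 * (δ : ℂ)‖ < 1 / 4 →
      D.Q (Vx δ (XW δ ε q)) = PB D b (BBi δ ε n j q) := by
  have hcn : ‖cj ε (p - 4 * δ)‖ = ‖p - 4 * δ‖ := cj_norm hε _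
  have hpp : p - 4 * δ ≠ 0 := sub_ne_zero.2 hp0
  have hx0 : cj ε (p - 4 * δ) / 2 ≠ 0 := by
    refine div_ne_zero ?_ two_ne_zero
    rw [← norm_ne_zero_iff, hcn]
    exact norm_ne_zero_iff.2 hpp
  have hx1 : 2 * ‖cj ε (p - 4 * δ) / 2‖ ^ 2 < 1 := by
    rw [norm_div, hcn, Complex.norm_two]
    nlinarith [norm_nonneg (p - 4 * δ)]
  have h8 : p + 4 * δ ≠ 0 := by
    intro h0
    have e : p - 4 * δ = -(8 * δ) := by
      rw [eq_neg_of_add_eq_zero_left h0]; ring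
    rw [e, norm_neg, norm_mul, Complex.norm_real, Real.norm_eq_abs] at hp
    have : |δ| = 1 := by rcases hδ with h | h <;> simp [h]
    rw [this] at hp
    norm_num at hp
  have hc : Tendsto (XW δ ε) (𝓝 (p, (0 : ℂ))) (𝓝 (cj ε (p - 4 * δ) / 2, 0)) := by
    rw [← XW_zero]
    exact Pool.Agent.CSG.ld_continuousAt (XW_ld hδ hε h8)
  filter_upwards [hc.eventually (Fi_ev (δ := δ) (n := n) hx0 hx1)] with q hq hq4
  obtain ⟨a1, a2, a3, a4⟩ := hq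
  rw [vertex_glue D hδ hs a1 a2 a3 a4]
  have hst : Pool.Agent.CSG.stp (1 / 16) (1 / 4) (‖q.1 - 4 * δ‖ ^ 2) = 0 := by
    apply Pool.Agent.CSG.stp_zero (by norm_num)
    nlinarith [norm_nonneg (q.1 - 4 * δ)]
  simp only [BBi, hst, mix, sub_zero, one_smul, zero_smul, add_zero]

theorem EE_near (D : RollGluck κ n j X) (h : FourMoveVia κ κ' b ε₁ ε₂) {p : ℂ} (h3 : p ≠ 4)
    (h4 : p ≠ -4) :
    ∀ᶠ q in 𝓝 (p, (0 : ℂ)), EE D b ε₁ ε₂ q = PB D b (BB ε₁ ε₂ n j q) := by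
  have c1 : Continuous fun q : ℂ × ℂ => ‖q.1 - 4‖ := by fun_prop
  have c2 : Continuous fun q : ℂ × ℂ => ‖q.1 + 4‖ := by fun_prop
  have t1 := c1.tendsto (p, (0 : ℂ))
  have t2 := c2.tendsto (p, (0 : ℂ))
  simp only at t1 t2
  have h8 : ∀ q : ℂ, 8 ≤ ‖q - 4‖ + ‖q + 4‖ := by
    intro q
    have := norm_sub_le (q + 4) (q - 4)
    have e : q + 4 - (q - 4) = 8 := by ring
    rw [e] at this
    have e8 : ‖(8 : ℂ)‖ = 8 := by simp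
    linarith
  by_cases hp1 : ‖p - 4‖ < 1
  · have hk := EEa_key D (δ := 1) (Or.inl rfl) h.sign₁ h.strand₁ (p := p) (by simpa using h3)
      (by simpa using hp1)
    filter_upwards [t1.eventually (gt_mem_nhds hp1), hk] with q hq1 hq2
    by_cases hq : ‖q.1 - 4‖ < 1 / 4
    · rw [EE, if_pos hq, hq2 (by simpa using hq), BB, if_pos hq1]
    · have : ¬ ‖q.1 + 4‖ < 1 / 4 := by linarith [h8 q.1]
      rw [EE, if_neg hq, if_neg this]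
  · by_cases hp2 : ‖p + 4‖ < 1
    · have hk := EEa_key D (δ := -1) (Or.inr rfl) h.sign₂ h.strand₂ (p := p)
        (by simpa using h4) (by simpa using hp2)
      filter_upwards [t2.eventually (gt_mem_nhds hp2), hk] with q hq1 hq2
      have g1 : ¬ ‖q.1 - 4‖ < 1 := by linarith [h8 q.1]
      have g2 : ¬ ‖q.1 - 4‖ < 1 / 4 := by linarith [h8 q.1]
      by_cases hq : ‖q.1 + 4‖ < 1 / 4
      · rw [EE, if_neg g2, if_pos hq, hq2 (by simpa using hq), BB, if_neg g1, if_pos hq1]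
      · rw [EE, if_neg g2, if_neg hq]
    · filter_upwards [t1.eventually (lt_mem_nhds (show 1 / 4 < ‖p - 4‖ by linarith)),
        t2.eventually (lt_mem_nhds (show 1 / 4 < ‖p + 4‖ by linarith))] with q hq1 hq2
      rw [EE, if_neg (not_lt.2 hq1.le), if_neg (not_lt.2 hq2.le)]

theorem EE_zero (D : RollGluck κ n j X) (h : FourMoveVia κ κ' b ε₁ ε₂) {p : ℂ} (h3 : p ≠ 4)
    (h4 : p ≠ -4) : EE D b ε₁ ε₂ (p, 0) = PB D b (gg p, 0, 0) := by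
  rw [(EE_near D h h3 h4).self_of_nhds, BB_zero h.sign₁ h.sign₂ h3 h4]

theorem EE_vertex (D : RollGluck κ n j X) (b : ℂ × ℝ → N) (ε₁ ε₂ : ℝ) :
    EE D b ε₁ ε₂ (4, 0) = D.Q (Vx 1 (0, 0)) ∧ EE D b ε₁ ε₂ (-4, 0) = D.Q (Vx (-1) (0, 0)) := by
  constructor
  · have e : XW 1 ε₁ ((4 : ℂ), 0) = (0, 0) := by
      rw [XW_zero]
      simp [cj_zero]
    rw [EE, if_pos (by norm_num), e]
  · have e : XW (-1) ε₂ ((-4 : ℂ), 0) = (0, 0) := by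
      rw [XW_zero]
      simp [cj_zero]
    have e8 : ¬ ‖(-4 : ℂ) - 4‖ < 1 / 4 := by
      have : (-4 : ℂ) - 4 = -8 := by norm_num
      rw [this, norm_neg]
      norm_num
    rw [EE, if_neg e8, if_pos (by norm_num), e]

theorem EE_vertex_ne (D : RollGluck κ n j X) {δ : ℝ} (hδ : δ = 1 ∨ δ = -1) {x : N}
    (hx : ¬ OnKnot κ x) (t : ℝ) : D.Q (Vx δ (0, 0)) ≠ D.A (x, t) := by
  have h0 : SV ((0 : ℂ), (0 : ℂ)) = 0 := by simp [SV]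
  refine D.disj (Vx δ (0, 0)) x t (Vx_ne hδ (by rw [h0]; norm_num)) (Or.inl ?_) hx
  rw [(Vx_c hδ (by rw [h0]; norm_num)).1]
  simp

end

end Pool.Agent.RSG
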