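import Pool.Agent.RSG.EEa
import Pool.Agent.RSG.TwD

/-!
# RSG/EEb: the chart `EE` of the disc, part 2
-/

open scoped Manifold ContDiff Topology
open Set Filter
open Complex (I)

namespace Pool.Agent.RSG

section
variable {N : Type*} [TopologicalSpace N] [ChartedSpace E3 N]
  {X : Type*} [TopologicalSpace X] [ChartedSpace E4 X] {κ κ' : ℝ × ℂ → N} {n j : ℤ}
  {b : ℂ × ℝ → N} {ε₁ ε₂ : ℝ}

theorem EEb_one (p : ℂ) : p - 4 * ((1 : ℝ) : ℂ) = p - 4 := by push_cast; ring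

theorem EEb_neg (p : ℂ) : p - 4 * ((-1 : ℝ) : ℂ) = p + 4 := by push_cast; ring

theorem EEb_far {p : ℂ} (h : ‖p + 4‖ < 7) : ¬ ‖p - 4‖ < 1 := by
  intro h1
  have h2 : ‖(p + 4) - (p - 4)‖ ≤ ‖p + 4‖ + ‖p - 4‖ := norm_sub_le _ _
  have h3 : (p + 4) - (p - 4) = (8 : ℂ) := by ring
  rw [h3] at h2
  have h4 : ‖(8 : ℂ)‖ = 8 := by simp
  linarith

theorem EEb_SV0 : SV ((0 : ℂ), (0 : ℂ)) < 1 := by simp [SV]

theorem EEb_vx (D : RollGluck κ n j X) {δ ε : ℝ} (hδ : δ = 1 ∨ δ = -1) (hε : ε = 1 ∨ ε = -1)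
    {p : ℂ} (h1 : ‖p - 4 * δ‖ < 1 / 4) :
    IsLocalDiffeomorphAt 𝓘(ℝ, ℂ × ℂ) (𝓡 4) ∞ (fun q => D.Q (Vx δ (XW δ ε q))) (p, 0) := by
  have h2 : p + 4 * (δ : ℂ) ≠ 0 := by
    intro h
    have e : p - 4 * (δ : ℂ) = -(8 * (δ : ℂ)) := by linear_combination h
    rw [e, norm_neg] at h1
    have h3 : ‖(8 * (δ : ℂ))‖ = 8 := by
      rcases hδ with rfl | rfl <;> simp
    rw [h3] at h1
    norm_num at h1
  have hsv : SV (XW δ ε (p, 0)) < 1 := by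
    rw [SV_XW_zero hε]
    nlinarith [norm_nonneg (p - 4 * (δ : ℂ))]
  have h3 : IsLocalDiffeomorphAt 𝓘(ℝ, ℂ × ℂ) 𝓘(ℝ, ℂ × ℂ) ∞ (XW δ ε) (p, 0) := XW_ld hδ hε h2
  have h4 : IsLocalDiffeomorphAt 𝓘(ℝ, ℂ × ℂ) (𝓡 4) ∞ (Vx δ) (XW δ ε (p, 0)) := Vx_ld hδ hsv
  have h5 : IsLocalDiffeomorphAt (𝓡 4) (𝓡 4) ∞ D.Q (Vx δ (XW δ ε (p, 0))) :=
    D.Q_loc _ (Vx_ne hδ hsv)
  have h6 : IsLocalDiffeomorphAt 𝓘(ℝ, ℂ × ℂ) (𝓡 4) ∞ (Vx δ ∘ XW δ ε) (p, 0) :=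
    IsLocalDiffeomorphAt.comp (hf := h3) (hg := h4) ..
  have h7 : IsLocalDiffeomorphAt 𝓘(ℝ, ℂ × ℂ) (𝓡 4) ∞ (D.Q ∘ (Vx δ ∘ XW δ ε)) (p, 0) :=
    IsLocalDiffeomorphAt.comp (hf := h6) (hg := h5) ..
  exact h7

theorem EE_loc (D : RollGluck κ n j X) (h : FourMoveVia κ κ' b ε₁ ε₂) (p : ℂ) :
    IsLocalDiffeomorphAt 𝓘(ℝ, ℂ × ℂ) (𝓡 4) ∞ (EE D b ε₁ ε₂) (p, 0) := by
  have hc1 : ContinuousAt (fun q : ℂ × ℂ => ‖q.1 - 4‖) (p, 0) :=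
    ((continuous_fst.sub continuous_const).norm).continuousAt
  have hc2 : ContinuousAt (fun q : ℂ × ℂ => ‖q.1 + 4‖) (p, 0) :=
    ((continuous_fst.add continuous_const).norm).continuousAt
  by_cases h5 : ‖p - 4‖ < 1 / 4
  · refine Pool.Agent.CSG.ld_congr (EEb_vx D (δ := 1) (ε := ε₁) (Or.inl rfl) h.sign₁ ?_) ?_
    · rw [EEb_one]; exact h5
    · filter_upwards [hc1.eventually (gt_mem_nhds h5)] with q hq
      unfold EE
      rw [if_pos hq]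
  by_cases h6 : ‖p + 4‖ < 1 / 4
  · refine Pool.Agent.CSG.ld_congr (EEb_vx D (δ := -1) (ε := ε₂) (Or.inr rfl) h.sign₂ ?_) ?_
    · rw [EEb_neg]; exact h6
    · filter_upwards [hc2.eventually (gt_mem_nhds h6)] with q hq
      unfold EE
      have h7 : ¬ ‖q.1 - 4‖ < 1 / 4 := fun h8 => EEb_far (p := q.1) (by linarith) (by linarith)
      rw [if_neg h7, if_pos hq]
  · have h3 : p ≠ 4 := by
      rintro rfl
      apply h5
      simp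
    have h4 : p ≠ -4 := by
      rintro rfl
      apply h6
      simp
    refine Pool.Agent.CSG.ld_congr ?_ (EE_near D h h3 h4)
    have h7 := BB_ld (n := n) (j := j) h.sign₁ h.sign₂ h3 h4
    obtain ⟨h8, h9⟩ := gg_ne h3 h4
    have h10 : IsLocalDiffeomorphAt 𝓘(ℝ, ℂ × ℝ × ℝ) (𝓡 4) ∞ (PB D b)
        (BB ε₁ ε₂ n j (p, 0)) := by
      rw [BB_zero h.sign₁ h.sign₂ h3 h4]
      exact PB_ld D h (gg_norm p) (by simp) h8 h9
    exact IsLocalDiffeomorphAt.comp (hf := h7) (hg := h10) ..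

theorem EEb_knot (h : FourMoveVia κ κ' b ε₁ ε₂) {z : ℂ} {s : ℝ} (hz : ‖z‖ < 4) (hs : |s| < 1)
    (h1 : z ≠ 1) (h2 : z ≠ -1) : ¬ OnKnot κ (b (z, s)) := by
  intro hk
  rcases ball_knot h (q := (z, s)) ⟨hz, hs⟩ hk with h3 | h3
  · exact h1 h3
  · exact h2 h3

/-- a point of the vertices is not in the image of `PB` -/
theorem EEb_vne (D : RollGluck κ n j X) (h : FourMoveVia κ κ' b ε₁ ε₂) {p : ℂ}
    (hp : p = 4 ∨ p = -4) {z : ℂ} {s t : ℝ} (hz : ‖z‖ < 4) (hs : |s| < 1)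
    (h1 : z ≠ 1) (h2 : z ≠ -1) : EE D b ε₁ ε₂ (p, 0) ≠ PB D b (z, s, t) := by
  rcases hp with rfl | rfl
  · rw [(EE_vertex D b ε₁ ε₂).1]
    exact EE_vertex_ne D (Or.inl rfl) (EEb_knot h hz hs h1 h2) t
  · rw [(EE_vertex D b ε₁ ε₂).2]
    exact EE_vertex_ne D (Or.inr rfl) (EEb_knot h hz hs h1 h2) t

theorem EE_inj0 (D : RollGluck κ n j X) (h : FourMoveVia κ κ' b ε₁ ε₂) {p p' : ℂ}
    (he : EE D b ε₁ ε₂ (p, 0) = EE D b ε₁ ε₂ (p', 0)) : p = p' := by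
  have hvv : EE D b ε₁ ε₂ (4, 0) ≠ EE D b ε₁ ε₂ (-4, 0) := by
    rw [(EE_vertex D b ε₁ ε₂).1, (EE_vertex D b ε₁ ε₂).2]
    intro h1
    have h2 := D.Q_inj _ _ (Vx_ne (Or.inl rfl) EEb_SV0) (Vx_ne (Or.inr rfl) EEb_SV0) h1
    have h3 := (Vx_inj (Or.inl rfl) (Or.inr rfl) EEb_SV0 EEb_SV0 h2).1
    norm_num at h3
  by_cases hp : p = 4 ∨ p = -4
  · by_cases hp' : p' = 4 ∨ p' = -4
    · rcases hp with rfl | rfl <;> rcases hp' with rfl | rfl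
      · rfl
      · exact absurd he hvv
      · exact absurd he.symm hvv
      · rfl
    · exfalso
      rw [not_or] at hp'
      obtain ⟨h8, h9⟩ := gg_ne hp'.1 hp'.2
      rw [EE_zero D h hp'.1 hp'.2] at he
      exact EEb_vne D h hp (gg_norm p') (by simp) h8 h9 he
  · rw [not_or] at hp
    obtain ⟨h8, h9⟩ := gg_ne hp.1 hp.2
    by_cases hp' : p' = 4 ∨ p' = -4
    · exfalso
      rw [EE_zero D h hp.1 hp.2] at he
      exact EEb_vne D h hp' (gg_norm p) (by simp) h8 h9 he.symm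
    · rw [not_or] at hp'
      obtain ⟨h8', h9'⟩ := gg_ne hp'.1 hp'.2
      rw [EE_zero D h hp.1 hp.2, EE_zero D h hp'.1 hp'.2] at he
      exact gg_inj (PB_inj D h (gg_norm p) (by simp) h8 h9 (gg_norm p') (by simp) h8' h9' he).1

theorem EE_far (D : RollGluck κ n j X) (b : ℂ × ℝ → N) (ε₁ ε₂ : ℝ) {p : ℂ} (s y : ℝ)
    (h1 : 9 ≤ ‖p‖) : EE D b ε₁ ε₂ (p, ⟨-s, y⟩) = farT (Th D b) (y, p, s) := by
  have hp0 : 0 < ‖p‖ := by linarith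
  have hpn : (‖p‖ : ℂ) ≠ 0 := by exact_mod_cast hp0.ne'
  have h4 : ‖(4 : ℂ)‖ = 4 := by simp
  have hm : 5 ≤ ‖p - 4‖ := by
    have := norm_sub_norm_le p 4
    rw [h4] at this
    linarith
  have hq : 5 ≤ ‖p + 4‖ := by
    have := norm_sub_norm_le p (-4)
    rw [norm_neg, h4, sub_neg_eq_add] at this
    linarith
  have hs : Pool.Agent.CSG.stp 64 81 (‖p‖ ^ 2) = 1 := Pool.Agent.CSG.stp_one (by norm_num) (by nlinarith)
  have hE : EE D b ε₁ ε₂ (p, ⟨-s, y⟩) = PB D b (farB (p, ⟨-s, y⟩)) := by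
    unfold EE
    rw [if_neg (by simp only; linarith), if_neg (by simp only; linarith)]
    congr 1
    unfold BB
    rw [if_neg (by simp only; linarith), if_neg (by simp only; linarith)]
    unfold BBo mix
    simp only
    rw [hs]
    simp
  rw [hE]
  unfold farT Th
  simp only
  congr 1
  have hre : (((5 / ‖p‖ : ℝ) : ℂ) * ex s).re = 5 / ‖p‖ * Real.cos (2 * Real.pi * s) := by
    rw [Complex.re_ofReal_mul, ex_re]
  have him : (((5 / ‖p‖ : ℝ) : ℂ) * ex s).im = 5 / ‖p‖ * Real.sin (2 * Real.pi * s) := by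
    rw [Complex.im_ofReal_mul, ex_im]
  have hdir : ex (Complex.arg p / (2 * Real.pi)) = p / ‖p‖ := by
    rw [eq_div_iff hpn, mul_comm]
    exact ex_arg
  unfold farB
  simp only
  rw [hre, him, hdir]
  have hms : 2 * Real.pi * -s = -(2 * Real.pi * s) := by ring
  rw [hms, Real.cos_neg, Real.sin_neg]
  refine Prod.ext ?_ (Prod.ext ?_ rfl)
  · show p / ‖p‖ * (Real.sqrt (9 - 30 / ‖p‖ * Real.cos (2 * Real.pi * s)) : ℂ) =
      p / ‖p‖ * (Real.sqrt (9 - 6 * (5 / ‖p‖ * Real.cos (2 * Real.pi * s))) : ℂ)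
    have e : 9 - 30 / ‖p‖ * Real.cos (2 * Real.pi * s) =
        9 - 6 * (5 / ‖p‖ * Real.cos (2 * Real.pi * s)) := by ring
    rw [e]
  · show 5 / ‖p‖ * -Real.sin (2 * Real.pi * s) = -(5 / ‖p‖ * Real.sin (2 * Real.pi * s))
    ring

theorem EE_sep (D : RollGluck κ n j X) (h : FourMoveVia κ κ' b ε₁ ε₂) {p ζ : ℂ} (y φ : ℝ)
    (h1 : ‖p‖ ≤ 9) (h2 : ‖ζ‖ ≤ 1 / 2) : EE D b ε₁ ε₂ (p, 0) ≠ Th D b (y, φ, ζ) := by
  have hre := abs_le.1 (le_trans (Complex.abs_re_le_norm ζ) h2)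
  have him := le_trans (Complex.abs_im_le_norm ζ) h2
  have hs : |(-ζ.im)| < 1 := by
    rw [abs_neg]
    linarith
  have hsq : 0 ≤ Real.sqrt (9 - 6 * ζ.re) := Real.sqrt_nonneg _
  have hn : ‖ex φ * (Real.sqrt (9 - 6 * ζ.re) : ℂ)‖ = Real.sqrt (9 - 6 * ζ.re) := by
    rw [norm_mul, ex_norm, one_mul, Complex.norm_real, Real.norm_of_nonneg hsq]
  have h6 : 6 ≤ ‖ex φ * (Real.sqrt (9 - 6 * ζ.re) : ℂ)‖ ^ 2 := by
    rw [hn, Real.sq_sqrt (by linarith)]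
    linarith
  have h7 : ‖ex φ * (Real.sqrt (9 - 6 * ζ.re) : ℂ)‖ < 4 := by
    rw [hn, Real.sqrt_lt' (by norm_num)]
    linarith
  have h8 : ex φ * (Real.sqrt (9 - 6 * ζ.re) : ℂ) ≠ 1 := by
    intro h0
    rw [h0] at h6
    norm_num at h6
  have h9 : ex φ * (Real.sqrt (9 - 6 * ζ.re) : ℂ) ≠ -1 := by
    intro h0
    rw [h0] at h6
    norm_num at h6
  by_cases hp : p = 4 ∨ p = -4
  · exact EEb_vne D h hp h7 hs h8 h9
  · rw [not_or] at hp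
    obtain ⟨h10, h11⟩ := gg_ne hp.1 hp.2
    rw [EE_zero D h hp.1 hp.2]
    intro he
    have h12 := (PB_inj D h (gg_norm p) (by simp) h10 h11 h7 hs h8 h9 he).1
    have h13 := gg_sep h1
    rw [h12] at h13
    linarith

end

end Pool.Agent.RSG
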