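import Pool.Agent.RSG.ExM
import Pool.Agent.RSG.Fn
import Pool.Agent.RSG.LDc

/-!
# RSG/FiA: the functions `tV, lV, vV, Fi` near `w = 0`   (difficulty 2)

`q = (x, w)`.
* `Fi_smooth`: at `(x, 0)`, `x ≠ 0`, `2|x|² < 1`, and so for `q` near `(x, 0)` (all conditions are open):
  `x ± w/2 ≠ 0`, `(x + w/2)/(x - w/2)` is in the slit plane (value `1` at `w = 0`), `Complex.log` is
  smooth there (`Complex.contDiffAt_log`, `.restrict_scalars ℝ`), `SV q < 1`, so `1 - SV q ^ 2 > 0`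
  and `√` is smooth, the number `√(1 - SV²) - i δ uV` has positive real part (slit plane), the norm
  `‖x + w/2‖` is smooth (nonzero: `contDiffAt_norm`).  `cj ε` is real linear.
* `Fi_zero`: `log 1 = 0`, `uV (x, 0) = 0`, `log` of a positive real has imaginary part `0`.
* `Fi_ev`: `lV δ n q → 0` as `q → (x, 0)`: continuity (`Fi_smooth` and `Fi_zero`, or directly).
-/

open scoped Manifold ContDiff Topology
open Set Filter
open Complex (I)

namespace Pool.Agent.RSG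

/-- the open conditions under which everything is smooth -/
def FiA_good (q : ℂ × ℂ) : Prop :=
  SV q < 1 ∧ q.1 + q.2 / 2 ≠ 0 ∧ q.1 - q.2 / 2 ≠ 0 ∧
    (q.1 + q.2 / 2) / (q.1 - q.2 / 2) ∈ Complex.slitPlane

theorem FiA_SV_smooth : ContDiff ℝ ∞ SV := by
  unfold SV
  exact ((contDiff_const.mul (contDiff_fst.norm_sq ℝ))).add
    ((contDiff_snd.norm_sq ℝ).div_const 2)

theorem FiA_SV_nonneg (q : ℂ × ℂ) : 0 ≤ SV q := by
  unfold SV
  positivity

theorem FiA_good_ev {x : ℂ} (h0 : x ≠ 0) (h1 : 2 * ‖x‖ ^ 2 < 1) :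
    ∀ᶠ q in 𝓝 (x, (0 : ℂ)), FiA_good q := by
  have hc1 : ContinuousAt (fun q : ℂ × ℂ => q.1 + q.2 / 2) (x, 0) := by fun_prop
  have hc2 : ContinuousAt (fun q : ℂ × ℂ => q.1 - q.2 / 2) (x, 0) := by fun_prop
  have e1 : x + 0 / 2 ≠ (0 : ℂ) := by simpa using h0
  have e2 : x - 0 / 2 ≠ (0 : ℂ) := by simpa using h0
  have hS : SV (x, 0) < 1 := by
    unfold SV
    simpa using h1
  have hc3 : ContinuousAt (fun q : ℂ × ℂ => (q.1 + q.2 / 2) / (q.1 - q.2 / 2)) (x, 0) :=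
    hc1.div hc2 e2
  have e3 : (x + 0 / 2) / (x - 0 / 2) ∈ Complex.slitPlane := by
    have : (x + 0 / 2) / (x - 0 / 2) = 1 := by
      rw [zero_div, add_zero, sub_zero, div_self h0]
    rw [this]
    exact Complex.one_mem_slitPlane
  filter_upwards [FiA_SV_smooth.continuous.continuousAt.eventually_lt_const hS,
    hc1.eventually_ne e1, hc2.eventually_ne e2,
    hc3.eventually_mem (Complex.isOpen_slitPlane.mem_nhds e3)] with q a1 a2 a3 a4
  exact ⟨a1, a2, a3, a4⟩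

theorem FiA_tV {q : ℂ × ℂ} (h : FiA_good q) : ContDiffAt ℝ ∞ tV q := by
  obtain ⟨-, h1, h2, h3⟩ := h
  unfold tV
  apply ContDiffAt.div_const
  have ha : ContDiffAt ℝ ∞ (fun q : ℂ × ℂ => (q.1 + q.2 / 2) / (q.1 - q.2 / 2)) q := by
    have hn : ContDiffAt ℝ ∞ (fun q : ℂ × ℂ => q.1 + q.2 / 2) q := by fun_prop
    have hd : ContDiffAt ℝ ∞ (fun q : ℂ × ℂ => q.1 - q.2 / 2) q := by fun_prop
    have := hn.mul (hd.inv h2)
    refine this.congr_of_eventuallyEq (Filter.Eventually.of_forall fun y => ?_)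
    exact div_eq_mul_inv _ _
  have hl : ContDiffAt ℝ ∞ Complex.log ((q.1 + q.2 / 2) / (q.1 - q.2 / 2)) :=
    (Complex.contDiffAt_log h3).restrict_scalars ℝ
  have := hl.comp q ha
  exact Complex.imCLM.contDiff.contDiffAt.comp q this

theorem FiA_uV : ContDiff ℝ ∞ uV := by
  have h1 : ContDiff ℝ ∞ (fun q : ℂ × ℂ => (starRingEnd ℂ) q.1 * q.2) := by
    apply ContDiff.mul
    · exact Complex.conjCLE.contDiff.comp contDiff_fst
    · exact contDiff_snd
  exact contDiff_const.mul (Complex.reCLM.contDiff.comp h1)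

theorem FiA_lV {δ : ℝ} {n : ℤ} {q : ℂ × ℂ} (h : FiA_good q) : ContDiffAt ℝ ∞ (lV δ n) q := by
  have ht := FiA_tV h
  obtain ⟨h0, h1, h2, h3⟩ := h
  have hn := FiA_SV_nonneg q
  have hp : 0 < 1 - SV q ^ 2 := by nlinarith
  unfold lV
  apply ContDiffAt.add _ (contDiffAt_const.mul ht)
  apply ContDiffAt.div_const
  have ha : ContDiffAt ℝ ∞
      (fun q : ℂ × ℂ => ((Real.sqrt (1 - SV q ^ 2) : ℝ) - (δ * uV q : ℝ) * I : ℂ)) q := by
    apply ContDiffAt.sub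
    · apply Complex.ofRealCLM.contDiff.contDiffAt.comp q
      apply ContDiffAt.sqrt
      · exact contDiffAt_const.sub (FiA_SV_smooth.contDiffAt.pow 2)
      · exact hp.ne'
    · apply ContDiffAt.mul _ contDiffAt_const
      apply Complex.ofRealCLM.contDiff.contDiffAt.comp q
      exact contDiffAt_const.mul FiA_uV.contDiffAt
  have hs : ((Real.sqrt (1 - SV q ^ 2) : ℝ) - (δ * uV q : ℝ) * I : ℂ) ∈ Complex.slitPlane := by
    rw [Complex.mem_slitPlane_iff]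
    left
    simp only [Complex.sub_re, Complex.mul_re, Complex.ofReal_re, Complex.I_re, Complex.ofReal_im,
      Complex.I_im, mul_zero, zero_mul, sub_zero]
    exact Real.sqrt_pos.2 hp
  have hl : ContDiffAt ℝ ∞ Complex.log
      ((Real.sqrt (1 - SV q ^ 2) : ℝ) - (δ * uV q : ℝ) * I : ℂ) :=
    (Complex.contDiffAt_log hs).restrict_scalars ℝ
  exact Complex.imCLM.contDiff.contDiffAt.comp q (hl.comp q ha)

theorem FiA_vV {j : ℤ} {q : ℂ × ℂ} (h : FiA_good q) : ContDiffAt ℝ ∞ (vV j) q := by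
  have ht := FiA_tV h
  obtain ⟨h0, h1, h2, h3⟩ := h
  unfold vV
  apply ContDiffAt.mul
  · apply ContDiffAt.mul
    · apply Complex.ofRealCLM.contDiff.contDiffAt.comp q
      apply ContDiffAt.mul contDiffAt_const
      apply ContDiffAt.norm ℝ
      · fun_prop
      · exact h1
    · fun_prop
  · exact ex_smooth.contDiffAt.comp q (contDiffAt_const.mul ht)

theorem Fi_smooth {δ ε : ℝ} {n j : ℤ} {x : ℂ} (h0 : x ≠ 0) (h1 : 2 * ‖x‖ ^ 2 < 1) :
    ∀ᶠ q in 𝓝 (x, (0 : ℂ)), ContDiffAt ℝ ∞ (Fi δ ε n j) q := by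
  filter_upwards [FiA_good_ev h0 h1] with q hq
  unfold Fi
  apply ContDiffAt.prodMk
  · apply ContDiffAt.add contDiffAt_const
    apply ContDiffAt.div_const
    exact (cj_smooth ε).contDiffAt.comp q (FiA_vV hq)
  · apply ContDiffAt.prodMk
    · exact contDiffAt_const.mul (FiA_lV hq)
    · exact FiA_tV hq

theorem FiA_tV_zero {x : ℂ} (h0 : x ≠ 0) : tV (x, 0) = 0 := by
  unfold tV
  simp only [zero_div, add_zero, sub_zero]
  rw [div_self h0, Complex.log_one]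
  simp

theorem FiA_lV_zero (δ : ℝ) (n : ℤ) {x : ℂ} (h0 : x ≠ 0) : lV δ n (x, 0) = 0 := by
  unfold lV
  rw [FiA_tV_zero h0]
  have h2 : uV (x, 0) = 0 := by
    unfold uV
    simp
  rw [h2]
  simp only [mul_zero, Complex.ofReal_zero, zero_mul, sub_zero, add_zero]
  rw [Complex.log_im, Complex.arg_ofReal_of_nonneg (Real.sqrt_nonneg _), zero_div]

theorem Fi_zero (δ ε : ℝ) (n j : ℤ) {x : ℂ} (h0 : x ≠ 0) (_h1 : 2 * ‖x‖ ^ 2 < 1) :
    Fi δ ε n j (x, 0) = (δ + cj ε (2 * ‖x‖ * x) / 2, 0, 0) := by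
  unfold Fi
  rw [FiA_tV_zero h0, FiA_lV_zero δ n h0, mul_zero]
  have h2 : vV j (x, 0) = 2 * ‖x‖ * x := by
    unfold vV
    rw [FiA_tV_zero h0, mul_zero, ex_zero]
    simp
  rw [h2]

theorem Fi_ev {δ : ℝ} {n : ℤ} {x : ℂ} (h0 : x ≠ 0) (h1 : 2 * ‖x‖ ^ 2 < 1) :
    ∀ᶠ q in 𝓝 (x, (0 : ℂ)), SV q < 1 ∧ q.1 + q.2 / 2 ≠ 0 ∧ q.1 - q.2 / 2 ≠ 0 ∧
      |lV δ n q| < 1 / 16 := by
  have hg := FiA_good_ev h0 h1
  have hc : ContinuousAt (fun q => |lV δ n q|) (x, 0) := by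
    apply ContinuousAt.abs
    exact (FiA_lV hg.self_of_nhds).continuousAt
  have h2 : |lV δ n (x, 0)| < 1 / 16 := by
    rw [FiA_lV_zero δ n h0, abs_zero]
    norm_num
  filter_upwards [hg, hc.eventually_lt_const h2] with q a b
  exact ⟨a.1, a.2.1, a.2.2.1, b⟩

end Pool.Agent.RSG
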