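import Pool.Agent.RSG.EEa
import Pool.Agent.RSG.LDc

/-!
# RSG/TubM: the tube of the torus
-/

open scoped Manifold ContDiff Topology
open Set Filter
open Complex (I)

namespace Pool.Agent.RSG

theorem TubM_mul {φ r : ℝ} (hr : 0 ≤ r) : ‖ex φ * (r : ℂ)‖ = r := by
  rw [norm_mul, ex_norm, one_mul, Complex.norm_real, Real.norm_of_nonneg hr]

/-- bounds -/
theorem TubM_bd {ζ : ℂ} (hζ : ‖ζ‖ < 3 / 5) :
    27 / 5 < 9 - 6 * ζ.re ∧ 9 - 6 * ζ.re < 63 / 5 ∧ |(-ζ.im)| < 1 := by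
  have h1 := abs_lt.1 (lt_of_le_of_lt (Complex.abs_re_le_norm ζ) hζ)
  have h2 := lt_of_le_of_lt (Complex.abs_im_le_norm ζ) hζ
  refine ⟨by linarith, by linarith, ?_⟩
  rw [abs_neg]
  linarith

theorem TubM_pt {ζ : ℂ} (hζ : ‖ζ‖ < 3 / 5) (φ : ℝ) :
    ‖ex φ * (Real.sqrt (9 - 6 * ζ.re) : ℂ)‖ < 4 ∧ ex φ * (Real.sqrt (9 - 6 * ζ.re) : ℂ) ≠ 1 ∧
      ex φ * (Real.sqrt (9 - 6 * ζ.re) : ℂ) ≠ -1 := by
  obtain ⟨h1, h2, -⟩ := TubM_bd hζ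
  have h3 := TubM_mul (φ := φ) (Real.sqrt_nonneg (9 - 6 * ζ.re))
  have h4 : Real.sqrt (9 - 6 * ζ.re) < 4 := by
    rw [Real.sqrt_lt' (by norm_num)]
    linarith
  have h5 : 1 < Real.sqrt (9 - 6 * ζ.re) := by
    rw [Real.lt_sqrt (by norm_num)]
    linarith
  refine ⟨by rw [h3]; exact h4, ?_, ?_⟩
  · intro h6
    rw [h6, norm_one] at h3
    linarith
  · intro h6
    rw [h6, norm_neg, norm_one] at h3
    linarith

section
variable {N : Type*} [TopologicalSpace N] [ChartedSpace E3 N]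
  {X : Type*} [TopologicalSpace X] [ChartedSpace E4 X] {κ κ' : ℝ × ℂ → N} {n j : ℤ}
  {b : ℂ × ℝ → N} {ε₁ ε₂ : ℝ}

/-- the map to ball coordinates -/
noncomputable def TubM_T (a : ℝ × ℝ × ℂ) : ℂ × ℝ × ℝ :=
  (ex a.2.1 * (Real.sqrt (9 - 6 * a.2.2.re) : ℂ), -a.2.2.im, a.1)

theorem TubM_ld (y φ : ℝ) {ζ : ℂ} (hζ : ‖ζ‖ < 3 / 5) :
    IsLocalDiffeomorphAt 𝓘(ℝ, ℝ × ℝ × ℂ) 𝓘(ℝ, ℂ × ℝ × ℝ) ∞ TubM_T (y, φ, ζ) := by
  let G : ℂ × ℝ × ℝ → ℝ × ℝ × ℂ := fun a =>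
    (a.2.2, φ + (Complex.log (a.1 / ex φ)).im / (2 * Real.pi),
      (((9 - ‖a.1‖ ^ 2) / 6 : ℝ) : ℂ) + ((-a.2.1 : ℝ) : ℂ) * I)
  have hev1 : ∀ᶠ a : ℝ × ℝ × ℂ in 𝓝 (y, φ, ζ), ‖a.2.2‖ < 3 / 5 := by
    have h1 : ContinuousAt (fun a : ℝ × ℝ × ℂ => ‖a.2.2‖) (y, φ, ζ) :=
      (continuous_snd.snd.norm).continuousAt
    exact h1.eventually (gt_mem_nhds hζ)
  have hev2 : ∀ᶠ a : ℝ × ℝ × ℂ in 𝓝 (y, φ, ζ), |a.2.1 - φ| < 1 / 2 := by
    have h1 : ContinuousAt (fun a : ℝ × ℝ × ℂ => |a.2.1 - φ|) (y, φ, ζ) :=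
      ((continuous_snd.fst.sub continuous_const).abs).continuousAt
    refine h1.eventually (gt_mem_nhds ?_)
    simp
  have hpos : ∀ v : ℂ, ‖v‖ < 3 / 5 → 0 < Real.sqrt (9 - 6 * v.re) := by
    intro v hv
    have := (TubM_bd hv).1
    exact Real.sqrt_pos.2 (by linarith)
  refine ld_left (g := G) ?_ ?_ ?_ ?_
  · filter_upwards [hev1] with a ha
    refine ContDiffAt.prodMk ?_ (ContDiffAt.prodMk ?_ contDiffAt_fst)
    · refine (ex_smooth.contDiffAt.comp a contDiff_snd.fst.contDiffAt).mul ?_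
      have h1 : ContDiffAt ℝ ∞ (fun a : ℝ × ℝ × ℂ => 9 - 6 * a.2.2.re) a := by
        refine contDiffAt_const.sub (contDiffAt_const.mul ?_)
        exact ((Complex.reCLM.contDiff (n := ∞)).comp contDiff_snd.snd).contDiffAt
      have h2 : ContDiffAt ℝ ∞ (fun a : ℝ × ℝ × ℂ => Real.sqrt (9 - 6 * a.2.2.re)) a := by
        refine h1.sqrt ?_
        have := (TubM_bd ha).1
        linarith
      exact (Complex.ofRealCLM.contDiff (n := ∞)).contDiffAt.comp a h2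
    · exact (((Complex.imCLM.contDiff (n := ∞)).comp contDiff_snd.snd).contDiffAt).neg
  · simp [Module.finrank_prod, Complex.finrank_real_complex]
  · have hT : TubM_T (y, φ, ζ) = (ex φ * (Real.sqrt (9 - 6 * ζ.re) : ℂ), -ζ.im, y) := rfl
    rw [hT]
    have hd : ContDiffAt ℝ ∞ G (ex φ * (Real.sqrt (9 - 6 * ζ.re) : ℂ), -ζ.im, y) := by
      refine (contDiff_snd.snd.contDiffAt).prodMk (ContDiffAt.prodMk ?_ ?_)
      · refine contDiffAt_const.add (ContDiffAt.div_const ?_ _)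
        have h1 : ContDiffAt ℝ ∞ (fun a : ℂ × ℝ × ℝ => a.1 / ex φ)
            (ex φ * (Real.sqrt (9 - 6 * ζ.re) : ℂ), -ζ.im, y) :=
          (contDiff_fst.div_const _).contDiffAt
        have h2 : (ex φ * (Real.sqrt (9 - 6 * ζ.re) : ℂ)) / ex φ ∈ Complex.slitPlane := by
          rw [mul_div_cancel_left₀ _ (ex_ne φ)]
          exact Complex.ofReal_mem_slitPlane.2 (hpos ζ hζ)
        have h3 : ContDiffAt ℝ ∞ Complex.log
            ((ex φ * (Real.sqrt (9 - 6 * ζ.re) : ℂ)) / ex φ) :=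
          (Complex.contDiffAt_log h2).restrict_scalars ℝ
        have h4 := ContDiffAt.comp (x := (ex φ * (Real.sqrt (9 - 6 * ζ.re) : ℂ), -ζ.im, y))
          (g := Complex.log) h3 h1
        exact (Complex.imCLM.contDiff (n := ∞)).contDiffAt.comp _ h4
      · refine ContDiffAt.add ?_ (ContDiffAt.mul ?_ contDiffAt_const)
        · have h1 : ContDiff ℝ ∞ (fun a : ℂ × ℝ × ℝ => ((9 - ‖a.1‖ ^ 2) / 6 : ℝ)) :=
            (contDiff_const.sub ((contDiff_norm_sq ℝ).comp contDiff_fst)).div_const _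
          exact ((Complex.ofRealCLM.contDiff (n := ∞)).comp h1).contDiffAt
        · have h1 : ContDiff ℝ ∞ (fun a : ℂ × ℝ × ℝ => (-a.2.1 : ℝ)) := contDiff_snd.fst.neg
          exact ((Complex.ofRealCLM.contDiff (n := ∞)).comp h1).contDiffAt
    exact hd.differentiableAt (by simp)
  · filter_upwards [hev1, hev2] with a ha1 ha2
    obtain ⟨y', φ', ζ'⟩ := a
    simp only at ha1 ha2
    have hsq := hpos ζ' ha1
    show (y', φ + (Complex.log (ex φ' * (Real.sqrt (9 - 6 * ζ'.re) : ℂ) / ex φ)).im /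
      (2 * Real.pi), (((9 - ‖ex φ' * (Real.sqrt (9 - 6 * ζ'.re) : ℂ)‖ ^ 2) / 6 : ℝ) : ℂ) +
        ((-(-ζ'.im) : ℝ) : ℂ) * I) = (y', φ', ζ')
    refine Prod.ext rfl (Prod.ext ?_ ?_)
    · show φ + (Complex.log (ex φ' * (Real.sqrt (9 - 6 * ζ'.re) : ℂ) / ex φ)).im /
        (2 * Real.pi) = φ'
      have h1 : ex φ' * (Real.sqrt (9 - 6 * ζ'.re) : ℂ) / ex φ =
          (Real.sqrt (9 - 6 * ζ'.re) : ℂ) * ex (φ' - φ) := by
        have h2 : ex φ' = ex (φ' - φ) * ex φ := by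
          rw [← ex_add]
          congr 1
          ring
        rw [h2, mul_right_comm, mul_div_cancel_right₀ _ (ex_ne φ), mul_comm]
      rw [h1, ex_log hsq (by linarith [(abs_lt.1 ha2).1]) (abs_lt.1 ha2).2]
      have := Real.pi_pos
      field_simp
      ring
    · show (((9 - ‖ex φ' * (Real.sqrt (9 - 6 * ζ'.re) : ℂ)‖ ^ 2) / 6 : ℝ) : ℂ) +
        ((-(-ζ'.im) : ℝ) : ℂ) * I = ζ'
      rw [TubM_mul hsq.le, Real.sq_sqrt (by linarith [(TubM_bd ha1).1])]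
      apply Complex.ext
      · simp
      · simp

theorem Th_loc (D : RollGluck κ n j X) (h : FourMoveVia κ κ' b ε₁ ε₂) (y φ : ℝ) {ζ : ℂ}
    (hζ : ‖ζ‖ < 3 / 5) : IsLocalDiffeomorphAt 𝓘(ℝ, ℝ × ℝ × ℂ) (𝓡 4) ∞ (Th D b) (y, φ, ζ) := by
  obtain ⟨h1, h2, h3⟩ := TubM_bd hζ
  obtain ⟨h4, h5, h6⟩ := TubM_pt hζ φ
  have h7 := TubM_ld y φ hζ
  have h8 : IsLocalDiffeomorphAt 𝓘(ℝ, ℂ × ℝ × ℝ) (𝓡 4) ∞ (PB D b) (TubM_T (y, φ, ζ)) :=
    PB_ld D h h4 h3 h5 h6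
  exact IsLocalDiffeomorphAt.comp (hf := h7) (hg := h8) ..

theorem Th_per1 (D : RollGluck κ n j X) (b : ℂ × ℝ → N) (y φ : ℝ) (ζ : ℂ) :
    Th D b (y + 1, φ, ζ) = Th D b (y, φ, ζ) := by
  exact D.A_per _ _

theorem Th_per2 (D : RollGluck κ n j X) (b : ℂ × ℝ → N) (y φ : ℝ) (ζ : ℂ) :
    Th D b (y, φ + 1, ζ) = Th D b (y, φ, ζ) := by
  have h1 : ex (φ + 1) = ex φ := by
    have := ex_add_int φ 1
    simpa using this
  simp only [Th, h1]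

theorem Th_inj (D : RollGluck κ n j X) (h : FourMoveVia κ κ' b ε₁ ε₂) {y φ y' φ' : ℝ} {ζ ζ' : ℂ}
    (hζ : ‖ζ‖ < 3 / 5) (hζ' : ‖ζ'‖ < 3 / 5) (he : Th D b (y, φ, ζ) = Th D b (y', φ', ζ')) :
    ζ = ζ' ∧ (∃ m : ℤ, y' = y + m) ∧ ∃ m : ℤ, φ' = φ + m := by
  obtain ⟨h1, h2, h3⟩ := TubM_bd hζ
  obtain ⟨h4, h5, h6⟩ := TubM_pt hζ φ
  obtain ⟨h1', h2', h3'⟩ := TubM_bd hζ'
  obtain ⟨h4', h5', h6'⟩ := TubM_pt hζ' φ'
  obtain ⟨hz, hs, ht⟩ := PB_inj D h h4 h3 h5 h6 h4' h3' h5' h6' he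
  have h7 : (Real.sqrt (9 - 6 * ζ.re) : ℂ) * ex φ = (Real.sqrt (9 - 6 * ζ'.re) : ℂ) * ex φ' := by
    rw [mul_comm, hz, mul_comm]
  obtain ⟨h8, h9⟩ := ex_polar (Real.sqrt_pos.2 (by linarith)) (Real.sqrt_pos.2 (by linarith)) h7
  refine ⟨?_, ht, h9⟩
  apply Complex.ext
  · rw [Real.sqrt_inj (by linarith) (by linarith)] at h8
    linarith
  · linarith

end

end Pool.Agent.RSG
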