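import Pool.Agent.RSG.WfA

/-!
# RSG/WfM: the twist `Fm` of `C × R`   (difficulty 2)

* `wf` depends only on `|z|` and `s`; `|Fm (z, s)| = |z|` (as `|conj w / w| ≤ 1`, `= 1` if `w ≠ 0`), so
  `wf (Fm q) = wf q` for `wf q ≠ 0`, which gives `Fm_left`, `Fm_right`, and `Fm_mem`.
* `Fm_loc`: smooth with smooth inverse off `Circ` (closed set): `ld_two`-like; in vector spaces use
  `ld_left` or `ld_two` with `contMDiffAt_iff_contDiffAt`.
* `Fm_out`, `Fm_turn`, `Fm_tube` from `wf_out`, `wf_in`, `wf_near`: for `Fm_turn`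
  `conj w / w = ex (-2 (S - 1/2)) = ex (-2 S)`, `turn s = ex (2 S)`, `S = smoothTransition (s + 1/2)`.
  For `Fm_tube`: `q = (z, s)`, `w = wf q = a + i s`, `a = (9 - |z|²)/6`, and with `ζ = a - i s = conj w`,
  `conj w / w = ζ / conj ζ = ex (2 γ)` if `ζ = |ζ| ex γ`.
-/

open scoped Manifold ContDiff Topology
open Set Filter
open Complex (I)
open Pool.Agent.CSG (stp)

namespace Pool.Agent.RSG

theorem WfM_unit {w : ℂ} (h : w ≠ 0) : ‖(starRingEnd ℂ) w / w‖ = 1 := by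
  rw [norm_div, Complex.norm_conj, div_self (norm_ne_zero_iff.2 h)]

theorem WfM_unit' {w : ℂ} (h : w ≠ 0) : ‖w / (starRingEnd ℂ) w‖ = 1 := by
  rw [norm_div, Complex.norm_conj, div_self (norm_ne_zero_iff.2 h)]

theorem WfM_congr {q q' : ℂ × ℝ} (h1 : ‖q.1‖ = ‖q'.1‖) (h2 : q.2 = q'.2) : wf q = wf q' := by
  unfold wf thi tho
  rw [h1, h2]

theorem WfM_ne {q : ℂ × ℝ} (h : q ∉ Circ) : wf q ≠ 0 := fun h' => h (wf_zero.1 h')

theorem Fm_norm (q : ℂ × ℝ) (h : q ∉ Circ) : ‖(Fm q).1‖ = ‖q.1‖ := by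
  unfold Fm
  rw [norm_mul, WfM_unit (WfM_ne h), one_mul]
theorem Fm'_norm (q : ℂ × ℝ) (h : q ∉ Circ) : ‖(Fm' q).1‖ = ‖q.1‖ := by
  unfold Fm'
  rw [norm_mul, WfM_unit' (WfM_ne h), one_mul]
theorem wf_Fm (q : ℂ × ℝ) (h : q ∉ Circ) : wf (Fm q) = wf q :=
  WfM_congr (Fm_norm q h) rfl
theorem WfM_wf_Fm' (q : ℂ × ℝ) (h : q ∉ Circ) : wf (Fm' q) = wf q :=
  WfM_congr (Fm'_norm q h) rfl
theorem Fm_left (q : ℂ × ℝ) (h : q ∉ Circ) : Fm' (Fm q) = q := by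
  have hw := WfM_ne h
  have hw' : (starRingEnd ℂ) (wf q) ≠ 0 := by simpa using hw
  have h1 : Fm' (Fm q) = (wf (Fm q) / (starRingEnd ℂ) (wf (Fm q)) *
    ((starRingEnd ℂ) (wf q) / wf q * q.1), q.2) := rfl
  rw [h1, wf_Fm q h]
  refine Prod.ext ?_ rfl
  change wf q / (starRingEnd ℂ) (wf q) * ((starRingEnd ℂ) (wf q) / wf q * q.1) = q.1
  field_simp
theorem Fm_right (q : ℂ × ℝ) (h : q ∉ Circ) : Fm (Fm' q) = q := by
  have hw := WfM_ne h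
  have hw' : (starRingEnd ℂ) (wf q) ≠ 0 := by simpa using hw
  have h1 : Fm (Fm' q) = ((starRingEnd ℂ) (wf (Fm' q)) / wf (Fm' q) *
    (wf q / (starRingEnd ℂ) (wf q) * q.1), q.2) := rfl
  rw [h1, WfM_wf_Fm' q h]
  refine Prod.ext ?_ rfl
  change (starRingEnd ℂ) (wf q) / wf q * (wf q / (starRingEnd ℂ) (wf q) * q.1) = q.1
  field_simp
theorem Fm_mem {q : ℂ × ℝ} (h : q ∉ Circ) : Fm q ∉ Circ := by
  rintro ⟨h1, h2⟩
  rw [Fm_norm q h] at h1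
  exact h ⟨h1, h2⟩
theorem Fm'_mem {q : ℂ × ℝ} (h : q ∉ Circ) : Fm' q ∉ Circ := by
  rintro ⟨h1, h2⟩
  rw [Fm'_norm q h] at h1
  exact h ⟨h1, h2⟩

theorem WfM_smooth {q : ℂ × ℝ} (h : q ∉ Circ) : ContDiffAt ℝ ∞ Fm q := by
  have hw : ContDiffAt ℝ ∞ wf q := wf_smooth.contDiffAt
  have hc : ContDiffAt ℝ ∞ (fun q => (starRingEnd ℂ) (wf q)) q :=
    (Complex.conjCLE.contDiff.comp wf_smooth).contDiffAt
  have h1 : ContDiffAt ℝ ∞ (fun q => (starRingEnd ℂ) (wf q) * (wf q)⁻¹ * q.1) q :=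
    (hc.mul (hw.inv (WfM_ne h))).mul contDiffAt_fst
  exact h1.prodMk contDiffAt_snd

theorem WfM_smooth' {q : ℂ × ℝ} (h : q ∉ Circ) : ContDiffAt ℝ ∞ Fm' q := by
  have hw : ContDiffAt ℝ ∞ wf q := wf_smooth.contDiffAt
  have hc : ContDiffAt ℝ ∞ (fun q => (starRingEnd ℂ) (wf q)) q :=
    (Complex.conjCLE.contDiff.comp wf_smooth).contDiffAt
  have hn : (starRingEnd ℂ) (wf q) ≠ 0 := by simpa using WfM_ne h
  have h1 : ContDiffAt ℝ ∞ (fun q => wf q * ((starRingEnd ℂ) (wf q))⁻¹ * q.1) q :=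
    (hw.mul (hc.inv hn)).mul contDiffAt_fst
  exact h1.prodMk contDiffAt_snd

theorem Fm_loc {q : ℂ × ℝ} (h : q ∉ Circ) :
    IsLocalDiffeomorphAt 𝓘(ℝ, ℂ × ℝ) 𝓘(ℝ, ℂ × ℝ) ∞ Fm q := by
  have h1 : ∀ᶠ y in 𝓝 q, y ∉ Circ := isClosed_Circ.isOpen_compl.mem_nhds h
  have h2 : ∀ᶠ y in 𝓝 (Fm q), y ∉ Circ := isClosed_Circ.isOpen_compl.mem_nhds (Fm_mem h)
  refine ld_two (g := Fm') ?_ ?_ ?_ ?_
  · filter_upwards [h1] with y hy
    exact (WfM_smooth hy).contMDiffAt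
  · filter_upwards [h2] with y hy
    exact (WfM_smooth' hy).contMDiffAt
  · filter_upwards [h1] with y hy
    exact Fm_left y hy
  · filter_upwards [h2] with y hy
    exact Fm_right y hy

/-- outside the support of the twist -/
theorem Fm_out {z : ℂ} {s : ℝ} (h : 12 ≤ ‖z‖ ^ 2 ∨ 9 / 16 ≤ s ^ 2) : Fm (z, s) = (z, s) := by
  unfold Fm
  rw [wf_out h]
  refine Prod.ext ?_ rfl
  simp

/-- the twist undoes the full turns of the strands -/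
theorem Fm_turn {z : ℂ} {s : ℝ} (h : ‖z‖ ≤ 2) : Fm (turn s * z, s) = (z, s) := by
  have hn : ‖turn s * z‖ ≤ 2 := by rw [norm_mul, turn_norm, one_mul]; exact h
  unfold Fm
  rw [wf_in hn]
  refine Prod.ext ?_ rfl
  change (starRingEnd ℂ) (win s) / win s * (turn s * z) = z
  unfold win turn
  set S := Real.smoothTransition (s + 1 / 2) with hS
  rw [← ex_neg]
  have h1 : ex (-(S - 1 / 2)) = ex (S - 1 / 2) * ex (-(2 * S)) := by
    rw [← ex_add]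
    have h2 : S - 1 / 2 + -(2 * S) = -(S - 1 / 2) + ((-1 : ℤ) : ℝ) := by push_cast; ring
    rw [h2, ex_add_int]
  have h3 : ex (-(2 * S)) * ex (2 * S) = 1 := by
    rw [← ex_add, neg_add_cancel, ex_zero]
  have h4 := ex_ne (S - 1 / 2)
  rw [h1, mul_div_assoc, mul_comm (ex (S - 1 / 2)), div_mul_cancel₀ _ h4, ← mul_assoc, h3, one_mul]

/-- the twist near the circle, in the coordinates of the tube -/
theorem Fm_tube {φ γ r : ℝ} (h0 : 0 < r) (h1 : r < 1 / 4) :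
    Fm (ex φ * Real.sqrt (9 - 6 * ((r : ℂ) * ex γ).re), -((r : ℂ) * ex γ).im) =
      (ex (φ + 2 * γ) * Real.sqrt (9 - 6 * ((r : ℂ) * ex γ).re), -((r : ℂ) * ex γ).im) := by
  set ζ : ℂ := (r : ℂ) * ex γ with hζ
  have hn : ‖ζ‖ = r := by
    rw [hζ, norm_mul, ex_norm, mul_one, Complex.norm_real, Real.norm_of_nonneg h0.le]
  have hre : |ζ.re| ≤ r := hn ▸ Complex.abs_re_le_norm ζ
  have him : |ζ.im| ≤ r := hn ▸ Complex.abs_im_le_norm ζ
  have hre2 := abs_le.1 hre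
  have hp : 0 ≤ 9 - 6 * ζ.re := by linarith [hre2.2]
  have hsq : ‖ex φ * (Real.sqrt (9 - 6 * ζ.re) : ℂ)‖ ^ 2 = 9 - 6 * ζ.re := by
    rw [norm_mul, ex_norm, one_mul, Complex.norm_real, Real.norm_of_nonneg (Real.sqrt_nonneg _),
      Real.sq_sqrt hp]
  have hw : wf (ex φ * Real.sqrt (9 - 6 * ζ.re), -ζ.im) = (starRingEnd ℂ) ζ := by
    rw [wf_near]
    · rw [hsq]
      apply Complex.ext
      · simp
      · simp
    · rw [hsq]; linarith [hre2.2]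
    · rw [hsq]; linarith [hre2.1]
    · rw [neg_sq, ← sq_abs]
      nlinarith [abs_nonneg ζ.im]
  unfold Fm
  rw [hw]
  refine Prod.ext ?_ rfl
  change (starRingEnd ℂ) ((starRingEnd ℂ) ζ) / (starRingEnd ℂ) ζ *
    (ex φ * (Real.sqrt (9 - 6 * ζ.re) : ℂ)) = _
  rw [Complex.conj_conj]
  have hr : (r : ℂ) ≠ 0 := by exact_mod_cast h0.ne'
  have hc : (starRingEnd ℂ) ζ = r * ex (-γ) := by
    rw [hζ, map_mul, Complex.conj_ofReal, ex_neg]
  have h2 : ζ / (starRingEnd ℂ) ζ = ex (2 * γ) := by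
    rw [hc, div_eq_iff (mul_ne_zero hr (ex_ne _)), hζ]
    have h3 : ex (2 * γ) * ex (-γ) = ex γ := by
      rw [← ex_add]
      congr 1
      ring
    rw [← h3]
    ring
  rw [h2, ← mul_assoc, ← ex_add, add_comm (2 * γ) φ]

end Pool.Agent.RSG
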