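import Pool.Agent.RSG.TwG
import Pool.Agent.RSG.TubM
import Pool.Agent.RSG.EEb
import Pool.Agent.RSG.WfM

/-!
# RSG/GamM: the diffeomorphism `Γ`   (difficulty 2)

`TwHyp (Th D b) (EE D b ε₁ ε₂)` by `Th_loc`, ..., `EE_sep`.  `even_twist` gives `Γ`, `ρ`.
* `TorT (Th D b) = {D.A (b q, t) : q ∈ Circ}`: `Th (y, φ, 0) = D.A (b (3 ex φ, 0), y)`
  (`√9 = 3`), and every `z` of norm `3` is `3 ex φ` (`ex_arg`).
* near: `q = (z, s) ∈ NearC ρ`, not in `Circ`: `ζ = ⟨(9 - |z|²)/6, -s⟩`, `|ζ|² < ρ²`, `ζ ≠ 0` (else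
  `|z|² = 9`, `s = 0`).  Let `r = |ζ|`, `ζ = r ex γ`, `γ = arg ζ / 2π`, and `z = |z| ex φ`,
  `|z| = √(9 - 6 ζ.re)`.  Then `q = (ex φ √(9 - 6 ζ.re), -ζ.im)`, and by `Fm_tube`
  `D.A (b (Fm q), t) = Th (t, φ + 2γ, r ex γ)`; `Γ` of it is `Th (t, φ, r ex γ) = D.A (b q, t)`.
-/

open scoped Manifold ContDiff Topology
open Set Filter
open Complex (I)

namespace Pool.Agent.RSG

theorem GamM_hyp {N : Type*} [TopologicalSpace N] [ChartedSpace E3 N]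
    {X : Type*} [TopologicalSpace X] [ChartedSpace E4 X] {κ κ' : ℝ × ℂ → N} {n j : ℤ}
    {b : ℂ × ℝ → N} {ε₁ ε₂ : ℝ} (D : RollGluck κ n j X) (h : FourMoveVia κ κ' b ε₁ ε₂) :
    TwHyp (Th D b) (EE D b ε₁ ε₂) where
  loc y φ ζ hζ := Th_loc D h y φ hζ
  per1 y φ ζ := Th_per1 D b y φ ζ
  per2 y φ ζ := Th_per2 D b y φ ζ
  inj y φ ζ y' φ' ζ' hζ hζ' he := Th_inj D h hζ hζ' he
  E_loc p _ := EE_loc D h p
  E_inj p p' _ _ he := EE_inj0 D h he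
  E_far p s y h1 _ _ _ := EE_far D b ε₁ ε₂ s y h1
  E_sep p y φ ζ h1 h2 := EE_sep D h y φ h1 h2

/-- points of the circle -/
theorem GamM_circ {q : ℂ × ℝ} (hq : q ∈ Circ) : ∃ φ, q = (ex φ * 3, 0) := by
  obtain ⟨h1, h2⟩ := hq
  refine ⟨Complex.arg q.1 / (2 * Real.pi), ?_⟩
  have h3 := ex_arg (p := q.1)
  rw [h1] at h3
  refine Prod.ext ?_ h2
  show q.1 = ex (Complex.arg q.1 / (2 * Real.pi)) * 3
  conv_lhs => rw [← h3]
  push_cast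
  ring

theorem GamM_Th_zero {N : Type*} [TopologicalSpace N] [ChartedSpace E3 N]
    {X : Type*} [TopologicalSpace X] [ChartedSpace E4 X] {κ : ℝ × ℂ → N} {n j : ℤ}
    (b : ℂ × ℝ → N) (D : RollGluck κ n j X) (y φ : ℝ) :
    Th D b (y, φ, 0) = D.A (b (ex φ * 3, 0), y) := by
  have h9 : Real.sqrt 9 = 3 := by
    rw [show (9 : ℝ) = 3 ^ 2 by norm_num]
    exact Real.sqrt_sq (by norm_num)
  simp only [Th, PB, Complex.zero_re, Complex.zero_im, mul_zero, sub_zero, h9, neg_zero]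
  norm_num

theorem GamM_tor {N : Type*} [TopologicalSpace N] [ChartedSpace E3 N]
    {X : Type*} [TopologicalSpace X] [ChartedSpace E4 X] {κ : ℝ × ℂ → N} {n j : ℤ}
    (b : ℂ × ℝ → N) (D : RollGluck κ n j X) (x : X) :
    x ∈ TorT (Th D b) ↔ ∃ q ∈ Circ, ∃ t, x = D.A (b q, t) := by
  constructor
  · rintro ⟨y, φ, rfl⟩
    refine ⟨(ex φ * 3, 0), ⟨?_, rfl⟩, y, GamM_Th_zero b D y φ⟩
    show ‖ex φ * 3‖ = 3
    rw [norm_mul, ex_norm]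
    norm_num
  · rintro ⟨q, hq, t, rfl⟩
    obtain ⟨φ, rfl⟩ := GamM_circ hq
    exact ⟨t, φ, (GamM_Th_zero b D t φ).symm⟩

theorem exists_isGam {N : Type*} [TopologicalSpace N] [ChartedSpace E3 N]
    {X : Type*} [TopologicalSpace X] [ChartedSpace E4 X] [T2Space X] {κ κ' : ℝ × ℂ → N} {n j : ℤ}
    {b : ℂ × ℝ → N} {ε₁ ε₂ : ℝ} (D : RollGluck κ n j X) (h : FourMoveVia κ κ' b ε₁ ε₂) :
    ∃ ρ Γ, IsGam D b ρ Γ := by
  obtain ⟨Γ, ρ, h0, h1, hloc, hsh, hfix⟩ := even_twist (GamM_hyp D h)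
  refine ⟨ρ, Γ, h0, h1, ?_, ?_, ?_⟩
  · intro x hx
    apply hloc
    rw [GamM_tor]
    rintro ⟨q, hq, t, ht⟩
    exact hx q hq t ht
  · rintro ⟨z, s⟩ hq hc t
    have hq : ((9 - ‖z‖ ^ 2) / 6) ^ 2 + s ^ 2 < ρ ^ 2 := hq
    set ζ : ℂ := ⟨(9 - ‖z‖ ^ 2) / 6, -s⟩ with hζ
    have hn : ‖ζ‖ ^ 2 = ((9 - ‖z‖ ^ 2) / 6) ^ 2 + s ^ 2 := by
      rw [Complex.sq_norm, Complex.normSq_apply, hζ]
      ring
    have hr1 : ‖ζ‖ < ρ := by
      have : ‖ζ‖ ^ 2 < ρ ^ 2 := by rw [hn]; exact hq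
      exact lt_of_pow_lt_pow_left₀ 2 h0.le this
    have hr0 : 0 < ‖ζ‖ := by
      rw [norm_pos_iff]
      intro h3
      apply hc
      have h4 := congrArg Complex.re h3
      have h5 := congrArg Complex.im h3
      simp only [hζ, Complex.zero_re, Complex.zero_im] at h4 h5
      refine ⟨?_, by simpa using h5⟩
      show ‖z‖ = 3
      have h6 : ‖z‖ ^ 2 = 3 ^ 2 := by linarith
      exact (sq_eq_sq₀ (norm_nonneg z) (by norm_num)).1 h6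
    have hγ := ex_arg (p := ζ)
    set γ := Complex.arg ζ / (2 * Real.pi) with hγd
    have hφ := ex_arg (p := z)
    set φ := Complex.arg z / (2 * Real.pi) with hφd
    have hre : ((‖ζ‖ : ℂ) * ex γ).re = (9 - ‖z‖ ^ 2) / 6 := by rw [hγ]
    have him : ((‖ζ‖ : ℂ) * ex γ).im = -s := by rw [hγ]
    have hsq : Real.sqrt (9 - 6 * ((‖ζ‖ : ℂ) * ex γ).re) = ‖z‖ := by
      rw [hre, show 9 - 6 * ((9 - ‖z‖ ^ 2) / 6) = ‖z‖ ^ 2 by ring]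
      exact Real.sqrt_sq (norm_nonneg z)
    have hzeq : ex φ * (Real.sqrt (9 - 6 * ((‖ζ‖ : ℂ) * ex γ).re) : ℂ) = z := by
      rw [hsq, mul_comm]
      exact hφ
    have hF := Fm_tube (φ := φ) (γ := γ) hr0 (hr1.trans h1)
    rw [hzeq, him, neg_neg] at hF
    rw [hF]
    have h2 := hsh t (φ + 2 * γ) γ ‖ζ‖ hr0 hr1
    have e1 : Th D b (t, φ + 2 * γ, (‖ζ‖ : ℂ) * ex γ) =
        D.A (b (ex (φ + 2 * γ) * Real.sqrt (9 - 6 * ((‖ζ‖ : ℂ) * ex γ).re), s), t) := by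
      simp only [Th, PB, him, neg_neg]
    have e2 : Th D b (t, φ + 2 * γ - 2 * γ, (‖ζ‖ : ℂ) * ex γ) = D.A (b (z, s), t) := by
      rw [add_sub_cancel_right]
      simp only [Th, PB, him, neg_neg]
      rw [hzeq]
    rw [e1, e2] at h2
    exact h2
  · intro q hq t
    exact hfix _ ((GamM_tor b D _).2 ⟨q, hq, t, rfl⟩)

end Pool.Agent.RSG
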