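import Pool.Agent.RSG.Sph
import Pool.Agent.RSG.Fn

/-!
# RSG/PGm: the explicit points `pG u₁ u₂ f` of `S4`   (difficulty 2)

`|u₁| = |u₂| = 1`, `f = X + iY`, `|f| < 1`, `R = √(1 - Y²)`: `R² = 1 - Y² > X²`, so `R > |X|`, `R ≤ 1`.
* norm: `(R + X)/2 + (R - X)/2 + Y²/(1 + R) = R + (1 - R²)/(1 + R) = 1`, so `pS4_c` gives the
  coordinates (`pG_c`).  `|c1|² - |c2|² = X`; `ht² = Y²/(1 + R) = 1 - R`, `2 - ht² = 1 + R`,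
  `ht √(2 - ht²) = Y`: so `fh = f` (`pG_fh`); `(2|c1||c2|)² = (R + X)(R - X) = R² - X² = 1 - |f|²`
  (`pG_r`), or from `fh_sq`.
* `pG_self`: `z` with `c1, c2 ≠ 0`: `A = |c1|²`, `B = |c2|²`, `ht² = 1 - A - B`, `Y² = ht² (2 - ht²) =
  1 - (A + B)²`, so `R = A + B`, `(R + X)/2 = A`, `(R - X)/2 = B`, `Y/√(1 + R) = ht` (`√(1 + R) =
  √(2 - ht²) > 0`); `√A · c1/|c1| = c1`; `pS4_self`.
* `pG_smooth`: `√` is smooth at positive numbers (`1 - Y² > 0`, `(R ± X)/2 > 0`, `1 + R > 0`) and the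
  vector is nonzero at `x` (`pS4_smooth`).
-/

open scoped Manifold ContDiff Topology
open Set Filter
open Complex (I)

namespace Pool.Agent.RSG

/-- the basic inequalities -/
theorem PGm_R {f : ℂ} (hf : ‖f‖ < 1) :
    0 < 1 - f.im ^ 2 ∧ |f.re| < Real.sqrt (1 - f.im ^ 2) ∧ Real.sqrt (1 - f.im ^ 2) ≤ 1 ∧
      Real.sqrt (1 - f.im ^ 2) ^ 2 = 1 - f.im ^ 2 := by
  have h1 : ‖f‖ ^ 2 = f.re ^ 2 + f.im ^ 2 := by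
    rw [Complex.sq_norm, Complex.normSq_apply]; ring
  have h2 : ‖f‖ ^ 2 < 1 := by nlinarith [norm_nonneg f]
  have h3 : f.re ^ 2 < 1 - f.im ^ 2 := by linarith
  have h4 : 0 < 1 - f.im ^ 2 := lt_of_le_of_lt (sq_nonneg _) h3
  refine ⟨h4, ?_, ?_, Real.sq_sqrt h4.le⟩
  · rw [← Real.sqrt_sq_eq_abs]
    exact Real.sqrt_lt_sqrt (sq_nonneg _) h3
  · refine Real.sqrt_le_one.2 ?_
    nlinarith [sq_nonneg f.im]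

section
variable {u₁ u₂ f : ℂ}

theorem PGm_pos (hf : ‖f‖ < 1) : 0 < (Real.sqrt (1 - f.im ^ 2) + f.re) / 2 ∧
    0 < (Real.sqrt (1 - f.im ^ 2) - f.re) / 2 ∧ 0 < 1 + Real.sqrt (1 - f.im ^ 2) := by
  obtain ⟨h1, h2, h3, h4⟩ := PGm_R hf
  have h5 := abs_lt.1 h2
  refine ⟨by linarith [h5.1], by linarith [h5.2], by linarith [Real.sqrt_nonneg (1 - f.im ^ 2)]⟩

theorem PGm_norm {r : ℝ} {u : ℂ} (h : 0 ≤ r) (hu : ‖u‖ = 1) : ‖(Real.sqrt r : ℂ) * u‖ ^ 2 = r := by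
  rw [norm_mul, hu, mul_one, Complex.norm_real, Real.norm_of_nonneg (Real.sqrt_nonneg _),
    Real.sq_sqrt h]

theorem PGm_all (h1 : ‖u₁‖ = 1) (h2 : ‖u₂‖ = 1) (hf : ‖f‖ < 1) :
    c1 (pG u₁ u₂ f) = Real.sqrt ((Real.sqrt (1 - f.im ^ 2) + f.re) / 2) * u₁ ∧
    c2 (pG u₁ u₂ f) = Real.sqrt ((Real.sqrt (1 - f.im ^ 2) - f.re) / 2) * u₂ ∧
    ht (pG u₁ u₂ f) = f.im / Real.sqrt (1 + Real.sqrt (1 - f.im ^ 2)) := by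
  obtain ⟨p1, p2, p3⟩ := PGm_pos hf
  obtain ⟨_, _, _, h4⟩ := PGm_R hf
  refine pS4_c ?_
  rw [PGm_norm p1.le h1, PGm_norm p2.le h2, div_pow, Real.sq_sqrt p3.le]
  set R := Real.sqrt (1 - f.im ^ 2) with hR
  have h5 : f.im ^ 2 / (1 + R) = 1 - R := by
    rw [div_eq_iff p3.ne']
    nlinarith
  rw [h5]
  ring

theorem pG_c (h1 : ‖u₁‖ = 1) (h2 : ‖u₂‖ = 1) (hf : ‖f‖ < 1) :
    c1 (pG u₁ u₂ f) = Real.sqrt ((Real.sqrt (1 - f.im ^ 2) + f.re) / 2) * u₁ ∧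
    c2 (pG u₁ u₂ f) = Real.sqrt ((Real.sqrt (1 - f.im ^ 2) - f.re) / 2) * u₂ ∧
    0 < Real.sqrt ((Real.sqrt (1 - f.im ^ 2) + f.re) / 2) ∧
    0 < Real.sqrt ((Real.sqrt (1 - f.im ^ 2) - f.re) / 2) := by
  obtain ⟨p1, p2, p3⟩ := PGm_pos hf
  obtain ⟨e1, e2, e3⟩ := PGm_all h1 h2 hf
  exact ⟨e1, e2, Real.sqrt_pos.2 p1, Real.sqrt_pos.2 p2⟩

theorem pG_fh (h1 : ‖u₁‖ = 1) (h2 : ‖u₂‖ = 1) (hf : ‖f‖ < 1) : fh (pG u₁ u₂ f) = f := by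
  obtain ⟨p1, p2, p3⟩ := PGm_pos hf
  obtain ⟨e1, e2, e3⟩ := PGm_all h1 h2 hf
  obtain ⟨_, _, _, h4⟩ := PGm_R hf
  unfold fh
  rw [e1, e2, e3, PGm_norm p1.le h1, PGm_norm p2.le h2]
  set R := Real.sqrt (1 - f.im ^ 2) with hR
  have h5 : f.im ^ 2 / (1 + R) = 1 - R := by
    rw [div_eq_iff p3.ne']
    nlinarith
  have h6 : (2 : ℝ) - (f.im / Real.sqrt (1 + R)) ^ 2 = 1 + R := by
    rw [div_pow, Real.sq_sqrt p3.le, h5]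
    ring
  rw [h6, div_mul_cancel₀ _ (Real.sqrt_pos.2 p3).ne']
  apply Complex.ext
  · change (R + f.re) / 2 - (R - f.re) / 2 = f.re
    ring
  · rfl

theorem pG_dir (h1 : ‖u₁‖ = 1) (h2 : ‖u₂‖ = 1) (hf : ‖f‖ < 1) :
    c1 (pG u₁ u₂ f) ≠ 0 ∧ c2 (pG u₁ u₂ f) ≠ 0 ∧
    c1 (pG u₁ u₂ f) = ‖c1 (pG u₁ u₂ f)‖ * u₁ ∧ c2 (pG u₁ u₂ f) = ‖c2 (pG u₁ u₂ f)‖ * u₂ ∧
    2 * ‖c1 (pG u₁ u₂ f)‖ * ‖c2 (pG u₁ u₂ f)‖ = Real.sqrt (1 - ‖f‖ ^ 2) := by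
  obtain ⟨e1, e2, e3, e4⟩ := pG_c h1 h2 hf
  have n1 : ‖c1 (pG u₁ u₂ f)‖ = Real.sqrt ((Real.sqrt (1 - f.im ^ 2) + f.re) / 2) := by
    rw [e1, norm_mul, h1, mul_one, Complex.norm_real, Real.norm_of_nonneg e3.le]
  have n2 : ‖c2 (pG u₁ u₂ f)‖ = Real.sqrt ((Real.sqrt (1 - f.im ^ 2) - f.re) / 2) := by
    rw [e2, norm_mul, h2, mul_one, Complex.norm_real, Real.norm_of_nonneg e4.le]
  refine ⟨?_, ?_, ?_, ?_, ?_⟩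
  · rw [← norm_pos_iff, n1]; exact e3
  · rw [← norm_pos_iff, n2]; exact e4
  · rw [n1]; exact e1
  · rw [n2]; exact e2
  · have h3 := fh_sq (pG u₁ u₂ f)
    rw [pG_fh h1 h2 hf] at h3
    have h4 : (2 * ‖c1 (pG u₁ u₂ f)‖ * ‖c2 (pG u₁ u₂ f)‖) ^ 2 = 1 - ‖f‖ ^ 2 := by linarith
    rw [← h4, Real.sqrt_sq (by positivity)]

theorem pG_self {z : S4} (h1 : c1 z ≠ 0) (h2 : c2 z ≠ 0) :
    pG (c1 z / ‖c1 z‖) (c2 z / ‖c2 z‖) (fh z) = z := by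
  have hs := S4_sq z
  have p1 : 0 < ‖c1 z‖ := norm_pos_iff.2 h1
  have p2 : 0 < ‖c2 z‖ := norm_pos_iff.2 h2
  have q1 : (‖c1 z‖ : ℂ) ≠ 0 := by exact_mod_cast p1.ne'
  have q2 : (‖c2 z‖ : ℂ) ≠ 0 := by exact_mod_cast p2.ne'
  have hr : (fh z).re = ‖c1 z‖ ^ 2 - ‖c2 z‖ ^ 2 := rfl
  have hi : (fh z).im = ht z * Real.sqrt (2 - ht z ^ 2) := rfl
  have h3 : 0 ≤ 2 - ht z ^ 2 := by nlinarith
  have hR : Real.sqrt (1 - (fh z).im ^ 2) = ‖c1 z‖ ^ 2 + ‖c2 z‖ ^ 2 := by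
    rw [hi, mul_pow, Real.sq_sqrt h3]
    have h4 : 1 - ht z ^ 2 * (2 - ht z ^ 2) = (‖c1 z‖ ^ 2 + ‖c2 z‖ ^ 2) ^ 2 := by
      have h5 : ht z ^ 2 = 1 - ‖c1 z‖ ^ 2 - ‖c2 z‖ ^ 2 := by linarith
      rw [h5]
      ring
    rw [h4, Real.sqrt_sq (by positivity)]
  unfold pG
  rw [hR, hr, hi]
  have e1 : (‖c1 z‖ ^ 2 + ‖c2 z‖ ^ 2 + (‖c1 z‖ ^ 2 - ‖c2 z‖ ^ 2)) / 2 = ‖c1 z‖ ^ 2 := by ring
  have e2 : (‖c1 z‖ ^ 2 + ‖c2 z‖ ^ 2 - (‖c1 z‖ ^ 2 - ‖c2 z‖ ^ 2)) / 2 = ‖c2 z‖ ^ 2 := by ring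
  have e3 : 1 + (‖c1 z‖ ^ 2 + ‖c2 z‖ ^ 2) = 2 - ht z ^ 2 := by linarith
  have h6 : 0 < 2 - ht z ^ 2 := by nlinarith
  rw [e1, e2, e3, Real.sqrt_sq p1.le, Real.sqrt_sq p2.le, mul_div_cancel₀ _ q1,
    mul_div_cancel₀ _ q2, mul_div_cancel_right₀ _ (Real.sqrt_pos.2 h6).ne']
  exact pS4_self z

end

theorem PGm_re {V : Type*} [NormedAddCommGroup V] [NormedSpace ℝ V] {H : Type*}
    [TopologicalSpace H] {J : ModelWithCorners ℝ V H} {M : Type*} [TopologicalSpace M]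
    [ChartedSpace H M] {f : M → ℝ} {x : M} (hf : ContMDiffAt J 𝓘(ℝ, ℝ) ∞ f x) (h : 0 < f x) :
    ContMDiffAt J 𝓘(ℝ, ℝ) ∞ (fun x => Real.sqrt (f x)) x := by
  have h1 : ContDiffAt ℝ ∞ Real.sqrt (f x) := Real.contDiffAt_sqrt h.ne'
  exact h1.contMDiffAt.comp x hf

theorem pG_smooth {V : Type*} [NormedAddCommGroup V] [NormedSpace ℝ V] {H : Type*}
    [TopologicalSpace H] {J : ModelWithCorners ℝ V H} {M : Type*} [TopologicalSpace M]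
    [ChartedSpace H M] {u₁ u₂ f : M → ℂ} {x : M} (h1 : ContMDiffAt J 𝓘(ℝ, ℂ) ∞ u₁ x)
    (h2 : ContMDiffAt J 𝓘(ℝ, ℂ) ∞ u₂ x) (hf : ContMDiffAt J 𝓘(ℝ, ℂ) ∞ f x)
    (n1 : ‖u₁ x‖ = 1) (n2 : ‖u₂ x‖ = 1) (nf : ‖f x‖ < 1) :
    ContMDiffAt J (𝓡 4) ∞ (fun x => pG (u₁ x) (u₂ x) (f x)) x := by
  have _n2 := n2
  obtain ⟨p1, p2, p3⟩ := PGm_pos nf
  obtain ⟨p0, _, _, _⟩ := PGm_R nf
  -- the real functions, as smooth functions of `f ∈ ℂ`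
  have hR : ContDiffAt ℝ ∞ (fun g : ℂ => Real.sqrt (1 - g.im ^ 2)) (f x) := by
    have h3 : ContDiff ℝ ∞ fun g : ℂ => 1 - g.im ^ 2 :=
      contDiff_const.sub (Complex.imCLM.contDiff.pow 2)
    exact h3.contDiffAt.sqrt p0.ne'
  have hre : ContDiffAt ℝ ∞ (fun g : ℂ => g.re) (f x) := Complex.reCLM.contDiff.contDiffAt
  have him : ContDiffAt ℝ ∞ (fun g : ℂ => g.im) (f x) := Complex.imCLM.contDiff.contDiffAt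
  have hA : ContDiffAt ℝ ∞ (fun g : ℂ => ((Real.sqrt ((Real.sqrt (1 - g.im ^ 2) + g.re) / 2) : ℝ)
      : ℂ)) (f x) :=
    Complex.ofRealCLM.contDiff.contDiffAt.comp (f x)
      (((hR.add hre).div_const 2).sqrt p1.ne')
  have hB : ContDiffAt ℝ ∞ (fun g : ℂ => ((Real.sqrt ((Real.sqrt (1 - g.im ^ 2) - g.re) / 2) : ℝ)
      : ℂ)) (f x) :=
    Complex.ofRealCLM.contDiff.contDiffAt.comp (f x)
      (((hR.sub hre).div_const 2).sqrt p2.ne')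
  have hC : ContDiffAt ℝ ∞ (fun g : ℂ => g.im / Real.sqrt (1 + Real.sqrt (1 - g.im ^ 2))) (f x) :=
    him.div ((contDiffAt_const.add hR).sqrt p3.ne') (Real.sqrt_pos.2 p3).ne'
  have hA' := hA.contMDiffAt.comp x hf
  have hB' := hB.contMDiffAt.comp x hf
  have hC' := hC.contMDiffAt.comp x hf
  have hmul : ∀ {a b : M → ℂ}, ContMDiffAt J 𝓘(ℝ, ℂ) ∞ a x → ContMDiffAt J 𝓘(ℝ, ℂ) ∞ b x →
      ContMDiffAt J 𝓘(ℝ, ℂ) ∞ (fun x => a x * b x) x := by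
    intro a b ha hb
    have h4 : ContDiff ℝ ∞ fun q : ℂ × ℂ => q.1 * q.2 := contDiff_fst.mul contDiff_snd
    exact (h4.contMDiff (a x, b x)).comp x (ha.prodMk_space hb)
  refine pS4_smooth (hmul hA' h1) (hmul hB' h2) hC' ?_
  have h5 : 0 < ‖((Real.sqrt ((Real.sqrt (1 - (f x).im ^ 2) + (f x).re) / 2) : ℝ) : ℂ) * u₁ x‖ ^ 2 := by
    rw [PGm_norm p1.le n1]
    exact p1
  have h6 := sq_nonneg ‖((Real.sqrt ((Real.sqrt (1 - (f x).im ^ 2) - (f x).re) / 2) : ℝ) : ℂ) * u₂ x‖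
  have h7 := sq_nonneg ((f x).im / Real.sqrt (1 + Real.sqrt (1 - (f x).im ^ 2)))
  change 0 < ‖((Real.sqrt ((Real.sqrt (1 - (f x).im ^ 2) + (f x).re) / 2) : ℝ) : ℂ) * u₁ x‖ ^ 2 +
    ‖((Real.sqrt ((Real.sqrt (1 - (f x).im ^ 2) - (f x).re) / 2) : ℝ) : ℂ) * u₂ x‖ ^ 2 +
    ((f x).im / Real.sqrt (1 + Real.sqrt (1 - (f x).im ^ 2))) ^ 2
  linarith

end Pool.Agent.RSG
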