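import Pool.Agent.RSG.TwF

/-!
# RSG/TwE: the full chart `eeT`   (difficulty 3)

* `eeT_per`: `round (x + m) = round x + m` and `farT_per`.
* `eeT_loc`, `z = (y, p, s)` in `Dm σ`:
  - `|p| > 10`: `eeT = farT` near `z`; `farT_loc`.
  - `|p| < 10`: then `|y - round y| < σ ≤ 1/4`, `|s - round s| < σ`, so `round` is constant near
    `y` and near `s`, and near `z` `eeT z' = EE (p', ⟨-(s' - s₀), y' - y₀⟩)` (`s₀ = round s`,
    `y₀ = round y`); `SigOK.loc` composed with an affine equivalence `R × C × R ≃ C × C`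
    (`CSG.ld_of_perm`).
  - `|p| = 10`: again the rounds are constant near `z`, and for `z'` near `z`, `9 ≤ |p'| ≤ 11` so, by
    `TwHyp.E_far` and `farT_per`, `EE (p', ⟨-(s' - s₀), y' - y₀⟩) = farT (y' - y₀, p', s' - s₀) =
    farT z'`.  So `eeT = farT` near `z`; `farT_loc`.
* `eeT_inj`, `z, z'` in `Dm σ`: both `|p|, |p'| > 10`: `farT_inj`.  Both `≤ 10`: `SigOK.inj` gives
  `p = p'` and `s - round s = s' - round s'`, `y - round y = y' - round y'`.  Mixed, say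
  `|p| > 10 ≥ |p'|`: if `|p'| ≥ 9`, then `eeT z' = farT (y' - y₀', p', s' - s₀')` (`E_far`), and
  `farT_inj` gives `p = p'`, contradiction; if `|p'| < 9`: `SigOK.sep` with `ζ = (5/|p|) ex s`,
  `|ζ| = 5/|p| < 1/2`, contradiction.
* `eeT_torus`, `z` in `Dm σ`: `eeT z ∉ TorT`: if `|p| > 10` or (`|p| ≥ 9`, by `E_far`), `eeT z` is
  `farT` of something, i.e. `Θ (.., .., ζ)` with `ζ ≠ 0`, `|ζ| < 3/5`: `TwHyp.inj`; if `|p| < 9`:
  `SigOK.sep` with `ζ = 0`.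
-/

open scoped Manifold ContDiff Topology
open Set Filter
open Complex (I)
open Pool.Agent.CSG (Dm Cm Lam Lam')

namespace Pool.Agent.RSG

theorem TwE_round {x : ℝ} {n : ℤ} (h : |x - n| < 1 / 2) : round x = n := by
  rw [round_eq, Int.floor_eq_iff]
  rw [abs_lt] at h
  constructor <;> linarith [h.1, h.2]

theorem TwE_round_ev {x σ : ℝ} (hσ : σ ≤ 1 / 4) (h : |x - round x| < σ) :
    ∀ᶠ x' : ℝ in 𝓝 x, round x' = round x ∧ |x' - (round x : ℤ)| < σ := by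
  have h1 : Tendsto (fun x' : ℝ => |x' - round x|) (𝓝 x) (𝓝 |x - round x|) := by
    have : Continuous fun x' : ℝ => |x' - round x| := by fun_prop
    exact this.tendsto x
  filter_upwards [h1.eventually (gt_mem_nhds h)] with x' hx'
  exact ⟨TwE_round (by linarith), hx'⟩

section
variable {X : Type*} [TopologicalSpace X] [ChartedSpace E4 X] {Θ : ℝ × ℝ × ℂ → X}
  {EE : ℂ × ℂ → X} {σ : ℝ}

theorem TwE_Dm (hσ : σ ≤ 1 / 4) {z : ℝ × ℂ × ℝ} (hz : z ∈ Dm σ) : ∀ᶠ z' in 𝓝 z, z' ∈ Dm σ := by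
  rcases hz with hz | ⟨h1, h2⟩
  · have h3 : Tendsto (fun z' : ℝ × ℂ × ℝ => ‖z'.2.1‖) (𝓝 z) (𝓝 ‖z.2.1‖) := by
      have : Continuous fun z' : ℝ × ℂ × ℝ => ‖z'.2.1‖ := by fun_prop
      exact this.tendsto z
    filter_upwards [h3.eventually (lt_mem_nhds hz)] with z' hz'
    exact Or.inl hz'
  · have e1 := (continuous_fst.tendsto z).eventually (TwE_round_ev hσ h1)
    have c2 : Continuous fun z' : ℝ × ℂ × ℝ => z'.2.2 := by fun_prop
    have e2 := (c2.tendsto z).eventually (TwE_round_ev hσ h2)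
    filter_upwards [e1, e2] with z' h1' h2'
    refine Or.inr ⟨?_, ?_⟩
    · rw [h1'.1]; exact h1'.2
    · rw [h2'.1]; exact h2'.2

theorem TwE_in {z : ℝ × ℂ × ℝ} (hz : z ∈ Dm σ) (hp : ‖z.2.1‖ ≤ 10) :
    |z.1 - round z.1| < σ ∧ |z.2.2 - round z.2.2| < σ := by
  rcases hz with hz | hz
  · exact absurd hz (by linarith)
  · exact hz

theorem TwE_far (h : TwHyp Θ EE) (hσ : σ ≤ 1 / 4) {z : ℝ × ℂ × ℝ} (hz : z ∈ Dm σ)
    (hp : 9 ≤ ‖z.2.1‖) : eeT Θ EE z = farT Θ z := by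
  by_cases h10 : 10 < ‖z.2.1‖
  · rw [eeT, if_pos h10]
  · rw [eeT, if_neg h10]
    push Not at h10
    obtain ⟨h1, h2⟩ := TwE_in hz h10
    rw [h.E_far z.2.1 (z.2.2 - round z.2.2) (z.1 - round z.1) hp (by linarith) (by linarith)
      (by linarith)]
    have := farT_per h (z.1 - round z.1) (z.2.2 - round z.2.2) z.2.1 (round z.1) (round z.2.2)
    rw [sub_add_cancel, sub_add_cancel] at this
    exact this.symm

theorem eeT_per (h : TwHyp Θ EE) (y s : ℝ) (p : ℂ) (a c : ℤ) :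
    eeT Θ EE (y + a, p, s + c) = eeT Θ EE (y, p, s) := by
  unfold eeT
  by_cases h10 : 10 < ‖p‖
  · simp only [h10, if_true]
    exact farT_per h y s p a c
  · simp only [h10, if_false, round_add_intCast]
    congr 3
    · push_cast; ring
    · push_cast; ring

/-- the affine change of coordinates -/
def TwE_A (y₀ s₀ : ℝ) : ℝ × ℂ × ℝ ≃ ℂ × ℂ where
  toFun z := (z.2.1, ⟨-(z.2.2 - s₀), z.1 - y₀⟩)
  invFun q := (q.2.im + y₀, q.1, s₀ - q.2.re)
  left_inv z := by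
    obtain ⟨y, p, s⟩ := z
    simp
  right_inv q := by
    obtain ⟨p, ν⟩ := q
    simp

theorem TwE_A_ld (y₀ s₀ : ℝ) (z : ℝ × ℂ × ℝ) :
    IsLocalDiffeomorphAt 𝓘(ℝ, ℝ × ℂ × ℝ) 𝓘(ℝ, ℂ × ℂ) ∞ (TwE_A y₀ s₀) z := by
  refine Pool.Agent.CSG.ld_of_perm ?_ ?_ z
  · have e : (TwE_A y₀ s₀ : ℝ × ℂ × ℝ → ℂ × ℂ) = fun z : ℝ × ℂ × ℝ =>
      (z.2.1, Complex.ofRealCLM (-(z.2.2 - s₀)) + Complex.ofRealCLM (z.1 - y₀) * I) := by
      ext z : 1
      simp only [TwE_A, Equiv.coe_fn_mk, Complex.ofRealCLM_apply]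
      refine Prod.ext rfl ?_
      apply Complex.ext <;> simp
    rw [e]
    fun_prop
  · have e : ((TwE_A y₀ s₀).symm : ℂ × ℂ → ℝ × ℂ × ℝ) = fun q : ℂ × ℂ =>
      (Complex.imCLM q.2 + y₀, q.1, s₀ - Complex.reCLM q.2) := by
      ext q : 1
      simp [TwE_A]
    rw [e]
    fun_prop

theorem eeT_loc (h : TwHyp Θ EE) (hσ : SigOK Θ EE σ) {z : ℝ × ℂ × ℝ} (hz : z ∈ Dm σ) :
    IsLocalDiffeomorphAt 𝓘(ℝ, ℝ × ℂ × ℝ) (𝓡 4) ∞ (eeT Θ EE) z := by
  have h3 : Tendsto (fun z' : ℝ × ℂ × ℝ => ‖z'.2.1‖) (𝓝 z) (𝓝 ‖z.2.1‖) := by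
    have : Continuous fun z' : ℝ × ℂ × ℝ => ‖z'.2.1‖ := by fun_prop
    exact this.tendsto z
  by_cases h9 : 9 < ‖z.2.1‖
  · refine Pool.Agent.CSG.ld_congr (farT_loc h z h9.le) ?_
    filter_upwards [h3.eventually (lt_mem_nhds h9), TwE_Dm hσ.le hz] with z' h1 h2
    exact TwE_far h hσ.le h2 h1.le
  · push Not at h9
    obtain ⟨h1, h2⟩ := TwE_in hz (by linarith)
    have hl := hσ.loc z.2.1 ⟨-(z.2.2 - round z.2.2), z.1 - round z.1⟩ (by linarith)
      (by simpa [abs_neg] using (abs_neg (z.2.2 - round z.2.2)).trans_lt h2) (by simpa using h1)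
    have hA := TwE_A_ld (round z.1) (round z.2.2) z
    have hc : IsLocalDiffeomorphAt 𝓘(ℝ, ℝ × ℂ × ℝ) (𝓡 4) ∞
        (EE ∘ (TwE_A (round z.1) (round z.2.2))) z :=
      IsLocalDiffeomorphAt.comp (hf := hA) (hg := hl) ..
    refine Pool.Agent.CSG.ld_congr hc ?_
    have e1 := (continuous_fst.tendsto z).eventually (TwE_round_ev hσ.le h1)
    have c2 : Continuous fun z' : ℝ × ℂ × ℝ => z'.2.2 := by fun_prop
    have e2 := (c2.tendsto z).eventually (TwE_round_ev hσ.le h2)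
    filter_upwards [h3.eventually (gt_mem_nhds (show ‖z.2.1‖ < 10 by linarith)), e1, e2] with
      z' h1' h2' h3'
    simp only [eeT, not_lt.2 h1'.le, if_false, h2'.1, h3'.1, Function.comp, TwE_A,
      Equiv.coe_fn_mk]

theorem TwE_norm {s : ℝ} {p : ℂ} : ‖((5 / ‖p‖ : ℝ) : ℂ) * ex s‖ = 5 / ‖p‖ := by
  rw [norm_mul, ex_norm, mul_one, Complex.norm_real, Real.norm_eq_abs, abs_of_nonneg (by positivity)]

theorem TwE_sep (hσ : SigOK Θ EE σ) {y s y' s' : ℝ} {p p' : ℂ}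
    (hz' : (y', p', s') ∈ Dm σ) (hp : 10 < ‖p‖) (hp' : ‖p'‖ ≤ 9) :
    eeT Θ EE (y, p, s) ≠ eeT Θ EE (y', p', s') := by
  obtain ⟨h1, h2⟩ := TwE_in hz' (by simpa using (show ‖p'‖ ≤ 10 by linarith))
  simp only at h1 h2
  intro he
  have e1 : eeT Θ EE (y, p, s) = farT Θ (y, p, s) := by rw [eeT, if_pos hp]
  have e2 : eeT Θ EE (y', p', s') = EE (p', ⟨-(s' - round s'), y' - round y'⟩) := by
    rw [eeT, if_neg (not_lt.2 (show ‖p'‖ ≤ 10 by linarith))]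
  rw [e1, e2] at he
  refine hσ.sep p' ⟨-(s' - round s'), y' - round y'⟩ y (Complex.arg p / (2 * Real.pi))
    ((5 / ‖p‖ : ℝ) * ex s) hp' ?_ ?_ ?_ he.symm
  · simpa [abs_neg] using (abs_neg (s' - round s')).trans_lt h2
  · simpa using h1
  · rw [TwE_norm, div_le_iff₀ (by linarith)]
    linarith

theorem eeT_inj (h : TwHyp Θ EE) (hσ : SigOK Θ EE σ) {y s y' s' : ℝ} {p p' : ℂ}
    (hz : (y, p, s) ∈ Dm σ) (hz' : (y', p', s') ∈ Dm σ)
    (he : eeT Θ EE (y, p, s) = eeT Θ EE (y', p', s')) :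
    p' = p ∧ (∃ m : ℤ, y' = y + m) ∧ ∃ m : ℤ, s' = s + m := by
  by_cases hb : ‖p‖ ≤ 10 ∧ ‖p'‖ ≤ 10
  · obtain ⟨h10, h10'⟩ := hb
    obtain ⟨h1, h2⟩ := TwE_in hz h10
    obtain ⟨h1', h2'⟩ := TwE_in hz' h10'
    simp only at h1 h2 h1' h2'
    simp only [eeT, not_lt.2 h10, not_lt.2 h10', if_false] at he
    have := hσ.inj p ⟨-(s - round s), y - round y⟩ p' ⟨-(s' - round s'), y' - round y'⟩ h10
      (by simpa [abs_neg] using (abs_neg (s - round s)).trans_lt h2) (by simpa using h1) h10'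
      (by simpa [abs_neg] using (abs_neg (s' - round s')).trans_lt h2') (by simpa using h1') he
    obtain ⟨e1, e2⟩ := this
    rw [Complex.mk.injEq] at e2
    refine ⟨e1.symm, ⟨round y' - round y, ?_⟩, ⟨round s' - round s, ?_⟩⟩
    · push_cast; linarith [e2.2]
    · push_cast; linarith [e2.1]
  · by_cases h9 : 9 ≤ ‖p‖
    · by_cases h9' : 9 ≤ ‖p'‖
      · rw [TwE_far h hσ.le hz h9, TwE_far h hσ.le hz' h9'] at he
        obtain ⟨e1, e2, e3⟩ := farT_inj h h9 h9' he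
        exact ⟨e1.symm, e2, e3⟩
      · push Not at h9'
        have h10 : 10 < ‖p‖ := by
          by_contra hc
          exact hb ⟨not_lt.1 hc, by linarith⟩
        exact absurd he (TwE_sep hσ hz' h10 h9'.le)
    · push Not at h9
      have h10 : 10 < ‖p'‖ := by
        by_contra hc
        exact hb ⟨by linarith, not_lt.1 hc⟩
      exact absurd he.symm (TwE_sep hσ hz h10 h9.le)

theorem eeT_torus (h : TwHyp Θ EE) (hσ : SigOK Θ EE σ) {z : ℝ × ℂ × ℝ} (hz : z ∈ Dm σ) :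
    eeT Θ EE z ∉ TorT Θ := by
  rintro ⟨y, φ, he⟩
  by_cases h9 : 9 ≤ ‖z.2.1‖
  · rw [TwE_far h hσ.le hz h9] at he
    have hn := TwE_norm (s := z.2.2) (p := z.2.1)
    have := h.inj z.1 (Complex.arg z.2.1 / (2 * Real.pi)) ((5 / ‖z.2.1‖ : ℝ) * ex z.2.2) y φ 0
      (by rw [hn, div_lt_iff₀ (by linarith)]; linarith) (by norm_num) he
    rw [this.1, norm_zero] at hn
    have : 0 < 5 / ‖z.2.1‖ := by
      apply div_pos <;> linarith
    linarith
  · push Not at h9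
    obtain ⟨h1, h2⟩ := TwE_in hz (by linarith)
    rw [eeT, if_neg (by linarith)] at he
    exact hσ.sep z.2.1 ⟨-(z.2.2 - round z.2.2), z.1 - round z.1⟩ y φ 0 h9.le
      (by simpa [abs_neg] using (abs_neg (z.2.2 - round z.2.2)).trans_lt h2)
      (by simpa using h1) (by simp) he

end

end Pool.Agent.RSG
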