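import Pool.Agent.RSG.TwD
import Pool.Agent.RSG.ExM
import Pool.Agent.RSG.LDc

/-!
# RSG/TwF: the chart `farT`
-/

open scoped Manifold ContDiff Topology
open Set Filter
open Complex (I)
open Pool.Agent.CSG (Dm Cm Lam Lam')

namespace Pool.Agent.RSG

theorem TwF_arg {u : ℂ} (hu : u ∈ Complex.slitPlane) : ContDiffAt ℝ ∞ Complex.arg u := by
  have h1 : ContDiffAt ℝ ∞ (fun z : ℂ => (Complex.log z).im) u := by
    have h2 : ContDiffAt ℝ ∞ Complex.log u := (Complex.contDiffAt_log hu).restrict_scalars ℝ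
    exact (Complex.imCLM.contDiff (n := ∞)).contDiffAt.comp u h2
  have h3 : (fun z : ℂ => (Complex.log z).im) = Complex.arg := by
    funext z
    exact Complex.log_im z
  rwa [h3] at h1

/-- direction -/
theorem TwF_dir {γ : ℝ} {c p : ℂ} (hc : c = ex γ) (hp : p ≠ 0) :
    ex (γ + Complex.arg (p / c) / (2 * Real.pi)) = p / ‖p‖ := by
  have hcn : ‖c‖ = 1 := by rw [hc, ex_norm]
  have hc0 : c ≠ 0 := by rw [hc]; exact ex_ne γ
  have h1 := ex_arg (p := p / c)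
  have h2 : ‖p / c‖ = ‖p‖ := by rw [norm_div, hcn, div_one]
  rw [h2] at h1
  have hpn : (‖p‖ : ℂ) ≠ 0 := by
    exact_mod_cast (norm_pos_iff.2 hp).ne'
  rw [ex_add, ← hc]
  rw [eq_div_iff hpn]
  have h3 : c * (p / c) = p := by field_simp
  calc c * ex (Complex.arg (p / c) / (2 * Real.pi)) * (‖p‖ : ℂ)
      = c * ((‖p‖ : ℂ) * ex (Complex.arg (p / c) / (2 * Real.pi))) := by ring
    _ = p := by rw [h1, h3]

section
variable {X : Type*} [TopologicalSpace X] [ChartedSpace E4 X] {Θ : ℝ × ℝ × ℂ → X}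
  {EE : ℂ × ℂ → X}

theorem TwF_i1 (h : TwHyp Θ EE) (y φ : ℝ) (ζ : ℂ) (a : ℤ) : Θ (y + a, φ, ζ) = Θ (y, φ, ζ) := by
  induction a using Int.induction_on with
  | zero => simp
  | succ n ih =>
    rw [← ih, ← h.per1 (y + ((n : ℤ) : ℝ))]
    congr 2
    push_cast
    ring
  | pred n ih =>
    rw [← ih, ← h.per1 (y + ((-(n : ℤ) - 1 : ℤ) : ℝ))]
    congr 2
    push_cast
    ring

theorem TwF_i2 (h : TwHyp Θ EE) (y φ : ℝ) (ζ : ℂ) (a : ℤ) : Θ (y, φ + a, ζ) = Θ (y, φ, ζ) := by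
  induction a using Int.induction_on with
  | zero => simp
  | succ n ih =>
    rw [← ih, ← h.per2 y (φ + ((n : ℤ) : ℝ))]
    congr 3
    push_cast
    ring
  | pred n ih =>
    rw [← ih, ← h.per2 y (φ + ((-(n : ℤ) - 1 : ℤ) : ℝ))]
    congr 3
    push_cast
    ring

theorem ThT_int (h : TwHyp Θ EE) (y φ : ℝ) (ζ : ℂ) (a c : ℤ) :
    Θ (y + a, φ + c, ζ) = Θ (y, φ, ζ) := by
  rw [TwF_i1 h, TwF_i2 h]

theorem farT_per (h : TwHyp Θ EE) (y s : ℝ) (p : ℂ) (a c : ℤ) :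
    farT Θ (y + a, p, s + c) = farT Θ (y, p, s) := by
  simp only [farT, ex_add_int]
  exact TwF_i1 h _ _ _ a

theorem TwF_norm {r s : ℝ} (hr : 0 < r) : ‖((5 / r : ℝ) : ℂ) * ex s‖ = 5 / r := by
  rw [norm_mul, ex_norm, mul_one, Complex.norm_real, Real.norm_of_nonneg (by positivity)]

theorem farT_loc (h : TwHyp Θ EE) (z : ℝ × ℂ × ℝ) (hz : 9 ≤ ‖z.2.1‖) :
    IsLocalDiffeomorphAt 𝓘(ℝ, ℝ × ℂ × ℝ) (𝓡 4) ∞ (farT Θ) z := by
  obtain ⟨y₀, p₀, s₀⟩ := z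
  simp only at hz
  have hp0 : (0 : ℝ) < ‖p₀‖ := by linarith
  have hp0' : p₀ ≠ 0 := norm_pos_iff.1 hp0
  have hpn : (‖p₀‖ : ℂ) ≠ 0 := by exact_mod_cast hp0.ne'
  have hpi : (0 : ℝ) < 2 * Real.pi := by positivity
  obtain ⟨c, hc⟩ : ∃ c : ℂ, c = p₀ / ‖p₀‖ := ⟨_, rfl⟩
  have hcn : ‖c‖ = 1 := by
    rw [hc, norm_div, Complex.norm_real, norm_norm, div_self hp0.ne']
  have hc0 : c ≠ 0 := by
    intro h0
    rw [h0, norm_zero] at hcn
    exact zero_ne_one hcn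
  obtain ⟨γ, hγ⟩ := ex_surj hcn
  have hpc : p₀ / c = (‖p₀‖ : ℝ) := by
    rw [hc]
    field_simp
  let F : ℝ × ℂ × ℝ → ℝ × ℝ × ℂ := fun z =>
    (z.1, γ + Complex.arg (z.2.1 / c) / (2 * Real.pi), ((5 / ‖z.2.1‖ : ℝ) : ℂ) * ex z.2.2)
  let G : ℝ × ℝ × ℂ → ℝ × ℂ × ℝ := fun a =>
    (a.1, ((5 / ‖a.2.2‖ : ℝ) : ℂ) * ex a.2.1,
      s₀ + (Complex.log (a.2.2 / ex s₀)).im / (2 * Real.pi))
  have hev1 : ∀ᶠ z in 𝓝 (y₀, p₀, s₀), z.2.1 / c ∈ Complex.slitPlane := by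
    have h1 : ContinuousAt (fun z : ℝ × ℂ × ℝ => z.2.1 / c) (y₀, p₀, s₀) :=
      (continuous_snd.fst.div_const c).continuousAt
    refine h1.eventually (Complex.isOpen_slitPlane.mem_nhds ?_)
    show p₀ / c ∈ Complex.slitPlane
    rw [hpc]
    exact Complex.ofReal_mem_slitPlane.2 hp0
  have hev3 : ∀ᶠ z in 𝓝 (y₀, p₀, s₀), |z.2.2 - s₀| < 1 / 2 := by
    have h1 : ContinuousAt (fun z : ℝ × ℂ × ℝ => |z.2.2 - s₀|) (y₀, p₀, s₀) :=
      ((continuous_snd.snd.sub continuous_const).abs).continuousAt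
    refine h1.eventually (gt_mem_nhds ?_)
    simp
  have hne : ∀ z : ℂ, z / c ∈ Complex.slitPlane → z ≠ 0 := by
    rintro z hz rfl
    rw [zero_div] at hz
    exact Complex.zero_notMem_slitPlane hz
  have hF : ∀ᶠ z in 𝓝 (y₀, p₀, s₀), ContDiffAt ℝ ∞ F z := by
    filter_upwards [hev1] with z hz1
    have hz0 := hne _ hz1
    have hz0n : ‖z.2.1‖ ≠ 0 := norm_ne_zero_iff.2 hz0
    refine contDiffAt_fst.prodMk (ContDiffAt.prodMk ?_ ?_)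
    · refine contDiffAt_const.add (ContDiffAt.div_const ?_ _)
      have h1 : ContDiffAt ℝ ∞ (fun z : ℝ × ℂ × ℝ => z.2.1 / c) z :=
        (contDiff_snd.fst.div_const c).contDiffAt
      exact ContDiffAt.comp (x := z) (g := Complex.arg) (TwF_arg hz1) h1
    · refine ContDiffAt.mul ?_ ?_
      · have h1 : ContDiffAt ℝ ∞ (fun z : ℝ × ℂ × ℝ => (5 / ‖z.2.1‖ : ℝ)) z := by
          refine contDiffAt_const.div ?_ hz0n
          exact (contDiffAt_norm ℝ hz0).comp z contDiff_snd.fst.contDiffAt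
        exact (Complex.ofRealCLM.contDiff (n := ∞)).contDiffAt.comp z h1
      · exact ex_smooth.contDiffAt.comp z contDiff_snd.snd.contDiffAt
  have hF0 : F (y₀, p₀, s₀) = (y₀, γ, ((5 / ‖p₀‖ : ℝ) : ℂ) * ex s₀) := by
    simp only [F]
    rw [hpc, Complex.arg_ofReal_of_nonneg hp0.le, zero_div, add_zero]
  have hζ0 : ((5 / ‖p₀‖ : ℝ) : ℂ) * ex s₀ ≠ 0 := by
    refine mul_ne_zero ?_ (ex_ne _)
    exact_mod_cast (by positivity : (5 / ‖p₀‖ : ℝ) ≠ 0)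
  have hG : DifferentiableAt ℝ G (F (y₀, p₀, s₀)) := by
    rw [hF0]
    have hd : ContDiffAt ℝ ∞ G (y₀, γ, ((5 / ‖p₀‖ : ℝ) : ℂ) * ex s₀) := by
      refine contDiffAt_fst.prodMk (ContDiffAt.prodMk ?_ ?_)
      · refine ContDiffAt.mul ?_ ?_
        · have h1 : ContDiffAt ℝ ∞ (fun z : ℝ × ℝ × ℂ => (5 / ‖z.2.2‖ : ℝ))
              (y₀, γ, ((5 / ‖p₀‖ : ℝ) : ℂ) * ex s₀) := by
            refine contDiffAt_const.div ?_ (norm_ne_zero_iff.2 hζ0)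
            exact ContDiffAt.comp (g := fun v : ℂ => ‖v‖) _ (contDiffAt_norm ℝ hζ0)
              contDiff_snd.snd.contDiffAt
          exact (Complex.ofRealCLM.contDiff (n := ∞)).contDiffAt.comp _ h1
        · exact ex_smooth.contDiffAt.comp _ contDiff_snd.fst.contDiffAt
      · refine contDiffAt_const.add (ContDiffAt.div_const ?_ _)
        have h1 : ContDiffAt ℝ ∞ (fun z : ℝ × ℝ × ℂ => z.2.2 / ex s₀)
            (y₀, γ, ((5 / ‖p₀‖ : ℝ) : ℂ) * ex s₀) :=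
          (contDiff_snd.snd.div_const _).contDiffAt
        have h2 : (((5 / ‖p₀‖ : ℝ) : ℂ) * ex s₀) / ex s₀ ∈ Complex.slitPlane := by
          rw [mul_div_cancel_right₀ _ (ex_ne s₀)]
          exact Complex.ofReal_mem_slitPlane.2 (by positivity)
        have h3 : ContDiffAt ℝ ∞ Complex.log ((((5 / ‖p₀‖ : ℝ) : ℂ) * ex s₀) / ex s₀) :=
          (Complex.contDiffAt_log h2).restrict_scalars ℝ
        have h4 := ContDiffAt.comp (x := (y₀, γ, ((5 / ‖p₀‖ : ℝ) : ℂ) * ex s₀))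
          (g := Complex.log) h3 h1
        exact (Complex.imCLM.contDiff (n := ∞)).contDiffAt.comp _ h4
    exact hd.differentiableAt (by simp)
  have hGF : ∀ᶠ z in 𝓝 (y₀, p₀, s₀), G (F z) = z := by
    filter_upwards [hev1, hev3] with z hz1 hz3
    have hz0 := hne _ hz1
    have hzp : 0 < ‖z.2.1‖ := norm_pos_iff.2 hz0
    obtain ⟨y, p, s⟩ := z
    simp only at hz1 hz3 hz0 hzp
    have hpn' : (‖p‖ : ℂ) ≠ 0 := by exact_mod_cast hzp.ne'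
    simp only [F, G]
    refine Prod.ext rfl (Prod.ext ?_ ?_)
    · show ((5 / ‖((5 / ‖p‖ : ℝ) : ℂ) * ex s‖ : ℝ) : ℂ) *
        ex (γ + Complex.arg (p / c) / (2 * Real.pi)) = p
      rw [TwF_norm hzp, TwF_dir hγ hz0]
      push_cast
      field_simp
    · show s₀ + (Complex.log (((5 / ‖p‖ : ℝ) : ℂ) * ex s / ex s₀)).im / (2 * Real.pi) = s
      have h1 : ((5 / ‖p‖ : ℝ) : ℂ) * ex s / ex s₀ = ((5 / ‖p‖ : ℝ) : ℂ) * ex (s - s₀) := by
        have h2 : ex s = ex (s - s₀) * ex s₀ := by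
          rw [← ex_add]
          congr 1
          ring
        rw [h2, ← mul_assoc, mul_div_cancel_right₀ _ (ex_ne s₀)]
      rw [h1, ex_log (by positivity) (by linarith [(abs_lt.1 hz3).1]) (abs_lt.1 hz3).2]
      field_simp
      ring
  have hFld : IsLocalDiffeomorphAt 𝓘(ℝ, ℝ × ℂ × ℝ) 𝓘(ℝ, ℝ × ℝ × ℂ) ∞ F (y₀, p₀, s₀) := by
    refine ld_left hF ?_ hG hGF
    simp [Module.finrank_prod, Complex.finrank_real_complex]
  have hΘ : IsLocalDiffeomorphAt 𝓘(ℝ, ℝ × ℝ × ℂ) (𝓡 4) ∞ Θ (F (y₀, p₀, s₀)) := by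
    rw [hF0]
    refine h.loc _ _ _ ?_
    rw [TwF_norm hp0, div_lt_div_iff₀ hp0 (by norm_num)]
    linarith
  refine Pool.Agent.CSG.ld_congr (IsLocalDiffeomorphAt.comp (hf := hFld) (hg := hΘ) ..) ?_
  filter_upwards [hev1] with z hz1
  have hz0 := hne _ hz1
  obtain ⟨y, p, s⟩ := z
  simp only at hz1 hz0
  show Θ (y, Complex.arg p / (2 * Real.pi), ((5 / ‖p‖ : ℝ) : ℂ) * ex s) =
    Θ (y, γ + Complex.arg (p / c) / (2 * Real.pi), ((5 / ‖p‖ : ℝ) : ℂ) * ex s)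
  have hpn' : (‖p‖ : ℂ) ≠ 0 := by exact_mod_cast (norm_pos_iff.2 hz0).ne'
  have h1 : ex (Complex.arg p / (2 * Real.pi)) =
      ex (γ + Complex.arg (p / c) / (2 * Real.pi)) := by
    rw [TwF_dir hγ hz0, eq_div_iff hpn', mul_comm]
    exact ex_arg
  obtain ⟨m, hm⟩ := ex_eq_iff.1 h1
  rw [hm]
  exact (TwF_i2 h _ _ _ m).symm

theorem farT_inj (h : TwHyp Θ EE) {y s y' s' : ℝ} {p p' : ℂ} (hp : 9 ≤ ‖p‖) (hp' : 9 ≤ ‖p'‖)
    (he : farT Θ (y, p, s) = farT Θ (y', p', s')) :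
    p = p' ∧ (∃ m : ℤ, y' = y + m) ∧ ∃ m : ℤ, s' = s + m := by
  have hp0 : (0 : ℝ) < ‖p‖ := by linarith
  have hp0' : (0 : ℝ) < ‖p'‖ := by linarith
  have h1 : ‖((5 / ‖p‖ : ℝ) : ℂ) * ex s‖ < 3 / 5 := by
    rw [TwF_norm hp0, div_lt_div_iff₀ hp0 (by norm_num)]
    linarith
  have h2 : ‖((5 / ‖p'‖ : ℝ) : ℂ) * ex s'‖ < 3 / 5 := by
    rw [TwF_norm hp0', div_lt_div_iff₀ hp0' (by norm_num)]
    linarith
  obtain ⟨h3, h4, h5⟩ := h.inj _ _ _ _ _ _ h1 h2 he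
  obtain ⟨h6, h7⟩ := ex_polar (by positivity : (0 : ℝ) < 5 / ‖p‖)
    (by positivity : (0 : ℝ) < 5 / ‖p'‖) h3
  have h8 : ‖p‖ = ‖p'‖ := by
    rw [div_eq_div_iff hp0.ne' hp0'.ne'] at h6
    linarith
  refine ⟨?_, h4, h7⟩
  have h9 : ex (Complex.arg p / (2 * Real.pi)) = ex (Complex.arg p' / (2 * Real.pi)) :=
    ex_eq_iff.2 h5
  rw [← ex_arg (p := p), ← ex_arg (p := p'), h8, h9]

end

end Pool.Agent.RSG
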