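import Pool.Agent.RSG.TwF

/-!
# RSG/TwS: choice of `σ`   (difficulty 3)

`K = {|p| ≤ 10} × {0}` is compact in `C × C`.
* (loc) `{q | EE is a local diffeomorphism at q}` is open (`CSG.ld_eventually`) and contains `K`
  (`E_loc`), so it contains a neighbourhood of `K`.
* (inj) `Set.InjOn.exists_mem_nhdsSet` (`EE` is injective on `K` by `E_inj`, continuous and locally
  injective at the points of `K`: `CSG.ld_continuousAt`, `CSG.ld_injOn`; `X` is Hausdorff): `EE` is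
  injective on a neighbourhood of `K`.
* (sep) `T' = {Θ (y, φ, ζ) : |ζ| ≤ 1/2}` is compact, hence closed: by `ThT_int` it is the image of
  the compact set `[0,1] × [0,1] × {|ζ| ≤ 1/2}`, on which `Θ` is continuous.  The set
  `{|p| ≤ 9} × {0}` is compact and mapped into the open set `X ∖ T'` by `EE` (`E_sep`), and `EE` is
  continuous at its points, so a neighbourhood of it is mapped into `X ∖ T'`.
* tube lemma: a neighbourhood of `{|p| ≤ r} × {0}` contains `{|p| ≤ r} × {|ν| < 2 σ}` for some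
  `σ > 0` (`generalized_tube_lemma` or a Lebesgue number argument:
  `IsCompact.exists_thickening_subset_open`); `|ν.re|, |ν.im| < σ` gives `|ν| < 2σ`.
-/

open scoped Manifold ContDiff Topology
open Set Filter
open Complex (I)
open Pool.Agent.CSG (Dm Cm Lam Lam')

namespace Pool.Agent.RSG

theorem TwS_tube {r : ℝ} {V : Set (ℂ × ℂ)}
    (hV : V ∈ 𝓝ˢ (Metric.closedBall (0 : ℂ) r ×ˢ {(0 : ℂ)})) :
    ∃ δ > 0, ∀ p ν : ℂ, ‖p‖ ≤ r → ‖ν‖ < δ → (p, ν) ∈ V := by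
  obtain ⟨W, hWo, hKW, hWV⟩ := mem_nhdsSet_iff_exists.1 hV
  obtain ⟨u, v, hu, hv, hsu, htv, huv⟩ :=
    generalized_tube_lemma (isCompact_closedBall (0 : ℂ) r) isCompact_singleton hWo hKW
  obtain ⟨δ, hδ, hb⟩ := Metric.isOpen_iff.1 hv 0 (htv rfl)
  refine ⟨δ, hδ, fun p ν hp hν => hWV (huv ⟨hsu ?_, hb ?_⟩)⟩
  · simpa using hp
  · simpa using hν

theorem exists_sigma {X : Type*} [TopologicalSpace X] [ChartedSpace E4 X] [T2Space X]
    {Θ : ℝ × ℝ × ℂ → X} {EE : ℂ × ℂ → X} (h : TwHyp Θ EE) : ∃ σ, SigOK Θ EE σ := by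
  -- loc
  have hloc : {q : ℂ × ℂ | IsLocalDiffeomorphAt 𝓘(ℝ, ℂ × ℂ) (𝓡 4) ∞ EE q} ∈
      𝓝ˢ (Metric.closedBall (0 : ℂ) 10 ×ˢ {(0 : ℂ)}) := by
    rw [mem_nhdsSet_iff_forall]
    rintro ⟨p, ν⟩ ⟨hp, hν⟩
    obtain rfl : ν = 0 := hν
    exact Pool.Agent.CSG.ld_eventually (h.E_loc p (by simpa using hp))
  -- inj
  have hinj : ∃ t ∈ 𝓝ˢ (Metric.closedBall (0 : ℂ) 10 ×ˢ {(0 : ℂ)}), InjOn EE t := by
    refine Set.InjOn.exists_mem_nhdsSet ?_ ?_ ?_ ?_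
    · rintro ⟨p, ν⟩ ⟨hp, hν⟩ ⟨p', ν'⟩ ⟨hp', hν'⟩ he
      obtain rfl : ν = 0 := hν
      obtain rfl : ν' = 0 := hν'
      rw [h.E_inj p p' (by simpa using hp) (by simpa using hp') he]
    · exact (isCompact_closedBall (0 : ℂ) 10).prod isCompact_singleton
    · rintro ⟨p, ν⟩ ⟨hp, hν⟩
      obtain rfl : ν = 0 := hν
      exact Pool.Agent.CSG.ld_continuousAt (h.E_loc p (by simpa using hp))
    · rintro ⟨p, ν⟩ ⟨hp, hν⟩
      obtain rfl : ν = 0 := hν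
      exact Pool.Agent.CSG.ld_injOn (h.E_loc p (by simpa using hp))
  obtain ⟨t, ht, hti⟩ := hinj
  -- sep
  set K : Set (ℝ × ℝ × ℂ) := Icc (0 : ℝ) 1 ×ˢ Icc (0 : ℝ) 1 ×ˢ Metric.closedBall (0 : ℂ) (1 / 2)
    with hK
  have hKc : IsCompact K :=
    isCompact_Icc.prod (isCompact_Icc.prod (isCompact_closedBall (0 : ℂ) (1 / 2)))
  have hΘc : ContinuousOn Θ K := by
    rintro ⟨y, φ, ζ⟩ ⟨-, -, hζ⟩
    have hζ' : ‖ζ‖ ≤ 1 / 2 := by simpa using hζ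
    exact (Pool.Agent.CSG.ld_continuousAt (h.loc y φ ζ (by linarith))).continuousWithinAt
  have hcl : IsClosed (Θ '' K) := (hKc.image_of_continuousOn hΘc).isClosed
  have hmem : ∀ y φ ζ, ‖ζ‖ ≤ 1 / 2 → Θ (y, φ, ζ) ∈ Θ '' K := by
    intro y φ ζ hζ
    refine ⟨(Int.fract y, Int.fract φ, ζ), ⟨⟨Int.fract_nonneg y, (Int.fract_lt_one y).le⟩,
      ⟨Int.fract_nonneg φ, (Int.fract_lt_one φ).le⟩, by simpa using hζ⟩, ?_⟩
    have := ThT_int h (Int.fract y) (Int.fract φ) ζ ⌊y⌋ ⌊φ⌋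
    rw [Int.fract_add_floor, Int.fract_add_floor] at this
    exact this.symm
  have hsep : {q : ℂ × ℂ | EE q ∉ Θ '' K} ∈
      𝓝ˢ (Metric.closedBall (0 : ℂ) 9 ×ˢ {(0 : ℂ)}) := by
    rw [mem_nhdsSet_iff_forall]
    rintro ⟨p, ν⟩ ⟨hp, hν⟩
    obtain rfl : ν = 0 := hν
    have hp' : ‖p‖ ≤ 9 := by simpa using hp
    have h1 := Pool.Agent.CSG.ld_continuousAt (h.E_loc p (by linarith))
    refine h1.preimage_mem_nhds (hcl.isOpen_compl.mem_nhds ?_)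
    rintro ⟨⟨y, φ, ζ⟩, ⟨-, -, hζ⟩, he⟩
    exact h.E_sep p y φ ζ hp' (by simpa using hζ) he.symm
  obtain ⟨δ₁, hδ₁, h₁⟩ := TwS_tube hloc
  obtain ⟨δ₂, hδ₂, h₂⟩ := TwS_tube ht
  obtain ⟨δ₃, hδ₃, h₃⟩ := TwS_tube hsep
  have hm : 0 < min (min δ₁ δ₂) (min δ₃ (1 / 2)) := by positivity
  set δ := min (min δ₁ δ₂) (min δ₃ (1 / 2)) with hδ
  have e₁ : δ ≤ δ₁ := (min_le_left _ _).trans (min_le_left _ _)
  have e₂ : δ ≤ δ₂ := (min_le_left _ _).trans (min_le_right _ _)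
  have e₃ : δ ≤ δ₃ := (min_le_right _ _).trans (min_le_left _ _)
  have e₄ : δ ≤ 1 / 2 := (min_le_right _ _).trans (min_le_right _ _)
  have hn : ∀ ν : ℂ, |ν.re| < δ / 2 → |ν.im| < δ / 2 → ‖ν‖ < δ := by
    intro ν h1 h2
    have := Complex.norm_le_abs_re_add_abs_im ν
    linarith
  refine ⟨δ / 2, by linarith, by linarith, ?_, ?_, ?_⟩
  · intro p ν hp h1 h2
    exact h₁ p ν hp ((hn ν h1 h2).trans_le e₁)
  · intro p ν p' ν' hp h1 h2 hp' h1' h2' he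
    have := hti (h₂ p ν hp ((hn ν h1 h2).trans_le e₂)) (h₂ p' ν' hp' ((hn ν' h1' h2').trans_le e₂))
      he
    exact Prod.mk.inj this
  · intro p ν y φ ζ hp h1 h2 hζ he
    exact h₃ p ν hp ((hn ν h1 h2).trans_le e₃) (he ▸ hmem y φ ζ hζ)

end Pool.Agent.RSG
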