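import Pool.Agent.RSG.Sph
import Pool.Agent.RSG.LDc
import Pool.Agent.RSG.Fn

/-!
# RSG/Vtx: the vertex charts `Vx δ` of `S4`   (difficulty 2)

`q = (x, w)`, `δ = ±1`, `S = SV q = 2|x|² + |w|²/2 = |x + w/2|² + |x - w/2|²`.
* `SV_eq`: parallelogram identity.
* `Vx_c`: `pS4_c` as `|x + w/2|² + |x - w/2|² + (1 - S) = 1`.
* `Vx_fh`: `|x + w/2|² - |x - w/2|² = 2 Re (x̄ w)`; `ht² = 1 - S`, so
  `ht √(2 - ht²) = δ √(1 - S) √(1 + S) = δ √(1 - S²)`.
* `Vx_ne`: the imaginary part is nonzero for `0 ≤ S < 1`.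
* `Vx_ld`: `Vx δ` is smooth on the open set `S < 1` (`pS4_smooth`, `√` is smooth at positive
  numbers), with inverse `g z = ((c1 z + c2 z)/2, c1 z - c2 z)`, smooth everywhere:
  `g (Vx δ q) = q`, and `Vx δ (g z) = z` for `z` near `Vx δ q` (`δ ht z > 0` there: `SV (g z) =
  |c1|² + |c2|² = 1 - ht²`, `δ √(ht²) = δ |ht| = ht`; `pS4_self`).  Use `ld_two`.
* `Vx_inj`: `c1, c2` give `q = q'`; the sign of `ht` gives `δ = δ'`.
-/

open scoped Manifold ContDiff Topology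
open Set Filter
open Complex (I)

namespace Pool.Agent.RSG

theorem SV_eq (q : ℂ × ℂ) : ‖q.1 + q.2 / 2‖ ^ 2 + ‖q.1 - q.2 / 2‖ ^ 2 = SV q := by
  unfold SV
  simp only [Complex.sq_norm, Complex.normSq_apply, Complex.add_re, Complex.add_im,
    Complex.sub_re, Complex.sub_im, Complex.div_ofNat_re, Complex.div_ofNat_im]
  ring

theorem SV_nonneg (q : ℂ × ℂ) : 0 ≤ SV q := by
  unfold SV
  positivity

theorem Vx_c {δ : ℝ} (hδ : δ = 1 ∨ δ = -1) {q : ℂ × ℂ} (h : SV q ≤ 1) :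
    c1 (Vx δ q) = q.1 + q.2 / 2 ∧ c2 (Vx δ q) = q.1 - q.2 / 2 ∧
      ht (Vx δ q) = δ * Real.sqrt (1 - SV q) := by
  unfold Vx
  apply pS4_c
  have hs : δ ^ 2 = 1 := by rcases hδ with h | h <;> rw [h] <;> norm_num
  rw [SV_eq, mul_pow, Real.sq_sqrt (by linarith), hs]
  ring

theorem Vx_fh {δ : ℝ} (hδ : δ = 1 ∨ δ = -1) {q : ℂ × ℂ} (h : SV q ≤ 1) :
    fh (Vx δ q) = ⟨uV q, δ * Real.sqrt (1 - SV q ^ 2)⟩ := by
  obtain ⟨h1, h2, h3⟩ := Vx_c hδ h
  have hs : δ ^ 2 = 1 := by rcases hδ with h | h <;> rw [h] <;> norm_num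
  have h0 := SV_nonneg q
  unfold fh
  rw [h1, h2, h3]
  congr 1
  · unfold uV
    simp only [Complex.sq_norm, Complex.normSq_apply, Complex.add_re, Complex.add_im,
      Complex.sub_re, Complex.sub_im, Complex.div_ofNat_re, Complex.div_ofNat_im, Complex.mul_re,
      Complex.conj_re, Complex.conj_im]
    ring
  · rw [mul_pow, Real.sq_sqrt (by linarith), hs, mul_assoc, ← Real.sqrt_mul (by linarith)]
    congr 2
    ring

theorem Vx_ne {δ : ℝ} (hδ : δ = 1 ∨ δ = -1) {q : ℂ × ℂ} (h : SV q < 1) : fh (Vx δ q) ≠ 0 := by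
  rw [Vx_fh hδ h.le]
  intro he
  have h1 := congrArg Complex.im he
  simp only [Complex.zero_im] at h1
  have h0 := SV_nonneg q
  have h2 : 0 < Real.sqrt (1 - SV q ^ 2) := by
    apply Real.sqrt_pos.2
    nlinarith
  rcases hδ with hd | hd
  · rw [hd] at h1; linarith
  · rw [hd] at h1; linarith

theorem Vtx_SV_smooth : ContDiff ℝ ∞ SV := by
  unfold SV
  exact ((contDiff_const.mul (contDiff_fst.norm_sq ℝ))).add
    ((contDiff_snd.norm_sq ℝ).div_const 2)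

theorem Vtx_Vx_smooth {δ : ℝ} (hδ : δ = 1 ∨ δ = -1) {q : ℂ × ℂ} (h : SV q < 1) :
    ContMDiffAt 𝓘(ℝ, ℂ × ℂ) (𝓡 4) ∞ (Vx δ) q := by
  have hs : δ ^ 2 = 1 := by rcases hδ with h | h <;> rw [h] <;> norm_num
  unfold Vx
  apply pS4_smooth
  · rw [contMDiffAt_iff_contDiffAt]
    fun_prop
  · rw [contMDiffAt_iff_contDiffAt]
    fun_prop
  · rw [contMDiffAt_iff_contDiffAt]
    apply ContDiffAt.mul contDiffAt_const
    apply ContDiffAt.sqrt
    · exact contDiffAt_const.sub Vtx_SV_smooth.contDiffAt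
    · linarith
  · rw [SV_eq, mul_pow, Real.sq_sqrt (by linarith), hs]
    linarith

theorem Vx_ld {δ : ℝ} (hδ : δ = 1 ∨ δ = -1) {q : ℂ × ℂ} (h : SV q < 1) :
    IsLocalDiffeomorphAt 𝓘(ℝ, ℂ × ℂ) (𝓡 4) ∞ (Vx δ) q := by
  have hs : δ ^ 2 = 1 := by rcases hδ with h | h <;> rw [h] <;> norm_num
  have hU : ∀ᶠ y in 𝓝 q, SV y < 1 :=
    Vtx_SV_smooth.continuous.continuousAt.eventually_lt_const h
  have hpos : 0 < δ * ht (Vx δ q) := by
    rw [(Vx_c hδ h.le).2.2, ← mul_assoc, ← sq, hs, one_mul]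
    exact Real.sqrt_pos.2 (by linarith)
  have hV : ∀ᶠ z in 𝓝 (Vx δ q), 0 < δ * ht z := by
    have hc : ContinuousAt (fun z => δ * ht z) (Vx δ q) :=
      (continuous_const.mul ht_smooth.continuous).continuousAt
    exact hc.eventually_const_lt hpos
  refine ld_two (g := fun z => ((c1 z + c2 z) / 2, c1 z - c2 z)) ?_ ?_ ?_ ?_
  · filter_upwards [hU] with y hy
    exact Vtx_Vx_smooth hδ hy
  · refine Filter.Eventually.of_forall fun z => ?_
    have h1 : ContMDiffAt (𝓡 4) 𝓘(ℝ, ℂ) ∞ (fun z => (c1 z + c2 z) / 2) z := by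
      have : ContDiff ℝ ∞ (fun w : ℂ × ℂ => (w.1 + w.2) / 2) := by fun_prop
      exact (this.contMDiff.contMDiffAt (x := (c1 z, c2 z))).comp z
        ((c1_smooth z).prodMk_space (c2_smooth z))
    have h2 : ContMDiffAt (𝓡 4) 𝓘(ℝ, ℂ) ∞ (fun z => c1 z - c2 z) z := by
      have : ContDiff ℝ ∞ (fun w : ℂ × ℂ => w.1 - w.2) := by fun_prop
      exact (this.contMDiff.contMDiffAt (x := (c1 z, c2 z))).comp z
        ((c1_smooth z).prodMk_space (c2_smooth z))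
    exact h1.prodMk_space h2
  · filter_upwards [hU] with y hy
    obtain ⟨h1, h2, -⟩ := Vx_c hδ hy.le
    rw [h1, h2]
    ext1
    · show _ = y.1
      ring
    · show _ = y.2
      ring
  · filter_upwards [hV] with z hz
    have e1 : (c1 z + c2 z) / 2 + (c1 z - c2 z) / 2 = c1 z := by ring
    have e2 : (c1 z + c2 z) / 2 - (c1 z - c2 z) / 2 = c2 z := by ring
    have e3 : SV ((c1 z + c2 z) / 2, c1 z - c2 z) = 1 - ht z ^ 2 := by
      rw [← SV_eq]
      simp only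
      rw [e1, e2]
      have := S4_sq z
      linarith
    unfold Vx
    rw [e3]
    simp only
    rw [e1, e2]
    have e4 : δ * Real.sqrt (1 - (1 - ht z ^ 2)) = ht z := by
      have : 1 - (1 - ht z ^ 2) = ht z ^ 2 := by ring
      rw [this, Real.sqrt_sq_eq_abs]
      rcases hδ with hd | hd
      · rw [hd] at hz ⊢
        rw [abs_of_pos (by linarith)]
        ring
      · rw [hd] at hz ⊢
        rw [abs_of_neg (by linarith)]
        ring
    rw [e4]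
    exact pS4_self z

theorem Vx_inj {δ δ' : ℝ} (hδ : δ = 1 ∨ δ = -1) (hδ' : δ' = 1 ∨ δ' = -1) {q q' : ℂ × ℂ}
    (h : SV q < 1) (h' : SV q' < 1) (he : Vx δ q = Vx δ' q') : δ = δ' ∧ q = q' := by
  obtain ⟨h1, h2, h3⟩ := Vx_c hδ h.le
  obtain ⟨h1', h2', h3'⟩ := Vx_c hδ' h'.le
  rw [he] at h1 h2 h3
  rw [h1] at h1'
  rw [h2] at h2'
  rw [h3] at h3'
  have hq : q = q' := by
    ext1
    · linear_combination (h1' + h2') / 2
    · linear_combination h1' - h2'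
  refine ⟨?_, hq⟩
  rw [← hq] at h3'
  have hp : 0 < Real.sqrt (1 - SV q) := Real.sqrt_pos.2 (by linarith)
  exact mul_right_cancel₀ hp.ne' h3'

end Pool.Agent.RSG
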