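import Pool.Agent.RSG.ExM
import Pool.Agent.CSG.FunBasic
import Pool.Agent.RSG.Fn
import Pool.Agent.RSG.LDc

/-!
# RSG/WfA: the function `wf`   (difficulty 2)

`ρ = |z|`; `th = thi`, `to = tho` in `[0,1]`; `S = smoothTransition (s + 1/2)`.
* `wf_smooth`: `‖z‖ ^ 2` is smooth (`contDiff_norm_sq`), `stp` is smooth (`CSG.stp_smooth`), `ex` is
  smooth, `Real.smoothTransition.contDiff`.
* `wf_in`: `ρ² ≤ 4` gives `thi = 1`.
* `wf_out`: if `ρ² ≥ 12`: `thi = 0`, `tho = 0`, `wf = -1`.  If `s² ≥ 9/16`: `tho = 0` and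
  `win s = ex (∓1/2) = -1` (`|s| ≥ 3/4 ≥ 1/2`: `S = 0` or `1`), so `wf = -th - (1 - th) = -1`.
* `wf_near`: `thi = 0`, `tho = 1` (as `25/4 ≤ ρ² ≤ 21/2`, `s² ≤ 1/4`), so `wf = (9 - ρ²)/6 + i s`.
* `wf_zero`: if `(z, s) ∈ Circ` use `wf_near`.  Conversely let `wf = 0`.
  Imaginary part: `th · Im (win s) + (1 - th) · to · s = 0` with
  `Im (win s) = sin (2π (S - 1/2))`, which is `> 0` for `0 < s < 1/2`, `< 0` for `-1/2 < s < 0` and
  `0` for `s = 0` or `|s| ≥ 1/2` (`S (1/2) = 1/2`... : `smoothTransition` is strictly between `1/2`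
  and `1` for `0 < s < 1/2`: it is enough to know `S > 1/2`: `smoothTransition x = f x / (f x +
  f (1 - x))`, `f = expNegInvGlue` strictly monotone on `x > 0`; by symmetry for `s < 0`).
  If `s = 0`: `win 0 = 1`, real part `th + (1 - th) (to (9 - ρ²)/6 - (1 - to)) = 0`.  If `ρ² < 9`:
  `to = 1` and the sum is `th + (1 - th) (9 - ρ²)/6 > 0`, contradiction.  If `ρ² > 9`: `th = 0` and
  `to (9 - ρ²)/6 - (1 - to) < 0` (both terms `≤ 0`, and not both `0`), contradiction.  So `ρ = 3`.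
  If `0 < |s| < 1/2`: both terms have the sign of `s`, `th · |Im win| = 0` gives `th = 0` and
  `to · |s| = 0` gives `to = 0`; then `wf = -1 ≠ 0`.
  If `|s| ≥ 1/2`: `win s = -1`, `(1 - th) to s = 0`, so `th = 1` or `to = 0`; `wf = -1` in both cases.
-/

open scoped Manifold ContDiff Topology
open Set Filter
open Complex (I)
open Pool.Agent.CSG (stp)

namespace Pool.Agent.RSG

theorem WfA_ST_symm (x : ℝ) :
    Real.smoothTransition (1 - x) = 1 - Real.smoothTransition x := by
  have h := Pool.Agent.CSG.FunBasic_symm (a := 0) (b := 1) one_pos x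
  unfold stp at h
  simpa using h

theorem WfA_ST_half : Real.smoothTransition (1 / 2) = 1 / 2 := by
  have h := WfA_ST_symm (1 / 2)
  norm_num at h
  norm_num
  linarith

theorem WfA_ST_gt {x : ℝ} (h0 : 1 / 2 < x) : 1 / 2 < Real.smoothTransition x := by
  rcases lt_or_ge x 1 with h1 | h1
  · have p0 : 0 < 1 - x := by linarith
    have p1 : 0 < x := by linarith
    have e1 : expNegInvGlue x = Real.exp (-x⁻¹) := by
      unfold expNegInvGlue
      rw [if_neg (not_le.2 p1)]
    have e2 : expNegInvGlue (1 - x) = Real.exp (-(1 - x)⁻¹) := by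
      unfold expNegInvGlue
      rw [if_neg (not_le.2 p0)]
    have hlt : expNegInvGlue (1 - x) < expNegInvGlue x := by
      rw [e1, e2]
      apply Real.exp_lt_exp.2
      have : x⁻¹ < (1 - x)⁻¹ := (inv_lt_inv₀ p1 p0).2 (by linarith)
      linarith
    have h2 : 0 < expNegInvGlue (1 - x) := expNegInvGlue.pos_of_pos p0
    unfold Real.smoothTransition
    rw [lt_div_iff₀ (by linarith)]
    linarith
  · rw [Real.smoothTransition.one_of_one_le h1]
    norm_num

theorem WfA_ST_lt {x : ℝ} (h0 : x < 1 / 2) : Real.smoothTransition x < 1 / 2 := by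
  have h := WfA_ST_gt (x := 1 - x) (by linarith)
  rw [WfA_ST_symm] at h
  linarith

theorem WfA_win_zero : win 0 = 1 := by
  unfold win
  rw [zero_add, WfA_ST_half, sub_self, ex_zero]

theorem WfA_win_out {s : ℝ} (h : 1 / 2 ≤ s ∨ s ≤ -(1 / 2)) : win s = -1 := by
  unfold win
  rcases h with h | h
  · rw [Real.smoothTransition.one_of_one_le (by linarith)]
    rw [show (1 : ℝ) - 1 / 2 = 1 / 2 by norm_num, ex_half]
  · rw [Real.smoothTransition.zero_of_nonpos (by linarith), zero_sub, ex_neg, ex_half]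
    simp

theorem WfA_win_pos {s : ℝ} (h0 : 0 < s) (h1 : s < 1 / 2) : 0 < (win s).im := by
  unfold win
  rw [ex_im]
  have a := WfA_ST_gt (x := s + 1 / 2) (by linarith)
  have b := Real.smoothTransition.lt_one_of_lt_one (x := s + 1 / 2) (by linarith)
  have hp := Real.pi_pos
  apply Real.sin_pos_of_pos_of_lt_pi
  · have : 0 < Real.smoothTransition (s + 1 / 2) - 1 / 2 := by linarith
    positivity
  · nlinarith

theorem WfA_win_neg {s : ℝ} (h0 : s < 0) (h1 : -(1 / 2) < s) : (win s).im < 0 := by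
  unfold win
  rw [ex_im]
  have a := WfA_ST_lt (x := s + 1 / 2) (by linarith)
  have b := Real.smoothTransition.pos_of_pos (x := s + 1 / 2) (by linarith)
  have hp := Real.pi_pos
  apply Real.sin_neg_of_neg_of_neg_pi_lt
  · nlinarith
  · nlinarith

theorem WfA_thi_smooth : ContDiff ℝ ∞ thi := by
  unfold thi
  have h : ContDiff ℝ ∞ fun q : ℂ × ℝ => ‖q.1‖ ^ 2 := (contDiff_norm_sq ℝ).comp contDiff_fst
  exact contDiff_const.sub ((Pool.Agent.CSG.stp_smooth _ _).comp h)

theorem WfA_tho_smooth : ContDiff ℝ ∞ tho := by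
  unfold tho
  have h : ContDiff ℝ ∞ fun q : ℂ × ℝ => ‖q.1‖ ^ 2 := (contDiff_norm_sq ℝ).comp contDiff_fst
  have h' : ContDiff ℝ ∞ fun q : ℂ × ℝ => q.2 ^ 2 := contDiff_snd.pow 2
  exact (contDiff_const.sub ((Pool.Agent.CSG.stp_smooth _ _).comp h)).mul
    (contDiff_const.sub ((Pool.Agent.CSG.stp_smooth _ _).comp h'))

theorem WfA_win_smooth : ContDiff ℝ ∞ win := by
  unfold win
  exact ex_smooth.comp ((Real.smoothTransition.contDiff.comp
    (contDiff_id.add contDiff_const)).sub contDiff_const)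

theorem WfA_ofReal : ContDiff ℝ ∞ (fun x : ℝ => (x : ℂ)) := Complex.ofRealCLM.contDiff

theorem wf_smooth : ContDiff ℝ ∞ wf := by
  have h : ContDiff ℝ ∞ fun q : ℂ × ℝ => ‖q.1‖ ^ 2 := (contDiff_norm_sq ℝ).comp contDiff_fst
  have h1 : ContDiff ℝ ∞ fun q : ℂ × ℝ => ((thi q : ℝ) : ℂ) := WfA_ofReal.comp WfA_thi_smooth
  have h2 : ContDiff ℝ ∞ fun q : ℂ × ℝ => ((tho q : ℝ) : ℂ) := WfA_ofReal.comp WfA_tho_smooth
  have h3 : ContDiff ℝ ∞ fun q : ℂ × ℝ => ((1 - thi q : ℝ) : ℂ) :=
    WfA_ofReal.comp (contDiff_const.sub WfA_thi_smooth)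
  have h4 : ContDiff ℝ ∞ fun q : ℂ × ℝ => ((1 - tho q : ℝ) : ℂ) :=
    WfA_ofReal.comp (contDiff_const.sub WfA_tho_smooth)
  have h5 : ContDiff ℝ ∞ fun q : ℂ × ℝ => (((9 - ‖q.1‖ ^ 2) / 6 : ℝ) : ℂ) :=
    WfA_ofReal.comp ((contDiff_const.sub h).div_const _)
  have h6 : ContDiff ℝ ∞ fun q : ℂ × ℝ => ((q.2 : ℝ) : ℂ) := WfA_ofReal.comp contDiff_snd
  have h7 : ContDiff ℝ ∞ fun q : ℂ × ℝ => win q.2 := WfA_win_smooth.comp contDiff_snd
  exact (h1.mul h7).add (h3.mul ((h2.mul (h5.add (h6.mul contDiff_const))).sub h4))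

theorem WfA_thi_one {q : ℂ × ℝ} (h : ‖q.1‖ ^ 2 ≤ 4) : thi q = 1 := by
  unfold thi
  rw [Pool.Agent.CSG.stp_zero (by norm_num) h, sub_zero]

theorem WfA_thi_zero {q : ℂ × ℝ} (h : 25 / 4 ≤ ‖q.1‖ ^ 2) : thi q = 0 := by
  unfold thi
  rw [Pool.Agent.CSG.stp_one (by norm_num) h, sub_self]

theorem WfA_thi_nonneg (q : ℂ × ℝ) : 0 ≤ thi q := by
  unfold thi
  linarith [Pool.Agent.CSG.stp_le_one 4 (25 / 4) (‖q.1‖ ^ 2)]

theorem WfA_thi_le (q : ℂ × ℝ) : thi q ≤ 1 := by
  unfold thi
  linarith [Pool.Agent.CSG.stp_nonneg 4 (25 / 4) (‖q.1‖ ^ 2)]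

theorem WfA_tho_nonneg (q : ℂ × ℝ) : 0 ≤ tho q := by
  unfold tho
  apply mul_nonneg
  · linarith [Pool.Agent.CSG.stp_le_one (21 / 2) 12 (‖q.1‖ ^ 2)]
  · linarith [Pool.Agent.CSG.stp_le_one (1 / 4) (9 / 16) (q.2 ^ 2)]

theorem WfA_tho_le (q : ℂ × ℝ) : tho q ≤ 1 := by
  unfold tho
  apply mul_le_one₀
  · linarith [Pool.Agent.CSG.stp_nonneg (21 / 2) 12 (‖q.1‖ ^ 2)]
  · linarith [Pool.Agent.CSG.stp_le_one (1 / 4) (9 / 16) (q.2 ^ 2)]
  · linarith [Pool.Agent.CSG.stp_nonneg (1 / 4) (9 / 16) (q.2 ^ 2)]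

theorem WfA_re (q : ℂ × ℝ) : (wf q).re = thi q * (win q.2).re +
    (1 - thi q) * (tho q * ((9 - ‖q.1‖ ^ 2) / 6) - (1 - tho q)) := by
  unfold wf
  simp only [Complex.add_re, Complex.re_ofReal_mul, Complex.sub_re, Complex.ofReal_re,
    Complex.I_re, mul_zero, add_zero]

theorem WfA_im (q : ℂ × ℝ) : (wf q).im = thi q * (win q.2).im +
    (1 - thi q) * (tho q * q.2) := by
  unfold wf
  simp only [Complex.add_im, Complex.im_ofReal_mul, Complex.sub_im, Complex.ofReal_im,
    Complex.I_im, mul_one, zero_add, sub_zero]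

theorem wf_in {z : ℂ} {s : ℝ} (h : ‖z‖ ≤ 2) : wf (z, s) = win s := by
  have h1 : thi (z, s) = 1 := WfA_thi_one (by
    have := norm_nonneg z
    show ‖z‖ ^ 2 ≤ 4
    nlinarith)
  unfold wf
  rw [h1]
  simp

theorem wf_out {z : ℂ} {s : ℝ} (h : 12 ≤ ‖z‖ ^ 2 ∨ 9 / 16 ≤ s ^ 2) : wf (z, s) = -1 := by
  rcases h with h | h
  · have h1 : thi (z, s) = 0 := WfA_thi_zero (by show 25 / 4 ≤ ‖z‖ ^ 2; linarith)
    have h2 : tho (z, s) = 0 := by
      unfold tho
      rw [Pool.Agent.CSG.stp_one (by norm_num) h, sub_self, zero_mul]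
    unfold wf
    rw [h1, h2]
    simp
  · have h2 : tho (z, s) = 0 := by
      unfold tho
      rw [Pool.Agent.CSG.stp_one (a := 1 / 4) (by norm_num) h, sub_self, mul_zero]
    have h3 : win s = -1 := by
      apply WfA_win_out
      by_contra hc
      rw [not_or, not_le, not_le] at hc
      nlinarith [hc.1, hc.2]
    unfold wf
    rw [h2]
    simp only [h3]
    push_cast
    ring

theorem wf_near {z : ℂ} {s : ℝ} (h1 : 25 / 4 ≤ ‖z‖ ^ 2) (h2 : ‖z‖ ^ 2 ≤ 21 / 2)
    (h3 : s ^ 2 ≤ 1 / 4) : wf (z, s) = ((9 - ‖z‖ ^ 2) / 6 : ℝ) + s * I := by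
  have a : thi (z, s) = 0 := WfA_thi_zero h1
  have b : tho (z, s) = 1 := by
    unfold tho
    rw [Pool.Agent.CSG.stp_zero (by norm_num) h2, Pool.Agent.CSG.stp_zero (by norm_num) h3]
    norm_num
  unfold wf
  rw [a, b]
  simp

theorem wf_zero {q : ℂ × ℝ} : wf q = 0 ↔ q ∈ Circ := by
  constructor
  · intro hq
    have hre := WfA_re q
    have him := WfA_im q
    rw [hq, Complex.zero_re] at hre
    rw [hq, Complex.zero_im] at him
    have a0 := WfA_thi_nonneg q
    have a1 := WfA_thi_le q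
    have b0 := WfA_tho_nonneg q
    have b1 := WfA_tho_le q
    have n0 := norm_nonneg q.1
    rcases eq_or_ne q.2 0 with hs | hs
    · refine ⟨?_, hs⟩
      rw [hs, WfA_win_zero, Complex.one_re, mul_one] at hre
      have hb : tho q = 1 - stp (21 / 2) 12 (‖q.1‖ ^ 2) := by
        unfold tho
        rw [hs, Pool.Agent.CSG.stp_zero (a := 1 / 4) (by norm_num) (by norm_num)]
        ring
      rcases lt_trichotomy (‖q.1‖ ^ 2) 9 with h | h | h
      · exfalso
        have hb1 : tho q = 1 := by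
          rw [hb, Pool.Agent.CSG.stp_zero (by norm_num) (by linarith), sub_zero]
        rw [hb1] at hre
        have h1 : 0 < (9 - ‖q.1‖ ^ 2) / 6 := by linarith
        have h2 : 0 ≤ (1 - thi q) * ((9 - ‖q.1‖ ^ 2) / 6) := mul_nonneg (by linarith) h1.le
        have h3 : thi q = 0 := by linarith
        rw [h3] at hre
        linarith
      · have : (‖q.1‖ - 3) * (‖q.1‖ + 3) = 0 := by ring_nf; linarith
        rcases mul_eq_zero.1 this with h' | h'
        · linarith
        · linarith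
      · exfalso
        have ha : thi q = 0 := WfA_thi_zero (by linarith)
        rw [ha] at hre
        have h1 : (9 - ‖q.1‖ ^ 2) / 6 < 0 := by linarith
        have h2 : tho q * ((9 - ‖q.1‖ ^ 2) / 6) ≤ 0 :=
          mul_nonpos_of_nonneg_of_nonpos b0 h1.le
        have h3 : tho q = 1 := by linarith
        rw [h3] at hre
        linarith
    · exfalso
      by_cases hw : 1 / 2 ≤ q.2 ∨ q.2 ≤ -(1 / 2)
      · rw [WfA_win_out hw] at hre him
        rw [Complex.neg_im, Complex.one_im, neg_zero, mul_zero, zero_add] at him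
        rw [Complex.neg_re, Complex.one_re] at hre
        have h1 : (1 - thi q) * tho q = 0 := by
          have : (1 - thi q) * tho q * q.2 = 0 := by linarith
          exact (mul_eq_zero.1 this).resolve_right hs
        have h2 : (1 - thi q) * (tho q * ((9 - ‖q.1‖ ^ 2) / 6) - (1 - tho q)) =
            (1 - thi q) * tho q * ((9 - ‖q.1‖ ^ 2) / 6) - (1 - thi q) +
              (1 - thi q) * tho q := by ring
        rw [h2, h1] at hre
        linarith
      · rw [not_or, not_le, not_le] at hw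
        have key : thi q = 0 ∧ tho q = 0 := by
          rcases lt_or_gt_of_ne hs with h | h
          · have hi := WfA_win_neg h hw.2
            have h1 : thi q * (win q.2).im ≤ 0 := mul_nonpos_of_nonneg_of_nonpos a0 hi.le
            have h2 : (1 - thi q) * (tho q * q.2) ≤ 0 :=
              mul_nonpos_of_nonneg_of_nonpos (by linarith)
                (mul_nonpos_of_nonneg_of_nonpos b0 h.le)
            have h3 : thi q * (win q.2).im = 0 := by linarith
            have h4 : thi q = 0 := (mul_eq_zero.1 h3).resolve_right hi.ne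
            rw [h4] at him
            have h5 : tho q * q.2 = 0 := by linarith
            exact ⟨h4, (mul_eq_zero.1 h5).resolve_right hs⟩
          · have hi := WfA_win_pos h hw.1
            have h1 : 0 ≤ thi q * (win q.2).im := mul_nonneg a0 hi.le
            have h2 : 0 ≤ (1 - thi q) * (tho q * q.2) :=
              mul_nonneg (by linarith) (mul_nonneg b0 h.le)
            have h3 : thi q * (win q.2).im = 0 := by linarith
            have h4 : thi q = 0 := (mul_eq_zero.1 h3).resolve_right hi.ne'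
            rw [h4] at him
            have h5 : tho q * q.2 = 0 := by linarith
            exact ⟨h4, (mul_eq_zero.1 h5).resolve_right hs⟩
        rw [key.1, key.2] at hre
        linarith
  · rintro ⟨h1, h2⟩
    obtain ⟨z, s⟩ := q
    simp only at h1 h2
    subst h2
    rw [wf_near (by rw [h1]; norm_num) (by rw [h1]; norm_num) (by norm_num), h1]
    norm_num

theorem isClosed_Circ : IsClosed Circ := by
  have h1 : IsClosed {q : ℂ × ℝ | ‖q.1‖ = 3} :=
    isClosed_eq (continuous_norm.comp continuous_fst) continuous_const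
  have h2 : IsClosed {q : ℂ × ℝ | q.2 = 0} := isClosed_eq continuous_snd continuous_const
  exact h1.inter h2

end Pool.Agent.RSG
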